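import Pool.Agent.W807.TF.Fin2

set_option autoImplicit false

open MeasureTheory Set Filter Topology

namespace Pool.Agent.W807.TF

section
variable {ub : ℝ → ℝ} {u U : ℝ → ℝ → ℝ → ℝ} (hNL : ∀ ε, 0 < ε → NL ub ε (u ε) (U ε))
include hNL

lemma prim_ml_of : ML (prim ub) := by
  have h := (hNL 1 one_pos).pot
  have h1 := h.ml 0
  have e : (fun y => U 1 0 y) = prim ub := by funext y; exact h.init y
  rwa [e] at h1

lemma U_tendsto {T : ℝ} (hT : 0 ≤ T) (x : ℝ) :
    Tendsto (fun ε => U ε T x) (𝓝[>] 0) (𝓝 (HL (prim ub) T x)) := by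
  rw [tendsto_iff_dist_tendsto_zero]
  have h1 : Tendsto (fun ε : ℝ => (1 + T) * Real.sqrt ε) (𝓝[>] 0) (𝓝 0) := by
    have : Tendsto (fun ε : ℝ => (1 + T) * Real.sqrt ε) (𝓝 0) (𝓝 ((1 + T) * Real.sqrt 0)) :=
      (Real.continuous_sqrt.tendsto 0).const_mul _
    rw [Real.sqrt_zero, mul_zero] at this
    exact this.mono_left nhdsWithin_le_nhds
  refine squeeze_zero' (Eventually.of_forall fun _ => dist_nonneg) ?_ h1
  have h2 : ∀ᶠ ε in 𝓝[>] (0:ℝ), ε < 1 :=
    (eventually_lt_nhds one_pos).filter_mono nhdsWithin_le_nhds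
  filter_upwards [self_mem_nhdsWithin, h2] with ε hε hε1
  rw [Real.dist_eq]
  exact taskA ub ε (u ε) (U ε) (hNL ε hε) hε1.le T x hT

lemma int_tendsto {T : ℝ} (hT : 0 ≤ T) (p q : ℝ) :
    Tendsto (fun ε => ∫ x in p..q, deriv (fun y => U ε T y) x) (𝓝[>] 0)
      (𝓝 (∫ x in p..q, deriv (fun y => HL (prim ub) T y) x)) := by
  have hml := (taskHL _ (prim_ml_of hNL)).ml hT
  rw [hml.ftc p q]
  refine ((U_tendsto hNL hT q).sub (U_tendsto hNL hT p)).congr' ?_
  filter_upwards [self_mem_nhdsWithin] with ε hε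
  rw [((hNL ε hε).pot.ml T).ftc p q]

lemma claim_k (hInt : TaskInt) {T B k θ : ℝ} (hT : 0 < T) (hB : 0 < B) (hk0 : 0 < k)
    (hk1 : k < 1) (hθ : 0 < θ) : ∀ᶠ ε in 𝓝[>] (0:ℝ),
      ∫ x in (-B)..B, pm true k (deriv (fun y => U ε T y) x) ≤
        (∫ x in (-B)..B, pm true k (deriv (fun y => HL (prim ub) T y) x)) + θ := by
  have hDat := (hNL 1 one_pos).dat
  have hml0 := (taskHL _ (prim_ml_of hNL)).ml hT.le
  set B₀ := B + 3 * T with hB₀
  have hB₀p : 0 < B₀ := by positivity
  obtain ⟨X, hXm, hX1, hX2⟩ := hInt ub u U hNL k T B₀ hk0 hk1 hT hB₀p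
  set θ' := θ / (3 + 2 * B₀) with hθ'
  have hθ'p : 0 < θ' := by positivity
  -- approximation of ub
  have hub1 : ∀ x, |ub x| ≤ 1 := fun x => by
    rw [abs_le]; constructor <;> linarith [(hDat.2 x).1, (hDat.2 x).2]
  have hBB : -B₀ ≤ B₀ := by linarith
  have hui : Integrable ((Icc (-B₀) B₀).indicator ub) volume := by
    rw [integrable_indicator_iff measurableSet_Icc]
    exact ((integrableOn_Icc_iff_integrableOn_Ioc).2
      ((intervalIntegrable_iff_integrableOn_Ioc_of_le hBB).1 (ii_of_bd hDat.1 hub1 _ _)))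
  obtain ⟨v, hv0, hv1, hv2, hv3⟩ := hui.exists_hasCompactSupport_integral_sub_le hθ'p
  have huc : UniformContinuous v := hv0.uniformContinuous_of_continuous hv2
  obtain ⟨d, hd, hdv⟩ := Metric.uniformContinuous_iff.1 huc θ' hθ'p
  obtain ⟨m, hm⟩ := exists_nat_gt (2 * B₀ / d)
  have hmp : (0:ℝ) < m := lt_trans (by positivity) hm
  set w := 2 * B₀ / m with hw
  have hwp : 0 < w := by positivity
  have hwd : w < d := by
    rw [hw, div_lt_iff₀ hmp]
    rw [div_lt_iff₀ hd] at hm
    linarith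
  have hmw : (m:ℝ) * w = 2 * B₀ := by rw [hw]; field_simp
  set xs : ℕ → ℝ := fun j => -B₀ + j * w with hxs
  have hxs0 : xs 0 = -B₀ := by simp [hxs]
  have hxsm : xs m = B₀ := by simp only [hxs]; rw [hmw]; ring
  have hxsle : ∀ j, xs j ≤ xs (j + 1) := by
    intro j; simp only [hxs]; push_cast; nlinarith
  have hxsstep : ∀ j, xs (j + 1) - xs j = w := by
    intro j; simp only [hxs]; push_cast; ring
  have hxsmem : ∀ j, j ≤ m → xs j ∈ Icc (-B₀) B₀ := by
    intro j hj
    have hj' : (j:ℝ) ≤ m := by exact_mod_cast hj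
    have : (j:ℝ) * w ≤ m * w := mul_le_mul_of_nonneg_right hj' hwp.le
    have h0 : 0 ≤ (j:ℝ) * w := by positivity
    simp only [hxs]
    constructor <;> linarith
  set δ := θ' / m with hδ
  have hδp : 0 < δ := by positivity
  have hev : ∀ᶠ ε in 𝓝[>] (0:ℝ), ∀ j ∈ Finset.range m,
      (∀ c : Bool, ∫ x in (X (xs j))..(X (xs (j + 1))), pm c k (deriv (fun y => U ε T y) x) ≤
        (∫ x in (xs j)..(xs (j + 1)), pm c k (ub x)) + δ) ∧
      |(∫ x in (cB B (X (xs j)))..(cB B (X (xs (j + 1)))), deriv (fun y => U ε T y) x)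
        - ∫ x in (cB B (X (xs j)))..(cB B (X (xs (j + 1)))),
          deriv (fun y => HL (prim ub) T y) x| ≤ δ := by
    rw [Filter.eventually_all_finset]
    intro j hj
    have hj' := Finset.mem_range.1 hj
    have a1 := hxsmem j hj'.le
    have a2 := hxsmem (j + 1) hj'
    have a3 : xs j < xs (j + 1) := by linarith [hxsstep j]
    have b1 := hX2 _ a1 _ a2 a3 true δ hδp
    have b2 := hX2 _ a1 _ a2 a3 false δ hδp
    have b3 := (Metric.tendsto_nhds.1 (int_tendsto hNL hT.le (cB B (X (xs j)))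
      (cB B (X (xs (j + 1)))))) δ hδp
    filter_upwards [b1, b2, b3] with ε c1 c2 c3
    refine ⟨?_, ?_⟩
    · intro c
      cases c
      · exact c2
      · exact c1
    · rw [Real.dist_eq] at c3
      exact c3.le
  filter_upwards [self_mem_nhdsWithin, hev] with ε hε hj
  have hmlU := (hNL ε hε).pot.ml T
  set F : ℝ → ℝ := fun x => deriv (fun y => U ε T y) x with hF
  set F0 : ℝ → ℝ := fun x => deriv (fun y => HL (prim ub) T y) x with hF0
  have hFm : Measurable F := measurable_deriv _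
  have hF0m : Measurable F0 := measurable_deriv _
  have hF01 : ∀ x, 0 ≤ F x ∧ F x ≤ 1 := fun x => hmlU.deriv01 x
  have hF001 : ∀ x, 0 ≤ F0 x ∧ F0 x ≤ 1 := fun x => hml0.deriv01 x
  have hk : 0 ≤ k ∧ k ≤ 1 := ⟨hk0.le, hk1.le⟩
  have hZ0 : cB B (X (xs 0)) = -B := by
    rw [hxs0]
    have := (abs_le.1 (hX1 (-B₀) (left_mem_Icc.2 hBB))).2
    unfold cB
    rw [max_eq_left]
    exact (min_le_left _ _).trans (by linarith)
  have hZm : cB B (X (xs m)) = B := by
    rw [hxsm]
    have := (abs_le.1 (hX1 B₀ (right_mem_Icc.2 hBB))).1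
    unfold cB
    rw [min_eq_right (by linarith), max_eq_right (by linarith)]
  have s1 : ∑ j ∈ Finset.range m, ∫ x in (cB B (X (xs j)))..(cB B (X (xs (j + 1)))),
      pm true k (F x) = ∫ x in (-B)..B, pm true k (F x) := by
    have := intervalIntegral.sum_integral_adjacent_intervals (n := m)
      (a := fun j => cB B (X (xs j))) (f := fun x => pm true k (F x)) (μ := volume)
      (fun j _ => pm_ii true hk hFm hF01 _ _)
    rw [this, hZ0, hZm]
  have s2 : ∑ j ∈ Finset.range m, ∫ x in (cB B (X (xs j)))..(cB B (X (xs (j + 1)))),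
      pm true k (F0 x) = ∫ x in (-B)..B, pm true k (F0 x) := by
    have := intervalIntegral.sum_integral_adjacent_intervals (n := m)
      (a := fun j => cB B (X (xs j))) (f := fun x => pm true k (F0 x)) (μ := volume)
      (fun j _ => pm_ii true hk hF0m hF001 _ _)
    rw [this, hZ0, hZm]
  have i0 : ∀ p q, IntervalIntegrable (fun x => |ub x - v x|) volume p q := fun p q =>
    ((ii_of_bd hDat.1 hub1 p q).sub (hv2.intervalIntegrable p q)).abs
  have i1 : ∀ p q, IntervalIntegrable (fun x => |ub x - v x| + θ') volume p q := fun p q =>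
    (i0 p q).add intervalIntegrable_const
  have s3 : ∑ j ∈ Finset.range m, ∫ x in (xs j)..(xs (j + 1)), (|ub x - v x| + θ') =
      ∫ x in (-B₀)..B₀, (|ub x - v x| + θ') := by
    have := intervalIntegral.sum_integral_adjacent_intervals (n := m)
      (a := xs) (f := fun x => |ub x - v x| + θ') (μ := volume)
      (fun j _ => i1 _ _)
    rw [this, hxs0, hxsm]
  have hcell : ∀ j ∈ Finset.range m, ∫ x in (cB B (X (xs j)))..(cB B (X (xs (j + 1)))),
      pm true k (F x) ≤ (∫ x in (cB B (X (xs j)))..(cB B (X (xs (j + 1)))), pm true k (F0 x))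
        + (∫ x in (xs j)..(xs (j + 1)), (|ub x - v x| + θ')) + 2 * δ := by
    intro j hjm
    have hj' := Finset.mem_range.1 hjm
    obtain ⟨c1, c2⟩ := hj j hjm
    refine cell_est hB hk hδp.le hFm hF01 hF0m hF001 hDat.1 hDat.2 hv2 (hxsle j)
      (hXm (hxsmem j hj'.le) (hxsmem (j + 1) hj') (hxsle j)) ?_ c1 c2
    intro x hx
    have := hdv (a := x) (b := xs (j + 1)) (by
      rw [Real.dist_eq, abs_lt]
      constructor <;> linarith [hx.1, hx.2, hxsstep j])
    rw [Real.dist_eq] at this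
    exact this.le
  have hsum := Finset.sum_le_sum hcell
  rw [Finset.sum_add_distrib, Finset.sum_add_distrib, s1, s2, s3] at hsum
  rw [Finset.sum_const, Finset.card_range, nsmul_eq_mul] at hsum
  have e5 : (m:ℝ) * (2 * δ) = 2 * θ' := by rw [hδ]; field_simp
  rw [e5, intervalIntegral.integral_add (i0 _ _) intervalIntegrable_const,
    intervalIntegral.integral_const, smul_eq_mul] at hsum
  have h7 : ∫ x in (-B₀)..B₀, |ub x - v x| ≤ θ' := by
    refine le_trans ?_ hv1
    rw [intervalIntegral.integral_of_le hBB]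
    have e : ∫ x in Ioc (-B₀) B₀, |ub x - v x| =
        ∫ x in Ioc (-B₀) B₀, ‖(Icc (-B₀) B₀).indicator ub x - v x‖ := by
      apply setIntegral_congr_fun measurableSet_Ioc
      intro x hx
      simp only [Real.norm_eq_abs]
      rw [indicator_of_mem (show x ∈ Icc (-B₀) B₀ from ⟨hx.1.le, hx.2⟩)]
    rw [e]
    exact setIntegral_le_integral (hui.sub hv3).norm (ae_of_all _ fun x => norm_nonneg _)
  have e6 : θ' * (3 + 2 * B₀) = θ := by rw [hθ']; field_simp
  nlinarith

lemma claim_sq (hInt : TaskInt) {T B θ : ℝ} (hT : 0 < T) (hB : 0 < B) (hθ : 0 < θ) :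
    ∀ᶠ ε in 𝓝[>] (0:ℝ), ∫ x in (-B)..B, (deriv (fun y => U ε T y) x) ^ 2 ≤
        (∫ x in (-B)..B, (deriv (fun y => HL (prim ub) T y) x) ^ 2) + θ := by
  have hml0 := (taskHL _ (prim_ml_of hNL)).ml hT.le
  have hBB : -B ≤ B := by linarith
  set F0 : ℝ → ℝ := fun x => deriv (fun y => HL (prim ub) T y) x with hF0
  have hF0m : Measurable F0 := measurable_deriv _
  have hF001 : ∀ x, 0 ≤ F0 x ∧ F0 x ≤ 1 := fun x => hml0.deriv01 x
  -- joint measurability helper
  have hmeas : ∀ f : ℝ → ℝ, Measurable f → Measurable fun k => ∫ x in (-B)..B, pm true k (f x) := by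
    intro f hf
    refine meas_inner (f := fun k x => pm true k (f x)) ?_ _ _
    have : (Function.uncurry fun k x => pm true k (f x)) =
        fun p : ℝ × ℝ => max (f p.2 - p.1) 0 := by
      funext p; simp only [Function.uncurry, pm_true]
    rw [this]
    fun_prop
  have hGb : ∀ f : ℝ → ℝ, (∀ x, 0 ≤ f x ∧ f x ≤ 1) → ∀ k ∈ Icc (0:ℝ) 1,
      |∫ x in (-B)..B, pm true k (f x)| ≤ 2 * B := by
    intro f hf k hk
    have := abs_inner_le (f := fun x => pm true k (f x)) (M := 1)
      (fun y => pm_abs_le true hk (hf y)) (-B) B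
    rw [abs_of_nonneg (by linarith : 0 ≤ B - -B)] at this
    linarith
  -- positive part of the difference
  have htend : Tendsto (fun ε => ∫ k in (0:ℝ)..1,
      max ((∫ x in (-B)..B, pm true k (deriv (fun y => U ε T y) x))
        - ∫ x in (-B)..B, pm true k (F0 x)) 0) (𝓝[>] 0) (𝓝 (∫ k in (0:ℝ)..1, (0:ℝ))) := by
    apply intervalIntegral.tendsto_integral_filter_of_dominated_convergence (fun _ => 4 * B)
    · refine Eventually.of_forall fun ε => ?_
      exact (((hmeas _ (measurable_deriv _)).sub (hmeas _ hF0m)).max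
        measurable_const).aestronglyMeasurable
    · filter_upwards [self_mem_nhdsWithin] with ε hε
      refine ae_of_all _ fun k hk => ?_
      rw [uIoc_of_le zero_le_one] at hk
      have hk' : k ∈ Icc (0:ℝ) 1 := ⟨hk.1.le, hk.2⟩
      have a1 := abs_le.1 (hGb _ (fun x => ((hNL ε hε).pot.ml T).deriv01 x) k hk')
      have a2 := abs_le.1 (hGb F0 hF001 k hk')
      rw [Real.norm_eq_abs, abs_of_nonneg (le_max_right _ _)]
      apply max_le
      · linarith [a1.2, a2.1]
      · linarith
    · exact intervalIntegrable_const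
    · have hne : ∀ᵐ k : ℝ, k ≠ 1 := by
        rw [ae_iff]; simp
      filter_upwards [hne] with k hk1 hk
      rw [uIoc_of_le zero_le_one] at hk
      have hklt : k < 1 := lt_of_le_of_ne hk.2 hk1
      rw [Metric.tendsto_nhds]
      intro η hη
      filter_upwards [claim_k hNL hInt hT hB hk.1 hklt (half_pos hη)] with ε hε
      rw [Real.dist_eq, sub_zero, abs_of_nonneg (le_max_right _ _)]
      refine lt_of_le_of_lt ?_ (half_lt_self hη)
      apply max_le
      · linarith
      · linarith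
  simp only [intervalIntegral.integral_zero] at htend
  filter_upwards [self_mem_nhdsWithin, (tendsto_order.1 htend).2 (θ / 2) (by positivity)]
    with ε hε h1
  have hmlU := (hNL ε hε).pot.ml T
  set F : ℝ → ℝ := fun x => deriv (fun y => U ε T y) x with hF
  have hFm : Measurable F := measurable_deriv _
  have hF01 : ∀ x, 0 ≤ F x ∧ F x ≤ 1 := fun x => hmlU.deriv01 x
  rw [int_sq_eq hB hFm hF01, int_sq_eq hB hF0m hF001]
  -- integrability in k
  have hik : ∀ f : ℝ → ℝ, Measurable f → (∀ x, 0 ≤ f x ∧ f x ≤ 1) →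
      IntervalIntegrable (fun k => ∫ x in (-B)..B, pm true k (f x)) volume 0 1 := by
    intro f hf hf01
    refine (intervalIntegrable_const (c := 2 * B)).mono_fun
      (hmeas f hf).aestronglyMeasurable.restrict ?_
    rw [EventuallyLE, ae_restrict_iff' measurableSet_uIoc]
    refine ae_of_all _ fun k hk => ?_
    rw [uIoc_of_le zero_le_one] at hk
    rw [Real.norm_eq_abs, Real.norm_eq_abs, abs_of_pos (by linarith : 0 < 2 * B)]
    exact hGb f hf01 k ⟨hk.1.le, hk.2⟩
  have j1 := hik F hFm hF01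
  have j2 := hik F0 hF0m hF001
  have h2 : (∫ k in (0:ℝ)..1, ∫ x in (-B)..B, pm true k (F x))
      - (∫ k in (0:ℝ)..1, ∫ x in (-B)..B, pm true k (F0 x)) ≤
      ∫ k in (0:ℝ)..1, max ((∫ x in (-B)..B, pm true k (F x))
        - ∫ x in (-B)..B, pm true k (F0 x)) 0 := by
    rw [← intervalIntegral.integral_sub j1 j2]
    apply intervalIntegral.integral_mono_on zero_le_one (j1.sub j2)
    · refine (intervalIntegrable_const (c := 4 * B)).mono_fun
        (((hmeas _ hFm).sub (hmeas _ hF0m)).max measurable_const).aestronglyMeasurable.restrict ?_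
      rw [EventuallyLE, ae_restrict_iff' measurableSet_uIoc]
      refine ae_of_all _ fun k hk => ?_
      rw [uIoc_of_le zero_le_one] at hk
      have hk' : k ∈ Icc (0:ℝ) 1 := ⟨hk.1.le, hk.2⟩
      have a1 := abs_le.1 (hGb F hF01 k hk')
      have a2 := abs_le.1 (hGb F0 hF001 k hk')
      rw [Real.norm_eq_abs, Real.norm_eq_abs, abs_of_nonneg (le_max_right _ _),
        abs_of_pos (by linarith : 0 < 4 * B)]
      apply max_le
      · linarith [a1.2, a2.1]
      · linarith
    · intro k _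
      exact le_max_left _ _
  linarith

end

theorem taskFin (hInt : TaskInt) : TaskFin := by
  intro ub u U hNL T B hT hB
  have hml0 := (taskHL _ (prim_ml_of hNL)).ml hT.le
  refine strong_of hB (f := fun ε x => deriv (fun y => U ε T y) x)
    (g := fun x => deriv (fun y => HL (prim ub) T y) x)
    (fun ε _ => measurable_deriv _) (measurable_deriv _)
    (fun ε x hε => ((hNL ε hε).pot.ml T).deriv01 x) (fun x => hml0.deriv01 x)
    (fun p q _ _ _ => int_tendsto hNL hT.le p q) (fun θ hθ => claim_sq hNL hInt hT hB hθ)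

end Pool.Agent.W807.TF
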