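import Pool.Agent.W807.TF.Basic

set_option autoImplicit false

open MeasureTheory Set Filter Topology

namespace Pool.Agent.W807.TF

theorem main (hPot : TaskPot) (hKW : TaskKW) (hW : TaskW) (hFin : TaskFin) :
    ∀ (ub : ℝ → ℝ), Measurable ub → (∀ x, 0 ≤ ub x ∧ ub x ≤ 1) →
    ∀ (u : ℝ → ℝ → ℝ → ℝ) (w : ℝ → ℝ → ℝ),
    (∀ ε : ℝ, 0 < ε →
      Measurable (Function.uncurry (u ε)) ∧
      (∀ t x, 0 ≤ u ε t x ∧ u ε t x ≤ 1) ∧
      ∀ φ : ℝ → ℝ → ℝ, ContDiff ℝ (⊤ : ℕ∞) (Function.uncurry φ) →
        HasCompactSupport (Function.uncurry φ) →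
        (∫ t in Set.Ioi (0:ℝ), ∫ x : ℝ,
          (u ε t x * deriv (fun s => φ s x) t
            + u ε t x * (1 - (1 / ε) * ∫ y in x..(x + ε), u ε t y)
              * deriv (fun y => φ t y) x))
          + (∫ x : ℝ, ub x * φ 0 x) = 0) →
    Measurable (Function.uncurry w) →
    (∀ t x, 0 ≤ w t x ∧ w t x ≤ 1) →
    (∀ k : ℝ, ∀ φ : ℝ → ℝ → ℝ, ContDiff ℝ (⊤ : ℕ∞) (Function.uncurry φ) →
        HasCompactSupport (Function.uncurry φ) → (∀ t x, 0 ≤ φ t x) →
        0 ≤ (∫ t in Set.Ioi (0:ℝ), ∫ x : ℝ,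
          (|w t x - k| * deriv (fun s => φ s x) t
            + Real.sign (w t x - k) * (w t x * (1 - w t x) - k * (1 - k))
              * deriv (fun y => φ t y) x))
          + (∫ x : ℝ, |ub x - k| * φ 0 x)) →
    ∀ T R : ℝ, 0 < T → 0 < R →
      Filter.Tendsto
        (fun ε : ℝ => ∫ t in (0:ℝ)..T, ∫ x in (-R)..R, |u ε t x - w t x|)
        (nhdsWithin 0 (Set.Ioi 0)) (nhds 0) := by
  intro ub hubm hub u w hu hwm hw hkru T R hT hR
  have hdat : Dat ub := ⟨hubm, hub⟩
  have hw01 : Fun01 w := ⟨hwm, hw⟩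
  have hK : Kru ub w := hkru
  -- potentials of the nonlocal solutions
  have hpotU : ∀ ε : ℝ, 0 < ε → ∃ V, IsPot ub (u ε)
      (fun t x => u ε t x * (1 - (1 / ε) * ∫ y in x..(x + ε), u ε t y)) V := by
    intro ε hε
    obtain ⟨h1, h2, h3⟩ := hu ε hε
    apply hPot ub (u ε) _ hdat ⟨h1, h2⟩ _ (fun φ hφ hc _ => h3 φ hφ hc)
    have hwin := measurable_window (u ε) h1 ε hε
    refine ⟨?_, ?_⟩
    · have : Measurable (fun p : ℝ × ℝ => (u ε p.1 p.2) *
          (1 - (1 / ε) * ∫ y in p.2..(p.2 + ε), u ε p.1 y)) := by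
        exact h1.mul (measurable_const.sub (measurable_const.mul hwin))
      exact this
    · intro t x
      have hm : Measurable (u ε t) := h1.comp measurable_prodMk_left
      have hint : IntervalIntegrable (u ε t) volume x (x + ε) := by
        rw [intervalIntegrable_iff]
        apply Measure.integrableOn_of_bounded (M := 1)
        · simp
        · exact hm.aestronglyMeasurable
        · exact ae_of_all _ fun y => by
            rw [Real.norm_eq_abs, abs_of_nonneg (h2 t y).1]; exact (h2 t y).2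
      have ha0 : 0 ≤ ∫ y in x..(x + ε), u ε t y :=
        intervalIntegral.integral_nonneg (by linarith) (fun y _ => (h2 t y).1)
      have ha1 : (∫ y in x..(x + ε), u ε t y) ≤ ε := by
        have := intervalIntegral.integral_mono_on (μ := volume) (by linarith : x ≤ x + ε) hint
          (intervalIntegrable_const (c := (1:ℝ))) (fun y _ => (h2 t y).2)
        simpa using this
      have hb0 : 0 ≤ (1 / ε) * ∫ y in x..(x + ε), u ε t y := by positivity
      have hb1 : (1 / ε) * (∫ y in x..(x + ε), u ε t y) ≤ 1 := by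
        rw [one_div, inv_mul_le_iff₀ hε]; linarith
      have hx0 := (h2 t x).1
      have hx1 := (h2 t x).2
      constructor
      · exact mul_nonneg hx0 (by linarith)
      · calc u ε t x * (1 - (1 / ε) * ∫ y in x..(x + ε), u ε t y) ≤ 1 * 1 := by
              apply mul_le_mul hx1 (by linarith) (by linarith) (by norm_num)
          _ = 1 := by norm_num
  have hpotU2 : ∀ ε : ℝ, ∃ V : ℝ → ℝ → ℝ, 0 < ε → NL ub ε (u ε) V := by
    intro ε
    by_cases hε : 0 < ε
    · obtain ⟨V, hV⟩ := hpotU ε hε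
      exact ⟨V, fun _ => ⟨hdat, hε, ⟨(hu ε hε).1, (hu ε hε).2.1⟩, isPot_convert hV⟩⟩
    · exact ⟨fun _ _ => 0, fun h => absurd h hε⟩
  choose U hU using hpotU2
  -- potential of the Kruzhkov solution
  obtain ⟨W, hWp⟩ : ∃ W, IsPot ub w (fun t x => w t x * (1 - w t x)) W := by
    apply hPot ub w _ hdat hw01 _ (hKW ub w hdat hw01 hK)
    refine ⟨?_, ?_⟩
    · have : Measurable (fun p : ℝ × ℝ => (w p.1 p.2) * (1 - w p.1 p.2)) :=
        hwm.mul (measurable_const.sub hwm)
      exact this
    · intro t x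
      have h0 := (hw t x).1
      have h1 := (hw t x).2
      constructor
      · exact mul_nonneg h0 (by linarith)
      · nlinarith
  have hWHL := hW ub w W hdat hw01 hK hWp
  have hconv : ∀ t : ℝ, 0 < t → Tendsto (fun ε => ∫ x in (-R)..R,
        |deriv (fun y => U ε t y) x - deriv (fun y => W t y) x|) (𝓝[>] 0) (𝓝 0) := by
    intro t ht
    have := hFin ub u U (fun ε hε => hU ε hε) t R ht hR
    have h2 : (fun y => HL (prim ub) t y) = fun y => W t y := by
      funext y
      exact (hWHL t y ht.le).symm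
    rw [h2] at this
    exact this
  -- the integrand in time
  set J : ℝ → ℝ → ℝ := fun ε t => ∫ x in (-R)..R,
        |deriv (fun y => U ε t y) x - deriv (fun y => W t y) x| with hJ
  have hWd : Measurable (fun p : ℝ × ℝ => deriv (fun y => W p.1 y) p.2) :=
    measurable_deriv_with_param hWp.cont
  have hUd : ∀ ε, 0 < ε → Measurable (fun p : ℝ × ℝ => deriv (fun y => U ε p.1 y) p.2) :=
    fun ε hε => measurable_deriv_with_param (hU ε hε).pot.cont
  have hJm : ∀ ε, 0 < ε → Measurable (J ε) := by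
    intro ε hε
    have h1 : J ε = fun t => ∫ x in Ioc (-R) R,
        |deriv (fun y => U ε t y) x - deriv (fun y => W t y) x| := by
      funext t
      simp only [hJ]
      rw [intervalIntegral.integral_of_le (by linarith)]
    rw [h1]
    have h2 : StronglyMeasurable (fun p : ℝ × ℝ =>
        |deriv (fun y => U ε p.1 y) p.2 - deriv (fun y => W p.1 y) p.2|) :=
      (((hUd ε hε).sub hWd).abs).stronglyMeasurable
    exact (h2.integral_prod_right (ν := volume.restrict (Ioc (-R) R))).measurable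
  have hJb : ∀ ε, 0 < ε → ∀ t, ‖J ε t‖ ≤ 1 * |R - (-R)| := by
    intro ε hε t
    apply intervalIntegral.norm_integral_le_of_norm_le_const
    intro x _
    rw [Real.norm_eq_abs, abs_abs]
    have h1 := (hU ε hε).pot.deriv_mem t x
    have h2 := hWp.deriv_mem t x
    rw [abs_le]
    constructor <;> linarith [h1.1, h1.2, h2.1, h2.2]
  have hlim : Tendsto (fun ε => ∫ t in (0:ℝ)..T, J ε t) (𝓝[>] 0)
      (𝓝 (∫ t in (0:ℝ)..T, (0:ℝ))) := by
    apply intervalIntegral.tendsto_integral_filter_of_dominated_convergence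
      (fun _ => 1 * |R - (-R)|)
    · filter_upwards [self_mem_nhdsWithin] with ε hε
      exact (hJm ε hε).aestronglyMeasurable
    · filter_upwards [self_mem_nhdsWithin] with ε hε
      exact ae_of_all _ fun t _ => hJb ε hε t
    · exact intervalIntegrable_const
    · refine ae_of_all _ fun t ht => ?_
      rw [uIoc_of_le hT.le] at ht
      exact hconv t ht.1
  have heq : ∀ ε, 0 < ε → (∫ t in (0:ℝ)..T, ∫ x in (-R)..R, |u ε t x - w t x|) =
      ∫ t in (0:ℝ)..T, J ε t := by
    intro ε hε
    apply intervalIntegral.integral_congr_ae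
    have h1 := (ae_restrict_iff' measurableSet_Ioi).1 ((hU ε hε).pot.ae_deriv (hU ε hε).u01)
    have h2 := (ae_restrict_iff' measurableSet_Ioi).1 (hWp.ae_deriv hw01)
    filter_upwards [h1, h2] with t ht1 ht2 ht
    rw [uIoc_of_le hT.le] at ht
    simp only [hJ]
    apply intervalIntegral.integral_congr_ae
    filter_upwards [ht1 ht.1, ht2 ht.1] with x hx1 hx2 _
    rw [hx1, hx2]
  simp only [intervalIntegral.integral_zero] at hlim
  refine hlim.congr' ?_
  filter_upwards [self_mem_nhdsWithin] with ε hε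
  exact (heq ε hε).symm

end Pool.Agent.W807.TF
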