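import Pool.Agent.W807.TF.Int2

set_option autoImplicit false

open MeasureTheory Set Filter Topology

namespace Pool.Agent.W807.TF

/-- trapezoid -/
noncomputable def tz (a b τ x : ℝ) : ℝ := zt ((x - (a - 4 * τ)) / τ) * zt (((b + 4 * τ) - x) / τ)

section
variable {a b τ : ℝ} (hab : a ≤ b) (hτ : 0 < τ)
include hτ

omit hτ in
lemma tz_nonneg (x : ℝ) : 0 ≤ tz a b τ x := mul_nonneg (zt_nonneg _) (zt_nonneg _)
omit hτ in
lemma tz_le_one (x : ℝ) : tz a b τ x ≤ 1 := mul_le_one₀ (zt_le_one _) (zt_nonneg _) (zt_le_one _)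

lemma tz_one {x : ℝ} (h1 : a - 3 * τ ≤ x) (h2 : x ≤ b + 3 * τ) : tz a b τ x = 1 := by
  unfold tz
  rw [zt_big, zt_big, mul_one]
  · rw [le_div_iff₀ hτ]; linarith
  · rw [le_div_iff₀ hτ]; linarith

lemma tz_left {x : ℝ} (h1 : x ≤ a - 4 * τ) : tz a b τ x = 0 := by
  unfold tz
  rw [zt_neg, zero_mul]
  exact div_nonpos_of_nonpos_of_nonneg (by linarith) hτ.le

lemma tz_right {x : ℝ} (h1 : b + 4 * τ ≤ x) : tz a b τ x = 0 := by
  unfold tz
  rw [zt_neg (s := (b + 4 * τ - x) / τ), mul_zero]
  exact div_nonpos_of_nonpos_of_nonneg (by linarith) hτ.le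

lemma tz_lip (x y : ℝ) : |tz a b τ x - tz a b τ y| ≤ (2 / τ) * |x - y| := by
  unfold tz
  refine (mul_lip01 ?_ ?_).trans ?_
  · rw [abs_of_nonneg (zt_nonneg _)]; exact zt_le_one _
  · rw [abs_of_nonneg (zt_nonneg _)]; exact zt_le_one _
  · have h1 := zt_lip ((x - (a - 4 * τ)) / τ) ((y - (a - 4 * τ)) / τ)
    have h2 := zt_lip (((b + 4 * τ) - x) / τ) (((b + 4 * τ) - y) / τ)
    rw [← sub_div, abs_div, abs_of_pos hτ] at h1 h2
    rw [show x - (a - 4 * τ) - (y - (a - 4 * τ)) = x - y by ring] at h1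
    rw [show b + 4 * τ - x - (b + 4 * τ - y) = y - x by ring, abs_sub_comm y x] at h2
    have : 2 / τ * |x - y| = |x - y| / τ + |x - y| / τ := by ring
    linarith

lemma tz_test : TestFn (|a| + |b| + 4 * τ) (2 / τ) (fun _ x => tz a b τ x) where
  lip := by
    intro s t x y
    have h1 := tz_lip (a := a) (b := b) hτ x y
    have h2 : (2 / τ) * |x - y| ≤ 2 / τ * (|s - t| + |x - y|) :=
      mul_le_mul_of_nonneg_left (by linarith [abs_nonneg (s - t)]) (by positivity)
    exact h1.trans h2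
  supp := by
    intro t x hx
    rcases le_abs.1 hx with h | h
    · apply tz_right hτ
      linarith [le_abs_self b, abs_nonneg a]
    · apply tz_left hτ
      linarith [neg_abs_le a, abs_nonneg b]

end

lemma int_indK (c d K : ℝ) (hcd : c ≤ d) :
    Integrable (fun x => K * (Icc c d).indicator (fun _ => (1:ℝ)) x) ∧
    ∫ x, K * (Icc c d).indicator (fun _ => (1:ℝ)) x = K * (d - c) := by
  constructor
  · apply Integrable.const_mul
    rw [integrable_indicator_iff measurableSet_Icc]
    exact integrableOn_const (by rw [Real.volume_Icc]; exact ENNReal.ofReal_ne_top)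
  · rw [integral_const_mul, integral_indicator measurableSet_Icc]
    simp [hcd]

lemma err2 {ub : ℝ → ℝ} {ε : ℝ} {u U : ℝ → ℝ → ℝ} (hN : NL ub ε u U) {k a b τ : ℝ}
    (hk : 0 ≤ k ∧ k ≤ 1) (hab : a ≤ b) (hτ : 0 < τ) (hε : ε ≤ τ) (c : Bool) :
    ∫ t in (0:ℝ)..τ, ∫ x : ℝ,
      pm c k (u t x) * (deriv (fun _ => tz a b τ x) t
        + (1 - dq ε U t x) * deriv (fun y => tz a b τ y) x
        - k * ((tz a b τ x - tz a b τ (x - ε)) / ε)) ≤ 16 * τ := by
  have hε0 := hN.eps
  have htest := tz_test (a := a) (b := b) hτ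
  obtain ⟨i1, j1⟩ := int_indK (a - 4 * τ) (a - 2 * τ) (4 / τ) (by linarith)
  obtain ⟨i2, j2⟩ := int_indK (b + 3 * τ) (b + 5 * τ) (4 / τ) (by linarith)
  have hinner : ∀ t, |∫ x : ℝ,
      pm c k (u t x) * (deriv (fun _ => tz a b τ x) t
        + (1 - dq ε U t x) * deriv (fun y => tz a b τ y) x
        - k * ((tz a b τ x - tz a b τ (x - ε)) / ε))| ≤ 16 := by
    intro t
    have hb : ∀ x, ‖pm c k (u t x) * (deriv (fun _ => tz a b τ x) t
        + (1 - dq ε U t x) * deriv (fun y => tz a b τ y) x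
        - k * ((tz a b τ x - tz a b τ (x - ε)) / ε))‖ ≤
        4 / τ * (Icc (a - 4 * τ) (a - 2 * τ)).indicator (fun _ => (1:ℝ)) x +
        4 / τ * (Icc (b + 3 * τ) (b + 5 * τ)).indicator (fun _ => (1:ℝ)) x := by
      intro x
      have n1 : 0 ≤ 4 / τ * (Icc (a - 4 * τ) (a - 2 * τ)).indicator (fun _ => (1:ℝ)) x :=
        mul_nonneg (by positivity) (indicator_nonneg (fun _ _ => zero_le_one) _)
      have n2 : 0 ≤ 4 / τ * (Icc (b + 3 * τ) (b + 5 * τ)).indicator (fun _ => (1:ℝ)) x :=
        mul_nonneg (by positivity) (indicator_nonneg (fun _ _ => zero_le_one) _)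
      rw [Real.norm_eq_abs, deriv_const, zero_add]
      have hgen : |pm c k (u t x) * ((1 - dq ε U t x) * deriv (fun y => tz a b τ y) x
        - k * ((tz a b τ x - tz a b τ (x - ε)) / ε))| ≤ 4 / τ := by
        have a2 := lip_dx_le htest.lip t x
        have a3 := htest.quot_le hε0 t x
        have a4 := hN.pot.dq_mem hε0 t x
        have a5 : |(1 - dq ε U t x) * deriv (fun y => tz a b τ y) x| ≤ 2 / τ := by
          rw [abs_mul, abs_of_nonneg (by linarith [a4.2] : 0 ≤ 1 - dq ε U t x)]
          have := mul_le_mul_of_nonneg_right (by linarith [a4.1] : 1 - dq ε U t x ≤ 1)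
            (abs_nonneg (deriv (fun y => tz a b τ y) x))
          linarith
        have a6 : |k * ((tz a b τ x - tz a b τ (x - ε)) / ε)| ≤ 2 / τ := by
          rw [abs_mul, abs_of_nonneg hk.1]
          have := mul_le_mul_of_nonneg_right hk.2
            (abs_nonneg ((tz a b τ x - tz a b τ (x - ε)) / ε))
          linarith
        have a7 : |(1 - dq ε U t x) * deriv (fun y => tz a b τ y) x
            - k * ((tz a b τ x - tz a b τ (x - ε)) / ε)| ≤ 4 / τ := by
          have : 4 / τ = 2 / τ + 2 / τ := by ring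
          rw [abs_le] at a5 a6 ⊢
          constructor <;> linarith [a5.1, a5.2, a6.1, a6.2]
        rw [abs_mul, abs_of_nonneg (pm_nn _ _ _)]
        have := mul_le_mul_of_nonneg_right (pm_le1 c hk (hN.u01.2 t x))
          (abs_nonneg ((1 - dq ε U t x) * deriv (fun y => tz a b τ y) x
            - k * ((tz a b τ x - tz a b τ (x - ε)) / ε)))
        linarith
      by_cases hx1 : x ∈ Icc (a - 4 * τ) (a - 2 * τ)
      · rw [indicator_of_mem hx1] at n1 ⊢
        linarith
      by_cases hx2 : x ∈ Icc (b + 3 * τ) (b + 5 * τ)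
      · rw [indicator_of_mem hx2] at n2 ⊢
        linarith
      have hz : pm c k (u t x) * ((1 - dq ε U t x) * deriv (fun y => tz a b τ y) x
          - k * ((tz a b τ x - tz a b τ (x - ε)) / ε)) = 0 := by
        have hd : deriv (fun y => tz a b τ y) x = 0 ∧ tz a b τ x = tz a b τ (x - ε) := by
          rw [mem_Icc, not_and_or, not_le, not_le] at hx1 hx2
          rcases hx1 with h1 | h1
          · constructor
            · have : (fun y => tz a b τ y) =ᶠ[𝓝 x] fun _ => 0 := by
                filter_upwards [Iio_mem_nhds h1] with y hy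
                exact tz_left hτ (le_of_lt hy)
              rw [this.deriv_eq]; simp
            · rw [tz_left hτ h1.le, tz_left hτ (by linarith)]
          · rcases hx2 with h2 | h2
            · constructor
              · have : (fun y => tz a b τ y) =ᶠ[𝓝 x] fun _ => 1 := by
                  filter_upwards [Ioo_mem_nhds (show a - 3 * τ < x by linarith) h2] with y hy
                  exact tz_one hτ hy.1.le hy.2.le
                rw [this.deriv_eq]; simp
              · rw [tz_one hτ (by linarith) h2.le, tz_one hτ (by linarith) (by linarith)]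
            · constructor
              · have : (fun y => tz a b τ y) =ᶠ[𝓝 x] fun _ => 0 := by
                  filter_upwards [Ioi_mem_nhds (show b + 4 * τ < x by linarith)] with y hy
                  exact tz_right hτ (le_of_lt hy)
                rw [this.deriv_eq]; simp
              · rw [tz_right hτ (by linarith), tz_right hτ (by linarith)]
        rw [hd.1, hd.2]; simp
      rw [hz, abs_zero]
      exact add_nonneg n1 n2
    have h1 := norm_integral_le_of_norm_le (i1.add i2) (ae_of_all _ hb)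
    rw [Real.norm_eq_abs] at h1
    refine h1.trans ?_
    have e : ∫ x, (4 / τ * (Icc (a - 4 * τ) (a - 2 * τ)).indicator (fun _ => (1:ℝ)) x +
        4 / τ * (Icc (b + 3 * τ) (b + 5 * τ)).indicator (fun _ => (1:ℝ)) x) = 16 := by
      rw [integral_add i1 i2, j1, j2]
      field_simp
      ring
    exact e.le
  have h2 := intervalIntegral.norm_integral_le_of_norm_le_const (a := 0) (b := τ) (C := 16)
    (f := fun t => ∫ x : ℝ,
      pm c k (u t x) * (deriv (fun _ => tz a b τ x) t
        + (1 - dq ε U t x) * deriv (fun y => tz a b τ y) x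
        - k * ((tz a b τ x - tz a b τ (x - ε)) / ε))) (fun t _ => hinner t)
  rw [sub_zero, abs_of_pos hτ, Real.norm_eq_abs] at h2
  exact (le_abs_self _).trans h2

lemma int_cs {f : ℝ → ℝ} (hf : Measurable f) {C M : ℝ} (hb : ∀ x, |f x| ≤ C)
    (hs : ∀ x, M ≤ |x| → f x = 0) : Integrable f := by
  have h1 : IntegrableOn f (Icc (-M) M) := by
    apply Measure.integrableOn_of_bounded (M := C)
    · rw [Real.volume_Icc]; exact ENNReal.ofReal_ne_top
    · exact hf.aestronglyMeasurable
    · exact ae_of_all _ fun x => by rw [Real.norm_eq_abs]; exact hb x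
  rwa [integrableOn_iff_integrable_of_support_subset] at h1
  intro x hx
  by_contra hcon
  apply hx
  apply hs
  rw [mem_Icc, not_and_or, not_le, not_le] at hcon
  rcases hcon with h | h
  · rw [le_abs]; right; linarith
  · rw [le_abs]; left; linarith

lemma start_le {ub : ℝ → ℝ} (hD : Dat ub) {k a b τ : ℝ} (hk : 0 ≤ k ∧ k ≤ 1) (hab : a ≤ b)
    (hτ : 0 < τ) (c : Bool) :
    ∫ x, pm c k (ub x) * tz a b τ x ≤ (∫ x in a..b, pm c k (ub x)) + 8 * τ := by
  have htest := tz_test (a := a) (b := b) hτ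
  have hm : Measurable fun x => pm c k (ub x) * tz a b τ x :=
    ((pm_cont c k).measurable.comp hD.1).mul (lip_lip_x htest.lip 0).continuous.measurable
  have hi : Integrable fun x => pm c k (ub x) * tz a b τ x := by
    refine int_cs hm (C := 1) (M := |a| + |b| + 4 * τ) ?_ ?_
    · intro x
      rw [abs_mul, abs_of_nonneg (tz_nonneg x)]
      exact mul_le_one₀ (pm_abs_le c hk (hD.2 x)) (tz_nonneg x) (tz_le_one x)
    · intro x hx
      rw [htest.supp 0 x hx, mul_zero]
  obtain ⟨i1, j1⟩ := int_indK (a - 4 * τ) a 1 (by linarith)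
  obtain ⟨i2, j2⟩ := int_indK b (b + 4 * τ) 1 (by linarith)
  have i3 : Integrable ((Ioc a b).indicator fun x => pm c k (ub x)) := by
    rw [integrable_indicator_iff measurableSet_Ioc]
    exact (intervalIntegrable_iff_integrableOn_Ioc_of_le hab).1 (pm_ii c hk hD.1 hD.2 a b)
  have hle : ∫ x, pm c k (ub x) * tz a b τ x ≤
      ∫ x, (((Ioc a b).indicator (fun x => pm c k (ub x)) x) +
        (1 * (Icc (a - 4 * τ) a).indicator (fun _ => (1:ℝ)) x +
        1 * (Icc b (b + 4 * τ)).indicator (fun _ => (1:ℝ)) x)) := by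
    apply integral_mono hi (i3.add (i1.add i2))
    intro x
    have n1 : 0 ≤ 1 * (Icc (a - 4 * τ) a).indicator (fun _ => (1:ℝ)) x :=
      mul_nonneg zero_le_one (indicator_nonneg (fun _ _ => zero_le_one) _)
    have n2 : 0 ≤ 1 * (Icc b (b + 4 * τ)).indicator (fun _ => (1:ℝ)) x :=
      mul_nonneg zero_le_one (indicator_nonneg (fun _ _ => zero_le_one) _)
    have n3 : 0 ≤ (Ioc a b).indicator (fun x => pm c k (ub x)) x :=
      indicator_nonneg (fun _ _ => pm_nn _ _ _) _
    have p0 := pm_nn c k (ub x)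
    have p1 := pm_le1 c hk (hD.2 x)
    have t0 := tz_nonneg (a := a) (b := b) (τ := τ) x
    have t1 := tz_le_one (a := a) (b := b) (τ := τ) x
    show pm c k (ub x) * tz a b τ x ≤ (Ioc a b).indicator (fun x => pm c k (ub x)) x +
        (1 * (Icc (a - 4 * τ) a).indicator (fun _ => (1:ℝ)) x +
        1 * (Icc b (b + 4 * τ)).indicator (fun _ => (1:ℝ)) x)
    have hp : pm c k (ub x) * tz a b τ x ≤ pm c k (ub x) := by nlinarith
    by_cases hx0 : x ∈ Ioc a b
    · rw [indicator_of_mem hx0] at n3 ⊢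
      linarith
    by_cases hx1 : x ∈ Icc (a - 4 * τ) a
    · rw [indicator_of_mem hx1] at n1 ⊢
      linarith
    by_cases hx2 : x ∈ Icc b (b + 4 * τ)
    · rw [indicator_of_mem hx2] at n2 ⊢
      linarith
    have hz : tz a b τ x = 0 := by
      rw [mem_Ioc, not_and_or, not_lt, not_le] at hx0
      rw [mem_Icc, not_and_or, not_le, not_le] at hx1 hx2
      rcases hx1 with h1 | h1
      · exact tz_left hτ h1.le
      · rcases hx2 with h2 | h2
        · rcases hx0 with h0 | h0 <;> linarith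
        · exact tz_right hτ h2.le
    rw [hz, mul_zero]
    exact add_nonneg n3 (add_nonneg n1 n2)
  have e1 : ∫ x, (((Ioc a b).indicator (fun x => pm c k (ub x)) x) +
        (1 * (Icc (a - 4 * τ) a).indicator (fun _ => (1:ℝ)) x +
        1 * (Icc b (b + 4 * τ)).indicator (fun _ => (1:ℝ)) x)) =
      (∫ x, (Ioc a b).indicator (fun x => pm c k (ub x)) x) +
        ∫ x, (1 * (Icc (a - 4 * τ) a).indicator (fun _ => (1:ℝ)) x +
        1 * (Icc b (b + 4 * τ)).indicator (fun _ => (1:ℝ)) x) :=
    integral_add i3 (i1.add i2)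
  rw [e1, integral_add i1 i2, j1, j2,
    integral_indicator measurableSet_Ioc, ← intervalIntegral.integral_of_le hab] at hle
  linarith

theorem taskInt (hSk : TaskSk) (hC : TaskC) : TaskInt := by
  intro ub u U hNL k T B₀ hk0 hk1 hT hB₀
  have hD := (hNL 1 one_pos).dat
  have hk : 0 ≤ k ∧ k ≤ 1 := ⟨hk0.le, hk1.le⟩
  obtain ⟨X, hXm, hX1, hX2⟩ := taskV (prim ub) hD.ml k T B₀ hk0 hk1 hT hB₀
  refine ⟨X, hXm, hX1, ?_⟩
  intro x₁ hx₁ x₂ hx₂ hx12 c θ hθ
  have hX12 : X x₁ ≤ X x₂ := hXm hx₁ hx₂ hx12.le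
  set τ := min (T / 2) (θ / 128) with hτdef
  have hτp : 0 < τ := lt_min (by positivity) (by positivity)
  have hτT : τ < T := lt_of_le_of_lt (min_le_left _ _) (by linarith)
  have hτθ : τ ≤ θ / 128 := min_le_right _ _
  obtain ⟨φ, M, L, hφ, hφ01, hae, hsup, hlast⟩ :=
    hX2 x₁ hx₁ x₂ hx₂ hx12 τ ⟨hτp, hτT⟩ (θ / 4) (by positivity)
  have htest := tz_test (a := x₁) (b := x₂) hτp
  have hετ : ∀ᶠ ε in 𝓝[>] (0:ℝ), ε < τ :=
    (eventually_lt_nhds hτp).filter_mono nhdsWithin_le_nhds
  filter_upwards [self_mem_nhdsWithin, hετ,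
    err1 hC hNL hk ⟨hτp, hτT⟩ hφ hae c (show (0:ℝ) < θ / 4 by positivity)] with ε hε hετ h1
  have hN := hNL ε hε
  -- step 1
  have s1 := hSk ub ε (u ε) (U ε) hN c k hk.1 hk.2 τ T M L φ hτp.le hτT.le hφ
    (fun t x => (hφ01 t x).1)
  -- step 2
  have s2 := hSk ub ε (u ε) (U ε) hN c k hk.1 hk.2 0 τ _ _ (fun _ x => tz x₁ x₂ τ x) le_rfl hτp.le
    htest (fun t x => tz_nonneg x)
  have s3 := err2 hN hk hx12.le hτp hετ.le c
  have s4 := start_le hD hk hx12.le hτp c
  -- initial time
  have e0 : ∫ x : ℝ, pm c k (deriv (fun y => U ε 0 y) x) * tz x₁ x₂ τ x =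
      ∫ x, pm c k (ub x) * tz x₁ x₂ τ x := by
    apply integral_congr_ae
    filter_upwards [hD.ae_deriv] with x hx
    have : (fun y => U ε 0 y) = prim ub := by funext y; exact hN.pot.init y
    rw [this, hx.deriv]
  have hFm : ∀ t, Measurable fun x => pm c k (deriv (fun y => U ε t y) x) := fun t =>
    (pm_cont c k).measurable.comp (measurable_deriv _)
  have hF1 : ∀ t x, |pm c k (deriv (fun y => U ε t y) x)| ≤ 1 := fun t x =>
    pm_abs_le c hk (hN.pot.deriv_mem t x)
  have hφc : ∀ t, Continuous fun x => φ t x := fun t => (lip_lip_x hφ.lip t).continuous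
  have iφ : ∀ t, Integrable fun x => pm c k (deriv (fun y => U ε t y) x) * φ t x := by
    intro t
    refine int_cs ((hFm t).mul (hφc t).measurable) (C := 1) (M := M) ?_ ?_
    · intro x
      rw [abs_mul, abs_of_nonneg (hφ01 t x).1]
      exact mul_le_one₀ (hF1 t x) (hφ01 t x).1 (hφ01 t x).2
    · intro x hx
      rw [hφ.supp t x hx, mul_zero]
  have iz : Integrable fun x => pm c k (deriv (fun y => U ε τ y) x) * tz x₁ x₂ τ x := by
    refine int_cs ((hFm τ).mul (lip_lip_x htest.lip 0).continuous.measurable) (C := 1)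
      (M := |x₁| + |x₂| + 4 * τ) ?_ ?_
    · intro x
      rw [abs_mul, abs_of_nonneg (tz_nonneg x)]
      exact mul_le_one₀ (hF1 τ x) (tz_nonneg x) (tz_le_one x)
    · intro x hx
      rw [htest.supp 0 x hx, mul_zero]
  have s5 : ∫ x : ℝ, pm c k (deriv (fun y => U ε τ y) x) * φ τ x ≤
      ∫ x : ℝ, pm c k (deriv (fun y => U ε τ y) x) * tz x₁ x₂ τ x := by
    apply integral_mono (iφ τ) iz
    intro x
    apply mul_le_mul_of_nonneg_left _ (pm_nn _ _ _)
    by_cases hx : φ τ x = 0
    · rw [hx]; exact tz_nonneg x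
    · obtain ⟨y1, y2⟩ := hsup x hx
      rw [tz_one hτp y1 y2]
      exact (hφ01 τ x).2
  -- final time
  have s6 : ∫ x in (X x₁)..(X x₂), pm c k (deriv (fun y => U ε T y) x) ≤
      (∫ x : ℝ, pm c k (deriv (fun y => U ε T y) x) * φ T x)
        + ∫ x in (X x₁)..(X x₂), (1 - φ T x) := by
    have i1 : IntervalIntegrable (fun x => pm c k (deriv (fun y => U ε T y) x) * φ T x) volume
        (X x₁) (X x₂) := (iφ T).intervalIntegrable
    have i2 : IntervalIntegrable (fun x => 1 - φ T x) volume (X x₁) (X x₂) :=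
      (continuous_const.sub (hφc T)).intervalIntegrable _ _
    have a1 : ∫ x in (X x₁)..(X x₂), pm c k (deriv (fun y => U ε T y) x) ≤
        ∫ x in (X x₁)..(X x₂), (pm c k (deriv (fun y => U ε T y) x) * φ T x + (1 - φ T x)) := by
      apply intervalIntegral.integral_mono_on hX12
      · exact ii_of_bd (hFm T) (hF1 T) _ _
      · exact i1.add i2
      · intro x _
        have p1 := (abs_le.1 (hF1 T x)).2
        have p2 := (hφ01 T x).2
        nlinarith
    rw [intervalIntegral.integral_add i1 i2] at a1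
    have a2 : ∫ x in (X x₁)..(X x₂), pm c k (deriv (fun y => U ε T y) x) * φ T x ≤
        ∫ x : ℝ, pm c k (deriv (fun y => U ε T y) x) * φ T x := by
      rw [intervalIntegral.integral_of_le hX12]
      exact setIntegral_le_integral (iφ T)
        (ae_of_all _ fun x => mul_nonneg (pm_nn _ _ _) (hφ01 T x).1)
    linarith
  rw [e0] at s2
  linarith

end Pool.Agent.W807.TF
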