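import Pool.Agent.W807.TF.TestTools

set_option autoImplicit false

open MeasureTheory Set Filter Topology

namespace Pool.Agent.W807.TF

section smooth
variable {φ : ℝ → ℝ → ℝ} (hφ : ContDiff ℝ (⊤ : ℕ∞) (Function.uncurry φ))
  (hc : HasCompactSupport (Function.uncurry φ))
include hφ hc

lemma smooth_dt_bdd : ∃ M, ∀ t x, |deriv (fun s => φ s x) t| ≤ M := by
  have h1 : Continuous (fderiv ℝ (Function.uncurry φ)) :=
    hφ.continuous_fderiv (by simp)
  obtain ⟨C, hC⟩ := h1.bounded_above_of_compact_support (hc.fderiv (𝕜 := ℝ))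
  have hC0 : 0 ≤ C := (norm_nonneg _).trans (hC 0)
  refine ⟨C, fun t x => ?_⟩
  have h2 : HasFDerivAt (Function.uncurry φ) (fderiv ℝ (Function.uncurry φ) (t, x)) (t, x) :=
    (hφ.differentiable (by simp) (t, x)).hasFDerivAt
  have h3 : HasDerivAt (fun s : ℝ => ((s, x) : ℝ × ℝ)) ((1, 0) : ℝ × ℝ) t :=
    (hasDerivAt_id t).prodMk (hasDerivAt_const t x)
  have h4 := (h2.comp_hasDerivAt t h3).deriv
  have h5 : deriv (fun s => φ s x) t = fderiv ℝ (Function.uncurry φ) (t, x) ((1, 0) : ℝ × ℝ) := h4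
  rw [h5, ← Real.norm_eq_abs]
  calc _ ≤ ‖fderiv ℝ (Function.uncurry φ) (t, x)‖ * ‖((1, 0) : ℝ × ℝ)‖ :=
        ContinuousLinearMap.le_opNorm _ _
    _ ≤ C * 1 := by
        apply mul_le_mul (hC _) _ (norm_nonneg _) hC0
        simp [Prod.norm_def]
    _ = C := mul_one C

lemma smooth_dx_bdd : ∃ M, ∀ t x, |deriv (fun y => φ t y) x| ≤ M := by
  have h1 : Continuous (fderiv ℝ (Function.uncurry φ)) :=
    hφ.continuous_fderiv (by simp)
  obtain ⟨C, hC⟩ := h1.bounded_above_of_compact_support (hc.fderiv (𝕜 := ℝ))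
  have hC0 : 0 ≤ C := (norm_nonneg _).trans (hC 0)
  refine ⟨C, fun t x => ?_⟩
  have h2 : HasFDerivAt (Function.uncurry φ) (fderiv ℝ (Function.uncurry φ) (t, x)) (t, x) :=
    (hφ.differentiable (by simp) (t, x)).hasFDerivAt
  have h3 : HasDerivAt (fun y : ℝ => ((t, y) : ℝ × ℝ)) ((0, 1) : ℝ × ℝ) x :=
    (hasDerivAt_const x t).prodMk (hasDerivAt_id x)
  have h4 := (h2.comp_hasDerivAt x h3).deriv
  have h5 : deriv (fun y => φ t y) x = fderiv ℝ (Function.uncurry φ) (t, x) ((0, 1) : ℝ × ℝ) := h4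
  rw [h5, ← Real.norm_eq_abs]
  calc _ ≤ ‖fderiv ℝ (Function.uncurry φ) (t, x)‖ * ‖((0, 1) : ℝ × ℝ)‖ :=
        ContinuousLinearMap.le_opNorm _ _
    _ ≤ C * 1 := by
        apply mul_le_mul (hC _) _ (norm_nonneg _) hC0
        simp [Prod.norm_def]
    _ = C := mul_one C

lemma int_A_dt {A : ℝ → ℝ → ℝ} (hA : Measurable (Function.uncurry A)) {M : ℝ}
    (hAb : ∀ t x, |A t x| ≤ M) :
    Integrable (Function.uncurry fun t x => A t x * deriv (fun s => φ s x) t) mp := by
  obtain ⟨C, hC⟩ := smooth_dt_bdd hφ hc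
  have hM : 0 ≤ M := (abs_nonneg _).trans (hAb 0 0)
  refine int_of_supp (K := tsupport (Function.uncurry φ)) hc
    (hA.mul (meas_dt hφ.continuous)) (M := M * C) ?_ ?_
  · intro t x
    rw [abs_mul]
    exact mul_le_mul (hAb t x) (hC t x) (abs_nonneg _) hM
  · intro t x h
    rw [dt_zero_off h, mul_zero]

lemma int_B_dx {B : ℝ → ℝ → ℝ} (hB : Measurable (Function.uncurry B)) {M : ℝ}
    (hBb : ∀ t x, |B t x| ≤ M) :
    Integrable (Function.uncurry fun t x => B t x * deriv (fun y => φ t y) x) mp := by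
  obtain ⟨C, hC⟩ := smooth_dx_bdd hφ hc
  have hM : 0 ≤ M := (abs_nonneg _).trans (hBb 0 0)
  refine int_of_supp (K := tsupport (Function.uncurry φ)) hc
    (hB.mul (meas_dx hφ.continuous)) (M := M * C) ?_ ?_
  · intro t x
    rw [abs_mul]
    exact mul_le_mul (hBb t x) (hC t x) (abs_nonneg _) hM
  · intro t x h
    rw [dx_zero_off h, mul_zero]

lemma slice_compact (t : ℝ) : HasCompactSupport (φ t) := by
  have hK : IsCompact (Prod.snd '' tsupport (Function.uncurry φ)) := hc.image continuous_snd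
  apply HasCompactSupport.intro hK
  intro x hx
  by_contra hcon
  apply hx
  exact ⟨(t, x), subset_tsupport _ hcon, rfl⟩

lemma slice_compact' (x : ℝ) : HasCompactSupport (fun s => φ s x) := by
  have hK : IsCompact (Prod.fst '' tsupport (Function.uncurry φ)) := hc.image continuous_fst
  apply HasCompactSupport.intro hK
  intro t ht
  by_contra hcon
  apply ht
  exact ⟨(t, x), subset_tsupport _ hcon, rfl⟩

lemma slice_smooth (t : ℝ) : ContDiff ℝ (⊤ : ℕ∞) (φ t) :=
  hφ.comp (contDiff_const.prodMk contDiff_id)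

lemma slice_smooth' (x : ℝ) : ContDiff ℝ (⊤ : ℕ∞) (fun s => φ s x) :=
  hφ.comp (contDiff_id.prodMk contDiff_const)

lemma slice_int (t : ℝ) : Integrable (φ t) :=
  (slice_smooth hφ hc t).continuous.integrable_of_hasCompactSupport (slice_compact hφ hc t)

/-- `∫_{t>0} ∫ φ_t = - ∫ φ(0,·)` -/
lemma integral_dt : ∫ t in Ioi (0:ℝ), ∫ x : ℝ, deriv (fun s => φ s x) t = - ∫ x : ℝ, φ 0 x := by
  have h1 : Integrable (Function.uncurry fun t x => (1:ℝ) * deriv (fun s => φ s x) t) mp :=
    int_A_dt hφ hc (A := fun _ _ => 1) measurable_const (M := 1) (fun _ _ => by simp)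
  simp only [one_mul] at h1
  rw [iter_eq h1, ← iter_eq_swap h1, ← integral_neg]
  congr 1
  funext x
  exact HasCompactSupport.integral_Ioi_deriv_eq ((slice_smooth' hφ hc x).of_le (by simp))
    (slice_compact' hφ hc x) 0

end smooth

theorem taskKW : TaskKW := by
  intro ub w hub hw hK φ hφ hc hφ0
  set g : ℝ → ℝ → ℝ := fun t x =>
    w t x * deriv (fun s => φ s x) t + w t x * (1 - w t x) * deriv (fun y => φ t y) x with hg
  have hgint : Integrable (Function.uncurry g) mp := by
    have h1 := int_A_dt hφ hc hw.1 hw.abs_le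
    have hB : Measurable (Function.uncurry fun t x => w t x * (1 - w t x)) :=
      hw.1.mul (measurable_const.sub hw.1)
    have h2 := int_B_dx hφ hc hB (M := 1) (fun t x => by
      have := hw.2 t x
      rw [abs_le]
      constructor <;> nlinarith)
    exact h1.add h2
  have h0 := hK 0 φ hφ hc hφ0
  have h1 := hK 1 φ hφ hc hφ0
  have e0 : ∀ t x, |w t x - 0| * deriv (fun s => φ s x) t
      + Real.sign (w t x - 0) * (w t x * (1 - w t x) - 0 * (1 - 0)) * deriv (fun y => φ t y) x
      = g t x := by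
    intro t x
    have h := hw.2 t x
    simp only [hg, sub_zero, zero_mul]
    rw [abs_of_nonneg h.1]
    rcases h.1.eq_or_lt with h2 | h2
    · rw [← h2]; simp
    · rw [Real.sign_of_pos h2]; ring
  have e1 : ∀ t x, |w t x - 1| * deriv (fun s => φ s x) t
      + Real.sign (w t x - 1) * (w t x * (1 - w t x) - 1 * (1 - 1)) * deriv (fun y => φ t y) x
      = deriv (fun s => φ s x) t - g t x := by
    intro t x
    have h := hw.2 t x
    simp only [hg, sub_self, mul_zero, sub_zero]
    rw [abs_of_nonpos (by linarith)]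
    rcases h.2.eq_or_lt with h2 | h2
    · rw [h2]; simp
    · rw [Real.sign_of_neg (by linarith)]; ring
  simp only [e0] at h0
  simp only [e1] at h1
  have e2 : ∀ x, |ub x - 0| = ub x := fun x => by
    rw [sub_zero, abs_of_nonneg (hub.2 x).1]
  have e3 : ∀ x, |ub x - 1| * φ 0 x = φ 0 x - ub x * φ 0 x := fun x => by
    rw [abs_of_nonpos (by linarith [(hub.2 x).2])]; ring
  simp only [e2] at h0
  simp only [e3] at h1
  have hφ0i := slice_int hφ hc 0
  have hubφ : Integrable (fun x => ub x * φ 0 x) := by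
    apply hφ0i.bdd_mul hub.1.aestronglyMeasurable (c := 1)
    exact ae_of_all _ fun x => by rw [Real.norm_eq_abs]; exact hub.abs_le x
  rw [integral_sub hφ0i hubφ] at h1
  have hdt : Integrable (Function.uncurry fun t x => (1:ℝ) * deriv (fun s => φ s x) t) mp :=
    int_A_dt hφ hc (A := fun _ _ => 1) measurable_const (M := 1) (fun _ _ => by simp)
  simp only [one_mul] at hdt
  have h3 : ∫ t in Ioi (0:ℝ), ∫ x : ℝ, (deriv (fun s => φ s x) t - g t x) =
      (∫ t in Ioi (0:ℝ), ∫ x : ℝ, deriv (fun s => φ s x) t) - ∫ t in Ioi (0:ℝ), ∫ x : ℝ, g t x := by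
    have hsub : Integrable (Function.uncurry fun t x => deriv (fun s => φ s x) t - g t x) mp :=
      hdt.sub hgint
    rw [iter_eq hsub, iter_eq hdt, iter_eq hgint, ← integral_sub hdt hgint]
    rfl
  rw [h3, integral_dt hφ hc] at h1
  have : (∫ t in Ioi (0:ℝ), ∫ x : ℝ, g t x) + ∫ x : ℝ, ub x * φ 0 x = 0 := by
    apply le_antisymm
    · linarith
    · exact h0
  exact this

end Pool.Agent.W807.TF
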