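import Pool.Agent.W807.TF.AE

set_option autoImplicit false

open MeasureTheory Set Filter Topology

namespace Pool.Agent.W807.TF

/-- mollifiers on the plane -/
noncomputable def bump (n : ℕ) : ContDiffBump (0 : ℝ × ℝ) where
  rIn := 1 / ((n : ℝ) + 2)
  rOut := 2 / ((n : ℝ) + 2)
  rIn_pos := by positivity
  rIn_lt_rOut := by
    apply div_lt_div_of_pos_right (by norm_num)
    positivity

lemma bump_rOut (n : ℕ) : (bump n).rOut = 2 / ((n : ℝ) + 2) := rfl

lemma bump_rOut_le (n : ℕ) : (bump n).rOut ≤ 1 := by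
  rw [bump_rOut, div_le_one (by positivity)]
  have : (0:ℝ) ≤ n := by positivity
  linarith

lemma bump_tendsto : Tendsto (fun n => (bump n).rOut) atTop (𝓝 0) := by
  simp only [bump_rOut]
  have h1 : Tendsto (fun n : ℕ => (n : ℝ) + 2) atTop atTop :=
    tendsto_atTop_add_const_right _ _ tendsto_natCast_atTop_atTop
  exact Tendsto.div_atTop tendsto_const_nhds h1

/-- the convolution with the mollifier -/
noncomputable def mol (n : ℕ) (g : ℝ × ℝ → ℝ) (p : ℝ × ℝ) : ℝ :=
  ∫ q : ℝ × ℝ, (bump n).normed volume q * g (p - q)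

lemma mol_eq (n : ℕ) (g : ℝ × ℝ → ℝ) :
    mol n g = MeasureTheory.convolution ((bump n).normed volume) g
      (ContinuousLinearMap.lsmul ℝ ℝ) volume := by
  funext p
  simp only [mol, convolution_lsmul, smul_eq_mul]

lemma mol_abs_le (n : ℕ) {g : ℝ × ℝ → ℝ} {M : ℝ} (hb : ∀ q, |g q| ≤ M) (p : ℝ × ℝ) :
    |mol n g p| ≤ M := by
  unfold mol
  have h1 : ‖∫ q : ℝ × ℝ, (bump n).normed volume q * g (p - q)‖ ≤
      ∫ q : ℝ × ℝ, (bump n).normed volume q * M := by
    apply norm_integral_le_of_norm_le ((bump n).integrable_normed.mul_const M)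
    refine ae_of_all _ fun q => ?_
    rw [norm_mul, Real.norm_eq_abs, Real.norm_eq_abs, abs_of_nonneg ((bump n).nonneg_normed q)]
    exact mul_le_mul_of_nonneg_left (hb _) ((bump n).nonneg_normed q)
  rw [integral_mul_const, (bump n).integral_normed, one_mul, Real.norm_eq_abs] at h1
  exact h1

lemma mol_nonneg (n : ℕ) {g : ℝ × ℝ → ℝ} (hg : ∀ q, 0 ≤ g q) (p : ℝ × ℝ) : 0 ≤ mol n g p :=
  integral_nonneg fun q => mul_nonneg ((bump n).nonneg_normed q) (hg _)

/-- support: if `g` vanishes on `‖·‖ > R` then `mol n g` vanishes on `‖·‖ > R + 1` -/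
lemma mol_zero (n : ℕ) {g : ℝ × ℝ → ℝ} {R : ℝ} (hg : ∀ q, R < ‖q‖ → g q = 0) (p : ℝ × ℝ)
    (hp : R + 1 < ‖p‖) : mol n g p = 0 := by
  unfold mol
  rw [integral_eq_zero_of_ae]
  refine ae_of_all _ fun q => ?_
  simp only [Pi.zero_apply]
  by_cases hq : ‖q‖ < (bump n).rOut
  · have h1 : R < ‖p - q‖ := by
      have h2 : ‖p‖ ≤ ‖p - q‖ + ‖q‖ := by
        calc ‖p‖ = ‖(p - q) + q‖ := by rw [sub_add_cancel]
          _ ≤ _ := norm_add_le _ _
      have := bump_rOut_le n
      linarith
    rw [hg _ h1, mul_zero]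
  · have h3 : (bump n).normed volume q = 0 := by
      have : q ∉ Function.support ((bump n).normed volume) := by
        rw [ContDiffBump.support_normed_eq]
        simp only [Metric.mem_ball, dist_zero_right]
        exact hq
      exact Function.notMem_support.1 this
    rw [h3, zero_mul]

lemma mol_tendsto_ae {g : ℝ × ℝ → ℝ} (hg : LocallyIntegrable g volume) :
    ∀ᵐ p : ℝ × ℝ, Tendsto (fun n => mol n g p) atTop (𝓝 (g p)) := by
  have h1 := ContDiffBump.ae_convolution_tendsto_right_of_locallyIntegrable (μ := volume)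
    (φ := bump) (l := atTop) (K := 2) (g := g) bump_tendsto (Eventually.of_forall fun n => by
      show 2 / ((n : ℝ) + 2) ≤ 2 * (1 / ((n : ℝ) + 2))
      rw [mul_one_div]) hg
  filter_upwards [h1] with p hp
  have h2 : (fun n => mol n g p) = fun n => MeasureTheory.convolution ((bump n).normed volume) g
      (ContinuousLinearMap.lsmul ℝ ℝ) volume p := by
    funext n; rw [mol_eq]
  rw [h2]
  exact hp

lemma mol_tendsto {g : ℝ × ℝ → ℝ} (hg : Continuous g) (p : ℝ × ℝ) :
    Tendsto (fun n => mol n g p) atTop (𝓝 (g p)) := by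
  have h1 := ContDiffBump.convolution_tendsto_right_of_continuous (μ := volume)
    (φ := bump) (l := atTop) (g := g) bump_tendsto hg p
  have h2 : (fun n => mol n g p) = fun n => MeasureTheory.convolution ((bump n).normed volume) g
      (ContinuousLinearMap.lsmul ℝ ℝ) volume p := by
    funext n; rw [mol_eq]
  rw [h2]
  exact h1

lemma mol_contDiff (n : ℕ) {g : ℝ × ℝ → ℝ} (hg : LocallyIntegrable g volume) :
    ContDiff ℝ (⊤ : ℕ∞) (mol n g) := by
  rw [mol_eq]
  exact (bump n).hasCompactSupport_normed.contDiff_convolution_left _ (bump n).contDiff_normed hg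

/-- a.e. statements for Lipschitz functions on the whole plane -/
lemma ae_vol_of_tx {p : ℝ → ℝ → Prop} (hm : MeasurableSet {z : ℝ × ℝ | p z.1 z.2})
    (h : ∀ t, ∀ᵐ x : ℝ, p t x) : ∀ᵐ z : ℝ × ℝ, p z.1 z.2 := by
  have : ∀ᵐ z ∂((volume : Measure ℝ).prod (volume : Measure ℝ)), p z.1 z.2 := by
    rw [Measure.ae_prod_iff_ae_ae hm]
    exact ae_of_all _ h
  exact this

lemma ae_vol_of_xt {p : ℝ → ℝ → Prop} (hm : MeasurableSet {z : ℝ × ℝ | p z.1 z.2})
    (h : ∀ x, ∀ᵐ t : ℝ, p t x) : ∀ᵐ z : ℝ × ℝ, p z.1 z.2 := by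
  have : ∀ᵐ z ∂((volume : Measure ℝ).prod (volume : Measure ℝ)), p z.1 z.2 := by
    rw [Measure.ae_prod_iff_ae_ae hm, Measure.ae_ae_comm hm]
    exact ae_of_all _ h
  exact this

section
variable {φ : ℝ → ℝ → ℝ} {L : ℝ}
  (hL : ∀ s t x y, |φ s x - φ t y| ≤ L * (|s - t| + |x - y|))
include hL

lemma lip_nonneg : 0 ≤ L := by
  have := hL 1 0 0 0
  simp only [sub_zero, abs_one, abs_zero, add_zero, mul_one] at this
  exact (abs_nonneg _).trans this

lemma lip_cont : Continuous (Function.uncurry φ) := by
  have hL0 := lip_nonneg hL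
  apply LipschitzWith.continuous (K := Real.toNNReal (2 * L))
  apply LipschitzWith.of_dist_le_mul
  rintro ⟨s, x⟩ ⟨t, y⟩
  have := hL s t x y
  simp only [Function.uncurry, Real.dist_eq, Prod.dist_eq]
  rw [Real.coe_toNNReal _ (by linarith)]
  have h1 := le_max_left |s - t| |x - y|
  have h2 := le_max_right |s - t| |x - y|
  nlinarith

lemma lip_lip_t (x : ℝ) : LipschitzWith (Real.toNNReal L) (fun s => φ s x) := by
  apply LipschitzWith.of_dist_le_mul
  intro s t
  rw [Real.dist_eq, Real.dist_eq, Real.coe_toNNReal _ (lip_nonneg hL)]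
  have := hL s t x x
  simpa using this

lemma lip_lip_x (t : ℝ) : LipschitzWith (Real.toNNReal L) (fun y => φ t y) := by
  apply LipschitzWith.of_dist_le_mul
  intro x y
  rw [Real.dist_eq, Real.dist_eq, Real.coe_toNNReal _ (lip_nonneg hL)]
  have := hL t t x y
  simpa using this

lemma lip_ae_diff_t : ∀ᵐ z : ℝ × ℝ, DifferentiableAt ℝ (fun s => φ s z.2) z.1 :=
  ae_vol_of_xt (p := fun t x => DifferentiableAt ℝ (fun s => φ s x) t) (meas_diff_t (lip_cont hL))
    fun x => (lip_lip_t hL x).ae_differentiableAt_real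

lemma lip_ae_diff_x : ∀ᵐ z : ℝ × ℝ, DifferentiableAt ℝ (fun y => φ z.1 y) z.2 :=
  ae_vol_of_tx (p := fun t x => DifferentiableAt ℝ (fun y => φ t y) x) (meas_diff_x (lip_cont hL))
    fun t => (lip_lip_x hL t).ae_differentiableAt_real

lemma lip_dt_le (t x : ℝ) : |deriv (fun s => φ s x) t| ≤ L :=
  abs_deriv_le_of_lip (fun a b => by have := hL a b x x; simpa using this) t

lemma lip_dx_le (t x : ℝ) : |deriv (fun y => φ t y) x| ≤ L :=
  abs_deriv_le_of_lip (fun a b => by have := hL t t a b; simpa using this) x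

/-- the `t`-derivative of the mollified function -/
lemma mol_dt (n : ℕ) (t x : ℝ) :
    HasDerivAt (fun s => mol n (Function.uncurry φ) (s, x))
      (mol n (fun p => deriv (fun s => φ s p.2) p.1) (t, x)) t := by
  have hc := lip_cont hL
  have hL0 := lip_nonneg hL
  unfold mol
  set ρ := (bump n).normed (volume : Measure (ℝ × ℝ)) with hρ
  have hρc : Continuous ρ := (bump n).continuous_normed
  have hρ0 : ∀ q, 0 ≤ ρ q := (bump n).nonneg_normed
  refine (hasDerivAt_integral_of_dominated_loc_of_lip (μ := (volume : Measure (ℝ × ℝ)))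
    (F := fun (s : ℝ) (q : ℝ × ℝ) => ρ q * Function.uncurry φ ((s, x) - q))
    (F' := fun q : ℝ × ℝ => ρ q * deriv (fun s => φ s ((t, x) - q).2) ((t, x) - q).1)
    (bound := fun q => ρ q * L) (s := univ) univ_mem ?_ ?_ ?_ ?_ ?_ ?_).2
  · refine Eventually.of_forall fun s => ?_
    exact (hρc.mul (hc.comp (continuous_const.sub continuous_id))).aestronglyMeasurable
  · have h1 : Continuous (fun q : ℝ × ℝ => ρ q * Function.uncurry φ ((t, x) - q)) :=
      hρc.mul (hc.comp (continuous_const.sub continuous_id))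
    have h2 : HasCompactSupport (fun q : ℝ × ℝ => ρ q * Function.uncurry φ ((t, x) - q)) :=
      (bump n).hasCompactSupport_normed.mul_right
    exact h1.integrable_of_hasCompactSupport h2
  · have h1 := meas_dt hc
    have h2 : Measurable (fun q : ℝ × ℝ => ((t, x) : ℝ × ℝ) - q) :=
      measurable_const.sub measurable_id
    exact (hρc.measurable.mul (h1.comp h2)).aestronglyMeasurable
  · refine ae_of_all _ fun q => ?_
    apply LipschitzOnWith.of_dist_le_mul
    intro s _ s' _
    rw [Real.dist_eq, Real.dist_eq]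
    simp only [Real.coe_nnabs]
    rw [abs_of_nonneg (mul_nonneg (hρ0 q) hL0), ← mul_sub, abs_mul, abs_of_nonneg (hρ0 q),
      mul_assoc]
    apply mul_le_mul_of_nonneg_left _ (hρ0 q)
    have := hL (s - q.1) (s' - q.1) (x - q.2) (x - q.2)
    simp only [sub_sub_sub_cancel_right, sub_self, abs_zero, add_zero] at this
    exact this
  · exact (bump n).integrable_normed.mul_const L
  · have h1 := lip_ae_diff_t hL
    have hq : Measure.QuasiMeasurePreserving (fun q : ℝ × ℝ => ((t, x) : ℝ × ℝ) - q)
        volume volume :=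
      (Measure.measurePreserving_sub_left volume ((t, x) : ℝ × ℝ)).quasiMeasurePreserving
    have h2 := hq.ae h1
    filter_upwards [h2] with q hq2
    apply HasDerivAt.const_mul
    have h3 := hq2.hasDerivAt
    have h4 : HasDerivAt (fun s : ℝ => s - q.1) 1 t := by
      simpa using (hasDerivAt_id t).sub_const q.1
    have h5 := HasDerivAt.comp t (h := fun s : ℝ => s - q.1)
      (h₂ := fun s => φ s ((t, x) - q).2) (by exact h3) h4
    rw [mul_one] at h5
    exact h5

/-- the `x`-derivative of the mollified function -/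
lemma mol_dx (n : ℕ) (t x : ℝ) :
    HasDerivAt (fun y => mol n (Function.uncurry φ) (t, y))
      (mol n (fun p => deriv (fun y => φ p.1 y) p.2) (t, x)) x := by
  have hc := lip_cont hL
  have hL0 := lip_nonneg hL
  unfold mol
  set ρ := (bump n).normed (volume : Measure (ℝ × ℝ)) with hρ
  have hρc : Continuous ρ := (bump n).continuous_normed
  have hρ0 : ∀ q, 0 ≤ ρ q := (bump n).nonneg_normed
  refine (hasDerivAt_integral_of_dominated_loc_of_lip (μ := (volume : Measure (ℝ × ℝ)))
    (F := fun (y : ℝ) (q : ℝ × ℝ) => ρ q * Function.uncurry φ ((t, y) - q))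
    (F' := fun q : ℝ × ℝ => ρ q * deriv (fun y => φ ((t, x) - q).1 y) ((t, x) - q).2)
    (bound := fun q => ρ q * L) (s := univ) univ_mem ?_ ?_ ?_ ?_ ?_ ?_).2
  · refine Eventually.of_forall fun s => ?_
    exact (hρc.mul (hc.comp (continuous_const.sub continuous_id))).aestronglyMeasurable
  · have h1 : Continuous (fun q : ℝ × ℝ => ρ q * Function.uncurry φ ((t, x) - q)) :=
      hρc.mul (hc.comp (continuous_const.sub continuous_id))
    have h2 : HasCompactSupport (fun q : ℝ × ℝ => ρ q * Function.uncurry φ ((t, x) - q)) :=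
      (bump n).hasCompactSupport_normed.mul_right
    exact h1.integrable_of_hasCompactSupport h2
  · have h1 := meas_dx hc
    have h2 : Measurable (fun q : ℝ × ℝ => ((t, x) : ℝ × ℝ) - q) :=
      measurable_const.sub measurable_id
    exact (hρc.measurable.mul (h1.comp h2)).aestronglyMeasurable
  · refine ae_of_all _ fun q => ?_
    apply LipschitzOnWith.of_dist_le_mul
    intro s _ s' _
    rw [Real.dist_eq, Real.dist_eq]
    simp only [Real.coe_nnabs]
    rw [abs_of_nonneg (mul_nonneg (hρ0 q) hL0), ← mul_sub, abs_mul, abs_of_nonneg (hρ0 q),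
      mul_assoc]
    apply mul_le_mul_of_nonneg_left _ (hρ0 q)
    have := hL (t - q.1) (t - q.1) (s - q.2) (s' - q.2)
    simp only [sub_sub_sub_cancel_right, sub_self, abs_zero, zero_add] at this
    exact this
  · exact (bump n).integrable_normed.mul_const L
  · have h1 := lip_ae_diff_x hL
    have hq : Measure.QuasiMeasurePreserving (fun q : ℝ × ℝ => ((t, x) : ℝ × ℝ) - q)
        volume volume :=
      (Measure.measurePreserving_sub_left volume ((t, x) : ℝ × ℝ)).quasiMeasurePreserving
    have h2 := hq.ae h1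
    filter_upwards [h2] with q hq2
    apply HasDerivAt.const_mul
    have h3 := hq2.hasDerivAt
    have h4 : HasDerivAt (fun s : ℝ => s - q.2) 1 x := by
      simpa using (hasDerivAt_id x).sub_const q.2
    have h5 := HasDerivAt.comp x (h := fun s : ℝ => s - q.2)
      (h₂ := fun y => φ ((t, x) - q).1 y) (by exact h3) h4
    rw [mul_one] at h5
    exact h5

end

theorem taskLip : TaskLip := by
  rintro A B C M hA hB hC hAb hBb hCb H φ ⟨L, hL⟩ hcs hφ0
  have hc := lip_cont hL
  have hL0 := lip_nonneg hL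
  have hM0 : 0 ≤ M := (abs_nonneg _).trans (hAb 0 0)
  set f := Function.uncurry φ with hf
  obtain ⟨R, hR⟩ : ∃ R : ℝ, ∀ q ∈ tsupport f, ‖q‖ ≤ R := by
    obtain ⟨R, hR⟩ := hcs.isCompact.isBounded.subset_closedBall (0 : ℝ × ℝ)
    exact ⟨R, fun q hq => by simpa using hR hq⟩
  have hfz : ∀ q, R < ‖q‖ → q ∉ tsupport f := fun q hq hq2 => absurd (hR q hq2) (not_le.2 hq)
  have hfz0 : ∀ q, R < ‖q‖ → f q = 0 := fun q hq => image_eq_zero_of_notMem_tsupport (hfz q hq)
  set gt : ℝ × ℝ → ℝ := fun p => deriv (fun s => φ s p.2) p.1 with hgt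
  set gx : ℝ × ℝ → ℝ := fun p => deriv (fun y => φ p.1 y) p.2 with hgx
  have hgtz : ∀ q, R < ‖q‖ → gt q = 0 := fun q hq => dt_zero_off (hfz q hq)
  have hgxz : ∀ q, R < ‖q‖ → gx q = 0 := fun q hq => dx_zero_off (hfz q hq)
  have hgtm : Measurable gt := meas_dt hc
  have hgxm : Measurable gx := meas_dx hc
  have hgtb : ∀ q, |gt q| ≤ L := fun q => lip_dt_le hL q.1 q.2
  have hgxb : ∀ q, |gx q| ≤ L := fun q => lip_dx_le hL q.1 q.2
  obtain ⟨Mf, hMf⟩ : ∃ Mf, ∀ q, |f q| ≤ Mf := by
    obtain ⟨C, hC⟩ := hc.bounded_above_of_compact_support hcs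
    exact ⟨C, fun q => by simpa [Real.norm_eq_abs] using hC q⟩
  have hloc : ∀ (g : ℝ × ℝ → ℝ) (K : ℝ), Measurable g → (∀ q, |g q| ≤ K) →
      LocallyIntegrable g volume := by
    intro g K hg hK
    refine (locallyIntegrable_const (K:ℝ)).mono hg.aestronglyMeasurable ?_
    refine ae_of_all _ fun q => ?_
    rw [Real.norm_eq_abs, Real.norm_eq_abs]
    exact (hK q).trans (le_abs_self _)
  have hflocI := hloc f Mf hc.measurable hMf
  set φn : ℕ → ℝ → ℝ → ℝ := fun n t x => mol n f (t, x) with hφn
  have hun : ∀ n, Function.uncurry (φn n) = mol n f := fun n => rfl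
  have hcomp : IsCompact (Metric.closedBall (0 : ℝ × ℝ) (R + 1)) := isCompact_closedBall _ _
  have hcsn : ∀ n, HasCompactSupport (Function.uncurry (φn n)) := by
    intro n
    rw [hun]
    apply HasCompactSupport.intro hcomp
    intro p hp
    apply mol_zero n hfz0
    simpa [Metric.mem_closedBall, dist_zero_right] using hp
  have hsm : ∀ n, ContDiff ℝ (⊤ : ℕ∞) (Function.uncurry (φn n)) := by
    intro n
    rw [hun]
    exact mol_contDiff n hflocI
  have hdt : ∀ n t x, deriv (fun s => φn n s x) t = mol n gt (t, x) := fun n t x =>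
    (mol_dt hL n t x).deriv
  have hdx : ∀ n t x, deriv (fun y => φn n t y) x = mol n gx (t, x) := fun n t x =>
    (mol_dx hL n t x).deriv
  -- the approximating inequalities
  have hineq : ∀ n, 0 ≤ (∫ z, (A z.1 z.2 * mol n gt z + B z.1 z.2 * mol n gx z) ∂mp) +
      ∫ x : ℝ, C x * mol n f (0, x) := by
    intro n
    have h1 := H (φn n) (hsm n) (hcsn n) (fun t x => mol_nonneg n (fun q => hφ0 q.1 q.2) _)
    simp only [hdt, hdx] at h1
    have h2 : Integrable (Function.uncurry fun t x =>
        A t x * mol n gt (t, x) + B t x * mol n gx (t, x)) mp := by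
      refine int_of_supp (K := Metric.closedBall (0 : ℝ × ℝ) (R + 1)) hcomp
        (M := M * L + M * L) ?_ ?_ ?_
      · have m1 : Measurable (mol n gt) := by
          have := (mol_contDiff n (hloc gt L hgtm hgtb)).continuous
          exact this.measurable
        have m2 : Measurable (mol n gx) := by
          have := (mol_contDiff n (hloc gx L hgxm hgxb)).continuous
          exact this.measurable
        exact (hA.mul m1).add (hB.mul m2)
      · intro t x
        calc _ ≤ |A t x * mol n gt (t, x)| + |B t x * mol n gx (t, x)| := abs_add_le _ _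
          _ = |A t x| * |mol n gt (t, x)| + |B t x| * |mol n gx (t, x)| := by
            rw [abs_mul, abs_mul]
          _ ≤ _ := add_le_add
            (mul_le_mul (hAb t x) (mol_abs_le n hgtb _) (abs_nonneg _) hM0)
            (mul_le_mul (hBb t x) (mol_abs_le n hgxb _) (abs_nonneg _) hM0)
      · intro t x hp
        have hp' : R + 1 < ‖((t, x) : ℝ × ℝ)‖ := by
          rwa [Metric.mem_closedBall, dist_zero_right, not_le] at hp
        rw [mol_zero n hgtz _ hp', mol_zero n hgxz _ hp']
        ring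
    rw [iter_eq h2] at h1
    exact h1
  -- limits
  have hlim1 : Tendsto (fun n => ∫ z, (A z.1 z.2 * mol n gt z + B z.1 z.2 * mol n gx z) ∂mp)
      atTop (𝓝 (∫ z, (A z.1 z.2 * gt z + B z.1 z.2 * gx z) ∂mp)) := by
    apply tendsto_integral_of_dominated_convergence
      (fun z => (Metric.closedBall (0 : ℝ × ℝ) (R + 1)).indicator (fun _ => M * L + M * L) z)
    · intro n
      have m1 : Measurable (mol n gt) :=
        (mol_contDiff n (hloc gt L hgtm hgtb)).continuous.measurable
      have m2 : Measurable (mol n gx) :=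
        (mol_contDiff n (hloc gx L hgxm hgxb)).continuous.measurable
      exact ((hA.mul m1).add (hB.mul m2)).aestronglyMeasurable
    · rw [integrable_indicator_iff Metric.isClosed_closedBall.measurableSet]
      apply integrableOn_const
      · exact ((mp_le _).trans_lt hcomp.measure_lt_top).ne
      · simp
    · intro n
      refine ae_of_all _ fun z => ?_
      by_cases hz : z ∈ Metric.closedBall (0 : ℝ × ℝ) (R + 1)
      · rw [indicator_of_mem hz, Real.norm_eq_abs]
        calc _ ≤ |A z.1 z.2 * mol n gt z| + |B z.1 z.2 * mol n gx z| := abs_add_le _ _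
          _ = |A z.1 z.2| * |mol n gt z| + |B z.1 z.2| * |mol n gx z| := by
            rw [abs_mul, abs_mul]
          _ ≤ _ := add_le_add
            (mul_le_mul (hAb _ _) (mol_abs_le n hgtb _) (abs_nonneg _) hM0)
            (mul_le_mul (hBb _ _) (mol_abs_le n hgxb _) (abs_nonneg _) hM0)
      · rw [indicator_of_notMem hz]
        have hp' : R + 1 < ‖z‖ := by
          simpa [Metric.mem_closedBall, dist_zero_right] using hz
        rw [mol_zero n hgtz _ hp', mol_zero n hgxz _ hp']
        simp
    · have e1 := mol_tendsto_ae (hloc gt L hgtm hgtb)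
      have e2 := mol_tendsto_ae (hloc gx L hgxm hgxb)
      have e1' : ∀ᵐ z ∂mp, Tendsto (fun n => mol n gt z) atTop (𝓝 (gt z)) :=
        (Measure.absolutelyContinuous_of_le mp_le).ae_le e1
      have e2' : ∀ᵐ z ∂mp, Tendsto (fun n => mol n gx z) atTop (𝓝 (gx z)) :=
        (Measure.absolutelyContinuous_of_le mp_le).ae_le e2
      filter_upwards [e1', e2'] with z h1 h2
      exact (h1.const_mul _).add (h2.const_mul _)
  have hlim2 : Tendsto (fun n => ∫ x : ℝ, C x * mol n f (0, x)) atTop
      (𝓝 (∫ x : ℝ, C x * f (0, x))) := by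
    apply tendsto_integral_of_dominated_convergence
      (fun x => (Icc (-(R + 1)) (R + 1)).indicator (fun _ => M * Mf) x)
    · intro n
      have m1 : Measurable (fun x : ℝ => mol n f (0, x)) :=
        ((mol_contDiff n hflocI).continuous.comp (Continuous.prodMk_right 0)).measurable
      exact (hC.mul m1).aestronglyMeasurable
    · rw [integrable_indicator_iff measurableSet_Icc]
      apply integrableOn_const
      · simp
      · exact enorm_ne_top
    · intro n
      refine ae_of_all _ fun x => ?_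
      by_cases hx : x ∈ Icc (-(R + 1)) (R + 1)
      · rw [indicator_of_mem hx, Real.norm_eq_abs, abs_mul]
        exact mul_le_mul (hCb x) (mol_abs_le n hMf _) (abs_nonneg _) hM0
      · rw [indicator_of_notMem hx]
        have hp' : R + 1 < ‖((0, x) : ℝ × ℝ)‖ := by
          have h1 : R + 1 < |x| := by
            by_contra hcon
            push Not at hcon
            exact hx (abs_le.1 hcon)
          calc R + 1 < |x| := h1
            _ = ‖x‖ := (Real.norm_eq_abs x).symm
            _ ≤ _ := le_max_right _ _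
        rw [mol_zero n hfz0 _ hp']
        simp
    · refine ae_of_all _ fun x => ?_
      exact (mol_tendsto hc _).const_mul _
  have hfinal := ge_of_tendsto' (hlim1.add hlim2) hineq
  have hGint : Integrable (Function.uncurry fun t x =>
      A t x * deriv (fun s => φ s x) t + B t x * deriv (fun y => φ t y) x) mp := by
    refine int_of_supp (K := Metric.closedBall (0 : ℝ × ℝ) (R + 1)) hcomp
      (M := M * L + M * L) ?_ ?_ ?_
    · exact (hA.mul hgtm).add (hB.mul hgxm)
    · intro t x
      calc _ ≤ |A t x * deriv (fun s => φ s x) t| + |B t x * deriv (fun y => φ t y) x| :=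
            abs_add_le _ _
        _ = |A t x| * |deriv (fun s => φ s x) t| + |B t x| * |deriv (fun y => φ t y) x| := by
          rw [abs_mul, abs_mul]
        _ ≤ _ := add_le_add
          (mul_le_mul (hAb t x) (hgtb (t, x)) (abs_nonneg _) hM0)
          (mul_le_mul (hBb t x) (hgxb (t, x)) (abs_nonneg _) hM0)
    · intro t x hp
      have hp' : R < ‖((t, x) : ℝ × ℝ)‖ := by
        have : R + 1 < ‖((t, x) : ℝ × ℝ)‖ := by
          rwa [Metric.mem_closedBall, dist_zero_right, not_le] at hp
        linarith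
      have e1 : deriv (fun s => φ s x) t = 0 := hgtz (t, x) hp'
      have e2 : deriv (fun y => φ t y) x = 0 := hgxz (t, x) hp'
      rw [e1, e2]; ring
  rw [iter_eq hGint]
  exact hfinal

end Pool.Agent.W807.TF
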