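import Pool.Agent.W807.TF.TA2

set_option autoImplicit false

open MeasureTheory Set Filter Topology

namespace Pool.Agent.W807.TF

lemma Fun01.flux {w : ℝ → ℝ → ℝ} (hw : Fun01 w) : Fun01 (fun t x => w t x * (1 - w t x)) := by
  refine ⟨hw.1.mul (measurable_const.sub hw.1), fun t x => ?_⟩
  have := hw.2 t x
  constructor
  · exact mul_nonneg this.1 (by linarith)
  · nlinarith

/-- the potential of a weak solution dominates the Hopf-Lax function -/
lemma W_ge {ub : ℝ → ℝ} {w W : ℝ → ℝ → ℝ} (hub : Dat ub) (hw : Fun01 w)
    (hW : IsPot ub w (fun t x => w t x * (1 - w t x)) W) {t : ℝ} (ht : 0 ≤ t) (x : ℝ) :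
    HL (prim ub) t x ≤ W t x := by
  have hF := taskHL (prim ub) hub.ml
  obtain ⟨c, hc, h1⟩ := hF.att t x ht
  have h2 := line_lower hub hw hw.flux hW (t := 0) (h := t) (c := c) (x := x)
    (M := -((1 - c) ^ 2 / 4)) (C := 0) le_rfl ht (by
      intro r hr s hs y hy
      have := sq_nonneg (w (0 + s) y - (1 - c) / 2)
      nlinarith)
  rw [zero_add, hW.init] at h2
  rw [h1]
  linarith

theorem taskW (hMP : TaskMP) : TaskW := by
  intro ub w W hub hw hK hW t x ht
  have hU0 : ML (prim ub) := hub.ml
  have hF := taskHL (prim ub) hU0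
  apply le_antisymm _ (W_ge hub hw hW ht x)
  have key : ∀ α : ℝ, 0 < α → ∀ t x, 0 ≤ t → W t x - HL (prim ub) t x ≤ α / 2 + t * 0 := by
    intro α hα
    set κ : ℝ := 1 / (2 * α) + 1 with hκ
    have hκ0 : 0 < κ := by positivity
    apply taskDbl W (HL (prim ub)) (prim ub) α 0 (4 * κ + 8 / α) 1 hα le_rfl
      (by positivity) one_pos hU0 hW.init hF.zero
      (fun t x ht => hW.mem_abs ht x) (fun t x ht => hF.mem_abs ht x)
    intro t h m x' y' ht hh hh1 Hm Hn
    set p := (x' - y') / α with hp
    have hpα : x' - y' = α * p := by rw [hp]; field_simp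
    have hplow : -(κ * h) ≤ p := by
      have h5 := Hn (x' + h) y'
      have h6 := hW.mono (t + h) x' (x' + h) (by linarith)
      have e4 : (x' + h - y') ^ 2 / (2 * α) = (x' - y') ^ 2 / (2 * α) + h * p +
          h ^ 2 / (2 * α) := by
        have : x' + h - y' = α * p + h := by rw [← hpα]; ring
        rw [this, hpα]
        field_simp
        ring
      rw [e4] at h5
      have h7 : 0 ≤ h * (p + κ * h) := by
        have : h * (p + κ * h) = h * p + h ^ 2 / (2 * α) + h ^ 2 := by rw [hκ]; ring
        rw [this]; linarith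
      have := nonneg_of_mul_nonneg_right h7 hh
      linarith
    have hpup : p ≤ 1 + κ * h := by
      have h5 := Hn (x' - h) y'
      have h6 := (abs_le.1 (hW.lip_x (t + h) x' (x' - h))).2
      rw [sub_sub_cancel, abs_of_pos hh] at h6
      have e4 : (x' - h - y') ^ 2 / (2 * α) = (x' - y') ^ 2 / (2 * α) - h * p +
          h ^ 2 / (2 * α) := by
        have : x' - h - y' = α * p - h := by rw [← hpα]; ring
        rw [this, hpα]
        field_simp
        ring
      rw [e4] at h5
      have h7 : 0 ≤ h * (1 + κ * h - p) := by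
        have : h * (1 + κ * h - p) = h - h * p + h ^ 2 / (2 * α) + h ^ 2 := by
          rw [hκ]; ring
        rw [this]; linarith
      have := nonneg_of_mul_nonneg_right h7 hh
      linarith
    have hκh : 0 ≤ κ * h := by positivity
    obtain ⟨k, hk0, hk1, hkp⟩ : ∃ k : ℝ, 0 ≤ k ∧ k ≤ 1 ∧ |p - k| ≤ κ * h := by
      rcases le_or_gt p 0 with h0 | h0
      · exact ⟨0, le_rfl, zero_le_one, by rw [sub_zero, abs_of_nonpos h0]; linarith⟩
      · rcases le_or_gt p 1 with h1 | h1
        · exact ⟨p, h0.le, h1, by rw [sub_self, abs_zero]; exact hκh⟩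
        · exact ⟨1, zero_le_one, le_rfl, by rw [abs_of_pos (by linarith)]; linarith⟩
    set c : ℝ := 1 - 2 * k with hc
    have hcabs : |c| ≤ 1 := by rw [hc, abs_le]; constructor <;> linarith
    have h8 := hMP ub w W hub hw hK hW k
      (m + HL (prim ub) t (y' - c * h) + α * p ^ 2 / 2 + p * c * h + 3 * κ * h ^ 2 +
        8 * h ^ 2 / α - k * x' + k * (1 - k) * t) t (t + h) x' h hk0 hk1 ht (by linarith) hh
      (by
        intro z hz
        have hz' : |z - x'| ≤ 3 * h := by
          have : h + 2 * (t + h - t) = 3 * h := by ring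
          rw [this] at hz
          exact hz.le
        have h9 := Hm z (y' - c * h)
        set e := z - x' with he
        have e1 : (z - (y' - c * h)) ^ 2 / (2 * α) =
            α * p ^ 2 / 2 + p * (e + c * h) + (e + c * h) ^ 2 / (2 * α) := by
          have : z - (y' - c * h) = α * p + (e + c * h) := by rw [← hpα, he]; ring
          rw [this]
          field_simp
          ring
        have e2 : (e + c * h) ^ 2 / (2 * α) ≤ 8 * h ^ 2 / α := by
          have h10 : |e + c * h| ≤ 4 * h := by
            calc |e + c * h| ≤ |e| + |c * h| := abs_add_le _ _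
              _ ≤ 3 * h + 1 * h := by
                rw [abs_mul, abs_of_pos hh]
                have := mul_le_mul_of_nonneg_right hcabs hh.le
                linarith
              _ = 4 * h := by ring
          have h11 : (e + c * h) ^ 2 ≤ (4 * h) ^ 2 := by
            rw [← sq_abs (e + c * h)]
            exact pow_le_pow_left₀ (abs_nonneg _) h10 2
          calc (e + c * h) ^ 2 / (2 * α) ≤ (4 * h) ^ 2 / (2 * α) :=
                div_le_div_of_nonneg_right h11 (by positivity)
            _ = 8 * h ^ 2 / α := by ring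
        have e3 : p * e - k * e ≤ 3 * κ * h ^ 2 := by
          have : p * e - k * e = (p - k) * e := by ring
          rw [this]
          calc (p - k) * e ≤ |(p - k) * e| := le_abs_self _
            _ = |p - k| * |e| := abs_mul _ _
            _ ≤ (κ * h) * (3 * h) := mul_le_mul hkp hz' (abs_nonneg _) hκh
            _ = 3 * κ * h ^ 2 := by ring
        have e4 : k * z = k * x' + k * e := by rw [he]; ring
        rw [e1] at h9
        rw [e4]
        have e5 : p * (e + c * h) = p * e + p * c * h := by ring
        rw [e5] at h9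
        linarith)
    have h9 := hF.sg t h y' c ht hh.le
    have e6 : h * (1 - c) ^ 2 / 4 = h * k ^ 2 := by rw [hc]; ring
    rw [e6] at h9
    have e7 : (x' - y') ^ 2 / (2 * α) = α * p ^ 2 / 2 := by
      rw [hpα]; field_simp
    rw [e7]
    have e8 : (p - k) * c * h ≤ κ * h ^ 2 := by
      calc (p - k) * c * h ≤ |(p - k) * c * h| := le_abs_self _
        _ = |p - k| * |c| * h := by rw [abs_mul, abs_mul, abs_of_pos hh]
        _ ≤ (κ * h) * 1 * h := by
          apply mul_le_mul_of_nonneg_right _ hh.le
          exact mul_le_mul hkp hcabs (abs_nonneg _) hκh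
        _ = κ * h ^ 2 := by ring
    have e9 : p * c * h - k * (1 - k) * h + h * k ^ 2 = (p - k) * c * h := by
      rw [hc]; ring
    have e10 : (4 * κ + 8 / α) * h ^ 2 = κ * h ^ 2 + 3 * κ * h ^ 2 + 8 * h ^ 2 / α := by ring
    rw [e10]
    have e11 : k * (1 - k) * (t + h) = k * (1 - k) * t + k * (1 - k) * h := by ring
    rw [e11] at h8
    linarith
  have h1 : W t x - HL (prim ub) t x ≤ 0 := by
    apply le_of_forall_pos_le_add
    intro η hη
    have := key (2 * η) (by positivity) t x ht
    linarith
  linarith

end Pool.Agent.W807.TF
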