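import Pool.Agent.W807.TF.HL

set_option autoImplicit false

open MeasureTheory Set Filter Topology

namespace Pool.Agent.W807.TF

/-- touching functions have equal derivatives -/
lemma touch {f R : ℝ → ℝ} {a b x : ℝ} (hf : HasDerivAt f a x) (hR : HasDerivAt R b x)
    (hle : ∀ᶠ y in 𝓝 x, f y ≤ R y) (heq : f x = R x) : a = b := by
  have h1 : IsLocalMin (fun y => R y - f y) x := by
    filter_upwards [hle] with y hy
    linarith
  have h2 := h1.hasDerivAt_eq_zero (hR.sub hf)
  linarith

lemma hasDerivAt_max_sq (s : ℝ) : HasDerivAt (fun r : ℝ => (max r 0) ^ 2) (2 * max s 0) s := by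
  rcases lt_trichotomy s 0 with h | h | h
  · have h1 : (fun r : ℝ => (max r 0) ^ 2) =ᶠ[𝓝 s] fun _ => 0 := by
      filter_upwards [Iio_mem_nhds h] with r hr
      rw [max_eq_right (le_of_lt hr)]; simp
    rw [max_eq_right h.le, mul_zero]
    exact (hasDerivAt_const s (0:ℝ)).congr_of_eventuallyEq h1
  · subst h
    rw [max_self, mul_zero]
    rw [hasDerivAt_iff_isLittleO]
    have h1 : (fun x' : ℝ => (max x' 0) ^ 2 - (max 0 0) ^ 2 - (x' - 0) • (0:ℝ)) =O[𝓝 0]
        fun x' : ℝ => x' ^ 2 := by
      apply Asymptotics.IsBigO.of_bound 1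
      filter_upwards with r
      simp only [max_self, ne_eq, OfNat.ofNat_ne_zero, not_false_eq_true, zero_pow, sub_zero,
        smul_zero, one_mul, norm_pow, Real.norm_eq_abs]
      apply pow_le_pow_left₀ (abs_nonneg _)
      rcases le_total r 0 with hr | hr
      · rw [max_eq_right hr]; simp
      · rw [max_eq_left hr]
    refine h1.trans_isLittleO ?_
    have h2 : (fun x' : ℝ => x' ^ 2) =o[𝓝 0] fun x' : ℝ => x' ^ 1 :=
      Asymptotics.isLittleO_pow_pow (by norm_num)
    simpa using h2
  · have h1 : (fun r : ℝ => (max r 0) ^ 2) =ᶠ[𝓝 s] fun r => r ^ 2 := by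
      filter_upwards [Ioi_mem_nhds h] with r hr
      rw [max_eq_left (le_of_lt hr)]
    rw [max_eq_left h.le]
    have h2 : HasDerivAt (fun r : ℝ => r ^ 2) (2 * s) s := by
      simpa using hasDerivAt_pow 2 s
    exact h2.congr_of_eventuallyEq h1

section env
variable {g : ℝ → ℝ} (hg : Continuous g) {k p q t x : ℝ} (hpq : p ≤ q)
include hg hpq

lemma RR_att : ∃ z ∈ Icc p q, RR g k p q t x =
    g z - (max (z - (x - (1 - 2 * k) * t)) 0) ^ 2 / (4 * t) := by
  exact isCompact_Icc.exists_sSup_image_eq (nonempty_Icc.2 hpq)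
    (f := fun z : ℝ => g z - (max (z - (x - (1 - 2 * k) * t)) 0) ^ 2 / (4 * t)) (by fun_prop)

lemma RL_att : ∃ z ∈ Icc p q, RL g k p q t x =
    g z - (max ((x - (1 - 2 * k) * t) - z) 0) ^ 2 / (4 * t) := by
  exact isCompact_Icc.exists_sSup_image_eq (nonempty_Icc.2 hpq)
    (f := fun z : ℝ => g z - (max ((x - (1 - 2 * k) * t) - z) 0) ^ 2 / (4 * t)) (by fun_prop)

omit hpq in
lemma RR_ge {z : ℝ} (hz : z ∈ Icc p q) :
    g z - (max (z - (x - (1 - 2 * k) * t)) 0) ^ 2 / (4 * t) ≤ RR g k p q t x := by
  apply le_csSup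
  · exact (isCompact_Icc (a := p) (b := q)).bddAbove_image (by fun_prop)
  · exact ⟨z, hz, rfl⟩

omit hpq in
lemma RL_ge {z : ℝ} (hz : z ∈ Icc p q) :
    g z - (max ((x - (1 - 2 * k) * t) - z) 0) ^ 2 / (4 * t) ≤ RL g k p q t x := by
  apply le_csSup
  · exact (isCompact_Icc (a := p) (b := q)).bddAbove_image (by fun_prop)
  · exact ⟨z, hz, rfl⟩

omit hpq in
/-- derivative formulas at a maximiser -/
lemma RR_deriv {z rt rx : ℝ} (ht : 0 < t) (hz : z ∈ Icc p q)
    (heq : RR g k p q t x = g z - (max (z - (x - (1 - 2 * k) * t)) 0) ^ 2 / (4 * t))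
    (h1 : HasDerivAt (fun r => RR g k p q r x) rt t)
    (h2 : HasDerivAt (fun y => RR g k p q t y) rx x) :
    rx = max (z - (x - (1 - 2 * k) * t)) 0 / (2 * t) ∧ rt = -(1 - 2 * k) * rx + rx ^ 2 := by
  have e2 : max (z - (x - (1 - 2 * k) * t)) 0 / (2 * t) = rx := by
    refine touch (f := fun y => g z - (max (z - (y - (1 - 2 * k) * t)) 0) ^ 2 / (4 * t)) ?_ h2
      (Eventually.of_forall fun y => RR_ge hg hz) heq.symm
    have h3 : HasDerivAt (fun y : ℝ => z - (y - (1 - 2 * k) * t)) (-1) x := by
      have := ((hasDerivAt_id x).sub_const ((1 - 2 * k) * t)).const_sub z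
      simpa using this
    have h4 := (hasDerivAt_max_sq (z - (x - (1 - 2 * k) * t))).comp x h3
    have h5 := (h4.div_const (4 * t)).const_sub (g z)
    refine HasDerivAt.congr_deriv h5 ?_
    field_simp
    ring
  have e1 : -(1 - 2 * k) * rx + rx ^ 2 = rt := by
    refine touch (f := fun r => g z - (max (z - (x - (1 - 2 * k) * r)) 0) ^ 2 / (4 * r)) ?_ h1
      (Eventually.of_forall fun y => RR_ge hg hz) heq.symm
    have h3 : HasDerivAt (fun r : ℝ => z - (x - (1 - 2 * k) * r)) (1 - 2 * k) t := by
      have := (((hasDerivAt_id t).const_mul (1 - 2 * k)).const_sub x).const_sub z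
      simpa using this
    have h4 := (hasDerivAt_max_sq (z - (x - (1 - 2 * k) * t))).comp t h3
    have h6 : HasDerivAt (fun r : ℝ => 4 * r) 4 t := by
      simpa using (hasDerivAt_id t).const_mul (4:ℝ)
    have h5 := (h4.div h6 (by positivity)).const_sub (g z)
    refine HasDerivAt.congr_deriv h5 ?_
    rw [← e2]
    simp only [Function.comp]
    field_simp
    ring
  exact ⟨e2.symm, e1.symm⟩

omit hpq in
lemma RL_deriv {z lt lx : ℝ} (ht : 0 < t) (hz : z ∈ Icc p q)
    (heq : RL g k p q t x = g z - (max ((x - (1 - 2 * k) * t) - z) 0) ^ 2 / (4 * t))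
    (h1 : HasDerivAt (fun r => RL g k p q r x) lt t)
    (h2 : HasDerivAt (fun y => RL g k p q t y) lx x) :
    lx = -(max ((x - (1 - 2 * k) * t) - z) 0) / (2 * t) ∧ lt = -(1 - 2 * k) * lx + lx ^ 2 := by
  have e2 : -(max ((x - (1 - 2 * k) * t) - z) 0) / (2 * t) = lx := by
    refine touch (f := fun y => g z - (max ((y - (1 - 2 * k) * t) - z) 0) ^ 2 / (4 * t)) ?_ h2
      (Eventually.of_forall fun y => RL_ge hg hz) heq.symm
    have h3 : HasDerivAt (fun y : ℝ => (y - (1 - 2 * k) * t) - z) 1 x := by
      have := ((hasDerivAt_id x).sub_const ((1 - 2 * k) * t)).sub_const z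
      simpa using this
    have h4 := (hasDerivAt_max_sq ((x - (1 - 2 * k) * t) - z)).comp x h3
    have h5 := (h4.div_const (4 * t)).const_sub (g z)
    refine HasDerivAt.congr_deriv h5 ?_
    field_simp
    ring
  have e1 : -(1 - 2 * k) * lx + lx ^ 2 = lt := by
    refine touch (f := fun r => g z - (max ((x - (1 - 2 * k) * r) - z) 0) ^ 2 / (4 * r)) ?_ h1
      (Eventually.of_forall fun y => RL_ge hg hz) heq.symm
    have h3 : HasDerivAt (fun r : ℝ => (x - (1 - 2 * k) * r) - z) (-(1 - 2 * k)) t := by
      have := (((hasDerivAt_id t).const_mul (1 - 2 * k)).const_sub x).sub_const z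
      simpa using this
    have h4 := (hasDerivAt_max_sq ((x - (1 - 2 * k) * t) - z)).comp t h3
    have h6 : HasDerivAt (fun r : ℝ => 4 * r) 4 t := by
      simpa using (hasDerivAt_id t).const_mul (4:ℝ)
    have h5 := (h4.div h6 (by positivity)).const_sub (g z)
    refine HasDerivAt.congr_deriv h5 ?_
    rw [← e2]
    simp only [Function.comp]
    field_simp
    ring
  exact ⟨e2.symm, e1.symm⟩

end env

theorem taskV1 : TaskV1 := by
  intro U0 hU k B x₁ t x rt rx lt lx v hk0 hk1 hB1 hB2 ht hx hrt hrx hlt hlx hv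
  have hF := taskHL U0 hU
  set g : ℝ → ℝ := fun z => U0 z - k * z with hg
  have hgc : Continuous g := by
    have := hU.cont
    fun_prop
  set y : ℝ := x - (1 - 2 * k) * t with hy
  set P : ℝ → ℝ := fun z => g z - (z - y) ^ 2 / (4 * t) with hP
  set K : ℝ := HL U0 t x - k * x + k * (1 - k) * t with hK
  have hPform : ∀ z x' : ℝ, U0 z - t * (1 - (x' - z) / t) ^ 2 / 4 =
      g z - (z - (x' - (1 - 2 * k) * t)) ^ 2 / (4 * t) + k * x' - k * (1 - k) * t := by
    intro z x'
    simp only [hg]
    field_simp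
    ring
  have hge' : ∀ z x' : ℝ, U0 z - t * (1 - (x' - z) / t) ^ 2 / 4 ≤ HL U0 t x' := by
    intro z x'
    have := hF.ge t x' ((x' - z) / t) ht.le
    have e : x' - (x' - z) / t * t = z := by field_simp; ring
    rwa [e] at this
  have hPle : ∀ z, P z ≤ K := by
    intro z
    have h1 := hge' z x
    rw [hPform z x] at h1
    simp only [hP, hK]
    linarith
  have huniq : ∀ z, P z = K → z = y + 2 * t * (v - k) := by
    intro z hz
    have h1 : HasDerivAt (fun x' : ℝ => U0 z - t * (1 - (x' - z) / t) ^ 2 / 4)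
        ((1 - (x - z) / t) / 2) x := by
      have h2 : HasDerivAt (fun x' : ℝ => 1 - (x' - z) / t) (-(1 / t)) x := by
        have := (((hasDerivAt_id x).sub_const z).div_const t).const_sub 1
        simpa using this
      have h3 := (((h2.pow 2).const_mul t).div_const 4).const_sub (U0 z)
      refine HasDerivAt.congr_deriv h3 ?_
      have e : t * (1 / t) = 1 := by field_simp
      rw [show (2 - 1 : ℕ) = 1 from rfl, pow_one]
      push_cast
      linear_combination ((1 - (x - z) / t) / 2) * e
    have h4 := touch h1 hv (Eventually.of_forall fun x' => hge' z x') (by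
      show U0 z - t * (1 - (x - z) / t) ^ 2 / 4 = HL U0 t x
      rw [hPform z x]
      simp only [hP, hK] at hz
      linarith)
    rw [← h4, hy]
    field_simp
    ring
  obtain ⟨z0, hz0B, hz0⟩ : ∃ z ∈ Icc (-B) B, P z = K := by
    obtain ⟨c, hc, h1⟩ := hF.att t x ht.le
    refine ⟨x - c * t, ?_, ?_⟩
    · have hc' : |c * t| ≤ t := by
        rw [abs_mul, abs_of_pos ht]
        have : |c| ≤ 1 := abs_le.2 ⟨hc.1, hc.2⟩
        nlinarith
      have h2 := abs_le.1 hc'
      have h3 := abs_le.1 hx
      constructor <;> linarith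
    · simp only [hP, hK, h1]
      have h2 := hPform (x - c * t) x
      have e : (x - (x - c * t)) / t = c := by field_simp; ring
      rw [e] at h2
      linarith
  have hz0' := huniq z0 hz0
  obtain ⟨zR, hzR, hRR⟩ := RR_att hgc (k := k) (t := t) (x := x) hB2
  obtain ⟨zL, hzL, hRL⟩ := RL_att hgc (k := k) (t := t) (x := x) hB1
  obtain ⟨hrx', hrt'⟩ := RR_deriv hgc ht hzR hRR hrt hrx
  obtain ⟨hlx', hlt'⟩ := RL_deriv hgc ht hzL hRL hlt hlx
  rw [← hy] at hRR hRL hrx' hlx'
  -- values of the envelopes dominate P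
  have hRRge : ∀ z ∈ Icc x₁ B, P z ≤ RR g k x₁ B t x := by
    intro z hz
    refine le_trans ?_ (RR_ge hgc hz)
    simp only [hP, ← hy]
    have : (max (z - y) 0) ^ 2 ≤ (z - y) ^ 2 := by
      rw [← sq_abs (z - y)]
      apply pow_le_pow_left₀ (le_max_right _ _)
      exact max_le (le_abs_self _) (abs_nonneg _)
    have h4t : 0 < 4 * t := by positivity
    have := div_le_div_of_nonneg_right this h4t.le
    linarith
  have hRLge : ∀ z ∈ Icc (-B) x₁, P z ≤ RL g k (-B) x₁ t x := by
    intro z hz
    refine le_trans ?_ (RL_ge hgc hz)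
    simp only [hP, ← hy]
    have : (max (y - z) 0) ^ 2 ≤ (z - y) ^ 2 := by
      rw [← sq_abs (z - y), abs_sub_comm]
      apply pow_le_pow_left₀ (le_max_right _ _)
      exact max_le (le_abs_self _) (abs_nonneg _)
    have h4t : 0 < 4 * t := by positivity
    have := div_le_div_of_nonneg_right this h4t.le
    linarith
  have hv' : v - k = (z0 - y) / (2 * t) := by
    rw [hz0']; field_simp; ring
  have h2t : 0 < 2 * t := by positivity
  have hgoal1 : (rt - lt) + (1 - k - v) * (rx - lx) = rx * (rx - (v - k)) - lx * (lx - (v - k)) := by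
    rw [hrt', hlt']; ring
  have hgoal2 : (lt - rt) + (1 - k - v) * (lx - rx) = lx * (lx - (v - k)) - rx * (rx - (v - k)) := by
    rw [hrt', hlt']; ring
  constructor
  · intro hlt2
    rw [hgoal1]
    have c1 : rx * (rx - (v - k)) = 0 := by
      rcases le_or_gt (zR - y) 0 with h | h
      · rw [max_eq_right h] at hrx'
        rw [hrx']; simp
      · rw [max_eq_left h.le] at hrx' hRR
        have h1 : RR g k x₁ B t x = P zR := by
          rw [hRR]
        have h2 : K ≤ RR g k x₁ B t x := by
          rw [← hz0]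
          rcases le_total x₁ z0 with h3 | h3
          · exact hRRge z0 ⟨h3, hz0B.2⟩
          · exact (hRLge z0 ⟨hz0B.1, h3⟩).trans hlt2.le
        have h3 : P zR = K := le_antisymm (hPle zR) (by rw [← h1]; exact h2)
        have h4 := huniq zR h3
        rw [hrx', hv', hz0', h4]; simp
    have c2 : 0 ≤ lx * (lx - (v - k)) := by
      rcases le_or_gt (y - zL) 0 with h | h
      · rw [max_eq_right h] at hlx'
        rw [hlx']; simp
      · rw [max_eq_left h.le] at hlx' hRL
        have hneg : lx < 0 := by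
          rw [hlx', neg_div]
          have : 0 < (y - zL) / (2 * t) := div_pos h h2t
          linarith
        have : lx ≤ v - k := by
          by_contra hcon
          push Not at hcon
          rw [hv', hlx', div_lt_div_iff_of_pos_right h2t] at hcon
          have hz0zL : z0 < zL := by linarith
          have h1 : RL g k (-B) x₁ t x = P zL := by
            rw [hRL]; simp only [hP]; congr 2; ring
          have h2 : P z0 ≤ RL g k (-B) x₁ t x := hRLge z0 ⟨hz0B.1, hz0zL.le.trans hzL.2⟩
          have h3 : P zL = K := le_antisymm (hPle zL) (by rw [← hz0, ← h1]; exact h2)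
          have h4 := huniq zL h3
          linarith
        nlinarith
    linarith
  · intro hlt2
    rw [hgoal2]
    have c1 : lx * (lx - (v - k)) = 0 := by
      rcases le_or_gt (y - zL) 0 with h | h
      · rw [max_eq_right h] at hlx'
        rw [hlx']; simp
      · rw [max_eq_left h.le] at hlx' hRL
        have h1 : RL g k (-B) x₁ t x = P zL := by
          rw [hRL]; simp only [hP]; congr 2; ring
        have h2 : K ≤ RL g k (-B) x₁ t x := by
          rw [← hz0]
          rcases le_total x₁ z0 with h3 | h3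
          · exact (hRRge z0 ⟨h3, hz0B.2⟩).trans hlt2.le
          · exact hRLge z0 ⟨hz0B.1, h3⟩
        have h3 : P zL = K := le_antisymm (hPle zL) (by rw [← h1]; exact h2)
        have h4 := huniq zL h3
        have : lx = v - k := by
          rw [hlx', hv', hz0', h4]; ring
        rw [this]; simp
    have c2 : 0 ≤ rx * (rx - (v - k)) := by
      rcases le_or_gt (zR - y) 0 with h | h
      · rw [max_eq_right h] at hrx'
        rw [hrx']; simp
      · rw [max_eq_left h.le] at hrx' hRR
        have hpos : 0 < rx := by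
          rw [hrx']; exact div_pos h h2t
        have : v - k ≤ rx := by
          by_contra hcon
          push Not at hcon
          rw [hv', hrx', div_lt_div_iff_of_pos_right h2t] at hcon
          have hz0zR : zR < z0 := by linarith
          have h1 : RR g k x₁ B t x = P zR := by
            rw [hRR]
          have h2 : P z0 ≤ RR g k x₁ B t x := hRRge z0 ⟨hzR.1.trans hz0zR.le, hz0B.2⟩
          have h3 : P zR = K := le_antisymm (hPle zR) (by rw [← hz0, ← h1]; exact h2)
          have h4 := huniq zR h3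
          linarith
        nlinarith
    linarith

end Pool.Agent.W807.TF
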