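import Pool.Agent.W807.TF.AE
import Pool.Agent.W807.TF.V1
import Pool.Agent.W807.TF.TW

set_option autoImplicit false

open MeasureTheory Set Filter Topology

namespace Pool.Agent.W807.TF

lemma sign_identity (w k : ℝ) :
    Real.sign (w - k) * (w * (1 - w) - k * (1 - k)) = |w - k| * (1 - w - k) := by
  have e : w * (1 - w) - k * (1 - k) = (w - k) * (1 - w - k) := by ring
  rw [e, ← mul_assoc]
  congr 1
  rcases lt_trichotomy (w - k) 0 with h | h | h
  · rw [Real.sign_of_neg h, abs_of_neg h]; ring
  · rw [h]; simp
  · rw [Real.sign_of_pos h, abs_of_pos h]; ring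

lemma max_lip (a b : ℝ) : |max a 0 - max b 0| ≤ |a - b| := by
  have := abs_max_sub_max_le_max a 0 b 0
  simpa using this

theorem taskMP (hLip : TaskLip) : TaskMP := by
  intro ub w W hub hw hK hW k C₀ t₁ t₂ x₀ ρ hk0 hk1 ht1 ht12 hρ hbase
  -- the function Z and the cone function
  set Z : ℝ → ℝ → ℝ := fun t x => W t x - k * x + k * (1 - k) * t - C₀ with hZ
  set cone : ℝ → ℝ → ℝ := fun t x => ρ + 2 * (t₂ - t) - |x - x₀| with hcone
  have hZc : Continuous (Function.uncurry Z) := by
    have h1 := hW.cont
    have h2 : Function.uncurry Z = fun p : ℝ × ℝ =>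
        Function.uncurry W p - k * p.2 + k * (1 - k) * p.1 - C₀ := by
      funext p; rfl
    rw [h2]; fun_prop
  have hconec : Continuous (Function.uncurry cone) := by
    have h2 : Function.uncurry cone = fun p : ℝ × ℝ => ρ + 2 * (t₂ - p.1) - |p.2 - x₀| := by
      funext p; rfl
    rw [h2]; fun_prop
  have hk01 : k * (1 - k) ≤ 1 := by nlinarith
  have hk01' : 0 ≤ k * (1 - k) := mul_nonneg hk0 (by linarith)
  have hZlip : ∀ s t x y, |Z s x - Z t y| ≤ 2 * (|s - t| + |x - y|) := by
    intro s t x y
    have h1 := hW.lip s t x y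
    have e : Z s x - Z t y = (W s x - W t y) + (-(k * (x - y)) + k * (1 - k) * (s - t)) := by
      simp only [hZ]; ring
    rw [e]
    calc _ ≤ |W s x - W t y| + |-(k * (x - y)) + k * (1 - k) * (s - t)| := abs_add_le _ _
      _ ≤ (|s - t| + |x - y|) + (|k * (x - y)| + |k * (1 - k) * (s - t)|) := by
        apply add_le_add h1
        calc _ ≤ |-(k * (x - y))| + |k * (1 - k) * (s - t)| := abs_add_le _ _
          _ = _ := by rw [abs_neg]
      _ ≤ 2 * (|s - t| + |x - y|) := by
        rw [abs_mul, abs_mul, abs_of_nonneg hk0, abs_of_nonneg hk01']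
        have a1 := mul_le_mul_of_nonneg_right hk1 (abs_nonneg (x - y))
        have a2 := mul_le_mul_of_nonneg_right hk01 (abs_nonneg (s - t))
        linarith
  -- the test function
  set f : ℝ → ℝ → ℝ := fun t x => max (Z (max t t₁) x) 0 with hf
  set g : ℝ → ℝ → ℝ := fun t x => max (cone (max t t₁) x) 0 with hg
  set ζ : ℝ → ℝ → ℝ := fun t x => f t x * g t x with hζ
  have hf0 : ∀ t x, 0 ≤ f t x := fun t x => le_max_right _ _
  have hg0 : ∀ t x, 0 ≤ g t x := fun t x => le_max_right _ _
  have hζ0 : ∀ t x, 0 ≤ ζ t x := fun t x => mul_nonneg (hf0 t x) (hg0 t x)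
  have hmaxlip : ∀ s t : ℝ, |max s t₁ - max t t₁| ≤ |s - t| := by
    intro s t
    have := abs_max_sub_max_le_max s t₁ t t₁
    simpa using this
  have hflip : ∀ s t x y, |f s x - f t y| ≤ 2 * (|s - t| + |x - y|) := by
    intro s t x y
    calc |f s x - f t y| ≤ |Z (max s t₁) x - Z (max t t₁) y| := max_lip _ _
      _ ≤ 2 * (|max s t₁ - max t t₁| + |x - y|) := hZlip _ _ _ _
      _ ≤ 2 * (|s - t| + |x - y|) := by linarith [hmaxlip s t]
  have hglip : ∀ s t x y, |g s x - g t y| ≤ 2 * (|s - t| + |x - y|) := by
    intro s t x y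
    calc |g s x - g t y| ≤ |cone (max s t₁) x - cone (max t t₁) y| := max_lip _ _
      _ = |2 * (max t t₁ - max s t₁) + (|y - x₀| - |x - x₀|)| := by
        congr 1; simp only [hcone]; ring
      _ ≤ |2 * (max t t₁ - max s t₁)| + |(|y - x₀| - |x - x₀|)| := abs_add_le _ _
      _ ≤ 2 * |s - t| + |x - y| := by
        apply add_le_add
        · rw [abs_mul, abs_two, abs_sub_comm]
          linarith [hmaxlip s t]
        · have := abs_abs_sub_abs_le_abs_sub (y - x₀) (x - x₀)
          rw [sub_sub_sub_cancel_right, abs_sub_comm y x] at this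
          exact this
      _ ≤ 2 * (|s - t| + |x - y|) := by linarith [abs_nonneg (x - y)]
  set R : ℝ := ρ + 2 * (t₂ - t₁) with hR
  have hRpos : 0 < R := by rw [hR]; linarith
  have hgR : ∀ t x, |g t x| ≤ R := by
    intro t x
    rw [abs_of_nonneg (hg0 t x)]
    apply max_le _ hRpos.le
    simp only [hcone, hR]
    have := le_max_right t t₁
    linarith [abs_nonneg (x - x₀)]
  have hgsupp : ∀ t x, g t x ≠ 0 → max t t₁ ≤ t₂ + ρ / 2 ∧ |x - x₀| ≤ R := by
    intro t x h
    have h1 : 0 < cone (max t t₁) x := by
      by_contra hcon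
      push Not at hcon
      exact h (max_eq_right hcon)
    simp only [hcone] at h1
    have h2 := le_max_right t t₁
    have h3 := abs_nonneg (x - x₀)
    constructor
    · linarith
    · rw [hR]; linarith
  have hfM : ∃ M, 0 ≤ M ∧ ∀ t x, g t x ≠ 0 → |f t x| ≤ M := by
    refine ⟨2 * (t₂ + ρ / 2 + (|x₀| + R)) + |Z 0 0|, ?_, ?_⟩
    · have : 0 ≤ t₂ := by linarith
      positivity
    · intro t x h
      obtain ⟨h1, h2⟩ := hgsupp t x h
      rw [abs_of_nonneg (hf0 t x)]
      have h3 := hZlip (max t t₁) 0 x 0
      have h4 : 0 ≤ max t t₁ := le_trans ht1 (le_max_right _ _)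
      rw [sub_zero, sub_zero, abs_of_nonneg h4] at h3
      have h5 : |x| ≤ |x₀| + R := by
        have : x = x₀ + (x - x₀) := by ring
        calc |x| = |x₀ + (x - x₀)| := by rw [← this]
          _ ≤ |x₀| + |x - x₀| := abs_add_le _ _
          _ ≤ _ := by linarith
      apply max_le
      · have h6 := (abs_le.1 h3).2
        have h7 := le_abs_self (Z 0 0)
        linarith
      · have : 0 ≤ t₂ := by linarith
        positivity
  obtain ⟨M, hM0, hM⟩ := hfM
  have hζlip : ∃ L : ℝ, ∀ s t x y, |ζ s x - ζ t y| ≤ L * (|s - t| + |x - y|) :=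
    ⟨M * 2 + R * 2, fun s t x y =>
      prod_lip hM0 (by norm_num) hflip hglip hgR hM s t x y⟩
  -- ζ vanishes for t ≤ t₁
  have hζt1 : ∀ t x, t ≤ t₁ → ζ t x = 0 := by
    intro t x ht
    simp only [hζ, hf, hg]
    rw [max_eq_right ht]
    rcases le_or_gt (cone t₁ x) 0 with h | h
    · rw [max_eq_right h, mul_zero]
    · have h1 : |x - x₀| < ρ + 2 * (t₂ - t₁) := by
        simp only [hcone] at h; linarith
      have h2 := hbase x h1
      have h3 : Z t₁ x ≤ 0 := by simp only [hZ]; linarith
      rw [max_eq_right h3, zero_mul]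
  have hζsupp : ∀ t x, ζ t x ≠ 0 → t ∈ Icc t₁ (t₂ + ρ / 2) ∧ x ∈ Icc (x₀ - R) (x₀ + R) := by
    intro t x h
    have h1 : t₁ < t := by
      by_contra hcon
      push Not at hcon
      exact h (hζt1 t x hcon)
    have h2 : g t x ≠ 0 := fun h3 => h (by simp only [hζ, h3, mul_zero])
    obtain ⟨h3, h4⟩ := hgsupp t x h2
    have h5 := abs_le.1 h4
    exact ⟨⟨h1.le, (le_max_left t t₁).trans h3⟩, ⟨by linarith [h5.1], by linarith [h5.2]⟩⟩
  have hζcs : HasCompactSupport (Function.uncurry ζ) := by
    apply HasCompactSupport.intro (K := Icc t₁ (t₂ + ρ / 2) ×ˢ Icc (x₀ - R) (x₀ + R))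
      (isCompact_Icc.prod isCompact_Icc)
    rintro ⟨t, x⟩ h
    by_contra hcon
    exact h (hζsupp t x hcon)
  have hζc : Continuous (Function.uncurry ζ) := by
    have h1 : Continuous (fun p : ℝ × ℝ => ((max p.1 t₁, p.2) : ℝ × ℝ)) := by fun_prop
    have h2 : Continuous (fun p : ℝ × ℝ => Function.uncurry Z (max p.1 t₁, p.2)) := hZc.comp h1
    have h3 : Continuous (fun p : ℝ × ℝ => Function.uncurry cone (max p.1 t₁, p.2)) :=
      hconec.comp h1
    have h4 : Function.uncurry ζ = fun p : ℝ × ℝ =>
        max (Function.uncurry Z (max p.1 t₁, p.2)) 0 *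
          max (Function.uncurry cone (max p.1 t₁, p.2)) 0 := by
      funext p; rfl
    rw [h4]
    fun_prop
  -- the Kruzhkov inequality with ζ
  set A : ℝ → ℝ → ℝ := fun t x => |w t x - k| with hA
  set Bf : ℝ → ℝ → ℝ := fun t x =>
    Real.sign (w t x - k) * (w t x * (1 - w t x) - k * (1 - k)) with hB
  have hBe : ∀ t x, Bf t x = |w t x - k| * (1 - w t x - k) := fun t x => sign_identity _ _
  have hAm : Measurable (Function.uncurry A) := (hw.1.sub measurable_const).abs
  have hBm : Measurable (Function.uncurry Bf) := by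
    have : Function.uncurry Bf = fun p : ℝ × ℝ =>
        |Function.uncurry w p - k| * (1 - Function.uncurry w p - k) := by
      funext p; exact hBe p.1 p.2
    rw [this]
    have hwm := hw.1
    fun_prop
  have hAb : ∀ t x, |A t x| ≤ 1 := by
    intro t x
    have := hw.2 t x
    simp only [hA, abs_abs]
    rw [abs_le]; constructor <;> linarith
  have hfac : ∀ t x, |1 - w t x - k| ≤ 1 := by
    intro t x
    have := hw.2 t x
    rw [abs_le]; constructor <;> linarith
  have hBb : ∀ t x, |Bf t x| ≤ 1 := by
    intro t x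
    rw [hBe, abs_mul, abs_abs]
    have h1 := hAb t x
    simp only [hA, abs_abs] at h1
    calc _ ≤ (1:ℝ) * 1 := mul_le_mul h1 (hfac t x) (abs_nonneg _) zero_le_one
      _ = 1 := one_mul 1
  have hCm : Measurable (fun x => |ub x - k|) := (hub.1.sub measurable_const).abs
  have hCb : ∀ x, |(|ub x - k|)| ≤ 1 := by
    intro x
    have := hub.2 x
    rw [abs_abs, abs_le]; constructor <;> linarith
  have hineq := hLip A Bf (fun x => |ub x - k|) 1 hAm hBm hCm hAb hBb hCb
    (fun φ hφ hc hφ0 => hK k φ hφ hc hφ0) ζ hζlip hζcs hζ0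
  have hζ00 : ∀ x, ζ 0 x = 0 := fun x => hζt1 0 x ht1
  simp only [hζ00, mul_zero, integral_zero, add_zero] at hineq
  -- the dissipation function
  set q : ℝ → ℝ → ℝ := fun t x =>
    if t₁ < t ∧ 0 < cone t x then |w t x - k| * max (Z t x) 0 else 0 with hq
  have hq0 : ∀ t x, 0 ≤ q t x := by
    intro t x
    simp only [hq]
    split_ifs
    · exact mul_nonneg (abs_nonneg _) (le_max_right _ _)
    · exact le_rfl
  have hqm : Measurable (Function.uncurry q) := by
    have h1 : MeasurableSet {p : ℝ × ℝ | t₁ < p.1 ∧ 0 < Function.uncurry cone p} :=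
      (measurableSet_lt measurable_const measurable_fst).inter
        (measurableSet_lt measurable_const hconec.measurable)
    have h2 : Function.uncurry q = fun p : ℝ × ℝ =>
        if t₁ < p.1 ∧ 0 < Function.uncurry cone p then
          |Function.uncurry w p - k| * max (Function.uncurry Z p) 0 else 0 := by
      funext p; rfl
    rw [h2]
    apply Measurable.ite h1 _ measurable_const
    have hwm := hw.1
    have hZm := hZc.measurable
    fun_prop
  have hqb : ∀ t x, |q t x| ≤ M := by
    intro t x
    rw [abs_of_nonneg (hq0 t x)]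
    simp only [hq]
    split_ifs with h
    · have h1 : max t t₁ = t := max_eq_left h.1.le
      have h2 : g t x ≠ 0 := by
        simp only [hg, h1]
        rw [max_eq_left h.2.le]; exact h.2.ne'
      have h3 := hM t x h2
      simp only [hf, h1] at h3
      have h4 := hAb t x
      simp only [hA, abs_abs] at h4
      have h5 : 0 ≤ max (Z t x) 0 := le_max_right _ _
      rw [abs_of_nonneg h5] at h3
      calc |w t x - k| * max (Z t x) 0 ≤ 1 * M := mul_le_mul h4 h3 h5 zero_le_one
        _ = M := one_mul M
    · exact hM0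
  have hqsupp : ∀ t x, (t, x) ∉ Icc t₁ (t₂ + ρ / 2) ×ˢ Icc (x₀ - R) (x₀ + R) → q t x = 0 := by
    intro t x h
    simp only [hq]
    split_ifs with h1
    · exfalso
      apply h
      have h2 := h1.2
      simp only [hcone] at h2
      have h3 := abs_nonneg (x - x₀)
      have h4 : |x - x₀| ≤ R := by rw [hR]; linarith [h1.1]
      have h5 := abs_le.1 h4
      exact ⟨⟨h1.1.le, by linarith⟩, ⟨by linarith [h5.1], by linarith [h5.2]⟩⟩
    · rfl
  have hqint : Integrable (Function.uncurry q) mp :=
    int_of_supp (isCompact_Icc.prod isCompact_Icc) hqm hqb hqsupp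
  obtain ⟨Lζ, hLζ⟩ := hζlip
  set G : ℝ → ℝ → ℝ := fun t x => A t x * deriv (fun s => ζ s x) t +
    Bf t x * deriv (fun y => ζ t y) x with hG
  have hGint : Integrable (Function.uncurry G) mp := by
    refine int_of_supp (K := tsupport (Function.uncurry ζ)) hζcs (M := 1 * Lζ + 1 * Lζ) ?_ ?_ ?_
    · exact (hAm.mul (meas_dt hζc)).add (hBm.mul (meas_dx hζc))
    · intro t x
      simp only [hG]
      have hd1 : |deriv (fun s => ζ s x) t| ≤ Lζ := abs_deriv_le_of_lip (fun a b => by
        have := hLζ a b x x; simpa using this) t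
      have hd2 : |deriv (fun y => ζ t y) x| ≤ Lζ := abs_deriv_le_of_lip (fun a b => by
        have := hLζ t t a b; simpa using this) x
      calc _ ≤ |A t x * deriv (fun s => ζ s x) t| + |Bf t x * deriv (fun y => ζ t y) x| :=
            abs_add_le _ _
        _ = |A t x| * |deriv (fun s => ζ s x) t| + |Bf t x| * |deriv (fun y => ζ t y) x| := by
            rw [abs_mul, abs_mul]
        _ ≤ _ := add_le_add (mul_le_mul (hAb t x) hd1 (abs_nonneg _) zero_le_one)
            (mul_le_mul (hBb t x) hd2 (abs_nonneg _) zero_le_one)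
    · intro t x h
      simp only [hG]
      rw [dt_zero_off h, dx_zero_off h]; ring
  -- pointwise inequality
  have hpt : ∀ᵐ z ∂mp, Function.uncurry G z ≤ -Function.uncurry q z := by
    have hne1 : ∀ᵐ z ∂mp, z.1 ≠ t₁ := by
      apply ae_mp_of_xt (p := fun t _ => t ≠ t₁)
      · exact (measurable_fst (measurableSet_singleton t₁)).compl
      · refine ae_of_all _ fun x => ae_restrict_of_ae ?_
        simp [ae_iff]
    have hne2 : ∀ᵐ z ∂mp, z.2 ≠ x₀ := by
      apply ae_mp_of_tx (p := fun _ x => x ≠ x₀)
      · exact (measurable_snd (measurableSet_singleton x₀)).compl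
      · refine ae_of_all _ fun t => ?_
        simp [ae_iff]
    filter_upwards [hW.ae_dt hw.flux, hW.ae_dx hw, hne1, hne2] with z h1 h2 h3 h4
    obtain ⟨t, x⟩ := z
    simp only [Function.uncurry] at h1 h2 h3 h4 ⊢
    have hmin : ζ t x = 0 → deriv (fun s => ζ s x) t = 0 ∧ deriv (fun y => ζ t y) x = 0 := by
      intro h0
      constructor
      · apply IsLocalMin.deriv_eq_zero
        refine Eventually.of_forall fun s => ?_
        show ζ t x ≤ ζ s x
        rw [h0]; exact hζ0 s x
      · apply IsLocalMin.deriv_eq_zero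
        refine Eventually.of_forall fun y => ?_
        show ζ t x ≤ ζ t y
        rw [h0]; exact hζ0 t y
    rcases lt_or_gt_of_ne h3 with h5 | h5
    · have h6 := hmin (hζt1 t x h5.le)
      simp only [hG, hq]
      rw [h6.1, h6.2, if_neg (by rintro ⟨h7, _⟩; linarith)]
      simp
    · have hmt : max t t₁ = t := max_eq_left h5.le
      by_cases hZp : 0 < Z t x
      · by_cases hcp : 0 < cone t x
        · -- interior case
          have hnt : ∀ᶠ s in 𝓝 t, ζ s x = Z s x * cone s x := by
            have e1 : ∀ᶠ s in 𝓝 t, 0 < Z s x := by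
              have hc : Continuous fun s => Z s x :=
                hZc.comp (Continuous.prodMk_left x)
              exact hc.continuousAt.eventually (lt_mem_nhds hZp)
            have e2 : ∀ᶠ s in 𝓝 t, 0 < cone s x := by
              have hc : Continuous fun s => cone s x :=
                hconec.comp (Continuous.prodMk_left x)
              exact hc.continuousAt.eventually (lt_mem_nhds hcp)
            filter_upwards [e1, e2, lt_mem_nhds h5] with s a1 a2 a3
            simp only [hζ, hf, hg]
            rw [max_eq_left a3.le, max_eq_left a1.le, max_eq_left a2.le]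
          have hnx : ∀ᶠ y in 𝓝 x, ζ t y = Z t y * cone t y := by
            have e1 : ∀ᶠ y in 𝓝 x, 0 < Z t y := by
              have hc : Continuous fun y => Z t y :=
                hZc.comp (Continuous.prodMk_right t)
              exact hc.continuousAt.eventually (lt_mem_nhds hZp)
            have e2 : ∀ᶠ y in 𝓝 x, 0 < cone t y := by
              have hc : Continuous fun y => cone t y :=
                hconec.comp (Continuous.prodMk_right t)
              exact hc.continuousAt.eventually (lt_mem_nhds hcp)
            filter_upwards [e1, e2] with y a1 a2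
            simp only [hζ, hf, hg, hmt]
            rw [max_eq_left a1.le, max_eq_left a2.le]
          have dZt : HasDerivAt (fun s => Z s x) (-(w t x * (1 - w t x)) + k * (1 - k)) t := by
            have a1 := (h1.sub_const (k * x)).add (((hasDerivAt_id t).const_mul (k * (1 - k))))
            have a2 := a1.sub_const C₀
            refine HasDerivAt.congr_deriv a2 ?_
            ring
          have dZx : HasDerivAt (fun y => Z t y) (w t x - k) x := by
            have a1 := ((h2.sub ((hasDerivAt_id x).const_mul k)).add_const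
              (k * (1 - k) * t)).sub_const C₀
            refine HasDerivAt.congr_deriv a1 ?_
            ring
          have dct : HasDerivAt (fun s => cone s x) (-2) t := by
            have a1 := ((((hasDerivAt_id t).const_sub t₂).const_mul 2).const_add ρ).sub_const
              (|x - x₀|)
            refine HasDerivAt.congr_deriv a1 ?_
            ring
          obtain ⟨σ, hσ, dcx⟩ : ∃ σ : ℝ, |σ| ≤ 1 ∧ HasDerivAt (fun y => cone t y) σ x := by
            rcases lt_or_gt_of_ne h4 with h6 | h6
            · refine ⟨1, by simp, ?_⟩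
              have a0 : HasDerivAt (fun y => ρ + 2 * (t₂ - t) - -(y - x₀)) 1 x := by
                have := (((hasDerivAt_id x).sub_const x₀).neg).const_sub (ρ + 2 * (t₂ - t))
                refine HasDerivAt.congr_deriv this ?_
                ring
              refine a0.congr_of_eventuallyEq ?_
              filter_upwards [Iio_mem_nhds h6] with y hy
              simp only [hcone]
              rw [abs_of_neg (by simp only [mem_Iio] at hy; linarith)]
            · refine ⟨-1, by simp, ?_⟩
              have a0 : HasDerivAt (fun y => ρ + 2 * (t₂ - t) - (y - x₀)) (-1) x := by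
                have := ((hasDerivAt_id x).sub_const x₀).const_sub (ρ + 2 * (t₂ - t))
                exact this
              refine a0.congr_of_eventuallyEq ?_
              filter_upwards [Ioi_mem_nhds h6] with y hy
              simp only [hcone]
              rw [abs_of_pos (by simp only [mem_Ioi] at hy; linarith)]
          have dt' : deriv (fun s => ζ s x) t =
              (-(w t x * (1 - w t x)) + k * (1 - k)) * cone t x + Z t x * (-2) :=
            ((dZt.mul dct).congr_of_eventuallyEq hnt).deriv
          have dx' : deriv (fun y => ζ t y) x = (w t x - k) * cone t x + Z t x * σ :=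
            ((dZx.mul dcx).congr_of_eventuallyEq hnx).deriv
          simp only [hG, hq]
          rw [if_pos ⟨h5, hcp⟩, dt', dx', hBe, max_eq_left hZp.le]
          have hid : A t x * ((-(w t x * (1 - w t x)) + k * (1 - k)) * cone t x + Z t x * (-2)) +
              |w t x - k| * (1 - w t x - k) * ((w t x - k) * cone t x + Z t x * σ) =
              |w t x - k| * Z t x * (-2 + (1 - w t x - k) * σ) := by
            simp only [hA]; ring
          rw [hid]
          have h8 : (1 - w t x - k) * σ ≤ 1 := by
            calc (1 - w t x - k) * σ ≤ |(1 - w t x - k) * σ| := le_abs_self _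
              _ = |1 - w t x - k| * |σ| := abs_mul _ _
              _ ≤ 1 * 1 := mul_le_mul (hfac t x) hσ (abs_nonneg _) zero_le_one
              _ = 1 := one_mul 1
          have h9 : 0 ≤ |w t x - k| * Z t x := mul_nonneg (abs_nonneg _) hZp.le
          nlinarith
        · have h6 : ζ t x = 0 := by
            simp only [hζ, hf, hg, hmt]
            rw [max_eq_right (not_lt.1 hcp), mul_zero]
          have h7 := hmin h6
          simp only [hG, hq]
          rw [h7.1, h7.2, if_neg (by rintro ⟨_, h8⟩; exact hcp h8)]
          simp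
      · have h6 : ζ t x = 0 := by
          simp only [hζ, hf, hg, hmt]
          rw [max_eq_right (not_lt.1 hZp), zero_mul]
        have h7 := hmin h6
        simp only [hG, hq]
        rw [h7.1, h7.2, max_eq_right (not_lt.1 hZp)]
        simp
  -- q = 0 a.e.
  have hqzero : ∀ᵐ z ∂mp, Function.uncurry q z = 0 := by
    have e1 : ∫ t in Ioi (0:ℝ), ∫ x : ℝ, G t x = ∫ z, Function.uncurry G z ∂mp := iter_eq hGint
    rw [e1] at hineq
    have e2 : ∫ z, Function.uncurry G z ∂mp ≤ ∫ z, -Function.uncurry q z ∂mp :=
      integral_mono_ae hGint hqint.neg hpt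
    rw [integral_neg] at e2
    have e3 : 0 ≤ ∫ z, Function.uncurry q z ∂mp := integral_nonneg fun z => hq0 z.1 z.2
    have e4 : ∫ z, Function.uncurry q z ∂mp = 0 := by linarith
    have e5 := (integral_eq_zero_iff_of_nonneg (fun z : ℝ × ℝ => hq0 z.1 z.2) hqint).1 e4
    exact e5
  -- slices
  have hslice : ∀ᵐ x : ℝ, ∀ᵐ t ∂(volume.restrict (Ioi (0:ℝ))), q t x = 0 :=
    ae_xt_of_mp (p := fun t x => q t x = 0) (hqm (measurableSet_singleton 0)) hqzero
  have hfin : ∀ᵐ x : ℝ, |x - x₀| < ρ → Z t₂ x ≤ 0 := by
    filter_upwards [hslice, hW.ae_dt_slice hw.flux] with x hx1 hx2 hxρ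
    rw [ae_restrict_iff' measurableSet_Ioi] at hx1 hx2
    rcases ht12.eq_or_lt with h12 | h12
    · have h1 := hbase x (by rw [hR]; linarith)
      rw [← h12]
      simp only [hZ]; linarith
    · -- the function (Z_+)^2 is absolutely continuous with zero derivative
      have hlipZ : ∀ s t, |Z s x - Z t x| ≤ 2 * |s - t| := by
        intro s t
        have := hZlip s t x x
        simpa using this
      have hac : AbsolutelyContinuousOnInterval (fun s => max (Z s x) 0) t₁ t₂ := by
        have hl : LipschitzWith 2 (fun s => max (Z s x) 0) := by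
          apply LipschitzWith.of_dist_le_mul
          intro s t
          rw [Real.dist_eq, Real.dist_eq]
          exact (max_lip _ _).trans (hlipZ s t)
        exact (hl.lipschitzOnWith (s := uIcc t₁ t₂)).absolutelyContinuousOnInterval
      have hac2 : AbsolutelyContinuousOnInterval (fun s => max (Z s x) 0 * max (Z s x) 0) t₁ t₂ :=
        hac.mul hac
      obtain ⟨C, hC⟩ := hac2.const_of_ae_hasDerivAt_zero (by
        have hne : ∀ᵐ t : ℝ, t ≠ t₁ := by simp [ae_iff]
        filter_upwards [hx1, hx2, hne] with t a1 a2 a3 ht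
        rw [uIcc_of_le ht12] at ht
        have ht1' : t₁ < t := lt_of_le_of_ne ht.1 (Ne.symm a3)
        have ht0 : 0 < t := lt_of_le_of_lt ht1 ht1'
        have b1 := a1 ht0
        have b2 := a2 ht0
        have hcp : 0 < cone t x := by
          simp only [hcone]
          linarith [ht.2]
        simp only [hq] at b1
        rw [if_pos ⟨ht1', hcp⟩] at b1
        have dZt : HasDerivAt (fun s => Z s x) (-(w t x * (1 - w t x)) + k * (1 - k)) t := by
          have a1 := (b2.sub_const (k * x)).add (((hasDerivAt_id t).const_mul (k * (1 - k))))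
          have a2 := a1.sub_const C₀
          refine HasDerivAt.congr_deriv a2 ?_
          ring
        have h3 := (hasDerivAt_max_sq (Z t x)).comp t dZt
        have h4 : (fun s => max (Z s x) 0 * max (Z s x) 0) =
            (fun r : ℝ => (max r 0) ^ 2) ∘ fun s => Z s x := by
          funext s; simp only [Function.comp]; ring
        rw [h4]
        refine HasDerivAt.congr_deriv h3 ?_
        have e : -(w t x * (1 - w t x)) + k * (1 - k) = -((w t x - k) * (1 - w t x - k)) := by
          ring
        rw [e]
        rcases mul_eq_zero.1 b1 with h5 | h5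
        · rw [abs_eq_zero] at h5
          rw [h5]; ring
        · rw [h5]; ring)
      have h5 := hC t₁ left_mem_uIcc
      have h6 := hC t₂ right_mem_uIcc
      have h7 : Z t₁ x ≤ 0 := by
        have := hbase x (by linarith)
        simp only [hZ]; linarith
      rw [max_eq_right h7] at h5
      rw [← h5] at h6
      by_contra hcon
      push Not at hcon
      rw [max_eq_left hcon.le] at h6
      nlinarith
  -- conclude by density
  have hZ0 : Z t₂ x₀ ≤ 0 := by
    by_contra hcon
    push Not at hcon
    have hc : Continuous fun y => Z t₂ y := hZc.comp (Continuous.prodMk_right t₂)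
    have hopen : IsOpen ({y : ℝ | 0 < Z t₂ y} ∩ Metric.ball x₀ ρ) :=
      (isOpen_lt continuous_const hc).inter Metric.isOpen_ball
    have hne : ({y : ℝ | 0 < Z t₂ y} ∩ Metric.ball x₀ ρ).Nonempty :=
      ⟨x₀, hcon, Metric.mem_ball_self hρ⟩
    obtain ⟨y, hy1, hy2⟩ := (Measure.dense_of_ae hfin).exists_mem_open hopen hne
    have := hy1 (by
      have := hy2.2
      rwa [Metric.mem_ball, Real.dist_eq] at this)
    exact absurd hy2.1 (not_lt.2 this)
  simp only [hZ] at hZ0
  linarith

end Pool.Agent.W807.TF
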