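import Pool.Agent.W807.TF.Pot

set_option autoImplicit false

open MeasureTheory Set Filter Topology

namespace Pool.Agent.W807.TF

theorem taskPot : TaskPot := by
  intro ub v F hub hv hF hweak
  set Wt : ℝ → ℝ → ℝ := fun t z => ∫ w in (0:ℝ)..z, v t w with hWt
  set Vf : ℝ → ℝ → ℝ := fun t z => prim ub z - Phi F t z with hVf
  set c : ℝ → ℝ := fun t => ∫ z in (0:ℝ)..1, Dd ub v F t z with hc
  have hDd : ∀ t z, Dd ub v F t z = Vf t z - Wt t z := fun t z => rfl
  have hWc : ∀ t, Continuous (Wt t) := fun t => Wt_cont hub hv hF t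
  have hpc : Continuous (prim ub) := prim_cont' hub hv hF
  have hG0 : ∀ᵐ t : ℝ, 0 < t → ∀ᵐ z : ℝ, Vf t z = Wt t z + c t := by
    filter_upwards [Dd_const hub hv hF hweak] with t ht ht0
    obtain ⟨c', hc'⟩ := ht ht0
    have h1 : c t = c' := by
      simp only [hc]
      rw [intervalIntegral.integral_congr_ae (g := fun _ => c')]
      · simp
      · filter_upwards [hc'] with z hz _
        exact hz
    filter_upwards [hc'] with z hz
    rw [h1, ← hz, hDd]; ring
  set G : Set ℝ := {t | 0 < t ∧ ∀ᵐ z : ℝ, Vf t z = Wt t z + c t} with hG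
  have hGcl : ∀ t : ℝ, 0 ≤ t → t ∈ closure G := by
    intro t ht
    rw [Metric.mem_closure_iff]
    intro δ hδ
    obtain ⟨b, hb1, hb2⟩ := (Measure.dense_of_ae hG0).exists_mem_open
      (isOpen_Ioo (a := t) (b := t + δ)) ⟨t + δ / 2, by constructor <;> linarith⟩
    have hb0 : 0 < b := lt_of_le_of_lt ht hb2.1
    refine ⟨b, ⟨hb0, hb1 hb0⟩, ?_⟩
    rw [Real.dist_eq, abs_sub_comm, abs_of_pos (by linarith [hb2.1])]
    linarith [hb2.2]
  have hdens : ∀ P : ℝ → Prop, IsClosed {t | P t} → (∀ t ∈ G, P t) → ∀ t, 0 ≤ t → P t := by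
    intro P hP hPG t ht
    have h1 : closure G ⊆ {t | P t} := closure_minimal hPG hP
    exact h1 (hGcl t ht)
  set f : ℝ → ℝ → ℝ := fun x t => Wt t x + c t with hf
  have hfcx : ∀ t, Continuous (fun x => f x t) := fun t => (hWc t).add continuous_const
  have hflip : ∀ x, ∀ s ∈ G, ∀ t ∈ G, |f x s - f x t| ≤ |s - t| := by
    intro x s hs t ht
    have h1 : ∀ᵐ z : ℝ, |f z s - f z t| ≤ |s - t| := by
      filter_upwards [hs.2, ht.2] with z hz1 hz2
      simp only [hf]
      rw [← hz1, ← hz2]
      have e : Vf s z - Vf t z = Phi F t z - Phi F s z := by simp only [hVf]; ring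
      rw [e, abs_sub_comm s t]
      exact Phi_lip hF t s z
    have h2 : IsClosed {z | |f z s - f z t| ≤ |s - t|} := by
      have a1 := hfcx s
      have a2 := hfcx t
      exact isClosed_le (by fun_prop) continuous_const
    have h3 : closure {z | |f z s - f z t| ≤ |s - t|} = univ :=
      (Measure.dense_of_ae h1).closure_eq
    rw [h2.closure_eq] at h3
    have : x ∈ {z | |f z s - f z t| ≤ |s - t|} := by rw [h3]; exact mem_univ x
    exact this
  have hext : ∀ x, ∃ g : ℝ → ℝ, LipschitzWith 1 g ∧ EqOn (f x) g G := by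
    intro x
    apply LipschitzOnWith.extend_real
    apply LipschitzOnWith.of_dist_le_mul
    intro s hs t ht
    rw [Real.dist_eq, Real.dist_eq, NNReal.coe_one, one_mul]
    exact hflip x s hs t ht
  choose g hg1 hg2 using hext
  have hgc : ∀ x, Continuous (g x) := fun x => (hg1 x).continuous
  have hglip : ∀ x s t, |g x s - g x t| ≤ |s - t| := by
    intro x s t
    have := (hg1 x).dist_le_mul s t
    rwa [Real.dist_eq, Real.dist_eq, NNReal.coe_one, one_mul] at this
  have hWsub : ∀ t x y, Wt t y - Wt t x = ∫ z in x..y, v t z := by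
    intro t x y
    simp only [hWt]
    rw [intervalIntegral.integral_interval_sub_left (hv.ii_x t 0 y) (hv.ii_x t 0 x)]
  have hgmono : ∀ x y, x ≤ y → ∀ t, 0 ≤ t → g x t ≤ g y t := by
    intro x y hxy
    apply hdens _ (isClosed_le (hgc x) (hgc y))
    intro t ht
    rw [← hg2 x ht, ← hg2 y ht]
    simp only [hf]
    have h1 := hWsub t x y
    have h2 : 0 ≤ ∫ z in x..y, v t z :=
      intervalIntegral.integral_nonneg hxy (fun z _ => (hv.2 t z).1)
    linarith
  have hgx : ∀ x y t, 0 ≤ t → |g x t - g y t| ≤ |x - y| := by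
    intro x y
    apply hdens _ (isClosed_le (by
      have a1 := hgc x
      have a2 := hgc y
      fun_prop) continuous_const)
    intro t ht
    rw [← hg2 x ht, ← hg2 y ht]
    simp only [hf]
    have e : Wt t x + c t - (Wt t y + c t) = Wt t x - Wt t y := by ring
    rw [e, hWsub]
    have := abs_inner_le (hv.abs_le t) y x
    rwa [one_mul] at this
  have hVfc : ∀ z, ∀ s t, |Vf s z - Vf t z| ≤ |s - t| := by
    intro z s t
    have e : Vf s z - Vf t z = Phi F t z - Phi F s z := by simp only [hVf]; ring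
    rw [e, abs_sub_comm s t]
    exact Phi_lip hF t s z
  have hVfcont : ∀ z, Continuous (fun t => Vf t z) := by
    intro z
    have : LipschitzWith 1 (fun t => Vf t z) := by
      apply LipschitzWith.of_dist_le_mul
      intro s t
      rw [Real.dist_eq, Real.dist_eq, NNReal.coe_one, one_mul]
      exact hVfc z s t
    exact this.continuous
  have hVae : ∀ t, 0 ≤ t → ∀ᵐ z : ℝ, g z t = Vf t z := by
    intro t ht
    obtain ⟨tn, htn1, htn2⟩ := mem_closure_iff_seq_limit.1 (hGcl t ht)
    have h1 : ∀ᵐ z : ℝ, ∀ n, Vf (tn n) z = Wt (tn n) z + c (tn n) := by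
      rw [ae_all_iff]
      exact fun n => (htn1 n).2
    filter_upwards [h1] with z hz
    have e1 : Tendsto (fun n => g z (tn n)) atTop (𝓝 (g z t)) :=
      ((hgc z).tendsto t).comp htn2
    have e2 : Tendsto (fun n => Vf (tn n) z) atTop (𝓝 (Vf t z)) :=
      ((hVfcont z).tendsto t).comp htn2
    refine tendsto_nhds_unique e1 (e2.congr fun n => ?_)
    rw [hz n, ← hg2 z (htn1 n)]
  have hinit : ∀ x, g x 0 = prim ub x := by
    have h1 := hVae 0 le_rfl
    have h2 : (fun z => g z 0) =ᵐ[volume] prim ub := by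
      filter_upwards [h1] with z hz
      rw [hz]
      simp only [hVf, Phi, intervalIntegral.integral_same, sub_zero]
    have h3 : Continuous (fun z => g z 0) := by
      have : LipschitzWith 1 (fun z => g z 0) := by
        apply LipschitzWith.of_dist_le_mul
        intro x y
        rw [Real.dist_eq, Real.dist_eq, NNReal.coe_one, one_mul]
        exact hgx x y 0 le_rfl
      exact this.continuous
    have h4 := (Continuous.ae_eq_iff_eq volume h3 hpc).1 h2
    intro x
    exact congrFun h4 x
  refine ⟨fun t x => g x (max t 0), ?_, ?_, ?_, ?_, ?_, ?_⟩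
  · intro s t x y
    have h1 := hgx x y (max s 0) (le_max_right _ _)
    have h2 := hglip y (max s 0) (max t 0)
    have h3 : |max s 0 - max t 0| ≤ |s - t| := by
      have := abs_max_sub_max_le_max s 0 t 0
      simpa using this
    calc |g x (max s 0) - g y (max t 0)|
        = |(g x (max s 0) - g y (max s 0)) + (g y (max s 0) - g y (max t 0))| := by
          congr 1; ring
      _ ≤ _ := abs_add_le _ _
      _ ≤ |s - t| + |x - y| := by linarith
  · intro t x y hxy
    exact hgmono x y hxy _ (le_max_right _ _)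
  · intro t x ht
    simp only [max_eq_right ht, max_self]
  · intro x
    simp only [max_self]
    exact hinit x
  · rw [ae_restrict_iff' measurableSet_Ioi]
    filter_upwards [hG0] with t ht ht0 x y
    have ht0' : 0 < t := ht0
    have htG : t ∈ G := ⟨ht0', ht ht0'⟩
    rw [max_eq_left ht0'.le, ← hg2 x htG, ← hg2 y htG, ← hWsub]
    simp only [hf]; ring
  · have h1 : ∀ᵐ x : ℝ, ∀ q : ℚ, (0:ℝ) ≤ q → g x q = Vf q x := by
      rw [ae_all_iff]
      intro q
      by_cases hq : (0:ℝ) ≤ q
      · filter_upwards [hVae q hq] with x hx _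
        exact hx
      · exact ae_of_all _ fun x h => absurd h hq
    filter_upwards [h1] with x hx t ht
    have h2 : g x t = Vf t x := by
      have : ∀ n : ℕ, ∃ q : ℚ, t < q ∧ (q:ℝ) < t + 1 / ((n:ℝ) + 1) := fun n =>
        exists_rat_btwn (by
          have : 0 < 1 / ((n:ℝ) + 1) := by positivity
          linarith)
      choose q hq using this
      have hlim : Tendsto (fun n => (q n : ℝ)) atTop (𝓝 t) := by
        have h2 : Tendsto (fun n : ℕ => t + 1 / ((n:ℝ) + 1)) atTop (𝓝 (t + 0)) :=
          tendsto_const_nhds.add tendsto_one_div_add_atTop_nhds_zero_nat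
        rw [add_zero] at h2
        exact tendsto_of_tendsto_of_tendsto_of_le_of_le tendsto_const_nhds h2
          (fun n => (hq n).1.le) (fun n => (hq n).2.le)
      have e1 : Tendsto (fun n => g x (q n)) atTop (𝓝 (g x t)) :=
        ((hgc x).tendsto t).comp hlim
      have e2 : Tendsto (fun n => Vf (q n) x) atTop (𝓝 (Vf t x)) :=
        ((hVfcont x).tendsto t).comp hlim
      refine tendsto_nhds_unique e1 (e2.congr fun n => ?_)
      exact (hx (q n) (ht.trans (hq n).1.le)).symm
    rw [max_eq_left ht, h2, max_self, hinit]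
    rfl

end Pool.Agent.W807.TF
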