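import Pool.Agent.W807.TF.TestTools

set_option autoImplicit false

open MeasureTheory Set Filter Topology

namespace Pool.Agent.W807.TF

lemma ae_mp_of_tx {p : ℝ → ℝ → Prop} (hm : MeasurableSet {z : ℝ × ℝ | p z.1 z.2})
    (h : ∀ᵐ t ∂(volume.restrict (Ioi (0:ℝ))), ∀ᵐ x : ℝ, p t x) : ∀ᵐ z ∂mp, p z.1 z.2 := by
  unfold mp
  rw [Measure.ae_prod_iff_ae_ae hm]
  exact h

lemma ae_mp_of_xt {p : ℝ → ℝ → Prop} (hm : MeasurableSet {z : ℝ × ℝ | p z.1 z.2})
    (h : ∀ᵐ x : ℝ, ∀ᵐ t ∂(volume.restrict (Ioi (0:ℝ))), p t x) : ∀ᵐ z ∂mp, p z.1 z.2 := by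
  apply ae_mp_of_tx hm
  rw [Measure.ae_ae_comm hm]
  exact h

lemma ae_xt_of_mp {p : ℝ → ℝ → Prop} (hm : MeasurableSet {z : ℝ × ℝ | p z.1 z.2})
    (h : ∀ᵐ z ∂mp, p z.1 z.2) : ∀ᵐ x : ℝ, ∀ᵐ t ∂(volume.restrict (Ioi (0:ℝ))), p t x := by
  unfold mp at h
  rw [Measure.ae_prod_iff_ae_ae hm, Measure.ae_ae_comm hm] at h
  exact h

lemma meas_diff_x {φ : ℝ → ℝ → ℝ} (hφ : Continuous (Function.uncurry φ)) :
    MeasurableSet {z : ℝ × ℝ | DifferentiableAt ℝ (fun y => φ z.1 y) z.2} :=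
  measurableSet_of_differentiableAt_with_param ℝ hφ

lemma meas_diff_t {φ : ℝ → ℝ → ℝ} (hφ : Continuous (Function.uncurry φ)) :
    MeasurableSet {z : ℝ × ℝ | DifferentiableAt ℝ (fun s => φ s z.2) z.1} := by
  have h1 : Continuous (Function.uncurry fun x s => φ s x) := hφ.comp continuous_swap
  have h2 := measurableSet_of_differentiableAt_with_param ℝ h1
  exact measurable_swap h2

lemma Fun01.loc_t {F : ℝ → ℝ → ℝ} (hF : Fun01 F) (x : ℝ) :
    LocallyIntegrable (fun t => F t x) volume := by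
  refine (locallyIntegrable_const (1:ℝ)).mono (hF.meas_t x).aestronglyMeasurable ?_
  exact ae_of_all _ fun t => by simpa using hF.abs_le t x

/-- for a.e. `x`, for a.e. `t > 0`, `V_t = -F` -/
lemma IsPot.ae_dt_slice {ub : ℝ → ℝ} {v F V : ℝ → ℝ → ℝ} (h : IsPot ub v F V) (hF : Fun01 F) :
    ∀ᵐ x : ℝ, ∀ᵐ t ∂(volume.restrict (Ioi (0:ℝ))), HasDerivAt (fun s => V s x) (-F t x) t := by
  filter_upwards [h.dt] with x hx
  rw [ae_restrict_iff' measurableSet_Ioi]
  filter_upwards [_root_.LocallyIntegrable.ae_hasDerivAt_integral (hF.loc_t x)] with t ht ht0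
  have h1 := (ht 0).const_sub (V 0 x)
  refine h1.congr_of_eventuallyEq ?_
  filter_upwards [Ioi_mem_nhds ht0] with s hs
  exact hx s (le_of_lt hs)

lemma IsPot.ae_dx_slice {ub : ℝ → ℝ} {v F V : ℝ → ℝ → ℝ} (h : IsPot ub v F V) (hv : Fun01 v) :
    ∀ᵐ t ∂(volume.restrict (Ioi (0:ℝ))), ∀ᵐ x : ℝ, HasDerivAt (fun y => V t y) (v t x) x := by
  filter_upwards [h.dx] with t ht
  have hloc : LocallyIntegrable (v t) volume := by
    refine (locallyIntegrable_const (1:ℝ)).mono (hv.meas_x t).aestronglyMeasurable ?_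
    exact ae_of_all _ fun x => by simpa using hv.abs_le t x
  filter_upwards [_root_.LocallyIntegrable.ae_hasDerivAt_integral hloc] with x hx
  have h2 : (fun y => V t y) = fun y => (∫ z in (0:ℝ)..y, v t z) + V t 0 := by
    funext y
    have := ht 0 y
    linarith
  rw [h2]
  exact (hx 0).add_const (V t 0)

lemma IsPot.ae_dt {ub : ℝ → ℝ} {v F V : ℝ → ℝ → ℝ} (h : IsPot ub v F V) (hF : Fun01 F) :
    ∀ᵐ z ∂mp, HasDerivAt (fun s => V s z.2) (-F z.1 z.2) z.1 := by
  have hm : MeasurableSet {z : ℝ × ℝ | DifferentiableAt ℝ (fun s => V s z.2) z.1 ∧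
      deriv (fun s => V s z.2) z.1 = -F z.1 z.2} := by
    have h1 := meas_diff_t h.cont
    have h2 : MeasurableSet {z : ℝ × ℝ | deriv (fun s => V s z.2) z.1 = -F z.1 z.2} :=
      measurableSet_eq_fun (meas_dt h.cont) hF.1.neg
    exact h1.inter h2
  have h3 := ae_mp_of_xt (p := fun t x => DifferentiableAt ℝ (fun s => V s x) t ∧
      deriv (fun s => V s x) t = -F t x) hm (by
    filter_upwards [h.ae_dt_slice hF] with x hx
    filter_upwards [hx] with t ht
    exact ⟨ht.differentiableAt, ht.deriv⟩)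
  filter_upwards [h3] with z hz
  rw [← hz.2]
  exact hz.1.hasDerivAt

lemma IsPot.ae_dx {ub : ℝ → ℝ} {v F V : ℝ → ℝ → ℝ} (h : IsPot ub v F V) (hv : Fun01 v) :
    ∀ᵐ z ∂mp, HasDerivAt (fun y => V z.1 y) (v z.1 z.2) z.2 := by
  have hm : MeasurableSet {z : ℝ × ℝ | DifferentiableAt ℝ (fun y => V z.1 y) z.2 ∧
      deriv (fun y => V z.1 y) z.2 = v z.1 z.2} := by
    have h1 := meas_diff_x h.cont
    have h2 : MeasurableSet {z : ℝ × ℝ | deriv (fun y => V z.1 y) z.2 = v z.1 z.2} :=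
      measurableSet_eq_fun (meas_dx h.cont) hv.1
    exact h1.inter h2
  have h3 := ae_mp_of_tx (p := fun t x => DifferentiableAt ℝ (fun y => V t y) x ∧
      deriv (fun y => V t y) x = v t x) hm (by
    filter_upwards [h.ae_dx_slice hv] with t ht
    filter_upwards [ht] with x hx
    exact ⟨hx.differentiableAt, hx.deriv⟩)
  filter_upwards [h3] with z hz
  rw [← hz.2]
  exact hz.1.hasDerivAt

/-- Lipschitz functions of two variables: a.e. differentiability in `x` and in `t`. -/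
lemma ae_diff_x_of_lip {φ : ℝ → ℝ → ℝ} {L : ℝ} (hφ : Continuous (Function.uncurry φ))
    (hL : ∀ t x y, |φ t x - φ t y| ≤ L * |x - y|) :
    ∀ᵐ z ∂mp, DifferentiableAt ℝ (fun y => φ z.1 y) z.2 := by
  apply ae_mp_of_tx (p := fun t x => DifferentiableAt ℝ (fun y => φ t y) x) (meas_diff_x hφ)
  refine ae_of_all _ fun t => ?_
  have h1 : LipschitzWith (Real.toNNReal L) (fun y => φ t y) := by
    apply LipschitzWith.of_dist_le_mul
    intro x y
    rw [Real.dist_eq, Real.dist_eq]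
    exact (hL t x y).trans (mul_le_mul_of_nonneg_right (Real.le_coe_toNNReal L) (abs_nonneg _))
  exact h1.ae_differentiableAt_real

lemma ae_diff_t_of_lip {φ : ℝ → ℝ → ℝ} {L : ℝ} (hφ : Continuous (Function.uncurry φ))
    (hL : ∀ s t x, |φ s x - φ t x| ≤ L * |s - t|) :
    ∀ᵐ z ∂mp, DifferentiableAt ℝ (fun s => φ s z.2) z.1 := by
  apply ae_mp_of_xt (p := fun t x => DifferentiableAt ℝ (fun s => φ s x) t) (meas_diff_t hφ)
  refine ae_of_all _ fun x => ?_
  have h1 : LipschitzWith (Real.toNNReal L) (fun s => φ s x) := by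
    apply LipschitzWith.of_dist_le_mul
    intro s t
    rw [Real.dist_eq, Real.dist_eq]
    exact (hL s t x).trans (mul_le_mul_of_nonneg_right (Real.le_coe_toNNReal L) (abs_nonneg _))
  exact ae_restrict_of_ae h1.ae_differentiableAt_real

/-- bounds for the derivatives of a Lipschitz function -/
lemma abs_deriv_le_of_lip {f : ℝ → ℝ} {L : ℝ} (hL : ∀ x y, |f x - f y| ≤ L * |x - y|) (x : ℝ) :
    |deriv f x| ≤ L := by
  have hL0 : 0 ≤ L := by
    have := hL 1 0
    simp only [sub_zero, abs_one, mul_one] at this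
    exact (abs_nonneg _).trans this
  have h1 : LipschitzWith (Real.toNNReal L) f := by
    apply LipschitzWith.of_dist_le_mul
    intro x y
    rw [Real.dist_eq, Real.dist_eq, Real.coe_toNNReal _ hL0]
    exact hL x y
  have := norm_deriv_le_of_lipschitz h1 (x₀ := x)
  rwa [Real.norm_eq_abs, Real.coe_toNNReal _ hL0] at this

/-- product of Lipschitz functions, second factor bounded and first bounded where the
second does not vanish -/
lemma prod_lip {f g : ℝ → ℝ → ℝ} {Lf Lg M G : ℝ} (hM : 0 ≤ M) (hLg : 0 ≤ Lg)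
    (hf : ∀ s t x y, |f s x - f t y| ≤ Lf * (|s - t| + |x - y|))
    (hg : ∀ s t x y, |g s x - g t y| ≤ Lg * (|s - t| + |x - y|))
    (hG : ∀ t x, |g t x| ≤ G) (hfM : ∀ t x, g t x ≠ 0 → |f t x| ≤ M) (s t x y : ℝ) :
    |f s x * g s x - f t y * g t y| ≤ (M * Lg + G * Lf) * (|s - t| + |x - y|) := by
  have hG0 : 0 ≤ G := (abs_nonneg _).trans (hG 0 0)
  have hLf : 0 ≤ Lf := by
    have := hf 1 0 0 0
    simp only [sub_zero, abs_one, abs_zero, add_zero, mul_one] at this
    exact (abs_nonneg _).trans this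
  have hd : 0 ≤ |s - t| + |x - y| := by positivity
  by_cases h1 : g s x = 0
  · by_cases h2 : g t y = 0
    · rw [h1, h2]; simp only [mul_zero, sub_self, abs_zero]; positivity
    · have e : f s x * g s x - f t y * g t y = f t y * (g s x - g t y) := by rw [h1]; ring
      rw [e, abs_mul]
      calc |f t y| * |g s x - g t y| ≤ M * (Lg * (|s - t| + |x - y|)) :=
            mul_le_mul (hfM t y h2) (hg s t x y) (abs_nonneg _) hM
        _ ≤ _ := by
          have : 0 ≤ G * Lf * (|s - t| + |x - y|) := by positivity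
          nlinarith
  · have e : f s x * g s x - f t y * g t y = f s x * (g s x - g t y) +
        g t y * (f s x - f t y) := by ring
    rw [e]
    calc _ ≤ |f s x * (g s x - g t y)| + |g t y * (f s x - f t y)| := abs_add_le _ _
      _ = |f s x| * |g s x - g t y| + |g t y| * |f s x - f t y| := by rw [abs_mul, abs_mul]
      _ ≤ M * (Lg * (|s - t| + |x - y|)) + G * (Lf * (|s - t| + |x - y|)) := by
        apply add_le_add
        · exact mul_le_mul (hfM s x h1) (hg s t x y) (abs_nonneg _) hM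
        · exact mul_le_mul (hG t y) (hf s t x y) (abs_nonneg _) hG0
      _ = _ := by ring

end Pool.Agent.W807.TF
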