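import Pool.Agent.W807.TF.Stmts

/-! Basic facts shared by the tasks. -/

set_option autoImplicit false

open MeasureTheory Set Filter Topology

namespace Pool.Agent.W807.TF

/-- joint measurability of moving-window integrals -/
lemma measurable_window (v : ℝ → ℝ → ℝ) (hv : Measurable (Function.uncurry v)) (ε : ℝ)
    (hε : 0 < ε) : Measurable (Function.uncurry fun t x => ∫ y in x..(x + ε), v t y) := by
  have h1 : ∀ t x, (∫ y in x..(x + ε), v t y) = ∫ y in Ioc (0:ℝ) ε, v t (x + y) := by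
    intro t x
    rw [← intervalIntegral.integral_of_le hε.le]
    rw [intervalIntegral.integral_comp_add_left (fun y => v t y) x]
    simp
  have h2 : (Function.uncurry fun t x => ∫ y in x..(x + ε), v t y) =
      fun p : ℝ × ℝ => ∫ y in Ioc (0:ℝ) ε, v p.1 (p.2 + y) := by
    funext p
    obtain ⟨t, x⟩ := p
    exact h1 t x
  rw [h2]
  have h3 : StronglyMeasurable (fun q : (ℝ × ℝ) × ℝ => v q.1.1 (q.1.2 + q.2)) := by
    apply Measurable.stronglyMeasurable
    have : Measurable (fun q : (ℝ × ℝ) × ℝ => ((q.1.1, q.1.2 + q.2) : ℝ × ℝ)) := by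
      fun_prop
    exact hv.comp this
  exact (h3.integral_prod_right (ν := volume.restrict (Ioc (0:ℝ) ε))).measurable

lemma IsPot.cont {ub : ℝ → ℝ} {v F V : ℝ → ℝ → ℝ} (h : IsPot ub v F V) :
    Continuous (Function.uncurry V) := by
  apply LipschitzWith.continuous (K := 2)
  apply LipschitzWith.of_dist_le_mul
  rintro ⟨s, x⟩ ⟨t, y⟩
  have := h.lip s t x y
  simp only [Function.uncurry, Real.dist_eq, Prod.dist_eq, NNReal.coe_ofNat]
  have h1 := le_max_left |s - t| |x - y|
  have h2 := le_max_right |s - t| |x - y|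
  linarith

lemma IsPot.cont_x {ub : ℝ → ℝ} {v F V : ℝ → ℝ → ℝ} (h : IsPot ub v F V) (t : ℝ) :
    Continuous (V t) :=
  h.cont.comp (Continuous.prodMk_right t)

/-- derivative of a potential lies in `[0,1]` -/
lemma IsPot.deriv_mem {ub : ℝ → ℝ} {v F V : ℝ → ℝ → ℝ} (h : IsPot ub v F V) (t x : ℝ) :
    0 ≤ deriv (fun y => V t y) x ∧ deriv (fun y => V t y) x ≤ 1 := by
  constructor
  · exact (show Monotone (fun y => V t y) from fun a b hab => h.mono t a b hab).deriv_nonneg
  · have h1 : LipschitzWith 1 (fun y => V t y) := by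
      apply LipschitzWith.of_dist_le_mul
      intro a b
      have := h.lip t t a b
      simp only [sub_self, abs_zero, zero_add] at this
      simpa [Real.dist_eq] using this
    have := norm_deriv_le_of_lipschitz h1 (x₀ := x)
    rw [Real.norm_eq_abs] at this
    exact (le_abs_self _).trans (by simpa using this)

lemma IsPot.ae_deriv {ub : ℝ → ℝ} {v F V : ℝ → ℝ → ℝ} (h : IsPot ub v F V) (hv : Fun01 v) :
    ∀ᵐ t ∂(volume.restrict (Ioi (0:ℝ))), ∀ᵐ x : ℝ, deriv (fun y => V t y) x = v t x := by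
  filter_upwards [h.dx] with t ht
  have hm : Measurable (v t) := hv.1.comp (measurable_prodMk_left)
  have hloc : LocallyIntegrable (v t) volume := by
    have hb : ∀ x, ‖v t x‖ ≤ 1 := fun x => by
      rw [Real.norm_eq_abs, abs_of_nonneg (hv.2 t x).1]; exact (hv.2 t x).2
    refine (locallyIntegrable_const (1:ℝ)).mono hm.aestronglyMeasurable ?_
    exact ae_of_all _ fun x => by simpa using hb x
  have := _root_.LocallyIntegrable.ae_hasDerivAt_integral hloc
  filter_upwards [this] with x hx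
  have h1 := hx 0
  have h2 : (fun y => V t y) = fun y => (∫ z in (0:ℝ)..y, v t z) + V t 0 := by
    funext y
    have := ht 0 y
    linarith
  rw [h2]
  exact (h1.add_const (V t 0)).deriv

/-- the potential of the flux `u (1 - avg)` is a potential in the sense of `NL`. -/
lemma isPot_convert {ub : ℝ → ℝ} {u V : ℝ → ℝ → ℝ} {ε : ℝ}
    (h : IsPot ub u (fun t x => u t x * (1 - (1 / ε) * ∫ y in x..(x + ε), u t y)) V) :
    IsPot ub u (fun t x => u t x * (1 - dq ε V t x)) V where
  lip := h.lip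
  mono := h.mono
  neg := h.neg
  init := h.init
  dx := h.dx
  dt := by
    filter_upwards [h.dt] with x hx t ht
    rw [hx t ht]
    congr 1
    apply intervalIntegral.integral_congr_ae
    have h1 := (ae_restrict_iff' measurableSet_Ioi).1 h.dx
    filter_upwards [h1] with s hs hs2
    rw [uIoc_of_le ht] at hs2
    have h3 := hs hs2.1 x (x + ε)
    simp only [dq]
    rw [h3]
    ring


/-- bounded measurable functions are interval integrable -/
lemma ii_of_bdd {f : ℝ → ℝ} (hf : Measurable f) {M : ℝ} (hb : ∀ x, |f x| ≤ M) (a b : ℝ) :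
    IntervalIntegrable f volume a b := by
  rw [intervalIntegrable_iff]
  apply Measure.integrableOn_of_bounded (M := M)
  · exact measure_Ioc_lt_top.ne
  · exact hf.aestronglyMeasurable
  · exact ae_of_all _ fun y => by rw [Real.norm_eq_abs]; exact hb y

lemma Fun01.meas_x {v : ℝ → ℝ → ℝ} (h : Fun01 v) (t : ℝ) : Measurable (v t) :=
  h.1.comp measurable_prodMk_left

lemma Fun01.meas_t {v : ℝ → ℝ → ℝ} (h : Fun01 v) (x : ℝ) : Measurable (fun t => v t x) :=
  h.1.comp measurable_prodMk_right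

lemma Fun01.abs_le {v : ℝ → ℝ → ℝ} (h : Fun01 v) (t x : ℝ) : |v t x| ≤ 1 := by
  rw [abs_of_nonneg (h.2 t x).1]; exact (h.2 t x).2

lemma Fun01.ii_x {v : ℝ → ℝ → ℝ} (h : Fun01 v) (t a b : ℝ) :
    IntervalIntegrable (v t) volume a b := ii_of_bdd (h.meas_x t) (h.abs_le t) a b

lemma Fun01.ii_t {v : ℝ → ℝ → ℝ} (h : Fun01 v) (x a b : ℝ) :
    IntervalIntegrable (fun t => v t x) volume a b :=
  ii_of_bdd (h.meas_t x) (fun t => h.abs_le t x) a b

lemma Dat.abs_le {ub : ℝ → ℝ} (h : Dat ub) (x : ℝ) : |ub x| ≤ 1 := by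
  rw [abs_of_nonneg (h.2 x).1]; exact (h.2 x).2

lemma Dat.ii {ub : ℝ → ℝ} (h : Dat ub) (a b : ℝ) : IntervalIntegrable ub volume a b :=
  ii_of_bdd h.1 h.abs_le a b

lemma Dat.prim_sub {ub : ℝ → ℝ} (h : Dat ub) (x y : ℝ) :
    prim ub y - prim ub x = ∫ z in x..y, ub z := by
  unfold prim
  rw [intervalIntegral.integral_interval_sub_left (h.ii 0 y) (h.ii 0 x)]

lemma Dat.ml {ub : ℝ → ℝ} (h : Dat ub) : ML (prim ub) := by
  intro x y hxy
  have h1 := h.prim_sub x y
  have h2 : 0 ≤ ∫ z in x..y, ub z :=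
    intervalIntegral.integral_nonneg hxy (fun z _ => (h.2 z).1)
  have h3 : (∫ z in x..y, ub z) ≤ y - x := by
    have := intervalIntegral.integral_mono_on (μ := volume) hxy (h.ii x y)
      (intervalIntegrable_const (c := (1:ℝ))) (fun z _ => (h.2 z).2)
    simpa using this
  constructor <;> linarith

lemma Dat.ae_deriv {ub : ℝ → ℝ} (h : Dat ub) :
    ∀ᵐ x : ℝ, HasDerivAt (prim ub) (ub x) x := by
  have hloc : LocallyIntegrable ub volume := by
    refine (locallyIntegrable_const (1:ℝ)).mono h.1.aestronglyMeasurable ?_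
    exact ae_of_all _ fun x => by simpa using h.abs_le x
  filter_upwards [_root_.LocallyIntegrable.ae_hasDerivAt_integral hloc] with x hx
  exact hx 0

lemma IsPot.lip_x {ub : ℝ → ℝ} {v F V : ℝ → ℝ → ℝ} (h : IsPot ub v F V) (t x y : ℝ) :
    |V t x - V t y| ≤ |x - y| := by
  have := h.lip t t x y
  simpa using this

lemma IsPot.lip_t {ub : ℝ → ℝ} {v F V : ℝ → ℝ → ℝ} (h : IsPot ub v F V) (s t x : ℝ) :
    |V s x - V t x| ≤ |s - t| := by
  have := h.lip s t x x
  simpa using this

lemma IsPot.dq_mem {ub : ℝ → ℝ} {v F V : ℝ → ℝ → ℝ} (h : IsPot ub v F V) {δ : ℝ} (hδ : 0 < δ)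
    (t x : ℝ) : 0 ≤ dq δ V t x ∧ dq δ V t x ≤ 1 := by
  unfold dq
  have h1 := h.mono t x (x + δ) (by linarith)
  have h2 := h.lip_x t (x + δ) x
  rw [add_sub_cancel_left, abs_of_pos hδ] at h2
  constructor
  · exact div_nonneg (by linarith) hδ.le
  · rw [div_le_one hδ]; exact (le_abs_self _).trans h2

lemma IsPot.dq_lip {ub : ℝ → ℝ} {v F V : ℝ → ℝ → ℝ} (h : IsPot ub v F V) {δ : ℝ} (hδ : 0 < δ)
    (s t x y : ℝ) : |dq δ V s x - dq δ V t y| ≤ (2 / δ) * (|s - t| + |x - y|) := by
  have h1 := h.lip s t (x + δ) (y + δ)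
  have h2 := h.lip s t x y
  have h3 : dq δ V s x - dq δ V t y =
      ((V s (x + δ) - V t (y + δ)) - (V s x - V t y)) / δ := by unfold dq; ring
  rw [h3, abs_div, abs_of_pos hδ, div_mul_eq_mul_div, div_le_div_iff_of_pos_right hδ]
  rw [add_sub_add_right_eq_sub] at h1
  calc |(V s (x + δ) - V t (y + δ)) - (V s x - V t y)|
      ≤ |V s (x + δ) - V t (y + δ)| + |V s x - V t y| := abs_sub _ _
    _ ≤ 2 * (|s - t| + |x - y|) := by linarith

lemma IsPot.dq_cont {ub : ℝ → ℝ} {v F V : ℝ → ℝ → ℝ} (h : IsPot ub v F V) {δ : ℝ} :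
    Continuous (Function.uncurry (dq δ V)) := by
  have h1 := h.cont
  have h2 : Function.uncurry (dq δ V) = fun p : ℝ × ℝ =>
      (Function.uncurry V (p.1, p.2 + δ) - Function.uncurry V p) / δ := by
    funext p; rfl
  rw [h2]
  fun_prop

lemma NL.flux01 {ub : ℝ → ℝ} {ε : ℝ} {u U : ℝ → ℝ → ℝ} (h : NL ub ε u U) :
    Fun01 (fun t x => u t x * (1 - dq ε U t x)) := by
  refine ⟨?_, ?_⟩
  · have h1 := h.u01.1
    have h2 := (h.pot.dq_cont (δ := ε)).measurable
    exact h1.mul (measurable_const.sub h2)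
  · intro t x
    have h1 := h.u01.2 t x
    have h2 := h.pot.dq_mem h.eps t x
    constructor
    · exact mul_nonneg h1.1 (by linarith)
    · nlinarith [h1.1, h1.2, h2.1, h2.2]

lemma IsPot.mem_abs {ub : ℝ → ℝ} {v F V : ℝ → ℝ → ℝ} (h : IsPot ub v F V) {t : ℝ} (ht : 0 ≤ t)
    (x : ℝ) : |V t x - prim ub x| ≤ t := by
  rw [← h.init x]
  have := h.lip_t t 0 x
  rwa [sub_zero, abs_of_nonneg ht] at this

lemma TestFn.cont {M L : ℝ} {φ : ℝ → ℝ → ℝ} (h : TestFn M L φ) :
    Continuous (Function.uncurry φ) := by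
  have hL : 0 ≤ L := by
    have := h.lip 0 1 0 0
    simp only [zero_sub, abs_neg, abs_one, sub_self, abs_zero, add_zero, mul_one] at this
    exact (abs_nonneg _).trans this
  apply LipschitzWith.continuous (K := Real.toNNReal (2 * L))
  apply LipschitzWith.of_dist_le_mul
  rintro ⟨s, x⟩ ⟨t, y⟩
  have := h.lip s t x y
  simp only [Function.uncurry, Real.dist_eq, Prod.dist_eq]
  rw [Real.coe_toNNReal _ (by linarith)]
  have h1 := le_max_left |s - t| |x - y|
  have h2 := le_max_right |s - t| |x - y|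
  nlinarith

end Pool.Agent.W807.TF
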