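import Pool.Agent.W807.TF.HL

set_option autoImplicit false

open MeasureTheory Set Filter Topology

namespace Pool.Agent.W807.TF

theorem taskDbl : TaskDbl := by
  intro A B U0 α E C h0 hα hE hC hh0 hU hA0 hB0 hA hB hstep t x ht
  have hbd : ∀ s, 0 ≤ s → ∀ p : ℝ × ℝ, A s p.1 - B s p.2 - (p.1 - p.2) ^ 2 / (2 * α)
      ≤ 2 * s + α / 2 := by
    intro s hs p
    have h1 := (abs_le.1 (hA s p.1 hs)).2
    have h2 := (abs_le.1 (hB s p.2 hs)).1
    have h3 := (le_abs_self _).trans (hU.lip p.1 p.2)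
    have h4 : |p.1 - p.2| - (p.1 - p.2) ^ 2 / (2 * α) ≤ α / 2 := by
      rw [← sq_abs (p.1 - p.2)]
      have h5 : 0 ≤ (|p.1 - p.2| - α) ^ 2 / (2 * α) := by positivity
      have h6 : (|p.1 - p.2| - α) ^ 2 / (2 * α) =
          |p.1 - p.2| ^ 2 / (2 * α) - |p.1 - p.2| + α / 2 := by
        field_simp
        ring
      linarith
    linarith
  have hbdd : ∀ s, 0 ≤ s → BddAbove (range fun p : ℝ × ℝ =>
      A s p.1 - B s p.2 - (p.1 - p.2) ^ 2 / (2 * α)) := by
    intro s hs
    refine ⟨2 * s + α / 2, ?_⟩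
    rintro _ ⟨p, rfl⟩
    exact hbd s hs p
  set M : ℝ → ℝ := fun s => ⨆ p : ℝ × ℝ, (A s p.1 - B s p.2 - (p.1 - p.2) ^ 2 / (2 * α)) with hM
  have hle : ∀ s, 0 ≤ s → ∀ y z, A s y - B s z - (y - z) ^ 2 / (2 * α) ≤ M s := by
    intro s hs y z
    exact le_ciSup (hbdd s hs) ((y, z) : ℝ × ℝ)
  have hM0 : M 0 ≤ α / 2 := by
    apply ciSup_le
    intro p
    have := hbd 0 le_rfl p
    linarith
  have hst : ∀ s h, 0 ≤ s → 0 < h → h ≤ h0 → M (s + h) ≤ M s + h * E + (C + 1) * h ^ 2 := by
    intro s h hs hh hhh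
    have h1 : M (s + h) - h ^ 2 < ⨆ p : ℝ × ℝ,
        (A (s + h) p.1 - B (s + h) p.2 - (p.1 - p.2) ^ 2 / (2 * α)) := by
      have : 0 < h ^ 2 := by positivity
      show M (s + h) - h ^ 2 < M (s + h)
      linarith
    obtain ⟨⟨x', y'⟩, hp⟩ := exists_lt_of_lt_ciSup h1
    simp only at hp
    have h2 := hstep s h (M s) x' y' hs hh hhh (fun y z => hle s hs y z) (by
      intro y z
      have := hle (s + h) (by linarith) y z
      linarith)
    linarith
  rcases ht.eq_or_lt with h0t | h0t
  · rw [← h0t, hA0, hB0]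
    have : 0 < α / 2 := by positivity
    linarith
  · have key : ∀ n : ℕ, 0 < n → t / n ≤ h0 →
        A t x - B t x ≤ α / 2 + t * E + (C + 1) * t ^ 2 / n := by
      intro n hn hnh
      have hn' : (0:ℝ) < n := by exact_mod_cast hn
      have hh : 0 < t / n := by positivity
      have hind : ∀ j : ℕ, M (j * (t / n)) ≤
          α / 2 + j * (t / n * E + (C + 1) * (t / n) ^ 2) := by
        intro j
        induction j with
        | zero => simpa using hM0
        | succ j ih =>
          have h1 := hst (j * (t / n)) (t / n) (by positivity) hh hnh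
          have h2 : ((j + 1 : ℕ) : ℝ) * (t / n) = j * (t / n) + t / n := by push_cast; ring
          rw [h2]
          push_cast
          linarith
      have h1 := hind n
      have h2 : (n : ℝ) * (t / n) = t := by field_simp
      rw [h2] at h1
      have h3 : (n : ℝ) * (t / n * E + (C + 1) * (t / n) ^ 2) = t * E + (C + 1) * t ^ 2 / n := by
        field_simp
      have h4 := hle t ht x x
      simp only [sub_self, ne_eq, OfNat.ofNat_ne_zero, not_false_eq_true, zero_pow, zero_div,
        sub_zero] at h4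
      linarith
    have hlim : Tendsto (fun n : ℕ => α / 2 + t * E + (C + 1) * t ^ 2 / n) atTop
        (𝓝 (α / 2 + t * E + 0)) :=
      tendsto_const_nhds.add (tendsto_const_div_atTop_nhds_zero_nat _)
    have hlim2 : Tendsto (fun n : ℕ => t / (n:ℝ)) atTop (𝓝 0) :=
      tendsto_const_div_atTop_nhds_zero_nat t
    rw [add_zero] at hlim
    apply ge_of_tendsto hlim
    filter_upwards [eventually_gt_atTop 0, hlim2.eventually (Iic_mem_nhds hh0)] with n hn1 hn2
    exact key n hn1 hn2

end Pool.Agent.W807.TF
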