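import Pool.Agent.W807.TF.V1
import Pool.Agent.W807.TF.Lip

set_option autoImplicit false

open MeasureTheory Set Filter Topology

namespace Pool.Agent.W807.TF

lemma max0_lip (a b : ℝ) : |max a 0 - max b 0| ≤ |a - b| := by
  have := abs_max_sub_max_le_max a 0 b 0
  simpa using this

/-- Lipschitz bound of the penalty -/
lemma pen_lip {τ T K s s' t t' : ℝ} (hτ : 0 < τ) (ht : t ∈ Icc τ T) (ht' : t' ∈ Icc τ T)
    (hs0 : 0 ≤ s) (hs'0 : 0 ≤ s') (hs : s ≤ K) (hs' : s' ≤ K) :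
    |s ^ 2 / (4 * t) - s' ^ 2 / (4 * t')| ≤
      (K / (2 * τ)) * |s - s'| + (K ^ 2 / (4 * τ ^ 2)) * |t - t'| := by
  have htp : 0 < t := lt_of_lt_of_le hτ ht.1
  have htp' : 0 < t' := lt_of_lt_of_le hτ ht'.1
  have hK : 0 ≤ K := hs0.trans hs
  have e : s ^ 2 / (4 * t) - s' ^ 2 / (4 * t') =
      (s + s') * (s - s') / (4 * t) + s' ^ 2 * (t' - t) / (4 * (t * t')) := by
    field_simp
    ring
  rw [e]
  have h1 : |(s + s') * (s - s') / (4 * t)| ≤ (K / (2 * τ)) * |s - s'| := by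
    rw [abs_div, abs_mul, abs_of_nonneg (by linarith : 0 ≤ s + s'),
      abs_of_pos (by linarith : 0 < 4 * t)]
    rw [div_le_iff₀ (by linarith : 0 < 4 * t)]
    have e2 : K / (2 * τ) * |s - s'| * (4 * t) = (2 * K * (t / τ)) * |s - s'| := by
      field_simp
      ring
    rw [e2]
    apply mul_le_mul_of_nonneg_right _ (abs_nonneg _)
    have : 1 ≤ t / τ := by rw [le_div_iff₀ hτ]; linarith [ht.1]
    nlinarith
  have h2 : |s' ^ 2 * (t' - t) / (4 * (t * t'))| ≤ (K ^ 2 / (4 * τ ^ 2)) * |t - t'| := by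
    rw [abs_div, abs_mul, abs_of_nonneg (sq_nonneg s'), abs_sub_comm t' t,
      abs_of_pos (by positivity : 0 < 4 * (t * t'))]
    rw [div_mul_eq_mul_div, div_le_div_iff₀ (by positivity) (by positivity)]
    have h3 : s' ^ 2 ≤ K ^ 2 := pow_le_pow_left₀ hs'0 hs' 2
    have h4 : τ ^ 2 ≤ t * t' := by
      rw [sq]; exact mul_le_mul ht.1 ht'.1 hτ.le htp.le
    have h5 : s' ^ 2 * |t - t'| ≤ K ^ 2 * |t - t'| :=
      mul_le_mul_of_nonneg_right h3 (abs_nonneg _)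
    have h6 : 4 * τ ^ 2 ≤ 4 * (t * t') := by linarith
    exact mul_le_mul h5 h6 (by positivity) (by positivity)
  calc _ ≤ |(s + s') * (s - s') / (4 * t)| + |s' ^ 2 * (t' - t) / (4 * (t * t'))| :=
        abs_add_le _ _
    _ ≤ _ := add_le_add h1 h2

section env
variable {g : ℝ → ℝ} (hg : Continuous g) {k p q : ℝ} (hpq : p ≤ q)
include hg hpq

lemma RR_mono {t x x' : ℝ} (ht : 0 < t) (h : x ≤ x') : RR g k p q t x ≤ RR g k p q t x' := by
  obtain ⟨z, hz, h1⟩ := RR_att hg (k := k) (t := t) (x := x) hpq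
  refine le_trans ?_ (RR_ge hg (k := k) (t := t) (x := x') hz)
  rw [h1]
  have h2 : max (z - (x' - (1 - 2 * k) * t)) 0 ≤ max (z - (x - (1 - 2 * k) * t)) 0 :=
    max_le_max (by linarith) le_rfl
  have h3 := pow_le_pow_left₀ (le_max_right _ _) h2 2
  have h4 := div_le_div_of_nonneg_right h3 (by positivity : 0 ≤ 4 * t)
  linarith

lemma RL_anti {t x x' : ℝ} (ht : 0 < t) (h : x ≤ x') : RL g k p q t x' ≤ RL g k p q t x := by
  obtain ⟨z, hz, h1⟩ := RL_att hg (k := k) (t := t) (x := x') hpq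
  refine le_trans ?_ (RL_ge hg (k := k) (t := t) (x := x) hz)
  rw [h1]
  have h2 : max ((x - (1 - 2 * k) * t) - z) 0 ≤ max ((x' - (1 - 2 * k) * t) - z) 0 :=
    max_le_max (by linarith) le_rfl
  have h3 := pow_le_pow_left₀ (le_max_right _ _) h2 2
  have h4 := div_le_div_of_nonneg_right h3 (by positivity : 0 ≤ 4 * t)
  linarith

lemma RR_lip_aux {τ T M K t t' x x' : ℝ} (hτ : 0 < τ) (hk0 : 0 ≤ k) (hk1 : k ≤ 1)
    (ht : t ∈ Icc τ T) (ht' : t' ∈ Icc τ T) (hx : |x| ≤ M) (hx' : |x'| ≤ M)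
    (hq : q + M + T ≤ K) (hK : 0 ≤ K) :
    RR g k p q t x ≤ RR g k p q t' x' +
      ((K / (2 * τ)) + (K ^ 2 / (4 * τ ^ 2))) * (|t - t'| + |x - x'|) := by
  obtain ⟨z, hz, h1⟩ := RR_att hg (k := k) (t := t) (x := x) hpq
  have h2 := RR_ge hg (k := k) (t := t') (x := x') hz
  set s := max (z - (x - (1 - 2 * k) * t)) 0 with hs
  set s' := max (z - (x' - (1 - 2 * k) * t')) 0 with hs'
  have hkabs : |1 - 2 * k| ≤ 1 := by rw [abs_le]; constructor <;> linarith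
  have hbd : ∀ w r, |w| ≤ M → r ∈ Icc τ T → max (z - (w - (1 - 2 * k) * r)) 0 ≤ K := by
    intro w r hw hr
    apply max_le _ hK
    have h3 := (abs_le.1 hw).1
    have h4 : (1 - 2 * k) * r ≤ r := by nlinarith [hr.1]
    linarith [hz.2, hr.2]
  have h3 := pen_lip hτ ht ht' (le_max_right _ _ : 0 ≤ s) (le_max_right _ _ : 0 ≤ s')
    (hbd x t hx ht) (hbd x' t' hx' ht')
  have h4 : |s - s'| ≤ |t - t'| + |x - x'| := by
    calc |s - s'| ≤ |(z - (x - (1 - 2 * k) * t)) - (z - (x' - (1 - 2 * k) * t'))| :=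
          max0_lip _ _
      _ = |(1 - 2 * k) * (t - t') + (x' - x)| := by congr 1; ring
      _ ≤ |(1 - 2 * k) * (t - t')| + |x' - x| := abs_add_le _ _
      _ ≤ |t - t'| + |x - x'| := by
        rw [abs_mul, abs_sub_comm x' x]
        have := mul_le_mul_of_nonneg_right hkabs (abs_nonneg (t - t'))
        linarith
  have h5 := (abs_le.1 h3).1
  have h6 : K / (2 * τ) * |s - s'| ≤ K / (2 * τ) * (|t - t'| + |x - x'|) :=
    mul_le_mul_of_nonneg_left h4 (by positivity)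
  have h7 : K ^ 2 / (4 * τ ^ 2) * |t - t'| ≤ K ^ 2 / (4 * τ ^ 2) * (|t - t'| + |x - x'|) :=
    mul_le_mul_of_nonneg_left (by linarith [abs_nonneg (x - x')]) (by positivity)
  rw [h1, add_mul]
  linarith

lemma RL_lip_aux {τ T M K t t' x x' : ℝ} (hτ : 0 < τ) (hk0 : 0 ≤ k) (hk1 : k ≤ 1)
    (ht : t ∈ Icc τ T) (ht' : t' ∈ Icc τ T) (hx : |x| ≤ M) (hx' : |x'| ≤ M)
    (hq : -p + M + T ≤ K) (hK : 0 ≤ K) :
    RL g k p q t x ≤ RL g k p q t' x' +
      ((K / (2 * τ)) + (K ^ 2 / (4 * τ ^ 2))) * (|t - t'| + |x - x'|) := by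
  obtain ⟨z, hz, h1⟩ := RL_att hg (k := k) (t := t) (x := x) hpq
  have h2 := RL_ge hg (k := k) (t := t') (x := x') hz
  set s := max ((x - (1 - 2 * k) * t) - z) 0 with hs
  set s' := max ((x' - (1 - 2 * k) * t') - z) 0 with hs'
  have hkabs : |1 - 2 * k| ≤ 1 := by rw [abs_le]; constructor <;> linarith
  have hbd : ∀ w r, |w| ≤ M → r ∈ Icc τ T → max ((w - (1 - 2 * k) * r) - z) 0 ≤ K := by
    intro w r hw hr
    apply max_le _ hK
    have h3 := (abs_le.1 hw).2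
    have h4 : -((1 - 2 * k) * r) ≤ r := by nlinarith [hr.1]
    linarith [hz.1, hr.2]
  have h3 := pen_lip hτ ht ht' (le_max_right _ _ : 0 ≤ s) (le_max_right _ _ : 0 ≤ s')
    (hbd x t hx ht) (hbd x' t' hx' ht')
  have h4 : |s - s'| ≤ |t - t'| + |x - x'| := by
    calc |s - s'| ≤ |((x - (1 - 2 * k) * t) - z) - ((x' - (1 - 2 * k) * t') - z)| :=
          max0_lip _ _
      _ = |(1 - 2 * k) * (t' - t) + (x - x')| := by congr 1; ring
      _ ≤ |(1 - 2 * k) * (t' - t)| + |x - x'| := abs_add_le _ _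
      _ ≤ |t - t'| + |x - x'| := by
        rw [abs_mul, abs_sub_comm t' t]
        have := mul_le_mul_of_nonneg_right hkabs (abs_nonneg (t - t'))
        linarith
  have h5 := (abs_le.1 h3).1
  have h6 : K / (2 * τ) * |s - s'| ≤ K / (2 * τ) * (|t - t'| + |x - x'|) :=
    mul_le_mul_of_nonneg_left h4 (by positivity)
  have h7 : K ^ 2 / (4 * τ ^ 2) * |t - t'| ≤ K ^ 2 / (4 * τ ^ 2) * (|t - t'| + |x - x'|) :=
    mul_le_mul_of_nonneg_left (by linarith [abs_nonneg (x - x')]) (by positivity)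
  rw [h1, add_mul]
  linarith

end env

/-- the difference of envelopes -/
noncomputable def DD (g : ℝ → ℝ) (k B x₁ t x : ℝ) : ℝ :=
  RR g k x₁ B t x - RL g k (-B) x₁ t x

section DD
variable {g : ℝ → ℝ} (hg : Continuous g) {k B x₁ : ℝ} (h1 : -B ≤ x₁) (h2 : x₁ ≤ B)
include hg h1 h2

lemma DD_strict {t x x' : ℝ} (ht : 0 < t) (hx : x < x') : DD g k B x₁ t x < DD g k B x₁ t x' := by
  unfold DD
  have a1 := RR_mono hg (k := k) h2 ht hx.le
  have a2 := RL_anti hg (k := k) h1 ht hx.le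
  have h4t : 0 < 4 * t := by positivity
  obtain ⟨zR, hzR, hRR⟩ := RR_att hg (k := k) (t := t) (x := x) h2
  obtain ⟨zL, hzL, hRL⟩ := RL_att hg (k := k) (t := t) (x := x') h1
  rcases le_or_gt (zR - (x - (1 - 2 * k) * t)) 0 with b1 | b1
  · rcases le_or_gt ((x' - (1 - 2 * k) * t) - zL) 0 with b2 | b2
    · exfalso
      linarith [hzR.1, hzL.2]
    · have b3 := RL_ge hg (k := k) (t := t) (x := x) hzL
      rw [max_eq_left b2.le] at hRL
      have b4 : max ((x - (1 - 2 * k) * t) - zL) 0 < (x' - (1 - 2 * k) * t) - zL :=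
        max_lt (by linarith) b2
      have b5 := pow_lt_pow_left₀ b4 (le_max_right _ _) (two_ne_zero)
      have b6 := div_lt_div_of_pos_right b5 h4t
      linarith
  · have b3 := RR_ge hg (k := k) (t := t) (x := x') hzR
    rw [max_eq_left b1.le] at hRR
    have b4 : max (zR - (x' - (1 - 2 * k) * t)) 0 < zR - (x - (1 - 2 * k) * t) :=
      max_lt (by linarith) b1
    have b5 := pow_lt_pow_left₀ b4 (le_max_right _ _) (two_ne_zero)
    have b6 := div_lt_div_of_pos_right b5 h4t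
    linarith

variable (hgl : ∀ z z', |g z - g z'| ≤ |z - z'|)
include hgl

lemma DD_neg {t x : ℝ} (ht : 0 < t) (hx : x - (1 - 2 * k) * t ≤ x₁ - 2 * t) :
    DD g k B x₁ t x < 0 := by
  unfold DD
  obtain ⟨zR, hzR, hRR⟩ := RR_att hg (k := k) (t := t) (x := x) h2
  have b1 := RL_ge hg (k := k) (t := t) (x := x) (right_mem_Icc.2 h1)
  set y := x - (1 - 2 * k) * t with hy
  rw [max_eq_right (by linarith : y - x₁ ≤ 0)] at b1
  rw [max_eq_left (by linarith [hzR.1] : 0 ≤ zR - y)] at hRR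
  have b2 := (abs_le.1 (hgl zR x₁)).2
  rw [abs_of_nonneg (by linarith [hzR.1])] at b2
  have h4t : 0 < 4 * t := by positivity
  have b3 : (zR - x₁) + t ≤ (zR - y) ^ 2 / (4 * t) := by
    rw [le_div_iff₀ h4t]
    nlinarith [hzR.1, sq_nonneg (zR - x₁), mul_nonneg (sub_nonneg.2 hzR.1)
      (by linarith : 0 ≤ x₁ - y - 2 * t), sq_nonneg (x₁ - y - 2 * t)]
  have b4 : (0:ℝ) ^ 2 / (4 * t) = 0 := by simp
  rw [b4] at b1
  linarith

lemma DD_pos {t x : ℝ} (ht : 0 < t) (hx : x₁ + 2 * t ≤ x - (1 - 2 * k) * t) :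
    0 < DD g k B x₁ t x := by
  unfold DD
  obtain ⟨zL, hzL, hRL⟩ := RL_att hg (k := k) (t := t) (x := x) h1
  have b1 := RR_ge hg (k := k) (t := t) (x := x) (left_mem_Icc.2 h2)
  set y := x - (1 - 2 * k) * t with hy
  rw [max_eq_right (by linarith : x₁ - y ≤ 0)] at b1
  rw [max_eq_left (by linarith [hzL.2] : 0 ≤ y - zL)] at hRL
  have b2 := (abs_le.1 (hgl zL x₁)).2
  rw [abs_of_nonpos (by linarith [hzL.2])] at b2
  have h4t : 0 < 4 * t := by positivity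
  have b3 : (x₁ - zL) + t ≤ (y - zL) ^ 2 / (4 * t) := by
    rw [le_div_iff₀ h4t]
    nlinarith [hzL.2, sq_nonneg (x₁ - zL), mul_nonneg (sub_nonneg.2 hzL.2)
      (by linarith : 0 ≤ y - x₁ - 2 * t), sq_nonneg (y - x₁ - 2 * t)]
  have b4 : (0:ℝ) ^ 2 / (4 * t) = 0 := by simp
  rw [b4] at b1
  linarith

end DD

lemma DD_anti {g : ℝ → ℝ} (hg : Continuous g) {k B x₁ x₂ t x : ℝ} (h1 : -B ≤ x₁) (h12 : x₁ ≤ x₂)
    (h2 : x₂ ≤ B) : DD g k B x₂ t x ≤ DD g k B x₁ t x := by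
  unfold DD
  obtain ⟨zR, hzR, hRR⟩ := RR_att hg (k := k) (t := t) (x := x) h2
  obtain ⟨zL, hzL, hRL⟩ := RL_att hg (k := k) (t := t) (x := x) h1
  have a1 := RR_ge hg (k := k) (t := t) (x := x) (z := zR) (p := x₁) (q := B)
    ⟨h12.trans hzR.1, hzR.2⟩
  have a2 := RL_ge hg (k := k) (t := t) (x := x) (z := zL) (p := -B) (q := x₂)
    ⟨hzL.1, hzL.2.trans h12⟩
  linarith

end Pool.Agent.W807.TF
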