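import Pool.Agent.W807.TF.Stmts

set_option autoImplicit false

open MeasureTheory Set Filter Topology

namespace Pool.Agent.W807.TF

lemma int_mul_poly {B : ℝ} {f : ℝ → ℝ}
    (hf : IntervalIntegrable f volume (-B) B) (p : Polynomial ℝ) :
    ∫ x in (-B)..B, f x * p.eval x = (∫ x in (-B)..B, f x) * p.eval B
      - ∫ s in (-B)..B, (∫ x in (-B)..s, f x) * p.derivative.eval s := by
  have hu := hf.absolutelyContinuousOnInterval_intervalIntegral (c := -B) (by simp)
  have hv : AbsolutelyContinuousOnInterval (fun x => p.eval x) (-B) B :=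
    ContDiffOn.absolutelyContinuousOnInterval (by
      have : ContDiff ℝ 1 fun x => Polynomial.aeval x p := Polynomial.contDiff_aeval p 1
      simp only [Polynomial.coe_aeval_eq_eval] at this
      exact this.contDiffOn)
  have h := hu.integral_mul_deriv_eq_deriv_mul hv
  simp only [Polynomial.deriv, intervalIntegral.integral_same, zero_mul, sub_zero] at h
  have e : ∫ x in (-B)..B, deriv (fun x => ∫ v in (-B)..x, f v) x * p.eval x =
      ∫ x in (-B)..B, f x * p.eval x := by
    apply intervalIntegral.integral_congr_ae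
    filter_upwards [hf.ae_hasDerivAt_integral] with x hx hx2
    rw [(hx (uIoc_subset_uIcc hx2) (-B) (by simp)).deriv]
  rw [e] at h
  linarith

lemma ii_of_bd {f : ℝ → ℝ} {M : ℝ} (hf : Measurable f) (hM : ∀ x, |f x| ≤ M) (a b : ℝ) :
    IntervalIntegrable f volume a b := by
  refine (intervalIntegrable_const (c := M)).mono_fun hf.aestronglyMeasurable.restrict ?_
  refine ae_of_all _ fun x => ?_
  show ‖f x‖ ≤ ‖M‖
  rw [Real.norm_eq_abs, Real.norm_eq_abs]
  exact (hM x).trans (le_abs_self M)

theorem taskWk : TaskWk := by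
  intro B f g h hB hfm hgm hhm hf01 hg01 hh1 hconv
  have hfa : ∀ ε x, 0 < ε → |f ε x| ≤ 1 := fun ε x he => by
    rw [abs_le]; constructor <;> linarith [hf01 ε x he]
  have hga : ∀ x, |g x| ≤ 1 := fun x => by
    rw [abs_le]; constructor <;> linarith [hg01 x]
  have hBB : -B ≤ B := by linarith
  -- polynomials
  have hpoly : ∀ p : Polynomial ℝ, Tendsto (fun ε => ∫ x in (-B)..B, f ε x * p.eval x) (𝓝[>] 0)
      (𝓝 (∫ x in (-B)..B, g x * p.eval x)) := by
    intro p
    have e : (fun ε => ∫ x in (-B)..B, f ε x * p.eval x) =ᶠ[𝓝[>] 0] fun ε =>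
        (∫ x in (-B)..B, f ε x) * p.eval B
          - ∫ s in (-B)..B, (∫ x in (-B)..s, f ε x) * p.derivative.eval s := by
      filter_upwards [self_mem_nhdsWithin] with ε hε
      exact int_mul_poly (ii_of_bd (hfm ε hε) (fun x => hfa ε x hε) _ _) p
    rw [tendsto_congr' e, int_mul_poly (ii_of_bd hgm hga _ _) p]
    refine Tendsto.sub ((hconv (-B) B le_rfl hBB le_rfl).mul_const _) ?_
    have hcp : Continuous fun s => p.derivative.eval s := p.derivative.continuous
    apply intervalIntegral.tendsto_integral_filter_of_dominated_convergence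
      (fun s => (2 * B) * |p.derivative.eval s|)
    · filter_upwards [self_mem_nhdsWithin] with ε hε
      have h1 : Continuous fun s => ∫ x in (-B)..s, f ε x :=
        intervalIntegral.continuous_primitive
          (fun a b => ii_of_bd (hfm ε hε) (fun x => hfa ε x hε) a b) _
      exact (h1.mul hcp).aestronglyMeasurable
    · filter_upwards [self_mem_nhdsWithin] with ε hε
      refine ae_of_all _ fun s hs => ?_
      rw [uIoc_of_le hBB] at hs
      rw [norm_mul, Real.norm_eq_abs, Real.norm_eq_abs]
      apply mul_le_mul_of_nonneg_right _ (abs_nonneg _)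
      have h2 := intervalIntegral.norm_integral_le_of_norm_le_const
        (C := 1) (a := -B) (b := s) (f := f ε) (fun x _ => hfa ε x hε)
      rw [Real.norm_eq_abs] at h2
      have h3 : |s - -B| = s + B := by rw [abs_of_nonneg (by linarith [hs.1])]; ring
      rw [h3] at h2
      linarith [hs.2]
    · exact (continuous_const.mul hcp.abs).intervalIntegrable _ _
    · refine ae_of_all _ fun s hs => ?_
      rw [uIoc_of_le hBB] at hs
      exact (hconv (-B) s le_rfl hs.1.le hs.2).mul_const _
  -- approximation
  rw [Metric.tendsto_nhds]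
  intro θ hθ
  set η : ℝ := θ / (4 * (1 + 2 * B)) with hη
  have hden : 0 < 4 * (1 + 2 * B) := by positivity
  have hηp : 0 < η := div_pos hθ hden
  have hhi : Integrable ((Icc (-B) B).indicator h) volume := by
    rw [integrable_indicator_iff measurableSet_Icc]
    exact ((integrableOn_Icc_iff_integrableOn_Ioc).2
      ((intervalIntegrable_iff_integrableOn_Ioc_of_le hBB).1 (ii_of_bd hhm hh1 _ _)))
  obtain ⟨v, -, hv1, hv2, hv3⟩ := hhi.exists_hasCompactSupport_integral_sub_le hηp
  obtain ⟨p, hp⟩ := exists_polynomial_near_of_continuousOn (-B) B v hv2.continuousOn η hηp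
  have hpc : Continuous fun s => p.eval s := p.continuous
  have hclose : ∫ x in (-B)..B, |h x - p.eval x| ≤ η * (1 + 2 * B) := by
    have i1 : IntervalIntegrable (fun x => |h x - v x|) volume (-B) B :=
      ((ii_of_bd hhm hh1 _ _).sub (hv2.intervalIntegrable _ _)).abs
    have h1 : ∫ x in (-B)..B, |h x - v x| ≤ η := by
      refine le_trans ?_ hv1
      rw [intervalIntegral.integral_of_le hBB]
      have e : ∫ x in Ioc (-B) B, |h x - v x| =
          ∫ x in Ioc (-B) B, ‖(Icc (-B) B).indicator h x - v x‖ := by
        apply setIntegral_congr_fun measurableSet_Ioc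
        intro x hx
        simp only [Real.norm_eq_abs]
        rw [indicator_of_mem (show x ∈ Icc (-B) B from ⟨hx.1.le, hx.2⟩)]
      rw [e]
      exact setIntegral_le_integral (hhi.sub hv3).norm (ae_of_all _ fun x => norm_nonneg _)
    have h2 : ∫ x in (-B)..B, |h x - p.eval x| ≤ ∫ x in (-B)..B, (|h x - v x| + η) := by
      apply intervalIntegral.integral_mono_on hBB
      · exact ((ii_of_bd hhm hh1 _ _).sub (hpc.intervalIntegrable _ _)).abs
      · exact i1.add intervalIntegrable_const
      · intro x hx
        have := hp x hx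
        have h3 := abs_sub_le (h x) (v x) (p.eval x)
        rw [abs_sub_comm (v x)] at h3
        linarith
    rw [intervalIntegral.integral_add i1 intervalIntegrable_const,
      intervalIntegral.integral_const, smul_eq_mul] at h2
    nlinarith
  have hbd : ∀ F : ℝ → ℝ, Measurable F → (∀ x, |F x| ≤ 1) →
      |(∫ x in (-B)..B, F x * h x) - ∫ x in (-B)..B, F x * p.eval x| ≤ η * (1 + 2 * B) := by
    intro F hF hF1
    have j1 : IntervalIntegrable (fun x => F x * h x) volume (-B) B := by
      apply ii_of_bd (hF.mul hhm) (M := 1)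
      intro x
      simp only [Pi.mul_apply]
      rw [abs_mul]
      exact mul_le_one₀ (hF1 x) (abs_nonneg _) (hh1 x)
    have j2 : IntervalIntegrable (fun x => F x * p.eval x) volume (-B) B :=
      (ii_of_bd hF hF1 _ _).mul_continuousOn hpc.continuousOn
    rw [← intervalIntegral.integral_sub j1 j2]
    refine le_trans (intervalIntegral.abs_integral_le_integral_abs hBB) (le_trans ?_ hclose)
    apply intervalIntegral.integral_mono_on hBB (j1.sub j2).abs
    · exact ((ii_of_bd hhm hh1 _ _).sub (hpc.intervalIntegrable _ _)).abs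
    · intro x _
      rw [← mul_sub, abs_mul]
      have := mul_le_mul_of_nonneg_right (hF1 x) (abs_nonneg (h x - p.eval x))
      linarith
  have hη2 : η * (1 + 2 * B) = θ / 4 := by
    rw [hη]; field_simp
  rw [hη2] at hbd
  filter_upwards [self_mem_nhdsWithin, (Metric.tendsto_nhds.1 (hpoly p)) (θ / 4) (by positivity)]
    with ε hε h1
  have h2 := hbd (f ε) (hfm ε hε) (fun x => hfa ε x hε)
  have h3 := hbd g hgm hga
  rw [Real.dist_eq] at h1 ⊢
  have h1' := abs_lt.1 h1
  rw [abs_le] at h2 h3
  rw [abs_lt]
  constructor <;> linarith [h2.1, h2.2, h3.1, h3.2, h1'.1, h1'.2]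

end Pool.Agent.W807.TF
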