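import Pool.Agent.W807.TF.TA2
import Pool.Agent.W807.TF.AE
import Pool.Agent.W807.TF.WK

set_option autoImplicit false

open MeasureTheory Set Filter Topology

namespace Pool.Agent.W807.TF

lemma ML.deriv01 {V : ℝ → ℝ} (h : ML V) (x : ℝ) : 0 ≤ deriv V x ∧ deriv V x ≤ 1 := by
  constructor
  · by_cases hd : DifferentiableAt ℝ V x
    · have h1 := hd.hasDerivAt
      rw [hasDerivAt_iff_tendsto_slope_zero] at h1
      have h2 : Tendsto (fun t : ℝ => t⁻¹ • (V (x + t) - V x)) (𝓝[>] 0) (𝓝 (deriv V x)) :=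
        h1.mono_left (nhdsWithin_mono _ fun y (hy : 0 < y) => ne_of_gt hy)
      refine ge_of_tendsto h2 ?_
      filter_upwards [self_mem_nhdsWithin] with t ht
      have := (h x (x + t) (by linarith [show (0:ℝ) < t from ht])).1
      rw [smul_eq_mul]
      exact mul_nonneg (inv_nonneg.2 (le_of_lt ht)) (by linarith)
    · rw [deriv_zero_of_not_differentiableAt hd]
  · have := abs_deriv_le_of_lip (f := V) (L := 1) (fun x y => by rw [one_mul]; exact h.lip x y) x
    exact (abs_le.1 this).2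

lemma ML.ftc {V : ℝ → ℝ} (h : ML V) (p q : ℝ) : ∫ x in p..q, deriv V x = V q - V p := by
  have h1 : LipschitzWith 1 V := by
    apply LipschitzWith.of_dist_le_mul
    intro x y
    rw [Real.dist_eq, Real.dist_eq]
    have := h.lip x y
    simpa using this
  exact ((h1.lipschitzOnWith (s := uIcc p q)).absolutelyContinuousOnInterval).integral_deriv_eq_sub

lemma HLFacts.ml {U0 : ℝ → ℝ} (h : HLFacts U0) {t : ℝ} (ht : 0 ≤ t) : ML (fun y => HL U0 t y) :=
  fun x y hxy => ⟨h.mono t x y ht hxy, h.lipx t x y ht hxy⟩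

lemma IsPot.ml {ub : ℝ → ℝ} {v F V : ℝ → ℝ → ℝ} (h : IsPot ub v F V) (t : ℝ) :
    ML (fun y => V t y) := by
  intro x y hxy
  refine ⟨h.mono t x y hxy, ?_⟩
  have := h.lip t t y x
  simp only [sub_self, abs_zero, zero_add] at this
  rw [abs_of_nonneg (by linarith : 0 ≤ y - x)] at this
  exact (abs_le.1 this).2

lemma pm_true (k l : ℝ) : pm true k l = max (l - k) 0 := by simp [pm]
lemma pm_false (k l : ℝ) : pm false k l = max (k - l) 0 := by simp [pm]
lemma pm_nn (b : Bool) (k l : ℝ) : 0 ≤ pm b k l := le_max_right _ _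
lemma pm_cont (b : Bool) (k : ℝ) : Continuous (pm b k) := by
  cases b
  · have : pm false k = fun l => max (k - l) 0 := by funext l; exact pm_false k l
    rw [this]; fun_prop
  · have : pm true k = fun l => max (l - k) 0 := by funext l; exact pm_true k l
    rw [this]; fun_prop
lemma pm_le1 (b : Bool) {k l : ℝ} (hk : 0 ≤ k ∧ k ≤ 1) (hl : 0 ≤ l ∧ l ≤ 1) : pm b k l ≤ 1 := by
  cases b
  · rw [pm_false]; apply max_le <;> linarith [hk.1, hk.2, hl.1, hl.2]
  · rw [pm_true]; apply max_le <;> linarith [hk.1, hk.2, hl.1, hl.2]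
lemma pm_split (k l : ℝ) : pm true k l = (l - k) + pm false k l := by
  rw [pm_true, pm_false]
  rcases le_total l k with h | h
  · rw [max_eq_right (by linarith), max_eq_left (by linarith)]; ring
  · rw [max_eq_left (by linarith), max_eq_right (by linarith)]; ring

lemma pm_abs_le (b : Bool) {k l : ℝ} (hk : 0 ≤ k ∧ k ≤ 1) (hl : 0 ≤ l ∧ l ≤ 1) :
    |pm b k l| ≤ 1 := by
  rw [abs_of_nonneg (pm_nn _ _ _)]; exact pm_le1 b hk hl

lemma pm_ii (b : Bool) {k : ℝ} (hk : 0 ≤ k ∧ k ≤ 1) {f : ℝ → ℝ} (hf : Measurable f)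
    (hf01 : ∀ x, 0 ≤ f x ∧ f x ≤ 1) (p q : ℝ) :
    IntervalIntegrable (fun x => pm b k (f x)) volume p q :=
  ii_of_bd ((pm_cont b k).measurable.comp hf) (fun x => pm_abs_le b hk (hf01 x)) p q

/-- strong convergence from weak convergence and upper semicontinuity of the norm -/
lemma strong_of {B : ℝ} (hB : 0 < B) {f : ℝ → ℝ → ℝ} {g : ℝ → ℝ}
    (hfm : ∀ ε, 0 < ε → Measurable (f ε)) (hgm : Measurable g)
    (hf01 : ∀ ε x, 0 < ε → 0 ≤ f ε x ∧ f ε x ≤ 1) (hg01 : ∀ x, 0 ≤ g x ∧ g x ≤ 1)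
    (hconv : ∀ p q, -B ≤ p → p ≤ q → q ≤ B →
      Tendsto (fun ε => ∫ x in p..q, f ε x) (𝓝[>] 0) (𝓝 (∫ x in p..q, g x)))
    (hsq : ∀ θ : ℝ, 0 < θ → ∀ᶠ ε in 𝓝[>] (0:ℝ),
      ∫ x in (-B)..B, (f ε x) ^ 2 ≤ (∫ x in (-B)..B, (g x) ^ 2) + θ) :
    Tendsto (fun ε => ∫ x in (-B)..B, |f ε x - g x|) (𝓝[>] 0) (𝓝 0) := by
  have hga : ∀ x, |g x| ≤ 1 := fun x => by
    rw [abs_le]; constructor <;> linarith [hg01 x]
  have hw := taskWk B f g g hB hfm hgm hgm hf01 hg01 hga hconv
  have hBB : -B ≤ B := by linarith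
  rw [Metric.tendsto_nhds]
  intro θ hθ
  -- choose sigma
  set σ : ℝ := θ / (4 * B) with hσ
  have hσp : 0 < σ := by positivity
  set η : ℝ := σ * θ / 8 with hη
  have hηp : 0 < η := by positivity
  filter_upwards [self_mem_nhdsWithin, hsq η hηp, (Metric.tendsto_nhds.1 hw) η hηp]
    with ε hε h1 h2
  have hfa : ∀ x, |f ε x| ≤ 1 := fun x => by
    rw [abs_le]; constructor <;> linarith [hf01 ε x hε]
  have mf := hfm ε hε
  have hdiff : ∀ x, |f ε x - g x| ≤ 1 := fun x => by
    rw [abs_le]; constructor <;> linarith [hf01 ε x hε, hg01 x]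
  have i1 : IntervalIntegrable (fun x => (f ε x) ^ 2) volume (-B) B :=
    ii_of_bd (mf.pow_const 2) (M := 1) (fun x => by
      rw [abs_pow]; exact pow_le_one₀ (abs_nonneg _) (hfa x)) _ _
  have i2 : IntervalIntegrable (fun x => (g x) ^ 2) volume (-B) B :=
    ii_of_bd (hgm.pow_const 2) (M := 1) (fun x => by
      rw [abs_pow]; exact pow_le_one₀ (abs_nonneg _) (hga x)) _ _
  have i3 : IntervalIntegrable (fun x => f ε x * g x) volume (-B) B :=
    ii_of_bd (mf.mul hgm) (M := 1) (fun x => by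
      simp only [Pi.mul_apply]
      rw [abs_mul]; exact mul_le_one₀ (hfa x) (abs_nonneg _) (hga x)) _ _
  have i4 : IntervalIntegrable (fun x => |f ε x - g x|) volume (-B) B :=
    (ii_of_bd (mf.sub hgm) (M := 1) hdiff _ _).abs
  have key : ∫ x in (-B)..B, |f ε x - g x| ≤
      ∫ x in (-B)..B, (σ + (1 / σ) * ((f ε x) ^ 2 - 2 * (f ε x * g x) + (g x) ^ 2)) := by
    apply intervalIntegral.integral_mono_on hBB i4
    · exact intervalIntegrable_const.add (((i1.sub (i3.const_mul 2)).add i2).const_mul _)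
    · intro x _
      have e : (f ε x) ^ 2 - 2 * (f ε x * g x) + (g x) ^ 2 = |f ε x - g x| ^ 2 := by
        rw [sq_abs]; ring
      rw [e]
      set a := |f ε x - g x| with ha
      have ha0 : 0 ≤ a := abs_nonneg _
      have : 0 ≤ σ + 1 / σ * a ^ 2 - a := by
        have e2 : σ + 1 / σ * a ^ 2 - a = ((σ - a / 2) ^ 2 + 3 / 4 * a ^ 2) / σ := by
          field_simp; ring
        rw [e2]
        positivity
      linarith
  rw [intervalIntegral.integral_add intervalIntegrable_const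
      (((i1.sub (i3.const_mul 2)).add i2).const_mul _),
    intervalIntegral.integral_const_mul, intervalIntegral.integral_add
      (i1.sub (i3.const_mul 2)) i2, intervalIntegral.integral_sub i1 (i3.const_mul 2),
    intervalIntegral.integral_const_mul, intervalIntegral.integral_const, smul_eq_mul] at key
  rw [Real.dist_eq] at h2
  have h2' := abs_lt.1 h2
  have e3 : ∫ x in (-B)..B, g x * g x = ∫ x in (-B)..B, (g x) ^ 2 := by
    congr 1; funext x; ring
  rw [e3] at h2'
  have h5 : (∫ x in (-B)..B, (f ε x) ^ 2) - 2 * (∫ x in (-B)..B, f ε x * g x)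
      + ∫ x in (-B)..B, (g x) ^ 2 ≤ 3 * η := by linarith [h2'.1, h2'.2]
  have h6 : 1 / σ * ((∫ x in (-B)..B, (f ε x) ^ 2) - 2 * (∫ x in (-B)..B, f ε x * g x)
      + ∫ x in (-B)..B, (g x) ^ 2) ≤ 1 / σ * (3 * η) :=
    mul_le_mul_of_nonneg_left h5 (by positivity)
  have h7 : 1 / σ * (3 * η) = 3 * θ / 8 := by rw [hη]; field_simp
  have h8 : (B - -B) * σ = θ / 2 := by rw [hσ]; field_simp; ring
  have h9 : 0 ≤ ∫ x in (-B)..B, |f ε x - g x| :=
    intervalIntegral.integral_nonneg hBB fun x _ => abs_nonneg _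
  rw [Real.dist_eq, sub_zero, abs_of_nonneg h9]
  rw [h8] at key
  rw [h7] at h6
  linarith

/-- the square as an integral of half-entropies -/
lemma sq_eq_int {l : ℝ} (h0 : 0 ≤ l) (h1 : l ≤ 1) :
    l ^ 2 = 2 * ∫ k in (0:ℝ)..1, pm true k l := by
  have e1 : ∫ k in (0:ℝ)..1, pm true k l = (∫ k in (0:ℝ)..l, pm true k l)
      + ∫ k in l..1, pm true k l := by
    rw [intervalIntegral.integral_add_adjacent_intervals] <;>
    · apply Continuous.intervalIntegrable
      simp only [pm_true]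
      fun_prop
  have e2 : ∫ k in (0:ℝ)..l, pm true k l = ∫ k in (0:ℝ)..l, (l - k) := by
    apply intervalIntegral.integral_congr
    intro k hk
    rw [uIcc_of_le h0] at hk
    simp only [pm_true]
    exact max_eq_left (by linarith [hk.2])
  have e3 : ∫ k in l..1, pm true k l = ∫ k in l..1, (0:ℝ) := by
    apply intervalIntegral.integral_congr
    intro k hk
    rw [uIcc_of_le h1] at hk
    simp only [pm_true]
    exact max_eq_right (by linarith [hk.1])
  have e4 : ∫ k in (0:ℝ)..l, (l - k) = l ^ 2 / 2 := by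
    have h5 : IntervalIntegrable (fun x : ℝ => x) volume 0 l :=
      continuous_id.intervalIntegrable 0 l
    rw [intervalIntegral.integral_sub intervalIntegrable_const h5,
      intervalIntegral.integral_const, integral_id]
    simp only [smul_eq_mul]
    ring
  rw [e1, e2, e3, e4]
  simp only [intervalIntegral.integral_zero]
  ring

lemma int_sq_eq {B : ℝ} (hB : 0 < B) {f : ℝ → ℝ} (hf : Measurable f)
    (hf01 : ∀ x, 0 ≤ f x ∧ f x ≤ 1) :
    ∫ x in (-B)..B, (f x) ^ 2 = 2 * ∫ k in (0:ℝ)..1, ∫ x in (-B)..B, pm true k (f x) := by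
  have e1 : ∫ x in (-B)..B, (f x) ^ 2 = ∫ x in (-B)..B, 2 * ∫ k in (0:ℝ)..1, pm true k (f x) := by
    congr 1; funext x; exact sq_eq_int (hf01 x).1 (hf01 x).2
  rw [e1, intervalIntegral.integral_const_mul]
  congr 1
  -- truncate k
  set G : ℝ → ℝ → ℝ := fun k x => pm true (max 0 (min k 1)) (f x) with hG
  have hGm : Measurable (Function.uncurry G) := by
    have : Function.uncurry G = fun p : ℝ × ℝ => max (f p.2 - max 0 (min p.1 1)) 0 := by
      funext p; simp only [hG, Function.uncurry, pm_true]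
    rw [this]
    fun_prop
  have hGb : ∀ k x, |G k x| ≤ 1 := fun k x => pm_abs_le true
    ⟨le_max_left _ _, max_le zero_le_one (min_le_right _ _)⟩ (hf01 x)
  have hsw := swap_ii hGm hGb (zero_le_one : (0:ℝ) ≤ 1) (by linarith : -B ≤ B)
  have a1 : ∫ t in (0:ℝ)..1, ∫ x in (-B)..B, G t x =
      ∫ k in (0:ℝ)..1, ∫ x in (-B)..B, pm true k (f x) := by
    apply intervalIntegral.integral_congr
    intro k hk
    rw [uIcc_of_le zero_le_one] at hk
    simp only [hG]
    rw [min_eq_left hk.2, max_eq_right hk.1]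
  have a2 : ∫ x in (-B)..B, ∫ t in (0:ℝ)..1, G t x =
      ∫ x in (-B)..B, ∫ k in (0:ℝ)..1, pm true k (f x) := by
    congr 1; funext x
    apply intervalIntegral.integral_congr
    intro k hk
    rw [uIcc_of_le zero_le_one] at hk
    simp only [hG]
    rw [min_eq_left hk.2, max_eq_right hk.1]
  rw [← a1, ← a2, hsw]

end Pool.Agent.W807.TF
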