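import Pool.Agent.W807.TF.Fin1

set_option autoImplicit false

open MeasureTheory Set Filter Topology

namespace Pool.Agent.W807.TF

/-- clamp of `x` to `[-B, B]` -/
noncomputable def cB (B x : ℝ) : ℝ := max (-B) (min x B)

lemma cB_mono {B : ℝ} {x y : ℝ} (h : x ≤ y) : cB B x ≤ cB B y :=
  max_le_max le_rfl (min_le_min h le_rfl)

lemma cB_mem {B : ℝ} (hB : 0 < B) (x : ℝ) : cB B x ∈ Icc (-B) B :=
  ⟨le_max_left _ _, max_le (by linarith) (min_le_right _ _)⟩

lemma cB_sub {B x y : ℝ} (hB : 0 < B) (h : cB B x < cB B y) : x ≤ cB B x ∧ cB B y ≤ y := by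
  unfold cB at h ⊢
  rcases le_total x B with h1 | h1 <;> rcases le_total y B with h2 | h2 <;>
    rcases le_total x (-B) with h3 | h3 <;> rcases le_total y (-B) with h4 | h4 <;>
    simp_all <;> linarith

/-- integral over the clamped interval is at most that over the full interval -/
lemma int_clamp_le {B a b : ℝ} (hB : 0 < B) (hab : a ≤ b) {F : ℝ → ℝ} (hF0 : ∀ x, 0 ≤ F x)
    (hF : ∀ p q, IntervalIntegrable F volume p q) :
    ∫ x in (cB B a)..(cB B b), F x ≤ ∫ x in a..b, F x := by
  rcases eq_or_lt_of_le (cB_mono (B := B) hab) with h | h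
  · rw [h, intervalIntegral.integral_same]
    exact intervalIntegral.integral_nonneg hab fun x _ => hF0 x
  · obtain ⟨h1, h2⟩ := cB_sub hB h
    apply intervalIntegral.integral_mono_interval h1 h.le h2
    · exact ae_of_all _ fun x => hF0 x
    · exact hF _ _

lemma cell_est {B k θ' δ a b Xa Xb : ℝ} {F F0 v ub : ℝ → ℝ} (hB : 0 < B) (hk : 0 ≤ k ∧ k ≤ 1)
    (hδ : 0 ≤ δ)
    (hFm : Measurable F) (hF01 : ∀ x, 0 ≤ F x ∧ F x ≤ 1)
    (hF0m : Measurable F0) (hF001 : ∀ x, 0 ≤ F0 x ∧ F0 x ≤ 1)
    (hub : Measurable ub) (hub01 : ∀ x, 0 ≤ ub x ∧ ub x ≤ 1)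
    (hv : Continuous v) (hab : a ≤ b) (hX : Xa ≤ Xb)
    (hvar : ∀ x ∈ Icc a b, |v x - v b| ≤ θ')
    (h1 : ∀ c : Bool, ∫ x in Xa..Xb, pm c k (F x) ≤ (∫ x in a..b, pm c k (ub x)) + δ)
    (h2 : |(∫ x in (cB B Xa)..(cB B Xb), F x) - ∫ x in (cB B Xa)..(cB B Xb), F0 x| ≤ δ) :
    ∫ x in (cB B Xa)..(cB B Xb), pm true k (F x) ≤
      (∫ x in (cB B Xa)..(cB B Xb), pm true k (F0 x)) + (∫ x in a..b, (|ub x - v x| + θ'))
        + 2 * δ := by
  have hZ := cB_mono (B := B) hX
  have hcell : IntervalIntegrable (fun x => |ub x - v x| + θ') volume a b := by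
    have i1 := ii_of_bd hub (M := 1) (fun x => by
      rw [abs_le]; constructor <;> linarith [hub01 x]) a b
    exact ((i1.sub (hv.intervalIntegrable a b)).abs).add intervalIntegrable_const
  have hcl : ∀ c : Bool, ∫ x in (cB B Xa)..(cB B Xb), pm c k (F x) ≤
      (∫ x in a..b, pm c k (ub x)) + δ := fun c =>
    (int_clamp_le hB hX (fun x => pm_nn c k (F x)) (fun p q => pm_ii c hk hFm hF01 p q)).trans
      (h1 c)
  rcases le_or_gt k (v b) with hcase | hcase
  · -- case A
    have hlow : ∫ x in a..b, pm false k (ub x) ≤ ∫ x in a..b, (|ub x - v x| + θ') := by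
      apply intervalIntegral.integral_mono_on hab (pm_ii false hk hub hub01 a b) hcell
      intro x hx
      have := hvar x hx
      have h3 := abs_le.1 this
      have h4 := neg_abs_le (ub x - v x)
      rw [pm_false]
      apply max_le
      · linarith
      · have := abs_nonneg (ub x - v x)
        have := abs_nonneg (v x - v b)
        linarith
    have e1 : ∫ x in (cB B Xa)..(cB B Xb), pm true k (F x) =
        ((∫ x in (cB B Xa)..(cB B Xb), F x) - ∫ x in (cB B Xa)..(cB B Xb), k)
        + ∫ x in (cB B Xa)..(cB B Xb), pm false k (F x) := by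
      have iF := ii_of_bd hFm (M := 1) (fun x => by
        rw [abs_le]; constructor <;> linarith [hF01 x]) (cB B Xa) (cB B Xb)
      rw [← intervalIntegral.integral_sub iF intervalIntegrable_const,
        ← intervalIntegral.integral_add (iF.sub intervalIntegrable_const)
          (pm_ii false hk hFm hF01 _ _)]
      congr 1; funext x
      exact pm_split k (F x)
    have e2 : (∫ x in (cB B Xa)..(cB B Xb), F0 x) - (∫ x in (cB B Xa)..(cB B Xb), k) ≤
        ∫ x in (cB B Xa)..(cB B Xb), pm true k (F0 x) := by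
      have iF := ii_of_bd hF0m (M := 1) (fun x => by
        rw [abs_le]; constructor <;> linarith [hF001 x]) (cB B Xa) (cB B Xb)
      rw [← intervalIntegral.integral_sub iF intervalIntegrable_const]
      apply intervalIntegral.integral_mono_on hZ (iF.sub intervalIntegrable_const)
        (pm_ii true hk hF0m hF001 _ _)
      intro x _
      rw [pm_true]
      exact le_max_left _ _
    have h5 := hcl false
    have h6 := (abs_le.1 h2).2
    linarith
  · -- case B
    have hup : ∫ x in a..b, pm true k (ub x) ≤ ∫ x in a..b, (|ub x - v x| + θ') := by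
      apply intervalIntegral.integral_mono_on hab (pm_ii true hk hub hub01 a b) hcell
      intro x hx
      have := hvar x hx
      have h3 := abs_le.1 this
      have h4 := le_abs_self (ub x - v x)
      rw [pm_true]
      apply max_le
      · linarith
      · have := abs_nonneg (ub x - v x)
        have := abs_nonneg (v x - v b)
        linarith
    have h5 := hcl true
    have h6 : 0 ≤ ∫ x in (cB B Xa)..(cB B Xb), pm true k (F0 x) :=
      intervalIntegral.integral_nonneg hZ fun x _ => pm_nn _ _ _
    linarith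

end Pool.Agent.W807.TF
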