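import Pool.Agent.W807.TF.Basic

set_option autoImplicit false

open MeasureTheory Set Filter Topology

namespace Pool.Agent.W807.TF

lemma ML.lip {U0 : ℝ → ℝ} (h : ML U0) (x y : ℝ) : |U0 x - U0 y| ≤ |x - y| := by
  rcases le_total x y with hxy | hxy
  · have := h x y hxy
    rw [abs_of_nonpos (by linarith), abs_of_nonpos (by linarith)]
    linarith
  · have := h y x hxy
    rw [abs_of_nonneg (by linarith), abs_of_nonneg (by linarith)]
    linarith

lemma ML.cont {U0 : ℝ → ℝ} (h : ML U0) : Continuous U0 := by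
  have : LipschitzWith 1 U0 := by
    apply LipschitzWith.of_dist_le_mul
    intro a b
    simpa [Real.dist_eq] using h.lip a b
  exact this.continuous

theorem taskHL : TaskHL := by
  intro U0 hU
  have hUc := hU.cont
  have hatt : ∀ t x : ℝ, ∃ c ∈ Icc (-1:ℝ) 1,
      HL U0 t x = U0 (x - c * t) - t * (1 - c) ^ 2 / 4 := by
    intro t x
    have := (isCompact_Icc (a := (-1:ℝ)) (b := 1)).exists_sSup_image_eq
      (nonempty_Icc.2 (by norm_num))
      (f := fun c : ℝ => U0 (x - c * t) - t * (1 - c) ^ 2 / 4) (by fun_prop)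
    exact this
  have hge1 : ∀ t x c : ℝ, c ∈ Icc (-1:ℝ) 1 →
      U0 (x - c * t) - t * (1 - c) ^ 2 / 4 ≤ HL U0 t x := by
    intro t x c hc
    apply le_csSup
    · exact (isCompact_Icc (a := (-1:ℝ)) (b := 1)).bddAbove_image (by fun_prop)
    · exact ⟨c, hc, rfl⟩
  have hge : ∀ t x c : ℝ, 0 ≤ t → U0 (x - c * t) - t * (1 - c) ^ 2 / 4 ≤ HL U0 t x := by
    intro t x c ht
    rcases le_or_gt c (-1) with h1 | h1
    · have h2 := hge1 t x (-1) (by constructor <;> norm_num)
      have h3 := hU (x - (-1) * t) (x - c * t) (by nlinarith)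
      nlinarith [mul_nonneg ht (sq_nonneg (1 + c))]
    · rcases le_or_gt c 1 with h2 | h2
      · exact hge1 t x c ⟨h1.le, h2⟩
      · have h3 := hge1 t x 1 (by constructor <;> norm_num)
        have h4 := hU (x - c * t) (x - 1 * t) (by nlinarith)
        have h5 : 0 ≤ t * (1 - c) ^ 2 := mul_nonneg ht (sq_nonneg _)
        linarith [h4.1]
  have hcont : Continuous (Function.uncurry (HL U0)) := by
    have := (isCompact_Icc (a := (-1:ℝ)) (b := 1)).continuous_sSup
      (f := fun (p : ℝ × ℝ) (c : ℝ) => U0 (p.2 - c * p.1) - p.1 * (1 - c) ^ 2 / 4)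
      (by
        show Continuous (fun q : (ℝ × ℝ) × ℝ =>
          U0 (q.1.2 - q.2 * q.1.1) - q.1.1 * (1 - q.2) ^ 2 / 4)
        fun_prop)
    exact this
  have hmono : ∀ t x y, 0 ≤ t → x ≤ y → HL U0 t x ≤ HL U0 t y := by
    intro t x y ht hxy
    obtain ⟨c, hc, h1⟩ := hatt t x
    have h2 := hge t y c ht
    have h3 := hU (x - c * t) (y - c * t) (by linarith)
    linarith [h3.1]
  have hlipx : ∀ t x y, 0 ≤ t → x ≤ y → HL U0 t y - HL U0 t x ≤ y - x := by
    intro t x y ht hxy
    obtain ⟨c, hc, h1⟩ := hatt t y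
    have h2 := hge t x c ht
    have h3 := hU (x - c * t) (y - c * t) (by linarith)
    linarith [h3.2]
  have hsg : ∀ t h x c, 0 ≤ t → 0 ≤ h →
      HL U0 t (x - c * h) - h * (1 - c) ^ 2 / 4 ≤ HL U0 (t + h) x := by
    intro t h x c ht hh
    obtain ⟨c', hc', h1⟩ := hatt t (x - c * h)
    rcases (add_nonneg ht hh).eq_or_lt with h0 | h0
    · have ht0 : t = 0 := by linarith
      have hh0 : h = 0 := by linarith
      subst ht0 hh0
      simp
    · have h2 := hge (t + h) x ((c * h + c' * t) / (t + h)) h0.le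
      have h3 : (c * h + c' * t) / (t + h) * (t + h) = c * h + c' * t := by
        field_simp
      have h4 : (t + h) * (1 - (c * h + c' * t) / (t + h)) ^ 2 ≤
          t * (1 - c') ^ 2 + h * (1 - c) ^ 2 := by
        have h5 : (t + h) * (1 - (c * h + c' * t) / (t + h)) ^ 2 =
            (t * (1 - c') + h * (1 - c)) ^ 2 / (t + h) := by
          field_simp
          ring
        rw [h5, div_le_iff₀ h0]
        nlinarith [mul_nonneg (mul_nonneg ht hh) (sq_nonneg (c - c'))]
      rw [h3] at h2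
      rw [h1]
      have h6 : x - c * h - c' * t = x - (c * h + c' * t) := by ring
      rw [h6]
      linarith
  have hsg' : ∀ t h x, 0 ≤ t → 0 ≤ h → ∃ c ∈ Icc (-1:ℝ) 1,
      HL U0 (t + h) x ≤ HL U0 t (x - c * h) - h * (1 - c) ^ 2 / 4 := by
    intro t h x ht hh
    obtain ⟨c, hc, h1⟩ := hatt (t + h) x
    refine ⟨c, hc, ?_⟩
    have h2 := hge t (x - c * h) c ht
    have h3 : x - c * h - c * t = x - c * (t + h) := by ring
    rw [h3] at h2
    linarith
  refine ⟨hcont, ?_, hge, fun t x _ => hatt t x, hmono, hlipx, hsg, hsg', ?_, ?_⟩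
  · intro x
    obtain ⟨c, hc, h1⟩ := hatt 0 x
    rw [h1]; simp
  · intro s t x hs hst
    have hh : 0 ≤ t - s := by linarith
    have e : s + (t - s) = t := by ring
    constructor
    · obtain ⟨c, hc, h1⟩ := hsg' s (t - s) x hs hh
      rw [e] at h1
      rcases le_total 0 c with h0 | h0
      · have h2 := hmono s (x - c * (t - s)) x hs (by nlinarith)
        have h3 : 0 ≤ (t - s) * (1 - c) ^ 2 := mul_nonneg hh (sq_nonneg _)
        linarith
      · have h2 := hlipx s x (x - c * (t - s)) hs (by nlinarith)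
        nlinarith [mul_nonneg hh (sq_nonneg (1 + c))]
    · have h1 := hsg s (t - s) x 1 hs hh
      rw [e] at h1
      have h2 := hlipx s (x - 1 * (t - s)) x hs (by linarith)
      linarith
  · intro t x p τ ht hp hτ
    apply le_of_forall_pos_le_add
    intro η hη
    -- small-o estimate in space
    have h1 : ∀ᶠ y in 𝓝 x, |HL U0 t y - HL U0 t x - p * (y - x)| ≤ η * |y - x| := by
      have := hp.isLittleO.def hη
      filter_upwards [this] with y hy
      simpa [Real.norm_eq_abs, mul_comm] using hy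
    obtain ⟨r, hr, h2⟩ := Metric.eventually_nhds_iff.1 h1
    -- time derivative from the right
    have h3 : Tendsto (fun h : ℝ => h⁻¹ • (HL U0 (t + h) x - HL U0 t x)) (𝓝[>] 0) (𝓝 τ) :=
      hτ.tendsto_slope_zero_right
    apply le_of_tendsto h3
    have h4 : ∀ᶠ h in 𝓝[>] (0:ℝ), h < r := by
      have : Iio r ∈ 𝓝 (0:ℝ) := Iio_mem_nhds hr
      exact mem_nhdsWithin_of_mem_nhds this
    filter_upwards [h4, self_mem_nhdsWithin] with h hhr hh0
    have hh : 0 < h := hh0
    obtain ⟨c, hc, h5⟩ := hsg' t h x ht.le hh.le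
    have hcabs : |c| ≤ 1 := abs_le.2 ⟨hc.1, hc.2⟩
    have h6 : |x - c * h - x| ≤ h := by
      have : x - c * h - x = -(c * h) := by ring
      rw [this, abs_neg, abs_mul, abs_of_pos hh]
      nlinarith
    have h7 := h2 (y := x - c * h) (by rw [Real.dist_eq]; linarith)
    have h8 : HL U0 t (x - c * h) - HL U0 t x ≤ -(p * (c * h)) + η * h := by
      have := (abs_le.1 h7).2
      have h9 : η * |x - c * h - x| ≤ η * h := mul_le_mul_of_nonneg_left h6 hη.le
      have h10 : p * (x - c * h - x) = -(p * (c * h)) := by ring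
      rw [h10] at this
      linarith
    rw [smul_eq_mul, inv_mul_le_iff₀ hh]
    have h11 : 0 ≤ h * ((1 - c) / 2 - p) ^ 2 := mul_nonneg hh.le (sq_nonneg _)
    nlinarith

end Pool.Agent.W807.TF
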