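import Pool.Agent.W807.TF.V3
import Pool.Agent.W807.TF.Fin1

set_option autoImplicit false

open MeasureTheory Set Filter Topology

namespace Pool.Agent.W807.TF

lemma ib_box {f : ℝ → ℝ → ℝ} (hf : Measurable (Function.uncurry f)) {M a b : ℝ} (c d : ℝ)
    (hb : ∀ t ∈ Ioc a b, ∀ x, |f t x| ≤ M) :
    Integrable (Function.uncurry f)
      ((volume.restrict (Ioc a b)).prod (volume.restrict (Ioc c d))) := by
  rw [Measure.prod_restrict]
  apply Measure.integrableOn_of_bounded (M := M)
  · rw [Measure.prod_prod]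
    exact (ENNReal.mul_lt_top measure_Ioc_lt_top measure_Ioc_lt_top).ne
  · exact hf.aestronglyMeasurable
  · rw [ae_restrict_iff' (measurableSet_Ioc.prod measurableSet_Ioc)]
    exact ae_of_all _ fun p hp => by rw [Real.norm_eq_abs]; exact hb p.1 hp.1 p.2

lemma dbl_eq {f : ℝ → ℝ → ℝ} (hf : Measurable (Function.uncurry f)) {M a b c d : ℝ}
    (hab : a ≤ b) (hcd : c ≤ d) (hb : ∀ t ∈ Ioc a b, ∀ x, |f t x| ≤ M) :
    ∫ t in a..b, ∫ x in c..d, f t x =
      ∫ z, Function.uncurry f z ∂((volume.restrict (Ioc a b)).prod (volume.restrict (Ioc c d))) := by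
  rw [integral_prod _ (ib_box hf c d hb), intervalIntegral.integral_of_le hab]
  simp only [intervalIntegral.integral_of_le hcd]
  rfl

lemma dbl_mono {G H : ℝ → ℝ → ℝ} (hG : Measurable (Function.uncurry G))
    (hH : Measurable (Function.uncurry H)) {C C' a b c d : ℝ} (hab : a ≤ b) (hcd : c ≤ d)
    (hGb : ∀ t ∈ Ioc a b, ∀ x, |G t x| ≤ C) (hHb : ∀ t ∈ Ioc a b, ∀ x, |H t x| ≤ C')
    (hle : ∀ᵐ p : ℝ × ℝ, p.1 ∈ Ioo a b → G p.1 p.2 ≤ H p.1 p.2) :
    ∫ t in a..b, ∫ x in c..d, G t x ≤ ∫ t in a..b, ∫ x in c..d, H t x := by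
  rw [dbl_eq hG hab hcd hGb, dbl_eq hH hab hcd hHb]
  apply integral_mono_ae (ib_box hG c d hGb) (ib_box hH c d hHb)
  rw [Measure.prod_restrict]
  have hne : ∀ᵐ p : ℝ × ℝ, p.1 ≠ b := by
    have : ∀ᵐ p ∂((volume : Measure ℝ).prod (volume : Measure ℝ)), p.1 ≠ b := by
      have hm : MeasurableSet {p : ℝ × ℝ | p.1 ≠ b} :=
        (measurableSet_eq_fun measurable_fst measurable_const).compl
      rw [Measure.ae_prod_iff_ae_ae (p := fun p : ℝ × ℝ => p.1 ≠ b) hm]
      have h1 : ∀ᵐ t : ℝ, t ≠ b := by rw [ae_iff]; simp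
      filter_upwards [h1] with t ht
      exact ae_of_all _ fun _ => ht
    exact this
  rw [EventuallyLE, ae_restrict_iff' (measurableSet_Ioc.prod measurableSet_Ioc)]
  filter_upwards [show ∀ᵐ p ∂((volume : Measure ℝ).prod (volume : Measure ℝ)),
      p.1 ∈ Ioo a b → G p.1 p.2 ≤ H p.1 p.2 from hle,
    show ∀ᵐ p ∂((volume : Measure ℝ).prod (volume : Measure ℝ)), p.1 ≠ b from hne] with p h1 h2 h3
  exact h1 ⟨h3.1.1, lt_of_le_of_ne h3.1.2 h2⟩

lemma TestFn.dt_zero {M L : ℝ} {φ : ℝ → ℝ → ℝ} (h : TestFn M L φ) {t x : ℝ} (hx : M ≤ |x|) :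
    deriv (fun r => φ r x) t = 0 := by
  have : (fun r => φ r x) = fun _ => 0 := by funext r; exact h.supp r x hx
  rw [this]; simp

lemma TestFn.dx_zero {M L : ℝ} {φ : ℝ → ℝ → ℝ} (h : TestFn M L φ) {t x : ℝ} (hx : M < |x|) :
    deriv (fun y => φ t y) x = 0 := by
  have : (fun y => φ t y) =ᶠ[𝓝 x] fun _ => 0 := by
    have hc : ContinuousAt (fun y : ℝ => |y|) x := continuous_abs.continuousAt
    filter_upwards [hc.eventually (Ioi_mem_nhds hx)] with y hy
    exact h.supp t y (le_of_lt hy)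
  rw [this.deriv_eq]; simp

lemma TestFn.quot_le {M L : ℝ} {φ : ℝ → ℝ → ℝ} (h : TestFn M L φ) {ε : ℝ} (hε : 0 < ε) (t x : ℝ) :
    |(φ t x - φ t (x - ε)) / ε| ≤ L := by
  have := h.lip t t x (x - ε)
  simp only [sub_self, abs_zero, zero_add, sub_sub_cancel] at this
  rw [abs_of_pos hε] at this
  rw [abs_div, abs_of_pos hε, div_le_iff₀ hε]
  exact this

lemma int_cut {M' : ℝ} (F : ℝ → ℝ) (hF : ∀ x, M' ≤ |x| → F x = 0) :
    ∫ x, F x = ∫ x in (-M')..M', F x := by
  symm
  apply intervalIntegral.integral_eq_integral_of_support_subset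
  intro x hx
  by_contra hcon
  apply hx
  apply hF
  rw [mem_Ioc, not_and_or, not_lt, not_le] at hcon
  rcases hcon with h1 | h1
  · rw [le_abs]; right; linarith
  · rw [le_abs]; left; linarith

lemma quot_tendsto {M L : ℝ} {φ : ℝ → ℝ → ℝ} (h : TestFn M L φ) {τ T : ℝ} (hτT : τ ≤ T)
    {M' : ℝ} (hM' : 0 ≤ M') :
    Tendsto (fun ε => ∫ t in τ..T, ∫ x in (-M')..M',
      |deriv (fun y => φ t y) x - (φ t x - φ t (x - ε)) / ε|) (𝓝[>] 0) (𝓝 0) := by
  have hMM : -M' ≤ M' := by linarith
  have hc := lip_cont h.lip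
  have hL0 := lip_nonneg h.lip
  have hjm : ∀ ε : ℝ, Measurable (Function.uncurry fun t x =>
      |deriv (fun y => φ t y) x - (φ t x - φ t (x - ε)) / ε|) := by
    intro ε
    have h1 : Measurable fun p : ℝ × ℝ => φ p.1 p.2 := hc.measurable
    have h2 : Measurable fun p : ℝ × ℝ => φ p.1 (p.2 - ε) :=
      hc.measurable.comp (measurable_fst.prodMk (measurable_snd.sub_const ε))
    have h3 : Measurable fun p : ℝ × ℝ => deriv (fun y => φ p.1 y) p.2 := meas_dx hc
    exact (h3.sub ((h1.sub h2).div_const ε)).abs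
  have hbd : ∀ ε : ℝ, 0 < ε → ∀ t x, |(|deriv (fun y => φ t y) x
      - (φ t x - φ t (x - ε)) / ε|)| ≤ 2 * L := by
    intro ε hε t x
    rw [abs_abs]
    have a1 := lip_dx_le h.lip t x
    have a2 := h.quot_le hε t x
    rw [abs_le] at a1 a2 ⊢
    constructor <;> linarith [a1.1, a1.2, a2.1, a2.2]
  have key : Tendsto (fun ε => ∫ t in τ..T, ∫ x in (-M')..M',
      |deriv (fun y => φ t y) x - (φ t x - φ t (x - ε)) / ε|) (𝓝[>] 0)
      (𝓝 (∫ t in τ..T, (0:ℝ))) := by
    apply intervalIntegral.tendsto_integral_filter_of_dominated_convergence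
      (fun _ => (2 * L) * |M' - -M'|)
    · refine Eventually.of_forall fun ε => ?_
      exact (meas_inner (hjm ε) _ _).aestronglyMeasurable
    · filter_upwards [self_mem_nhdsWithin] with ε hε
      exact ae_of_all _ fun t _ => by
        rw [Real.norm_eq_abs]
        exact abs_inner_le (fun x => hbd ε hε t x) _ _
    · exact intervalIntegrable_const
    · refine ae_of_all _ fun t _ => ?_
      suffices hs : Tendsto (fun ε => ∫ x in (-M')..M',
          |deriv (fun y => φ t y) x - (φ t x - φ t (x - ε)) / ε|) (𝓝[>] 0)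
          (𝓝 (∫ x in (-M')..M', (0:ℝ))) by
        simpa only [intervalIntegral.integral_zero] using hs
      apply intervalIntegral.tendsto_integral_filter_of_dominated_convergence (fun _ => 2 * L)
      · refine Eventually.of_forall fun ε => ?_
        exact ((hjm ε).comp measurable_prodMk_left).aestronglyMeasurable
      · filter_upwards [self_mem_nhdsWithin] with ε hε
        exact ae_of_all _ fun x _ => by
          rw [Real.norm_eq_abs]
          exact hbd ε hε t x
      · exact intervalIntegrable_const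
      · filter_upwards [(lip_lip_x h.lip t).ae_differentiableAt_real] with x hx _
        have h1 := hx.hasDerivAt
        rw [hasDerivAt_iff_tendsto_slope_zero] at h1
        have h2 : Tendsto (fun ε : ℝ => -ε) (𝓝[>] 0) (𝓝[≠] 0) := by
          rw [tendsto_nhdsWithin_iff]
          constructor
          · have : Tendsto (fun ε : ℝ => -ε) (𝓝 0) (𝓝 (-0)) := tendsto_id.neg
            rw [neg_zero] at this
            exact this.mono_left nhdsWithin_le_nhds
          · filter_upwards [self_mem_nhdsWithin] with ε hε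
            have : (0:ℝ) < ε := hε
            simp only [mem_compl_iff, mem_singleton_iff]
            linarith
        have h3 := h1.comp h2
        have h4 : Tendsto (fun ε => deriv (fun y => φ t y) x
            - (-ε)⁻¹ • (φ t (x + -ε) - φ t x)) (𝓝[>] 0)
            (𝓝 (deriv (fun y => φ t y) x - deriv (fun y => φ t y) x)) :=
          tendsto_const_nhds.sub h3
        rw [sub_self] at h4
        have h5 := h4.abs
        rw [abs_zero] at h5
        refine h5.congr fun ε => ?_
        rw [smul_eq_mul]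
        congr 2
        rw [show x + -ε = x - ε by ring, inv_neg, neg_mul, ← mul_neg, neg_sub, div_eq_inv_mul]
  simpa only [intervalIntegral.integral_zero] using key

end Pool.Agent.W807.TF
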