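import Pool.Agent.W807.TF.Int1
import Pool.Agent.W807.TF.Fin3

set_option autoImplicit false

open MeasureTheory Set Filter Topology

namespace Pool.Agent.W807.TF

lemma err1 (hC : TaskC) {ub : ℝ → ℝ} {u U : ℝ → ℝ → ℝ → ℝ}
    (hNL : ∀ ε, 0 < ε → NL ub ε (u ε) (U ε)) {k T τ M L : ℝ} {φ : ℝ → ℝ → ℝ}
    (hk : 0 ≤ k ∧ k ≤ 1) (hτ : τ ∈ Ioo (0:ℝ) T) (hφ : TestFn M L φ)
    (hae : ∀ᵐ p : ℝ × ℝ, p.1 ∈ Ioo τ T →
      deriv (fun r => φ r p.2) p.1
        + (1 - k - deriv (fun y => HL (prim ub) p.1 y) p.2) * deriv (fun y => φ p.1 y) p.2 ≤ 0)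
    (b : Bool) {θ : ℝ} (hθ : 0 < θ) :
    ∀ᶠ ε in 𝓝[>] (0:ℝ), ∫ t in τ..T, ∫ x : ℝ,
      pm b k (u ε t x) * (deriv (fun r => φ r x) t
        + (1 - dq ε (U ε) t x) * deriv (fun y => φ t y) x - k * ((φ t x - φ t (x - ε)) / ε)) ≤ θ := by
  have hT : 0 < T := hτ.1.trans hτ.2
  set M' := max M 0 + 2 with hM'
  have hMM' : M + 2 ≤ M' := by rw [hM']; linarith [le_max_left M 0]
  have hM'p : 0 < M' := by rw [hM']; linarith [le_max_right M 0]
  have hMle : -M' ≤ M' := by linarith
  have hc := lip_cont hφ.lip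
  have hL0 := lip_nonneg hφ.lip
  have hF := taskHL (prim ub) (prim_ml_of hNL)
  have hA := hC ub u U hNL T M' hT hM'p
  have hB := quot_tendsto hφ hτ.2.le hM'p.le
  have hA' : Tendsto (fun ε => L * ∫ t in (0:ℝ)..T, ∫ x in (-M')..M',
      |dq ε (U ε) t x - deriv (fun y => HL (prim ub) t y) x|) (𝓝[>] 0) (𝓝 0) := by
    have := hA.const_mul L
    rwa [mul_zero] at this
  have hε1 : ∀ᶠ ε in 𝓝[>] (0:ℝ), ε < 1 :=
    (eventually_lt_nhds one_pos).filter_mono nhdsWithin_le_nhds
  filter_upwards [self_mem_nhdsWithin, hε1, (tendsto_order.1 hA').2 (θ / 2) (by positivity),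
    (tendsto_order.1 hB).2 (θ / 2) (by positivity)] with ε hε hε1 h1 h2
  have hε0 : 0 < ε := hε
  have hN := hNL ε hε
  set u0 : ℝ → ℝ → ℝ := fun t x => deriv (fun y => HL (prim ub) t y) x with hu0
  have hu001 : ∀ t, 0 ≤ t → ∀ x, 0 ≤ u0 t x ∧ u0 t x ≤ 1 := fun t ht x => (hF.ml ht).deriv01 x
  have hu0m : Measurable (Function.uncurry u0) := meas_dx hF.cont
  set G : ℝ → ℝ → ℝ := fun t x => pm b k (u ε t x) * (deriv (fun r => φ r x) t
        + (1 - dq ε (U ε) t x) * deriv (fun y => φ t y) x - k * ((φ t x - φ t (x - ε)) / ε)) with hG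
  have hdqm : Measurable (Function.uncurry (dq ε (U ε))) := (hN.pot.dq_cont (δ := ε)).measurable
  have hφm : Measurable fun p : ℝ × ℝ => φ p.1 p.2 := hc.measurable
  have hφm2 : Measurable fun p : ℝ × ℝ => φ p.1 (p.2 - ε) :=
    hc.measurable.comp (measurable_fst.prodMk (measurable_snd.sub_const ε))
  have hdxm : Measurable fun p : ℝ × ℝ => deriv (fun y => φ p.1 y) p.2 := meas_dx hc
  have hdtm : Measurable fun p : ℝ × ℝ => deriv (fun r => φ r p.2) p.1 := meas_dt hc
  have hum : Measurable fun p : ℝ × ℝ => pm b k (u ε p.1 p.2) :=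
    (pm_cont b k).measurable.comp hN.u01.1
  have hdqm' : Measurable fun p : ℝ × ℝ => dq ε (U ε) p.1 p.2 := hdqm
  have hu0m' : Measurable fun p : ℝ × ℝ => u0 p.1 p.2 := hu0m
  have hGm : Measurable (Function.uncurry G) := by
    have : Function.uncurry G = fun p : ℝ × ℝ => pm b k (u ε p.1 p.2) *
        (deriv (fun r => φ r p.2) p.1 + (1 - dq ε (U ε) p.1 p.2) * deriv (fun y => φ p.1 y) p.2
          - k * ((φ p.1 p.2 - φ p.1 (p.2 - ε)) / ε)) := rfl
    rw [this]
    exact hum.mul ((hdtm.add ((measurable_const.sub hdqm').mul hdxm)).sub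
      (((hφm.sub hφm2).div_const ε).const_mul k))
  have hpm0 : ∀ t x, 0 ≤ pm b k (u ε t x) := fun t x => pm_nn _ _ _
  have hpm1 : ∀ t x, pm b k (u ε t x) ≤ 1 := fun t x => pm_le1 b hk (hN.u01.2 t x)
  have hGb : ∀ t ∈ Ioc τ T, ∀ x, |G t x| ≤ 3 * L := by
    intro t _ x
    have a1 := lip_dt_le hφ.lip t x
    have a2 := lip_dx_le hφ.lip t x
    have a3 := hφ.quot_le hε0 t x
    have a4 := hN.pot.dq_mem hε0 t x
    have a5 : |(1 - dq ε (U ε) t x) * deriv (fun y => φ t y) x| ≤ L := by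
      rw [abs_mul, abs_of_nonneg (by linarith [a4.2] : 0 ≤ 1 - dq ε (U ε) t x)]
      have := mul_le_mul_of_nonneg_right (by linarith [a4.1] : 1 - dq ε (U ε) t x ≤ 1)
        (abs_nonneg (deriv (fun y => φ t y) x))
      linarith
    have a6 : |k * ((φ t x - φ t (x - ε)) / ε)| ≤ L := by
      rw [abs_mul, abs_of_nonneg hk.1]
      have := mul_le_mul_of_nonneg_right hk.2 (abs_nonneg ((φ t x - φ t (x - ε)) / ε))
      linarith
    simp only [hG]
    rw [abs_mul, abs_of_nonneg (hpm0 t x)]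
    have a7 : |deriv (fun r => φ r x) t
        + (1 - dq ε (U ε) t x) * deriv (fun y => φ t y) x
        - k * ((φ t x - φ t (x - ε)) / ε)| ≤ 3 * L := by
      rw [abs_le] at a1 a5 a6 ⊢
      constructor <;> linarith [a1.1, a1.2, a5.1, a5.2, a6.1, a6.2]
    have := mul_le_mul_of_nonneg_right (hpm1 t x) (abs_nonneg (deriv (fun r => φ r x) t
        + (1 - dq ε (U ε) t x) * deriv (fun y => φ t y) x
        - k * ((φ t x - φ t (x - ε)) / ε)))
    linarith
  have hcut : ∀ t, ∫ x : ℝ, G t x = ∫ x in (-M')..M', G t x := by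
    intro t
    apply int_cut
    intro x hx
    have b1 : M ≤ |x| := by linarith
    have b2 : M < |x| := by linarith
    have b3 : M ≤ |x - ε| := by
      have := abs_sub_abs_le_abs_sub x (x - ε)
      rw [sub_sub_cancel, abs_of_pos hε0] at this
      linarith
    simp only [hG]
    rw [hφ.dt_zero b1, hφ.dx_zero b2, hφ.supp t x b1, hφ.supp t _ b3]
    simp
  have e1 : ∫ t in τ..T, ∫ x : ℝ, G t x = ∫ t in τ..T, ∫ x in (-M')..M', G t x := by
    congr 1; funext t; exact hcut t
  show ∫ t in τ..T, ∫ x : ℝ, G t x ≤ θ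
  rw [e1]
  -- upper bound
  have q1m : Measurable (Function.uncurry fun t x => L * |dq ε (U ε) t x - u0 t x|) :=
    ((hdqm'.sub hu0m').abs).const_mul L
  have q2m : Measurable (Function.uncurry fun t x =>
      |deriv (fun y => φ t y) x - (φ t x - φ t (x - ε)) / ε|) :=
    (hdxm.sub ((hφm.sub hφm2).div_const ε)).abs
  have q1b : ∀ t, 0 ≤ t → ∀ x, |(L * |dq ε (U ε) t x - u0 t x|)| ≤ L := by
    intro t ht x
    have a4 := hN.pot.dq_mem hε0 t x
    have a5 := hu001 t ht x
    rw [abs_mul, abs_abs, abs_of_nonneg hL0]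
    have : |dq ε (U ε) t x - u0 t x| ≤ 1 := by
      rw [abs_le]; constructor <;> linarith [a4.1, a4.2, a5.1, a5.2]
    nlinarith
  have q2b : ∀ t x, |(|deriv (fun y => φ t y) x - (φ t x - φ t (x - ε)) / ε|)| ≤ 2 * L := by
    intro t x
    rw [abs_abs]
    have a1 := lip_dx_le hφ.lip t x
    have a2 := hφ.quot_le hε0 t x
    rw [abs_le] at a1 a2 ⊢
    constructor <;> linarith [a1.1, a1.2, a2.1, a2.2]
  have hmono := dbl_mono (G := G) (H := fun t x => L * |dq ε (U ε) t x - u0 t x|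
      + |deriv (fun y => φ t y) x - (φ t x - φ t (x - ε)) / ε|) (C := 3 * L) (C' := 3 * L)
      hGm (q1m.add q2m) hτ.2.le hMle hGb (by
        intro t ht x
        refine (abs_add_le _ _).trans ?_
        have := q1b t (hτ.1.trans ht.1).le x
        have := q2b t x
        linarith) (by
        filter_upwards [hae] with p hp hpt
        have w := hp hpt
        have a2 := lip_dx_le hφ.lip p.1 p.2
        simp only [hG]
        set P := pm b k (u ε p.1 p.2) with hP
        set a := dq ε (U ε) p.1 p.2 with ha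
        set dx := deriv (fun y => φ p.1 y) p.2 with hdx
        set dt := deriv (fun r => φ r p.2) p.1 with hdt
        set Q := (φ p.1 p.2 - φ p.1 (p.2 - ε)) / ε with hQ
        have P0 : 0 ≤ P := hpm0 _ _
        have P1 : P ≤ 1 := hpm1 _ _
        have e : P * (dt + (1 - a) * dx - k * Q) =
            P * (dt + (1 - k - u0 p.1 p.2) * dx) + P * ((u0 p.1 p.2 - a) * dx)
              + P * (k * (dx - Q)) := by ring
        rw [e]
        have z1 : P * (dt + (1 - k - u0 p.1 p.2) * dx) ≤ 0 :=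
          mul_nonpos_of_nonneg_of_nonpos P0 w
        have z2 : P * ((u0 p.1 p.2 - a) * dx) ≤ L * |a - u0 p.1 p.2| := by
          have : (u0 p.1 p.2 - a) * dx ≤ |u0 p.1 p.2 - a| * |dx| := by
            rw [← abs_mul]; exact le_abs_self _
          have y1 : |u0 p.1 p.2 - a| * |dx| ≤ |u0 p.1 p.2 - a| * L :=
            mul_le_mul_of_nonneg_left a2 (abs_nonneg _)
          rw [abs_sub_comm a]
          have y2 : 0 ≤ |u0 p.1 p.2 - a| * L := by positivity
          have y3 : P * ((u0 p.1 p.2 - a) * dx) ≤ P * (|u0 p.1 p.2 - a| * L) :=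
            mul_le_mul_of_nonneg_left (this.trans y1) P0
          nlinarith
        have z3 : P * (k * (dx - Q)) ≤ |dx - Q| := by
          have y1 : k * (dx - Q) ≤ 1 * |dx - Q| := by
            refine (mul_le_mul_of_nonneg_left (le_abs_self _) hk.1).trans ?_
            exact mul_le_mul_of_nonneg_right hk.2 (abs_nonneg _)
          have y2 : P * (k * (dx - Q)) ≤ P * (1 * |dx - Q|) := mul_le_mul_of_nonneg_left y1 P0
          have := abs_nonneg (dx - Q)
          nlinarith
        linarith)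
  have hsplit : ∫ t in τ..T, ∫ x in (-M')..M', (L * |dq ε (U ε) t x - u0 t x|
      + |deriv (fun y => φ t y) x - (φ t x - φ t (x - ε)) / ε|) =
      (∫ t in τ..T, ∫ x in (-M')..M', L * |dq ε (U ε) t x - u0 t x|) +
      ∫ t in τ..T, ∫ x in (-M')..M', |deriv (fun y => φ t y) x - (φ t x - φ t (x - ε)) / ε| := by
    have b1 : ∀ t ∈ Ioc τ T, ∀ x, |(L * |dq ε (U ε) t x - u0 t x|)| ≤ L := fun t ht x =>
      q1b t (hτ.1.trans ht.1).le x
    have b2 : ∀ t ∈ Ioc τ T, ∀ x,
        |(|deriv (fun y => φ t y) x - (φ t x - φ t (x - ε)) / ε|)| ≤ 2 * L := fun t _ x => q2b t x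
    rw [dbl_eq q1m hτ.2.le hMle b1, dbl_eq q2m hτ.2.le hMle b2,
      ← integral_add (ib_box q1m _ _ b1) (ib_box q2m _ _ b2)]
    rw [dbl_eq (f := fun t x => L * |dq ε (U ε) t x - u0 t x|
      + |deriv (fun y => φ t y) x - (φ t x - φ t (x - ε)) / ε|) (M := 3 * L)
      (q1m.add q2m) hτ.2.le hMle (by
        intro t ht x
        refine (abs_add_le _ _).trans ?_
        have := b1 t ht x
        have := b2 t ht x
        linarith)]
    rfl
  have hfirst : ∫ t in τ..T, ∫ x in (-M')..M', L * |dq ε (U ε) t x - u0 t x| ≤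
      L * ∫ t in (0:ℝ)..T, ∫ x in (-M')..M', |dq ε (U ε) t x - u0 t x| := by
    have e2 : (fun t => ∫ x in (-M')..M', L * |dq ε (U ε) t x - u0 t x|) =
        fun t => L * ∫ x in (-M')..M', |dq ε (U ε) t x - u0 t x| := by
      funext t; exact intervalIntegral.integral_const_mul _ _
    rw [e2, intervalIntegral.integral_const_mul]
    apply mul_le_mul_of_nonneg_left _ hL0
    apply intervalIntegral.integral_mono_interval hτ.1.le hτ.2.le le_rfl
    · exact ae_of_all _ fun t => intervalIntegral.integral_nonneg hMle fun x _ => abs_nonneg _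
    · refine (intervalIntegrable_const (c := 1 * |M' - -M'|)).mono_fun
        (meas_inner (f := fun t x => |dq ε (U ε) t x - u0 t x|)
          ((hdqm'.sub hu0m').abs) _ _).aestronglyMeasurable.restrict ?_
      rw [EventuallyLE, ae_restrict_iff' measurableSet_uIoc]
      refine ae_of_all _ fun t ht => ?_
      rw [uIoc_of_le hT.le] at ht
      rw [Real.norm_eq_abs, Real.norm_eq_abs]
      refine (abs_inner_le (M := 1) (fun x => ?_) _ _).trans (le_abs_self _)
      rw [abs_abs]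
      have a4 := hN.pot.dq_mem hε0 t x
      have a5 := hu001 t ht.1.le x
      rw [abs_le]; constructor <;> linarith [a4.1, a4.2, a5.1, a5.2]
  simp only [hsplit] at hmono
  refine hmono.trans ?_
  have h1' := h1
  have := hfirst
  linarith

end Pool.Agent.W807.TF
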