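import Pool.Agent.W807.TF.Tools

set_option autoImplicit false

open MeasureTheory Set Filter Topology

namespace Pool.Agent.W807.TF

theorem taskLine : TaskLine := by
  intro ub v F V hub hv hF hV t h c p q ht hh hpq
  -- abbreviations
  set P : ℝ → ℝ := fun s => p - c * (h - s) with hP
  set Q : ℝ → ℝ := fun s => q - c * (h - s) with hQ
  have hVc := hV.cont
  have hVx : ∀ r, Continuous (V r) := hV.cont_x
  have hVii : ∀ r a b, IntervalIntegrable (V r) volume a b := fun r a b =>
    (hVx r).intervalIntegrable a b
  set K : ℝ → ℝ := fun s => ∫ y in P s..Q s, V (t + s) y with hK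
  set R : ℝ → ℝ := fun s => ∫ y in P s..Q s, (c * v (t + s) y - F (t + s) y) with hR
  -- R as an integral over a fixed interval
  have hRfix : ∀ s, R s = ∫ y in p..q, (c * v (t + s) (y - c * (h - s)) -
      F (t + s) (y - c * (h - s))) := by
    intro s
    simp only [hR, hP, hQ]
    rw [← intervalIntegral.integral_comp_sub_right
      (fun y => c * v (t + s) y - F (t + s) y) (c * (h - s))]
  have hjm : Measurable (Function.uncurry fun s y => c * v (t + s) (y - c * (h - s)) -
      F (t + s) (y - c * (h - s))) := by
    have hm : Measurable (fun a : ℝ × ℝ => ((t + a.1, a.2 - c * (h - a.1)) : ℝ × ℝ)) := by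
      fun_prop
    exact (measurable_const.mul (hv.1.comp hm)).sub (hF.1.comp hm)
  have hRm : Measurable R := by
    have : R = fun s => ∫ y in p..q, (c * v (t + s) (y - c * (h - s)) -
      F (t + s) (y - c * (h - s))) := funext hRfix
    rw [this]
    exact meas_inner hjm p q
  have hRb : ∀ s, |R s| ≤ (|c| + 1) * |q - p| := by
    intro s
    rw [hRfix s]
    apply abs_inner_le
    intro y
    calc |c * v (t + s) (y - c * (h - s)) - F (t + s) (y - c * (h - s))|
        ≤ |c * v (t + s) (y - c * (h - s))| + |F (t + s) (y - c * (h - s))| := abs_sub _ _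
      _ ≤ |c| + 1 := by
        rw [abs_mul]
        have h1 := hv.abs_le (t + s) (y - c * (h - s))
        have h2 := hF.abs_le (t + s) (y - c * (h - s))
        nlinarith [abs_nonneg c]
  have hRii : ∀ a b, IntervalIntegrable R volume a b := fun a b => ii_of_bdd hRm hRb a b
  set G : ℝ → ℝ := fun s => K s - ∫ r in (0:ℝ)..s, R r with hG
  -- a.e. formula for R
  have hRae : ∀ᵐ r : ℝ, 0 < r → R r = c * (V (t + r) (Q r) - V (t + r) (P r)) -
      ∫ y in P r..Q r, F (t + r) y := by
    have h1 := (ae_restrict_iff' measurableSet_Ioi).1 hV.dx
    have h2 : ∀ᵐ r : ℝ, t + r ∈ Ioi (0:ℝ) → ∀ x y, V (t + r) y - V (t + r) x =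
        ∫ z in x..y, v (t + r) z := by
      have hq : Measure.QuasiMeasurePreserving (fun r : ℝ => t + r) volume volume :=
        (measurePreserving_add_left volume t).quasiMeasurePreserving
      exact hq.ae h1
    filter_upwards [h2] with r hr hr0
    rw [hr (by simp only [mem_Ioi]; linarith) (P r) (Q r)]
    simp only [hR]
    rw [intervalIntegral.integral_sub ((hv.ii_x (t + r) _ _).const_mul c) (hF.ii_x (t + r) _ _),
      intervalIntegral.integral_const_mul]
  have hGquad : ∀ a b, 0 ≤ a → a ≤ b → b ≤ h → |G b - G a| ≤ (4 * |c|) * (b - a) ^ 2 := by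
    intro a b ha hab hbh
    have e0 : G b - G a = (K b - K a) - ∫ r in a..b, R r := by
      simp only [hG]
      rw [← intervalIntegral.integral_interval_sub_left (hRii 0 b) (hRii 0 a)]
      ring
    -- the integral of R with the explicit formula
    have e1 : ∫ r in a..b, R r = ∫ r in a..b, (c * (V (t + r) (Q r) - V (t + r) (P r)) -
        ∫ y in P r..Q r, F (t + r) y) := by
      apply intervalIntegral.integral_congr_ae
      filter_upwards [hRae] with r hr hr2
      rw [uIoc_of_le hab] at hr2
      exact hr (by linarith [hr2.1])
    -- decomposition of K b - K a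
    have e2 : K b - K a = (∫ r in a..b, c * (V (t + b) (Q r) - V (t + b) (P r))) -
        ∫ r in a..b, ∫ y in P a..Q a, F (t + r) y := by
      have s1 : (∫ y in P b..Q b, V (t + b) y) - (∫ y in P a..Q a, V (t + b) y) =
          (∫ y in Q a..Q b, V (t + b) y) - ∫ y in P a..P b, V (t + b) y := by
        rw [intervalIntegral.integral_interval_sub_interval_comm (hVii _ _ _) (hVii _ _ _)
          (hVii _ _ _)]
        rw [intervalIntegral.integral_symm (P a) (P b), intervalIntegral.integral_symm (Q a) (Q b)]
        ring
      have s2 : ∀ m : ℝ, (∫ y in (m - c * (h - a))..(m - c * (h - b)), V (t + b) y) =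
          ∫ r in a..b, c * V (t + b) (m - c * (h - r)) := by
        intro m
        have := intervalIntegral.smul_integral_comp_add_mul (a := a) (b := b)
          (fun y => V (t + b) y) c (m - c * h)
        simp only [smul_eq_mul] at this
        rw [← intervalIntegral.integral_const_mul] at this
        have e : ∀ r : ℝ, m - c * h + c * r = m - c * (h - r) := fun r => by ring
        simp only [e] at this
        exact this.symm
      have s3 : (∫ y in P a..Q a, V (t + b) y) - (∫ y in P a..Q a, V (t + a) y) =
          - ∫ r in a..b, ∫ y in P a..Q a, F (t + r) y := by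
        rw [← intervalIntegral.integral_sub (hVii _ _ _) (hVii _ _ _)]
        have hPQ : P a ≤ Q a := by simp only [hP, hQ]; linarith
        have hFm : Measurable (Function.uncurry fun r y => F (t + r) y) := by
          have hm : Measurable (fun a : ℝ × ℝ => ((t + a.1, a.2) : ℝ × ℝ)) := by fun_prop
          exact hF.1.comp hm
        rw [swap_ii hFm (fun r y => hF.abs_le (t + r) y) hab hPQ,
          ← intervalIntegral.integral_neg]
        apply intervalIntegral.integral_congr_ae
        filter_upwards [hV.dt] with y hy _
        rw [hy (t + b) (by linarith), hy (t + a) (by linarith)]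
        have s4 : ∫ r in a..b, F (t + r) y = ∫ s in (t + a)..(t + b), F s y := by
          rw [intervalIntegral.integral_comp_add_left (fun s => F s y) t]
        rw [s4]
        have s5 := intervalIntegral.integral_interval_sub_left (hF.ii_t y 0 (t + b))
          (hF.ii_t y 0 (t + a))
        linarith
      have s6 : ∫ r in a..b, c * (V (t + b) (Q r) - V (t + b) (P r)) =
          (∫ y in Q a..Q b, V (t + b) y) - ∫ y in P a..P b, V (t + b) y := by
        have t1 := s2 q
        have t2 := s2 p
        simp only [hP, hQ]
        rw [t1, t2, ← intervalIntegral.integral_sub]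
        · congr 1; funext r; ring
        · apply Continuous.intervalIntegrable
          have := hVx (t + b)
          fun_prop
        · apply Continuous.intervalIntegrable
          have := hVx (t + b)
          fun_prop
      simp only [hK]
      rw [s6]
      linarith
    -- now compare
    have hPc : Continuous P := by simp only [hP]; fun_prop
    have hQc : Continuous Q := by simp only [hQ]; fun_prop
    have i1 : IntervalIntegrable (fun r => c * (V (t + b) (Q r) - V (t + b) (P r))) volume a b := by
      apply Continuous.intervalIntegrable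
      have := hVx (t + b)
      fun_prop
    have hcont2 : ∀ W : ℝ → ℝ, Continuous W → Continuous fun r => V (t + r) (W r) := by
      intro W hW
      have : Continuous (fun r => ((t + r, W r) : ℝ × ℝ)) := by fun_prop
      exact hVc.comp this
    have i2 : IntervalIntegrable (fun r => c * (V (t + r) (Q r) - V (t + r) (P r))) volume a b := by
      apply Continuous.intervalIntegrable
      have h1 := hcont2 Q hQc
      have h2 := hcont2 P hPc
      fun_prop
    have hFfix : ∀ s, (∫ y in P s..Q s, F (t + s) y) = ∫ y in p..q, F (t + s) (y - c * (h - s)) := by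
      intro s
      simp only [hP, hQ]
      rw [← intervalIntegral.integral_comp_sub_right (fun y => F (t + s) y) (c * (h - s))]
    have i3 : IntervalIntegrable (fun r => ∫ y in P r..Q r, F (t + r) y) volume a b := by
      have hm : Measurable (Function.uncurry fun s y => F (t + s) (y - c * (h - s))) := by
        have hm : Measurable (fun a : ℝ × ℝ => ((t + a.1, a.2 - c * (h - a.1)) : ℝ × ℝ)) := by
          fun_prop
        exact hF.1.comp hm
      have e : (fun r => ∫ y in P r..Q r, F (t + r) y) =
          fun s => ∫ y in p..q, F (t + s) (y - c * (h - s)) := funext hFfix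
      rw [e]
      exact ii_of_bdd (meas_inner hm p q) (M := 1 * |q - p|)
        (fun s => abs_inner_le (fun y => hF.abs_le _ _) _ _) a b
    have i4 : IntervalIntegrable (fun r => ∫ y in P a..Q a, F (t + r) y) volume a b := by
      have hm : Measurable (Function.uncurry fun r y => F (t + r) y) := by
        have hm : Measurable (fun a : ℝ × ℝ => ((t + a.1, a.2) : ℝ × ℝ)) := by fun_prop
        exact hF.1.comp hm
      exact ii_of_bdd (meas_inner hm _ _) (M := 1 * |Q a - P a|)
        (fun s => abs_inner_le (fun y => hF.abs_le _ _) _ _) a b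
    have e3 : G b - G a = ∫ r in a..b, ((c * (V (t + b) (Q r) - V (t + b) (P r)) -
        ∫ y in P a..Q a, F (t + r) y) - (c * (V (t + r) (Q r) - V (t + r) (P r)) -
        ∫ y in P r..Q r, F (t + r) y)) := by
      rw [e0, e1, e2, intervalIntegral.integral_sub (i1.sub i4) (i2.sub i3),
        intervalIntegral.integral_sub i1 i4]
    rw [e3]
    have hbound : ∀ r ∈ uIoc a b, ‖(c * (V (t + b) (Q r) - V (t + b) (P r)) -
        ∫ y in P a..Q a, F (t + r) y) - (c * (V (t + r) (Q r) - V (t + r) (P r)) -
        ∫ y in P r..Q r, F (t + r) y)‖ ≤ 4 * |c| * (b - a) := by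
      intro r hr
      rw [uIoc_of_le hab] at hr
      have b1 := hV.lip_t (t + b) (t + r) (Q r)
      have b2 := hV.lip_t (t + b) (t + r) (P r)
      have e4 : t + b - (t + r) = b - r := by ring
      have e4' : |b - r| = b - r := abs_of_nonneg (by linarith [hr.2])
      rw [e4, e4'] at b1 b2
      have b3 : |(∫ y in P r..Q r, F (t + r) y) - ∫ y in P a..Q a, F (t + r) y| ≤
          2 * |c| * (r - a) := by
        have s1 : (∫ y in P r..Q r, F (t + r) y) - (∫ y in P a..Q a, F (t + r) y) =
            (∫ y in Q a..Q r, F (t + r) y) - ∫ y in P a..P r, F (t + r) y := by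
          rw [intervalIntegral.integral_interval_sub_interval_comm (hF.ii_x _ _ _) (hF.ii_x _ _ _)
            (hF.ii_x _ _ _)]
          rw [intervalIntegral.integral_symm (P a) (P r),
            intervalIntegral.integral_symm (Q a) (Q r)]
          ring
        rw [s1]
        have u1 := abs_inner_le (fun y => hF.abs_le (t + r) y) (Q a) (Q r)
        have u2 := abs_inner_le (fun y => hF.abs_le (t + r) y) (P a) (P r)
        have e5 : Q r - Q a = c * (r - a) := by simp only [hQ]; ring
        have e6 : P r - P a = c * (r - a) := by simp only [hP]; ring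
        have e8 : |r - a| = r - a := abs_of_nonneg (by linarith [hr.1])
        rw [e5, abs_mul, e8] at u1
        rw [e6, abs_mul, e8] at u2
        calc _ ≤ |∫ y in Q a..Q r, F (t + r) y| + |∫ y in P a..P r, F (t + r) y| := abs_sub _ _
          _ ≤ _ := by linarith
      rw [Real.norm_eq_abs]
      have e7 : (c * (V (t + b) (Q r) - V (t + b) (P r)) -
        ∫ y in P a..Q a, F (t + r) y) - (c * (V (t + r) (Q r) - V (t + r) (P r)) -
        ∫ y in P r..Q r, F (t + r) y) = c * ((V (t + b) (Q r) - V (t + r) (Q r)) -
        (V (t + b) (P r) - V (t + r) (P r))) + ((∫ y in P r..Q r, F (t + r) y) -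
        ∫ y in P a..Q a, F (t + r) y) := by ring
      rw [e7]
      calc _ ≤ |c * ((V (t + b) (Q r) - V (t + r) (Q r)) -
            (V (t + b) (P r) - V (t + r) (P r)))| + |(∫ y in P r..Q r, F (t + r) y) -
            ∫ y in P a..Q a, F (t + r) y| := abs_add_le _ _
        _ ≤ |c| * (2 * (b - r)) + 2 * |c| * (r - a) := by
          rw [abs_mul]
          have : |(V (t + b) (Q r) - V (t + r) (Q r)) -
            (V (t + b) (P r) - V (t + r) (P r))| ≤ 2 * (b - r) := by
            calc _ ≤ |V (t + b) (Q r) - V (t + r) (Q r)| + |V (t + b) (P r) - V (t + r) (P r)| :=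
                  abs_sub _ _
              _ ≤ _ := by linarith
          have := mul_le_mul_of_nonneg_left this (abs_nonneg c)
          linarith
        _ ≤ 4 * |c| * (b - a) := by
          have h1 : 0 ≤ |c| * (r - a) := mul_nonneg (abs_nonneg c) (by linarith [hr.1])
          have h2 : 0 ≤ |c| * (b - r) := mul_nonneg (abs_nonneg c) (by linarith [hr.2])
          nlinarith
    have := intervalIntegral.norm_integral_le_of_norm_le_const hbound
    rw [Real.norm_eq_abs, abs_of_nonneg (by linarith : (0:ℝ) ≤ b - a)] at this
    calc _ ≤ 4 * |c| * (b - a) * (b - a) := this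
      _ = 4 * |c| * (b - a) ^ 2 := by ring
  have hfin := quad_const hh hGquad
  simp only [hG, hK, hP, hQ, intervalIntegral.integral_same, sub_zero, sub_self, mul_zero,
    add_zero] at hfin
  have hfin2 : ∫ z in p..q, V t (z - c * h) = ∫ y in (p - c * h)..(q - c * h), V t y := by
    rw [← intervalIntegral.integral_comp_sub_right (fun y => V t y) (c * h)]
  rw [intervalIntegral.integral_sub (hVii _ _ _), hfin2]
  · linarith
  · apply Continuous.intervalIntegrable
    have := hVx t
    fun_prop

end Pool.Agent.W807.TF
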