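import Pool.Agent.W807.TF.AE

set_option autoImplicit false

open MeasureTheory Set Filter Topology

namespace Pool.Agent.W807.TF

/-- the ramp function: `0` left of `x`, `1` right of `x + r`, linear in between -/
noncomputable def ramp (x r z : ℝ) : ℝ := max 0 (min 1 ((z - x) / r))

lemma ramp_nonneg (x r z : ℝ) : 0 ≤ ramp x r z := le_max_left _ _

lemma ramp_le_one (x r z : ℝ) : ramp x r z ≤ 1 := max_le zero_le_one (min_le_left _ _)

lemma ramp_zero {x r z : ℝ} (hr : 0 < r) (h : z ≤ x) : ramp x r z = 0 := by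
  unfold ramp
  apply max_eq_left
  apply (min_le_right _ _).trans
  exact div_nonpos_of_nonpos_of_nonneg (by linarith) hr.le

lemma ramp_one {x r z : ℝ} (hr : 0 < r) (h : x + r ≤ z) : ramp x r z = 1 := by
  unfold ramp
  have h1 : 1 ≤ (z - x) / r := by rw [le_div_iff₀ hr]; linarith
  rw [min_eq_left h1]
  exact max_eq_right zero_le_one

lemma ramp_mid {x r z : ℝ} (hr : 0 < r) (h1 : x ≤ z) (h2 : z ≤ x + r) :
    ramp x r z = (z - x) / r := by
  unfold ramp
  have h3 : (z - x) / r ≤ 1 := by rw [div_le_one hr]; linarith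
  rw [min_eq_right h3]
  exact max_eq_right (div_nonneg (by linarith) hr.le)

lemma ramp_cont (x r : ℝ) : Continuous (ramp x r) := by
  unfold ramp; fun_prop

lemma ramp_lip {x r : ℝ} (hr : 0 < r) (z z' : ℝ) :
    |ramp x r z - ramp x r z'| ≤ (1 / r) * |z - z'| := by
  unfold ramp
  have h1 := abs_max_sub_max_le_max (0:ℝ) (min 1 ((z - x) / r)) 0 (min 1 ((z' - x) / r))
  have h2 := abs_min_sub_min_le_max (1:ℝ) ((z - x) / r) 1 ((z' - x) / r)
  simp only [sub_self, abs_zero] at h1 h2
  have h3 : |(z - x) / r - (z' - x) / r| = (1 / r) * |z - z'| := by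
    have : (z - x) / r - (z' - x) / r = (1 / r) * (z - z') := by ring
    rw [this, abs_mul, abs_of_pos (by positivity : 0 < 1 / r)]
  have h4 : 0 ≤ |(z - x) / r - (z' - x) / r| := abs_nonneg _
  rw [max_eq_right h4, h3] at h2
  calc _ ≤ _ := h1
    _ ≤ (1 / r) * |z - z'| := max_le (by positivity) h2

lemma ramp_anti {x y r : ℝ} (hr : 0 < r) (hxy : x ≤ y) (z : ℝ) : ramp y r z ≤ ramp x r z := by
  unfold ramp
  apply max_le_max le_rfl
  apply min_le_min le_rfl
  exact div_le_div_of_nonneg_right (by linarith) hr.le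

lemma ramp_deriv {x r z : ℝ} (hr : 0 < r) (h1 : z ≠ x) (h2 : z ≠ x + r) :
    HasDerivAt (ramp x r) ((Ioo x (x + r)).indicator (fun _ => 1 / r) z) z := by
  rcases lt_or_gt_of_ne h1 with h3 | h3
  · rw [indicator_of_notMem (fun h => absurd h.1 (not_lt.2 h3.le))]
    refine (hasDerivAt_const z (0:ℝ)).congr_of_eventuallyEq ?_
    filter_upwards [Iio_mem_nhds h3] with y hy
    exact ramp_zero hr (le_of_lt hy)
  · rcases lt_or_gt_of_ne h2 with h4 | h4
    · have hm : z ∈ Ioo x (x + r) := ⟨h3, h4⟩
      rw [indicator_of_mem hm]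
      have h5 : HasDerivAt (fun y : ℝ => (y - x) / r) (1 / r) z :=
        ((hasDerivAt_id z).sub_const x).div_const r
      refine h5.congr_of_eventuallyEq ?_
      filter_upwards [Ioo_mem_nhds h3 h4] with y hy
      exact ramp_mid hr hy.1.le hy.2.le
    · rw [indicator_of_notMem (fun h => absurd h.2 (not_lt.2 h4.le))]
      refine (hasDerivAt_const z (1:ℝ)).congr_of_eventuallyEq ?_
      filter_upwards [Ioi_mem_nhds h4] with y hy
      exact ramp_one hr (le_of_lt hy)

lemma ae_ne (a : ℝ) : ∀ᵐ z : ℝ, z ≠ a := by simp [ae_iff]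

/-- difference of two ramps -/
noncomputable def rd (x y r z : ℝ) : ℝ := ramp x r z - ramp y r z

lemma rd_cont (x y r : ℝ) : Continuous (rd x y r) := (ramp_cont x r).sub (ramp_cont y r)

lemma rd_nonneg {x y r : ℝ} (hr : 0 < r) (hxy : x ≤ y) (z : ℝ) : 0 ≤ rd x y r z := by
  have := ramp_anti hr hxy z
  unfold rd; linarith

lemma rd_le_one {x y r : ℝ} (z : ℝ) : rd x y r z ≤ 1 := by
  have h1 := ramp_le_one x r z
  have h2 := ramp_nonneg y r z
  unfold rd; linarith

lemma rd_lip {x y r : ℝ} (hr : 0 < r) (z z' : ℝ) :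
    |rd x y r z - rd x y r z'| ≤ (2 / r) * |z - z'| := by
  have h1 := ramp_lip (x := x) hr z z'
  have h2 := ramp_lip (x := y) hr z z'
  have e : rd x y r z - rd x y r z' = (ramp x r z - ramp x r z') -
      (ramp y r z - ramp y r z') := by unfold rd; ring
  rw [e]
  calc _ ≤ |ramp x r z - ramp x r z'| + |ramp y r z - ramp y r z'| := abs_sub _ _
    _ ≤ 1 / r * |z - z'| + 1 / r * |z - z'| := add_le_add h1 h2
    _ = _ := by ring

lemma rd_left {x y r z : ℝ} (hr : 0 < r) (hxy : x ≤ y) (h : z ≤ x) : rd x y r z = 0 := by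
  unfold rd; rw [ramp_zero hr h, ramp_zero hr (h.trans hxy), sub_zero]

lemma rd_right {x y r z : ℝ} (hr : 0 < r) (hxy : x ≤ y) (h : y + r ≤ z) : rd x y r z = 0 := by
  unfold rd; rw [ramp_one hr h, ramp_one hr (by linarith), sub_self]

lemma rd_ae_deriv {x y r : ℝ} (hr : 0 < r) : ∀ᵐ z : ℝ,
    HasDerivAt (rd x y r) ((Ioo x (x + r)).indicator (fun _ => 1 / r) z -
      (Ioo y (y + r)).indicator (fun _ => 1 / r) z) z := by
  filter_upwards [ae_ne x, ae_ne (x + r), ae_ne y, ae_ne (y + r)] with z h1 h2 h3 h4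
  exact (ramp_deriv hr h1 h2).sub (ramp_deriv hr h3 h4)

lemma int_ind {g : ℝ → ℝ} {x r : ℝ} (hr : 0 < r) :
    ∫ z : ℝ, g z * (Ioo x (x + r)).indicator (fun _ => 1 / r) z =
      (1 / r) * ∫ z in x..(x + r), g z := by
  have h1 : (fun z : ℝ => g z * (Ioo x (x + r)).indicator (fun _ => 1 / r) z) =
      (Ioo x (x + r)).indicator (fun z => g z * (1 / r)) := by
    funext z
    by_cases h : z ∈ Ioo x (x + r)
    · rw [indicator_of_mem h, indicator_of_mem h]
    · rw [indicator_of_notMem h, indicator_of_notMem h, mul_zero]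
  rw [h1, integral_indicator measurableSet_Ioo, integral_mul_const,
    intervalIntegral.integral_of_le (by linarith), integral_Ioc_eq_integral_Ioo]
  ring

lemma int_ind_integrable {g : ℝ → ℝ} (hg : Measurable g) {M : ℝ} (hb : ∀ z, |g z| ≤ M)
    {x r : ℝ} : Integrable (fun z : ℝ => g z * (Ioo x (x + r)).indicator (fun _ => 1 / r) z) := by
  have h1 : (fun z : ℝ => g z * (Ioo x (x + r)).indicator (fun _ => 1 / r) z) =
      (Ioo x (x + r)).indicator (fun z => g z * (1 / r)) := by
    funext z
    by_cases h : z ∈ Ioo x (x + r)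
    · rw [indicator_of_mem h, indicator_of_mem h]
    · rw [indicator_of_notMem h, indicator_of_notMem h, mul_zero]
  rw [h1, integrable_indicator_iff measurableSet_Ioo]
  apply Measure.integrableOn_of_bounded (M := M * |1 / r|)
  · simp
  · exact (hg.mul_const _).aestronglyMeasurable
  · refine ae_of_all _ fun z => ?_
    rw [Real.norm_eq_abs, abs_mul]
    exact mul_le_mul_of_nonneg_right (hb z) (abs_nonneg _)

/-- integral against the derivative of `rd` -/
lemma int_rd_deriv {g : ℝ → ℝ} (hg : Measurable g) {M : ℝ} (hb : ∀ z, |g z| ≤ M)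
    {x y r : ℝ} (hr : 0 < r) :
    ∫ z : ℝ, g z * deriv (rd x y r) z =
      (1 / r) * ((∫ z in x..(x + r), g z) - ∫ z in y..(y + r), g z) := by
  have h1 : ∫ z : ℝ, g z * deriv (rd x y r) z = ∫ z : ℝ,
      (g z * (Ioo x (x + r)).indicator (fun _ => 1 / r) z -
        g z * (Ioo y (y + r)).indicator (fun _ => 1 / r) z) := by
    apply integral_congr_ae
    filter_upwards [rd_ae_deriv (x := x) (y := y) hr] with z hz
    rw [hz.deriv]; ring
  rw [h1, integral_sub (int_ind_integrable hg hb) (int_ind_integrable hg hb), int_ind hr,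
    int_ind hr]
  ring

/-- integration by parts against `rd` -/
lemma int_rd {g : ℝ → ℝ} (hg : Measurable g) {M : ℝ} (hb : ∀ z, |g z| ≤ M)
    {x y r : ℝ} (hr : 0 < r) (hxy : x ≤ y) :
    ∫ z : ℝ, g z * rd x y r z =
      (1 / r) * ((∫ z in y..(y + r), ∫ w in (0:ℝ)..z, g w) -
        ∫ z in x..(x + r), ∫ w in (0:ℝ)..z, g w) := by
  set P : ℝ → ℝ := fun z => ∫ w in (0:ℝ)..z, g w with hP
  have hii : ∀ a b, IntervalIntegrable g volume a b := fun a b => ii_of_bdd hg hb a b
  have hM0 : 0 ≤ M := (abs_nonneg _).trans (hb 0)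
  have hPc : Continuous P := intervalIntegral.continuous_primitive hii 0
  have hab : x - 1 ≤ y + r + 1 := by linarith
  have hloc : LocallyIntegrable g volume := by
    refine (locallyIntegrable_const (M:ℝ)).mono hg.aestronglyMeasurable ?_
    refine ae_of_all _ fun q => ?_
    rw [Real.norm_eq_abs, Real.norm_eq_abs]
    exact (hb q).trans (le_abs_self _)
  have hPd : ∀ᵐ z : ℝ, deriv P z = g z := by
    filter_upwards [_root_.LocallyIntegrable.ae_hasDerivAt_integral hloc] with z hz
    exact (hz 0).deriv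
  have hPac : AbsolutelyContinuousOnInterval P (x - 1) (y + r + 1) := by
    have hl : LipschitzWith (Real.toNNReal M) P := by
      apply LipschitzWith.of_dist_le_mul
      intro a b
      rw [Real.dist_eq, Real.dist_eq, Real.coe_toNNReal _ hM0]
      simp only [hP]
      rw [intervalIntegral.integral_interval_sub_left (hii 0 a) (hii 0 b)]
      exact abs_inner_le hb b a
    exact (hl.lipschitzOnWith (s := uIcc _ _)).absolutelyContinuousOnInterval
  have hrac : AbsolutelyContinuousOnInterval (rd x y r) (x - 1) (y + r + 1) := by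
    have hl : LipschitzWith (Real.toNNReal (2 / r)) (rd x y r) := by
      apply LipschitzWith.of_dist_le_mul
      intro a b
      rw [Real.dist_eq, Real.dist_eq, Real.coe_toNNReal _ (by positivity)]
      exact rd_lip hr a b
    exact (hl.lipschitzOnWith (s := uIcc _ _)).absolutelyContinuousOnInterval
  have hparts := hPac.integral_mul_deriv_eq_deriv_mul hrac
  rw [rd_left hr hxy (by linarith : x - 1 ≤ x), rd_right hr hxy (by linarith : y + r ≤ y + r + 1),
    mul_zero, mul_zero, sub_zero, zero_sub] at hparts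
  -- left side
  have e1 : ∫ z : ℝ, g z * rd x y r z = ∫ z in (x - 1)..(y + r + 1), deriv P z * rd x y r z := by
    have e2 : ∫ z in (x - 1)..(y + r + 1), deriv P z * rd x y r z =
        ∫ z in (x - 1)..(y + r + 1), g z * rd x y r z := by
      apply intervalIntegral.integral_congr_ae
      filter_upwards [hPd] with z hz _
      rw [hz]
    rw [e2]
    symm
    apply intervalIntegral.integral_eq_integral_of_support_subset
    intro z hz
    have hz2 : rd x y r z ≠ 0 := fun h => hz (by simp only [h, mul_zero])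
    constructor
    · by_contra hcon
      push Not at hcon
      exact hz2 (rd_left hr hxy (by linarith))
    · by_contra hcon
      push Not at hcon
      exact hz2 (rd_right hr hxy (by linarith))
  -- right side: restrict P to a bounded function
  have e3 : ∫ z in (x - 1)..(y + r + 1), P z * deriv (rd x y r) z =
      (1 / r) * ((∫ z in x..(x + r), P z) - ∫ z in y..(y + r), P z) := by
    set Q : ℝ → ℝ := (Icc (x - 1) (y + r + 1)).indicator P with hQ
    have hQm : Measurable Q := hPc.measurable.indicator measurableSet_Icc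
    obtain ⟨K, hK⟩ := (isCompact_Icc (a := x - 1) (b := y + r + 1)).exists_bound_of_continuousOn
      hPc.continuousOn
    have hQb : ∀ z, |Q z| ≤ max K 0 := by
      intro z
      by_cases h : z ∈ Icc (x - 1) (y + r + 1)
      · simp only [hQ]
        rw [indicator_of_mem h]
        exact (hK z h).trans (le_max_left _ _)
      · simp only [hQ]
        rw [indicator_of_notMem h, abs_zero]
        exact le_max_right _ _
    have h1 := int_rd_deriv hQm hQb (x := x) (y := y) hr
    have h2 : ∫ z : ℝ, Q z * deriv (rd x y r) z =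
        ∫ z in (x - 1)..(y + r + 1), P z * deriv (rd x y r) z := by
      rw [intervalIntegral.integral_of_le hab, ← integral_Icc_eq_integral_Ioc,
        ← integral_indicator measurableSet_Icc]
      congr 1
      funext z
      by_cases h : z ∈ Icc (x - 1) (y + r + 1)
      · simp only [hQ]; rw [indicator_of_mem h, indicator_of_mem h]
      · simp only [hQ]; rw [indicator_of_notMem h, indicator_of_notMem h, zero_mul]
    rw [← h2, h1]
    congr 2
    · apply intervalIntegral.integral_congr
      intro z hz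
      rw [uIcc_of_le (by linarith)] at hz
      simp only [hQ]
      have hm : z ∈ Icc (x - 1) (y + r + 1) := ⟨by linarith [hz.1], by linarith [hz.2]⟩
      rw [indicator_of_mem hm]
    · apply intervalIntegral.integral_congr
      intro z hz
      rw [uIcc_of_le (by linarith)] at hz
      simp only [hQ]
      have hm : z ∈ Icc (x - 1) (y + r + 1) := ⟨by linarith [hz.1], by linarith [hz.2]⟩
      rw [indicator_of_mem hm]
  rw [e1]
  rw [e3] at hparts
  linarith

end Pool.Agent.W807.TF
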