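import Pool.Agent.W807.TF.Lip
import Pool.Agent.W807.TF.Ramp

set_option autoImplicit false

open MeasureTheory Set Filter Topology

namespace Pool.Agent.W807.TF

/-- continuous functions with the translation property of increments have a.e. constant
derivative -/
lemma const_of_incr {S D : ℝ → ℝ} (hS : ∀ x y r : ℝ, x ≤ y → 0 < r →
    S (y + r) - S y = S (x + r) - S x) (hd : ∀ᵐ z : ℝ, HasDerivAt S (D z) z) :
    ∃ c, ∀ᵐ z : ℝ, D z = c := by
  obtain ⟨z0, hz0⟩ := hd.exists
  refine ⟨D z0, ?_⟩
  filter_upwards [hd] with z hz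
  have h1 : Tendsto (fun r : ℝ => r⁻¹ • (S (z + r) - S z)) (𝓝[>] 0) (𝓝 (D z)) :=
    hz.tendsto_slope_zero_right
  have h2 : Tendsto (fun r : ℝ => r⁻¹ • (S (z0 + r) - S z0)) (𝓝[>] 0) (𝓝 (D z0)) :=
    hz0.tendsto_slope_zero_right
  refine tendsto_nhds_unique (h1.congr' ?_) h2
  filter_upwards [self_mem_nhdsWithin] with r hr
  rcases le_total z z0 with h | h
  · rw [hS z z0 r h hr]
  · rw [← hS z0 z r h hr]

section pot
variable {ub : ℝ → ℝ} {v F : ℝ → ℝ → ℝ} (hub : Dat ub) (hv : Fun01 v) (hF : Fun01 F)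
  (hweak : ∀ φ : ℝ → ℝ → ℝ, ContDiff ℝ (⊤ : ℕ∞) (Function.uncurry φ) →
        HasCompactSupport (Function.uncurry φ) → (∀ t x, 0 ≤ φ t x) →
        (∫ t in Ioi (0:ℝ), ∫ x : ℝ,
          (v t x * deriv (fun s => φ s x) t + F t x * deriv (fun y => φ t y) x))
          + (∫ x : ℝ, ub x * φ 0 x) = 0)
include hub hv hF hweak

lemma weak_lip (φ : ℝ → ℝ → ℝ) (hL : ∃ L : ℝ, ∀ s t x y, |φ s x - φ t y| ≤ L * (|s - t| + |x - y|))
    (hc : HasCompactSupport (Function.uncurry φ)) (h0 : ∀ t x, 0 ≤ φ t x) :
    (∫ t in Ioi (0:ℝ), ∫ x : ℝ,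
      (v t x * deriv (fun s => φ s x) t + F t x * deriv (fun y => φ t y) x))
      + (∫ x : ℝ, ub x * φ 0 x) = 0 := by
  apply le_antisymm
  · have h1 := taskLip (fun t x => -v t x) (fun t x => -F t x) (fun x => -ub x) 1
      hv.1.neg hF.1.neg hub.1.neg (fun t x => by rw [abs_neg]; exact hv.abs_le t x)
      (fun t x => by rw [abs_neg]; exact hF.abs_le t x)
      (fun x => by rw [abs_neg]; exact hub.abs_le x)
      (fun φ hφ hc h0 => by
        have h2 := hweak φ hφ hc h0
        have e1 : ∀ t x, -v t x * deriv (fun s => φ s x) t + -F t x * deriv (fun y => φ t y) x =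
            -(v t x * deriv (fun s => φ s x) t + F t x * deriv (fun y => φ t y) x) := by
          intro t x; ring
        have e2 : ∀ x, -ub x * φ 0 x = -(ub x * φ 0 x) := by intro x; ring
        simp only [e1, e2, integral_neg]
        linarith) φ hL hc h0
    have e1 : ∀ t x, -v t x * deriv (fun s => φ s x) t + -F t x * deriv (fun y => φ t y) x =
        -(v t x * deriv (fun s => φ s x) t + F t x * deriv (fun y => φ t y) x) := by
      intro t x; ring
    have e2 : ∀ x, -ub x * φ 0 x = -(ub x * φ 0 x) := by intro x; ring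
    simp only [e1, e2, integral_neg] at h1
    linarith
  · exact taskLip v F ub 1 hv.1 hF.1 hub.1 hv.abs_le hF.abs_le hub.abs_le
      (fun φ hφ hc h0 => (hweak φ hφ hc h0).ge) φ hL hc h0

/-- the weak formulation with a product of ramps -/
lemma weak_prod {t r x y r' : ℝ} (ht : 0 < t) (hr : 0 < r) (hr1 : r ≤ 1) (hxy : x ≤ y)
    (hr' : 0 < r') :
    (1 / r) * (∫ s in t..(t + r), ∫ z : ℝ, v s z * rd x y r' z) =
      (∫ z : ℝ, ub z * rd x y r' z) + (∫ s in (0:ℝ)..t, ∫ z : ℝ, F s z * deriv (rd x y r') z) +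
        ∫ s in t..(t + r), rd (-2) t r s * ∫ z : ℝ, F s z * deriv (rd x y r') z := by
  set χ : ℝ → ℝ := rd (-2) t r with hχ
  set ψ : ℝ → ℝ := rd x y r' with hψ
  have h2t : (-2:ℝ) ≤ t := by linarith
  have hχ0 : ∀ s, 0 ≤ χ s := rd_nonneg hr h2t
  have hψ0 : ∀ z, 0 ≤ ψ z := rd_nonneg hr' hxy
  have hχ1 : ∀ s, χ s ≤ 1 := rd_le_one
  have hψ1 : ∀ z, ψ z ≤ 1 := rd_le_one
  have hid := weak_lip hub hv hF hweak (fun s z => χ s * ψ z)
    ⟨2 / r + 2 / r', by
      intro s s' z z'
      have e : χ s * ψ z - χ s' * ψ z' = (χ s - χ s') * ψ z + χ s' * (ψ z - ψ z') := by ring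
      rw [e]
      have h1 : |χ s - χ s'| ≤ 2 / r * |s - s'| := rd_lip hr s s'
      have h2 : |ψ z - ψ z'| ≤ 2 / r' * |z - z'| := rd_lip hr' z z'
      calc _ ≤ |(χ s - χ s') * ψ z| + |χ s' * (ψ z - ψ z')| := abs_add_le _ _
        _ = |χ s - χ s'| * ψ z + χ s' * |ψ z - ψ z'| := by
          rw [abs_mul, abs_mul, abs_of_nonneg (hψ0 z), abs_of_nonneg (hχ0 s')]
        _ ≤ |χ s - χ s'| * 1 + 1 * |ψ z - ψ z'| :=
          add_le_add (mul_le_mul_of_nonneg_left (hψ1 z) (abs_nonneg _))
            (mul_le_mul_of_nonneg_right (hχ1 s') (abs_nonneg _))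
        _ ≤ 2 / r * |s - s'| + 2 / r' * |z - z'| := by linarith
        _ ≤ _ := by
          have a1 : 0 ≤ 2 / r * |z - z'| := by positivity
          have a2 : 0 ≤ 2 / r' * |s - s'| := by positivity
          nlinarith⟩
    (by
      apply HasCompactSupport.intro (K := Icc (-2) (t + r) ×ˢ Icc x (y + r'))
        (isCompact_Icc.prod isCompact_Icc)
      rintro ⟨s, z⟩ h
      simp only [Function.uncurry]
      by_cases hs : s ∈ Icc (-2) (t + r)
      · have hz : z ∉ Icc x (y + r') := fun hz => h ⟨hs, hz⟩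
        have : ψ z = 0 := by
          rcases le_or_gt x z with h1 | h1
          · have h2 : y + r' < z := by
              by_contra hcon
              exact hz ⟨h1, not_lt.1 hcon⟩
            exact rd_right hr' hxy h2.le
          · exact rd_left hr' hxy h1.le
        rw [this, mul_zero]
      · have : χ s = 0 := by
          rcases le_or_gt (-2) s with h1 | h1
          · have h2 : t + r < s := by
              by_contra hcon
              exact hs ⟨h1, not_lt.1 hcon⟩
            exact rd_right hr h2t h2.le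
          · exact rd_left hr h2t h1.le
        rw [this, zero_mul])
    (fun s z => mul_nonneg (hχ0 s) (hψ0 z))
  -- compute
  have hχ00 : χ 0 = 1 := by
    simp only [hχ, rd]
    rw [ramp_one hr (by linarith), ramp_zero hr ht.le, sub_zero]
  simp only [hχ00, one_mul, deriv_mul_const_field, deriv_const_mul_field] at hid
  set m : ℝ → ℝ := fun s => ∫ z : ℝ, v s z * ψ z with hm
  set f : ℝ → ℝ := fun s => ∫ z : ℝ, F s z * deriv ψ z with hf
  have hψm : Measurable ψ := (rd_cont x y r').measurable
  have hdψm : Measurable (deriv ψ) := measurable_deriv ψ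
  have hψlip : ∀ z z', |ψ z - ψ z'| ≤ (2 / r') * |z - z'| := rd_lip hr'
  have hdψb : ∀ z, |deriv ψ z| ≤ 2 / r' := fun z => abs_deriv_le_of_lip hψlip z
  have hψz : ∀ z, z ∉ Icc x (y + r') → ψ z = 0 := by
    intro z hz
    rcases le_or_gt x z with h1 | h1
    · have h2 : y + r' < z := by
        by_contra hcon
        exact hz ⟨h1, not_lt.1 hcon⟩
      exact rd_right hr' hxy h2.le
    · exact rd_left hr' hxy h1.le
  have hdψz : ∀ z, z ∉ Icc x (y + r') → deriv ψ z = 0 := by
    intro z hz
    have : ψ =ᶠ[𝓝 z] fun _ => 0 := by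
      filter_upwards [isClosed_Icc.isOpen_compl.mem_nhds hz] with w hw
      exact hψz w hw
    rw [this.deriv_eq]; simp
  have hint1 : ∀ s, Integrable (fun z => v s z * ψ z) := by
    intro s
    have h1 : IntegrableOn (fun z => v s z * ψ z) (Icc x (y + r')) := by
      apply Measure.integrableOn_of_bounded (M := 1)
      · simp
      · exact ((hv.meas_x s).mul hψm).aestronglyMeasurable
      · refine ae_of_all _ fun z => ?_
        rw [Real.norm_eq_abs, abs_mul, abs_of_nonneg (hψ0 z)]
        calc _ ≤ (1:ℝ) * 1 := mul_le_mul (hv.abs_le s z) (hψ1 z) (hψ0 z) zero_le_one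
          _ = 1 := one_mul 1
    rwa [integrableOn_iff_integrable_of_support_subset] at h1
    intro z hz
    by_contra hcon
    exact hz (by simp only [hψz z hcon, mul_zero])
  have hint2 : ∀ s, Integrable (fun z => F s z * deriv ψ z) := by
    intro s
    have h1 : IntegrableOn (fun z => F s z * deriv ψ z) (Icc x (y + r')) := by
      apply Measure.integrableOn_of_bounded (M := 2 / r')
      · simp
      · exact ((hF.meas_x s).mul hdψm).aestronglyMeasurable
      · refine ae_of_all _ fun z => ?_
        rw [Real.norm_eq_abs, abs_mul]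
        calc _ ≤ (1:ℝ) * (2 / r') :=
              mul_le_mul (hF.abs_le s z) (hdψb z) (abs_nonneg _) zero_le_one
          _ = _ := one_mul _
    rwa [integrableOn_iff_integrable_of_support_subset] at h1
    intro z hz
    by_contra hcon
    exact hz (by simp only [hdψz z hcon, mul_zero])
  have hinner : ∀ s, ∫ z : ℝ, (v s z * (deriv χ s * ψ z) + F s z * (χ s * deriv ψ z)) =
      m s * deriv χ s + χ s * f s := by
    intro s
    have e : (fun z => v s z * (deriv χ s * ψ z) + F s z * (χ s * deriv ψ z)) =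
        fun z => (v s z * ψ z) * deriv χ s + χ s * (F s z * deriv ψ z) := by
      funext z; ring
    rw [e, integral_add ((hint1 s).mul_const _) ((hint2 s).const_mul _), integral_mul_const,
      integral_const_mul]
  simp only [hinner] at hid
  -- m and f are bounded and measurable
  have hmm : Measurable m := by
    have h1 : Measurable (Function.uncurry fun s z => v s z * ψ z) :=
      hv.1.mul (hψm.comp measurable_snd)
    exact h1.stronglyMeasurable.integral_prod_right.measurable
  have hfm : Measurable f := by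
    have h1 : Measurable (Function.uncurry fun s z => F s z * deriv ψ z) :=
      hF.1.mul (hdψm.comp measurable_snd)
    exact h1.stronglyMeasurable.integral_prod_right.measurable
  have hxy' : x ≤ y + r' := by linarith
  have hmb : ∀ s, |m s| ≤ y + r' - x := by
    intro s
    have e : m s = ∫ z in x..(y + r'), v s z * ψ z := by
      rw [intervalIntegral.integral_of_le hxy', ← integral_Icc_eq_integral_Ioc]
      symm
      apply setIntegral_eq_integral_of_forall_compl_eq_zero
      intro z hz
      rw [hψz z hz, mul_zero]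
    rw [e]
    have := abs_inner_le (f := fun z => v s z * ψ z) (M := 1) (fun z => by
      rw [abs_mul, abs_of_nonneg (hψ0 z)]
      calc _ ≤ (1:ℝ) * 1 := mul_le_mul (hv.abs_le s z) (hψ1 z) (hψ0 z) zero_le_one
        _ = 1 := one_mul 1) x (y + r')
    rwa [one_mul, abs_of_nonneg (by linarith : (0:ℝ) ≤ y + r' - x)] at this
  have hfb : ∀ s, |f s| ≤ 2 / r' * (y + r' - x) := by
    intro s
    have e : f s = ∫ z in x..(y + r'), F s z * deriv ψ z := by
      rw [intervalIntegral.integral_of_le hxy', ← integral_Icc_eq_integral_Ioc]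
      symm
      apply setIntegral_eq_integral_of_forall_compl_eq_zero
      intro z hz
      rw [hdψz z hz, mul_zero]
    rw [e]
    have := abs_inner_le (f := fun z => F s z * deriv ψ z) (M := 2 / r') (fun z => by
      rw [abs_mul]
      calc _ ≤ (1:ℝ) * (2 / r') :=
            mul_le_mul (hF.abs_le s z) (hdψb z) (abs_nonneg _) zero_le_one
        _ = _ := one_mul _) x (y + r')
    rwa [abs_of_nonneg (by linarith : (0:ℝ) ≤ y + r' - x)] at this
  -- the part with χ'
  have hχlip : ∀ s s', |χ s - χ s'| ≤ (2 / r) * |s - s'| := rd_lip hr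
  have hχdm : Measurable (deriv χ) := measurable_deriv χ
  have hχdb : ∀ s, |deriv χ s| ≤ 2 / r := fun s => abs_deriv_le_of_lip hχlip s
  have hχz : ∀ s, t + r < s → χ s = 0 := fun s hs => rd_right hr h2t hs.le
  have hχdz : ∀ s, t + r < s → deriv χ s = 0 := by
    intro s hs
    have : χ =ᶠ[𝓝 s] fun _ => 0 := by
      filter_upwards [Ioi_mem_nhds hs] with w hw
      exact hχz w hw
    rw [this.deriv_eq]; simp
  have hI1 : IntegrableOn (fun s => m s * deriv χ s) (Ioi (0:ℝ)) := by
    have h1 : IntegrableOn (fun s => m s * deriv χ s) (Ioc 0 (t + r)) := by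
      apply Measure.integrableOn_of_bounded (M := (y + r' - x) * (2 / r))
      · simp
      · exact (hmm.mul hχdm).aestronglyMeasurable
      · refine ae_of_all _ fun s => ?_
        rw [Real.norm_eq_abs, abs_mul]
        exact mul_le_mul (hmb s) (hχdb s) (abs_nonneg _) (by linarith)
    refine h1.of_forall_diff_eq_zero measurableSet_Ioi ?_
    intro s hs
    have : t + r < s := by
      by_contra hcon
      exact hs.2 ⟨hs.1, not_lt.1 hcon⟩
    rw [hχdz s this, mul_zero]
  have hI2 : IntegrableOn (fun s => χ s * f s) (Ioi (0:ℝ)) := by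
    have h1 : IntegrableOn (fun s => χ s * f s) (Ioc 0 (t + r)) := by
      apply Measure.integrableOn_of_bounded (M := 1 * (2 / r' * (y + r' - x)))
      · simp
      · exact ((rd_cont _ _ _).measurable.mul hfm).aestronglyMeasurable
      · refine ae_of_all _ fun s => ?_
        rw [Real.norm_eq_abs, abs_mul, abs_of_nonneg (hχ0 s)]
        exact mul_le_mul (hχ1 s) (hfb s) (abs_nonneg _) zero_le_one
    refine h1.of_forall_diff_eq_zero measurableSet_Ioi ?_
    intro s hs
    have : t + r < s := by
      by_contra hcon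
      exact hs.2 ⟨hs.1, not_lt.1 hcon⟩
    rw [hχz s this, zero_mul]
  rw [integral_add hI1 hI2] at hid
  have hE1 : ∫ s in Ioi (0:ℝ), m s * deriv χ s = -((1 / r) * ∫ s in t..(t + r), m s) := by
    set g : ℝ → ℝ := (Ioi (0:ℝ)).indicator m with hg
    have hgm : Measurable g := hmm.indicator measurableSet_Ioi
    have hgb : ∀ s, |g s| ≤ y + r' - x := by
      intro s
      by_cases h : s ∈ Ioi (0:ℝ)
      · simp only [hg]; rw [indicator_of_mem h]; exact hmb s
      · simp only [hg]; rw [indicator_of_notMem h, abs_zero]; linarith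
    have h1 := int_rd_deriv hgm hgb (x := -2) (y := t) hr
    have h2 : ∫ s : ℝ, g s * deriv (rd (-2) t r) s = ∫ s in Ioi (0:ℝ), m s * deriv χ s := by
      rw [← integral_indicator measurableSet_Ioi]
      congr 1
      funext s
      by_cases h : s ∈ Ioi (0:ℝ)
      · simp only [hg]; rw [indicator_of_mem h, indicator_of_mem h]
      · simp only [hg]; rw [indicator_of_notMem h, indicator_of_notMem h, zero_mul]
    have h3 : ∫ s in (-2:ℝ)..(-2 + r), g s = 0 := by
      rw [intervalIntegral.integral_congr (g := fun _ => (0:ℝ))]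
      · simp
      · intro s hs
        rw [uIcc_of_le (by linarith)] at hs
        simp only [hg]
        rw [indicator_of_notMem]
        simp only [mem_Ioi, not_lt]
        linarith [hs.2]
    have h4 : ∫ s in t..(t + r), g s = ∫ s in t..(t + r), m s := by
      apply intervalIntegral.integral_congr
      intro s hs
      rw [uIcc_of_le (by linarith)] at hs
      simp only [hg]
      have hm' : s ∈ Ioi (0:ℝ) := lt_of_lt_of_le ht hs.1
      rw [indicator_of_mem hm']
    rw [h3, h4] at h1
    rw [← h2, h1]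
    ring
  have hE2 : ∫ s in Ioi (0:ℝ), χ s * f s = (∫ s in (0:ℝ)..t, f s) +
      ∫ s in t..(t + r), χ s * f s := by
    have h1 : ∫ s in Ioi (0:ℝ), χ s * f s = ∫ s in (0:ℝ)..(t + r), χ s * f s := by
      rw [intervalIntegral.integral_of_le (by linarith)]
      apply setIntegral_eq_of_subset_of_forall_diff_eq_zero measurableSet_Ioi
      · intro s hs; exact hs.1
      · intro s hs
        have : t + r < s := by
          by_contra hcon
          exact hs.2 ⟨hs.1, not_lt.1 hcon⟩
        rw [hχz s this, zero_mul]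
    have hχf : ∀ s, |χ s * f s| ≤ 1 * (2 / r' * (y + r' - x)) := by
      intro s
      rw [abs_mul, abs_of_nonneg (hχ0 s)]
      exact mul_le_mul (hχ1 s) (hfb s) (abs_nonneg _) zero_le_one
    have hχfm : Measurable (fun s => χ s * f s) := (rd_cont _ _ _).measurable.mul hfm
    rw [h1, ← intervalIntegral.integral_add_adjacent_intervals (ii_of_bdd hχfm hχf 0 t)
      (ii_of_bdd hχfm hχf t (t + r))]
    congr 1
    apply intervalIntegral.integral_congr
    intro s hs
    rw [uIcc_of_le ht.le] at hs
    have : χ s = 1 := by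
      simp only [hχ, rd]
      rw [ramp_one hr (by linarith [hs.1]), ramp_zero hr hs.2, sub_zero]
    simp only [this, one_mul]
  rw [hE1, hE2] at hid
  linarith

end pot

/-- primitive in time of the flux -/
noncomputable def Phi (F : ℝ → ℝ → ℝ) (t z : ℝ) : ℝ := ∫ s in (0:ℝ)..t, F s z

section pot2
variable {ub : ℝ → ℝ} {v F : ℝ → ℝ → ℝ} (hub : Dat ub) (hv : Fun01 v) (hF : Fun01 F)

lemma Phi_meas (hF : Fun01 F) (t : ℝ) : Measurable (Phi F t) := meas_inner' hF.1 0 t

lemma Phi_abs (hF : Fun01 F) (t z : ℝ) : |Phi F t z| ≤ |t| := by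
  have := abs_inner_le (f := fun s => F s z) (M := 1) (fun s => hF.abs_le s z) 0 t
  rwa [one_mul, sub_zero] at this

lemma Phi_ii (hF : Fun01 F) (t a b : ℝ) : IntervalIntegrable (Phi F t) volume a b :=
  ii_of_bdd (Phi_meas hF t) (Phi_abs hF t) a b

lemma Phi_lip (hF : Fun01 F) (s t z : ℝ) : |Phi F s z - Phi F t z| ≤ |s - t| := by
  unfold Phi
  rw [intervalIntegral.integral_interval_sub_left (hF.ii_t z 0 s) (hF.ii_t z 0 t)]
  have := abs_inner_le (f := fun s => F s z) (M := 1) (fun s => hF.abs_le s z) t s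
  rwa [one_mul] at this

/-- the difference whose increments are translation invariant -/
noncomputable def Dd (ub : ℝ → ℝ) (v F : ℝ → ℝ → ℝ) (t z : ℝ) : ℝ :=
  prim ub z - Phi F t z - ∫ w in (0:ℝ)..z, v t w

include hub hv hF

lemma prim_cont' : Continuous (prim ub) :=
  intervalIntegral.continuous_primitive (fun a b => hub.ii a b) 0

lemma Wt_cont (t : ℝ) : Continuous (fun z => ∫ w in (0:ℝ)..z, v t w) :=
  intervalIntegral.continuous_primitive (fun a b => hv.ii_x t a b) 0

lemma Dd_ii (t a b : ℝ) : IntervalIntegrable (Dd ub v F t) volume a b :=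
  (((prim_cont' hub hv hF).intervalIntegrable a b).sub (Phi_ii hF t a b)).sub
    ((Wt_cont hub hv hF t).intervalIntegrable a b)

variable (hweak : ∀ φ : ℝ → ℝ → ℝ, ContDiff ℝ (⊤ : ℕ∞) (Function.uncurry φ) →
        HasCompactSupport (Function.uncurry φ) → (∀ t x, 0 ≤ φ t x) →
        (∫ t in Ioi (0:ℝ), ∫ x : ℝ,
          (v t x * deriv (fun s => φ s x) t + F t x * deriv (fun y => φ t y) x))
          + (∫ x : ℝ, ub x * φ 0 x) = 0)
include hweak

/-- for fixed window, the increments agree for a.e. time -/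
lemma incr_fixed {x y r' : ℝ} (hxy : x ≤ y) (hr' : 0 < r') :
    ∀ᵐ t : ℝ, 0 < t → ∫ z in y..(y + r'), Dd ub v F t z = ∫ z in x..(x + r'), Dd ub v F t z := by
  set m : ℝ → ℝ := fun s => ∫ z : ℝ, v s z * rd x y r' z with hm
  set f : ℝ → ℝ := fun s => ∫ z : ℝ, F s z * deriv (rd x y r') z with hf
  have hme : ∀ s, m s = (1 / r') * ((∫ z in y..(y + r'), ∫ w in (0:ℝ)..z, v s w) -
      ∫ z in x..(x + r'), ∫ w in (0:ℝ)..z, v s w) := fun s =>
    int_rd (hv.meas_x s) (hv.abs_le s) hr' hxy
  have hfe : ∀ s, f s = (1 / r') * ((∫ z in x..(x + r'), F s z) - ∫ z in y..(y + r'), F s z) :=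
    fun s => int_rd_deriv (hF.meas_x s) (hF.abs_le s) hr'
  have hmm : Measurable m := by
    have h1 : Measurable (Function.uncurry fun s z => v s z * rd x y r' z) :=
      hv.1.mul ((rd_cont x y r').measurable.comp measurable_snd)
    exact h1.stronglyMeasurable.integral_prod_right.measurable
  have hfm : Measurable f := by
    have h1 : Measurable (Function.uncurry fun s z => F s z * deriv (rd x y r') z) :=
      hF.1.mul ((measurable_deriv _).comp measurable_snd)
    exact h1.stronglyMeasurable.integral_prod_right.measurable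
  have hfb : ∀ s, |f s| ≤ 2 := by
    intro s
    rw [hfe]
    have h1 := abs_inner_le (hF.abs_le s) x (x + r')
    have h2 := abs_inner_le (hF.abs_le s) y (y + r')
    rw [add_sub_cancel_left, one_mul, abs_of_pos hr'] at h1 h2
    rw [abs_mul, abs_of_pos (by positivity : 0 < 1 / r')]
    calc 1 / r' * |(∫ z in x..(x + r'), F s z) - ∫ z in y..(y + r'), F s z|
        ≤ 1 / r' * (r' + r') := by
          apply mul_le_mul_of_nonneg_left _ (by positivity)
          exact (abs_sub _ _).trans (add_le_add h1 h2)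
      _ = 2 := by field_simp; ring
  have hmb : ∀ s, |m s| ≤ y + r' - x := by
    intro s
    have hψz : ∀ z, z ∉ Icc x (y + r') → rd x y r' z = 0 := by
      intro z hz
      rcases le_or_gt x z with h1 | h1
      · have h2 : y + r' < z := by
          by_contra hcon
          exact hz ⟨h1, not_lt.1 hcon⟩
        exact rd_right hr' hxy h2.le
      · exact rd_left hr' hxy h1.le
    have e : m s = ∫ z in x..(y + r'), v s z * rd x y r' z := by
      rw [intervalIntegral.integral_of_le (by linarith), ← integral_Icc_eq_integral_Ioc]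
      symm
      apply setIntegral_eq_integral_of_forall_compl_eq_zero
      intro z hz
      rw [hψz z hz, mul_zero]
    rw [e]
    have := abs_inner_le (f := fun z => v s z * rd x y r' z) (M := 1) (fun z => by
      rw [abs_mul, abs_of_nonneg (rd_nonneg hr' hxy z)]
      calc _ ≤ (1:ℝ) * 1 :=
            mul_le_mul (hv.abs_le s z) (rd_le_one z) (rd_nonneg hr' hxy z) zero_le_one
        _ = 1 := one_mul 1) x (y + r')
    rwa [one_mul, abs_of_nonneg (by linarith : (0:ℝ) ≤ y + r' - x)] at this
  have hloc : LocallyIntegrable m volume := by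
    refine (locallyIntegrable_const (y + r' - x)).mono hmm.aestronglyMeasurable ?_
    refine ae_of_all _ fun q => ?_
    rw [Real.norm_eq_abs, Real.norm_eq_abs]
    exact (hmb q).trans (le_abs_self _)
  have hce := int_rd hub.1 hub.abs_le hr' hxy
  filter_upwards [_root_.LocallyIntegrable.ae_hasDerivAt_integral hloc] with t ht ht0
  -- limit r → 0
  have h1 : Tendsto (fun r : ℝ => (1 / r) * ∫ s in t..(t + r), m s) (𝓝[>] 0) (𝓝 (m t)) := by
    have h2 := (ht t).tendsto_slope_zero_right
    refine h2.congr' ?_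
    filter_upwards with r
    simp only [intervalIntegral.integral_same, sub_zero, smul_eq_mul, one_div]
  have h3 : Tendsto (fun r : ℝ => (∫ z : ℝ, ub z * rd x y r' z) + (∫ s in (0:ℝ)..t, f s) +
      ∫ s in t..(t + r), rd (-2) t r s * f s) (𝓝[>] 0)
      (𝓝 ((∫ z : ℝ, ub z * rd x y r' z) + (∫ s in (0:ℝ)..t, f s) + 0)) := by
    apply Tendsto.const_add
    apply squeeze_zero_norm' (a := fun r => 2 * |r|)
    · filter_upwards [self_mem_nhdsWithin] with r hr
      have hr : 0 < r := hr
      rw [Real.norm_eq_abs]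
      have := abs_inner_le (f := fun s => rd (-2) t r s * f s) (M := 2) (fun s => by
        rw [abs_mul, abs_of_nonneg (rd_nonneg hr (by linarith) s)]
        calc _ ≤ (1:ℝ) * 2 :=
              mul_le_mul (rd_le_one s) (hfb s) (abs_nonneg _) zero_le_one
          _ = 2 := one_mul 2) t (t + r)
      rwa [add_sub_cancel_left] at this
    · have : Tendsto (fun r : ℝ => 2 * |r|) (𝓝 0) (𝓝 (2 * |0|)) :=
        (continuous_const.mul continuous_abs).tendsto 0
      rw [abs_zero, mul_zero] at this
      exact this.mono_left nhdsWithin_le_nhds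
  have h4 : m t = (∫ z : ℝ, ub z * rd x y r' z) + (∫ s in (0:ℝ)..t, f s) + 0 := by
    refine tendsto_nhds_unique (h1.congr' ?_) h3
    have hlt : ∀ᶠ r in 𝓝[>] (0:ℝ), r < 1 :=
      mem_nhdsWithin_of_mem_nhds (Iio_mem_nhds one_pos)
    filter_upwards [self_mem_nhdsWithin, hlt] with r hr hr1
    exact weak_prod hub hv hF hweak ht0 hr hr1.le hxy hr'
  rw [add_zero] at h4
  -- the time integral of f
  have h5 : ∫ s in (0:ℝ)..t, f s = (1 / r') * ((∫ z in x..(x + r'), Phi F t z) -
      ∫ z in y..(y + r'), Phi F t z) := by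
    have e1 : ∀ a : ℝ, ∫ s in (0:ℝ)..t, ∫ z in a..(a + r'), F s z =
        ∫ z in a..(a + r'), Phi F t z := by
      intro a
      rw [swap_ii hF.1 hF.abs_le ht0.le (by linarith)]
      rfl
    have i1 : ∀ a : ℝ, IntervalIntegrable (fun s => ∫ z in a..(a + r'), F s z) volume 0 t := by
      intro a
      exact ii_of_bdd (meas_inner hF.1 a (a + r')) (M := 1 * |a + r' - a|)
        (fun s => abs_inner_le (hF.abs_le s) _ _) 0 t
    have e2 : ∫ s in (0:ℝ)..t, f s = ∫ s in (0:ℝ)..t, (1 / r') *
        ((∫ z in x..(x + r'), F s z) - ∫ z in y..(y + r'), F s z) := by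
      congr 1; funext s; exact hfe s
    rw [e2, intervalIntegral.integral_const_mul, intervalIntegral.integral_sub (i1 x) (i1 y),
      e1, e1]
  rw [hme t, hce, h5] at h4
  have h6 : ∀ a : ℝ, ∫ z in a..(a + r'), Dd ub v F t z = (∫ z in a..(a + r'), prim ub z) -
      (∫ z in a..(a + r'), Phi F t z) - ∫ z in a..(a + r'), ∫ w in (0:ℝ)..z, v t w := by
    intro a
    unfold Dd
    rw [intervalIntegral.integral_sub (((prim_cont' hub hv hF).intervalIntegrable _ _).sub
      (Phi_ii hF t _ _)) ((Wt_cont hub hv hF t).intervalIntegrable _ _),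
      intervalIntegral.integral_sub ((prim_cont' hub hv hF).intervalIntegrable _ _)
      (Phi_ii hF t _ _)]
  rw [h6 y, h6 x]
  have h7 : ∀ a : ℝ, ∫ z in a..(a + r'), ∫ w in (0:ℝ)..z, ub w = ∫ z in a..(a + r'), prim ub z :=
    fun a => rfl
  rw [h7, h7] at h4
  have h8 : (1 / r') * ((∫ z in y..(y + r'), ∫ w in (0:ℝ)..z, v t w) -
      ∫ z in x..(x + r'), ∫ w in (0:ℝ)..z, v t w) = (1 / r') *
      (((∫ z in y..(y + r'), prim ub z) - ∫ z in x..(x + r'), prim ub z) +
      ((∫ z in x..(x + r'), Phi F t z) - ∫ z in y..(y + r'), Phi F t z)) := by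
    rw [h4]; ring
  have h9 := mul_left_cancel₀ (by positivity : (1 / r' : ℝ) ≠ 0) h8
  linarith

/-- for a.e. time the difference is a.e. constant in space -/
lemma Dd_const : ∀ᵐ t : ℝ, 0 < t → ∃ c, ∀ᵐ z : ℝ, Dd ub v F t z = c := by
  have h1 : ∀ᵐ t : ℝ, ∀ (x y r : ℚ), 0 < t → (x:ℝ) ≤ y → (0:ℝ) < r →
      ∫ z in (y:ℝ)..(y + r), Dd ub v F t z = ∫ z in (x:ℝ)..(x + r), Dd ub v F t z := by
    rw [ae_all_iff]; intro x
    rw [ae_all_iff]; intro y
    rw [ae_all_iff]; intro r
    by_cases hxy : (x:ℝ) ≤ y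
    · by_cases hr : (0:ℝ) < r
      · filter_upwards [incr_fixed hub hv hF hweak hxy hr] with t ht ht0 _ _
        exact ht ht0
      · exact ae_of_all _ fun t _ _ h => absurd h hr
    · exact ae_of_all _ fun t _ h _ => absurd h hxy
  filter_upwards [h1] with t ht ht0
  set S : ℝ → ℝ := fun x => ∫ z in (0:ℝ)..x, Dd ub v F t z with hS
  have hii : ∀ a b, IntervalIntegrable (Dd ub v F t) volume a b := Dd_ii hub hv hF t
  have hSc : Continuous S := intervalIntegral.continuous_primitive hii 0
  have hSd : ∀ a b : ℝ, ∫ z in a..b, Dd ub v F t z = S b - S a := by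
    intro a b
    simp only [hS]
    rw [intervalIntegral.integral_interval_sub_left (hii 0 b) (hii 0 a)]
  have hrat : ∀ (x y r : ℚ), (x:ℝ) ≤ y → (0:ℝ) < r →
      S ((y:ℝ) + r) - S y = S ((x:ℝ) + r) - S x := by
    intro x y r hxy hr
    have := ht x y r ht0 hxy hr
    rwa [hSd, hSd] at this
  have hreal : ∀ x y r : ℝ, x ≤ y → 0 < r → S (y + r) - S y = S (x + r) - S x := by
    intro x y r hxy hr
    -- approximate by rationals: x from below, y and r from above
    obtain ⟨xn, hxn1, hxn2⟩ : ∃ xn : ℕ → ℚ, (∀ n, (xn n : ℝ) < x) ∧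
        Tendsto (fun n => (xn n : ℝ)) atTop (𝓝 x) := by
      have : ∀ n : ℕ, ∃ q : ℚ, x - 1 / ((n:ℝ) + 1) < q ∧ (q:ℝ) < x := fun n =>
        exists_rat_btwn (by
          have : 0 < 1 / ((n:ℝ) + 1) := by positivity
          linarith)
      choose q hq using this
      refine ⟨q, fun n => (hq n).2, ?_⟩
      have h2 : Tendsto (fun n : ℕ => x - 1 / ((n:ℝ) + 1)) atTop (𝓝 (x - 0)) :=
        tendsto_const_nhds.sub tendsto_one_div_add_atTop_nhds_zero_nat
      rw [sub_zero] at h2
      exact tendsto_of_tendsto_of_tendsto_of_le_of_le h2 tendsto_const_nhds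
        (fun n => (hq n).1.le) (fun n => (hq n).2.le)
    have habove : ∀ a : ℝ, ∃ an : ℕ → ℚ, (∀ n, a < (an n : ℝ)) ∧
        Tendsto (fun n => (an n : ℝ)) atTop (𝓝 a) := by
      intro a
      have : ∀ n : ℕ, ∃ q : ℚ, a < q ∧ (q:ℝ) < a + 1 / ((n:ℝ) + 1) := fun n =>
        exists_rat_btwn (by
          have : 0 < 1 / ((n:ℝ) + 1) := by positivity
          linarith)
      choose q hq using this
      refine ⟨q, fun n => (hq n).1, ?_⟩
      have h2 : Tendsto (fun n : ℕ => a + 1 / ((n:ℝ) + 1)) atTop (𝓝 (a + 0)) :=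
        tendsto_const_nhds.add tendsto_one_div_add_atTop_nhds_zero_nat
      rw [add_zero] at h2
      exact tendsto_of_tendsto_of_tendsto_of_le_of_le tendsto_const_nhds h2
        (fun n => (hq n).1.le) (fun n => (hq n).2.le)
    obtain ⟨yn, hyn1, hyn2⟩ := habove y
    obtain ⟨rn, hrn1, hrn2⟩ := habove r
    have e1 : Tendsto (fun n => S ((yn n : ℝ) + rn n) - S (yn n)) atTop
        (𝓝 (S (y + r) - S y)) :=
      ((hSc.tendsto _).comp (hyn2.add hrn2)).sub ((hSc.tendsto _).comp hyn2)
    have e2 : Tendsto (fun n => S ((xn n : ℝ) + rn n) - S (xn n)) atTop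
        (𝓝 (S (x + r) - S x)) :=
      ((hSc.tendsto _).comp (hxn2.add hrn2)).sub ((hSc.tendsto _).comp hxn2)
    refine tendsto_nhds_unique e1 (e2.congr fun n => ?_)
    exact (hrat (xn n) (yn n) (rn n) (by linarith [hxn1 n, hyn1 n])
      (by linarith [hrn1 n])).symm
  have hderiv : ∀ᵐ z : ℝ, HasDerivAt S (Dd ub v F t z) z := by
    have hloc : LocallyIntegrable (Dd ub v F t) volume := by
      have e1 : LocallyIntegrable (Phi F t) volume := by
        refine (locallyIntegrable_const (|t|)).mono (Phi_meas hF t).aestronglyMeasurable ?_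
        refine ae_of_all _ fun q => ?_
        rw [Real.norm_eq_abs, Real.norm_eq_abs]
        exact (Phi_abs hF t q).trans (le_abs_self _)
      exact ((prim_cont' hub hv hF).locallyIntegrable.sub e1).sub
        (Wt_cont hub hv hF t).locallyIntegrable
    filter_upwards [_root_.LocallyIntegrable.ae_hasDerivAt_integral hloc] with z hz
    exact hz 0
  exact const_of_incr hreal hderiv

end pot2

end Pool.Agent.W807.TF
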