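import Mathlib

/-!
# Nonlocal-to-local limit for the traffic model with kernel `1_{[-1,0]}` (MP_a93f81_an, S05741)

Definitions and the exact statements of the independent tasks of the proof.
-/

set_option autoImplicit false

open MeasureTheory Set Filter Topology

namespace Pool.Agent.W807.TF

/-- primitive of the initial datum -/
noncomputable def prim (ub : ℝ → ℝ) (x : ℝ) : ℝ := ∫ y in (0:ℝ)..x, ub y

/-- difference quotient in space with step `δ` -/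
noncomputable def dq (δ : ℝ) (U : ℝ → ℝ → ℝ) (t x : ℝ) : ℝ := (U t (x + δ) - U t x) / δ

/-- admissible initial data -/
def Dat (ub : ℝ → ℝ) : Prop := Measurable ub ∧ ∀ x, 0 ≤ ub x ∧ ub x ≤ 1

/-- jointly measurable functions of (t,x) with values in `[0,1]` -/
def Fun01 (v : ℝ → ℝ → ℝ) : Prop :=
  Measurable (Function.uncurry v) ∧ ∀ t x, 0 ≤ v t x ∧ v t x ≤ 1

/-- `V` is a Lipschitz potential of the conservation law `v_t + F_x = 0`, `v(0) = ub`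
(so `V_x = v`, `V_t = -F`), extended to `t ≤ 0` by `V 0`. -/
structure IsPot (ub : ℝ → ℝ) (v F V : ℝ → ℝ → ℝ) : Prop where
  lip : ∀ s t x y, |V s x - V t y| ≤ |s - t| + |x - y|
  mono : ∀ t x y, x ≤ y → V t x ≤ V t y
  neg : ∀ t x, t ≤ 0 → V t x = V 0 x
  init : ∀ x, V 0 x = prim ub x
  dx : ∀ᵐ t ∂(volume.restrict (Ioi (0:ℝ))), ∀ x y, V t y - V t x = ∫ z in x..y, v t z
  dt : ∀ᵐ x : ℝ, ∀ t, 0 ≤ t → V t x = V 0 x - ∫ s in (0:ℝ)..t, F s x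

/-- A solution `u` of the nonlocal equation with parameter `ε` together with its potential `U`. -/
structure NL (ub : ℝ → ℝ) (ε : ℝ) (u U : ℝ → ℝ → ℝ) : Prop where
  dat : Dat ub
  eps : 0 < ε
  u01 : Fun01 u
  pot : IsPot ub u (fun t x => u t x * (1 - dq ε U t x)) U

/-- Hopf-Lax function for `Ψ_t + Ψ_x (1 - Ψ_x) = 0`. -/
noncomputable def HL (U0 : ℝ → ℝ) (t x : ℝ) : ℝ :=
  sSup ((fun c : ℝ => U0 (x - c * t) - t * (1 - c) ^ 2 / 4) '' Icc (-1) 1)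

/-- monotone and 1-Lipschitz -/
def ML (U0 : ℝ → ℝ) : Prop := ∀ x y, x ≤ y → U0 x ≤ U0 y ∧ U0 y - U0 x ≤ y - x

/-- basic facts on the Hopf-Lax function -/
structure HLFacts (U0 : ℝ → ℝ) : Prop where
  cont : Continuous (Function.uncurry (HL U0))
  zero : ∀ x, HL U0 0 x = U0 x
  ge : ∀ t x c, 0 ≤ t → U0 (x - c * t) - t * (1 - c) ^ 2 / 4 ≤ HL U0 t x
  att : ∀ t x, 0 ≤ t → ∃ c ∈ Icc (-1:ℝ) 1, HL U0 t x = U0 (x - c * t) - t * (1 - c) ^ 2 / 4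
  mono : ∀ t x y, 0 ≤ t → x ≤ y → HL U0 t x ≤ HL U0 t y
  lipx : ∀ t x y, 0 ≤ t → x ≤ y → HL U0 t y - HL U0 t x ≤ y - x
  sg : ∀ t h x c, 0 ≤ t → 0 ≤ h → HL U0 t (x - c * h) - h * (1 - c) ^ 2 / 4 ≤ HL U0 (t + h) x
  sg' : ∀ t h x, 0 ≤ t → 0 ≤ h → ∃ c ∈ Icc (-1:ℝ) 1,
    HL U0 (t + h) x ≤ HL U0 t (x - c * h) - h * (1 - c) ^ 2 / 4
  lipt : ∀ s t x, 0 ≤ s → s ≤ t → HL U0 t x ≤ HL U0 s x ∧ HL U0 s x - HL U0 t x ≤ t - s
  pde : ∀ t x p τ, 0 < t → HasDerivAt (fun y => HL U0 t y) p x →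
    HasDerivAt (fun s => HL U0 s x) τ t → τ ≤ -(p * (1 - p))

/-- T-HL -/
def TaskHL : Prop := ∀ U0 : ℝ → ℝ, ML U0 → HLFacts U0

/-- T-LIP: an inequality of Kruzhkov type for nonnegative `C_c^∞` test functions extends to
nonnegative compactly supported Lipschitz test functions. -/
def TaskLip : Prop :=
  ∀ (A B : ℝ → ℝ → ℝ) (C : ℝ → ℝ) (M : ℝ),
    Measurable (Function.uncurry A) → Measurable (Function.uncurry B) → Measurable C →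
    (∀ t x, |A t x| ≤ M) → (∀ t x, |B t x| ≤ M) → (∀ x, |C x| ≤ M) →
    (∀ φ : ℝ → ℝ → ℝ, ContDiff ℝ (⊤ : ℕ∞) (Function.uncurry φ) →
        HasCompactSupport (Function.uncurry φ) → (∀ t x, 0 ≤ φ t x) →
        0 ≤ (∫ t in Ioi (0:ℝ), ∫ x : ℝ,
          (A t x * deriv (fun s => φ s x) t + B t x * deriv (fun y => φ t y) x))
          + ∫ x : ℝ, C x * φ 0 x) →
    ∀ φ : ℝ → ℝ → ℝ, (∃ L : ℝ, ∀ s t x y, |φ s x - φ t y| ≤ L * (|s - t| + |x - y|)) →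
        HasCompactSupport (Function.uncurry φ) → (∀ t x, 0 ≤ φ t x) →
        0 ≤ (∫ t in Ioi (0:ℝ), ∫ x : ℝ,
          (A t x * deriv (fun s => φ s x) t + B t x * deriv (fun y => φ t y) x))
          + ∫ x : ℝ, C x * φ 0 x

/-- T-POT: existence of the potential of a weak solution. -/
def TaskPot : Prop :=
  ∀ (ub : ℝ → ℝ) (v F : ℝ → ℝ → ℝ), Dat ub → Fun01 v → Fun01 F →
    (∀ φ : ℝ → ℝ → ℝ, ContDiff ℝ (⊤ : ℕ∞) (Function.uncurry φ) →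
        HasCompactSupport (Function.uncurry φ) → (∀ t x, 0 ≤ φ t x) →
        (∫ t in Ioi (0:ℝ), ∫ x : ℝ,
          (v t x * deriv (fun s => φ s x) t + F t x * deriv (fun y => φ t y) x))
          + (∫ x : ℝ, ub x * φ 0 x) = 0) →
    ∃ V, IsPot ub v F V

/-- T-LINE: increments of a potential along lines of slope `c`. -/
def TaskLine : Prop :=
  ∀ (ub : ℝ → ℝ) (v F V : ℝ → ℝ → ℝ), Dat ub → Fun01 v → Fun01 F → IsPot ub v F V →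
    ∀ t h c p q : ℝ, 0 ≤ t → 0 ≤ h → p ≤ q →
      ∫ z in p..q, (V (t + h) z - V t (z - c * h)) =
        ∫ s in (0:ℝ)..h, ∫ y in (p - c * (h - s))..(q - c * (h - s)),
          (c * v (t + s) y - F (t + s) y)

/-- T-DBL: abstract doubling of variables. -/
def TaskDbl : Prop :=
  ∀ (A B : ℝ → ℝ → ℝ) (U0 : ℝ → ℝ) (α E C h0 : ℝ), 0 < α → 0 ≤ E → 0 ≤ C → 0 < h0 → ML U0 →
    (∀ x, A 0 x = U0 x) → (∀ x, B 0 x = U0 x) →
    (∀ t x, 0 ≤ t → |A t x - U0 x| ≤ t) → (∀ t x, 0 ≤ t → |B t x - U0 x| ≤ t) →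
    (∀ t h m x' y' : ℝ, 0 ≤ t → 0 < h → h ≤ h0 →
      (∀ x y, A t x - B t y - (x - y) ^ 2 / (2 * α) ≤ m) →
      (∀ x y, A (t + h) x - B (t + h) y - (x - y) ^ 2 / (2 * α) ≤
        A (t + h) x' - B (t + h) y' - (x' - y') ^ 2 / (2 * α) + h ^ 2) →
      A (t + h) x' - B (t + h) y' - (x' - y') ^ 2 / (2 * α) ≤ m + h * E + C * h ^ 2) →
    ∀ t x, 0 ≤ t → A t x - B t x ≤ α / 2 + t * E

/-- T-A: the potentials of the nonlocal solutions converge uniformly to the Hopf-Lax function. -/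
def TaskA : Prop :=
  ∀ (ub : ℝ → ℝ) (ε : ℝ) (u U : ℝ → ℝ → ℝ), NL ub ε u U → ε ≤ 1 →
    ∀ t x, 0 ≤ t → |U t x - HL (prim ub) t x| ≤ (1 + t) * Real.sqrt ε

/-- Kruzhkov's inequality (the form of the frozen statement) -/
def Kru (ub : ℝ → ℝ) (w : ℝ → ℝ → ℝ) : Prop :=
  ∀ k : ℝ, ∀ φ : ℝ → ℝ → ℝ, ContDiff ℝ (⊤ : ℕ∞) (Function.uncurry φ) →
    HasCompactSupport (Function.uncurry φ) → (∀ t x, 0 ≤ φ t x) →
    0 ≤ (∫ t in Ioi (0:ℝ), ∫ x : ℝ,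
      (|w t x - k| * deriv (fun s => φ s x) t
        + Real.sign (w t x - k) * (w t x * (1 - w t x) - k * (1 - k))
          * deriv (fun y => φ t y) x))
      + (∫ x : ℝ, |ub x - k| * φ 0 x)

/-- T-KW: a Kruzhkov solution is a weak solution. -/
def TaskKW : Prop :=
  ∀ (ub : ℝ → ℝ) (w : ℝ → ℝ → ℝ), Dat ub → Fun01 w → Kru ub w →
    ∀ φ : ℝ → ℝ → ℝ, ContDiff ℝ (⊤ : ℕ∞) (Function.uncurry φ) →
      HasCompactSupport (Function.uncurry φ) → (∀ t x, 0 ≤ φ t x) →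
      (∫ t in Ioi (0:ℝ), ∫ x : ℝ,
        (w t x * deriv (fun s => φ s x) t + w t x * (1 - w t x) * deriv (fun y => φ t y) x))
        + (∫ x : ℝ, ub x * φ 0 x) = 0

/-- T-MP: comparison of the potential of a Kruzhkov solution with the linear solution of slope `k`
on a backward cone. -/
def TaskMP : Prop :=
  ∀ (ub : ℝ → ℝ) (w W : ℝ → ℝ → ℝ), Dat ub → Fun01 w → Kru ub w →
    IsPot ub w (fun t x => w t x * (1 - w t x)) W →
    ∀ k C₀ t₁ t₂ x₀ ρ : ℝ, 0 ≤ k → k ≤ 1 → 0 ≤ t₁ → t₁ ≤ t₂ → 0 < ρ →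
      (∀ z, |z - x₀| < ρ + 2 * (t₂ - t₁) → W t₁ z - k * z + k * (1 - k) * t₁ ≤ C₀) →
      W t₂ x₀ - k * x₀ + k * (1 - k) * t₂ ≤ C₀

/-- T-W: the potential of the Kruzhkov solution is the Hopf-Lax function. -/
def TaskW : Prop :=
  ∀ (ub : ℝ → ℝ) (w W : ℝ → ℝ → ℝ), Dat ub → Fun01 w → Kru ub w →
    IsPot ub w (fun t x => w t x * (1 - w t x)) W →
    ∀ t x, 0 ≤ t → W t x = HL (prim ub) t x

/-- `φ` is a globally Lipschitz test function, with support in `|x| ≤ M` (no condition on the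
support in time). -/
structure TestFn (M L : ℝ) (φ : ℝ → ℝ → ℝ) : Prop where
  lip : ∀ s t x y, |φ s x - φ t y| ≤ L * (|s - t| + |x - y|)
  supp : ∀ t x, M ≤ |x| → φ t x = 0

/-- entropy and derivative pairs for which the chain rule holds at points of differentiability -/
structure EntPair (η η' : ℝ → ℝ) (L : ℝ) : Prop where
  meas' : Measurable η'
  bd' : ∀ l ∈ Icc (0:ℝ) 1, |η' l| ≤ L
  lip : ∀ a ∈ Icc (0:ℝ) 1, ∀ b ∈ Icc (0:ℝ) 1, |η a - η b| ≤ L * |a - b|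
  cont : Continuous η
  chain : ∀ (f : ℝ → ℝ) (t a b : ℝ), HasDerivAt f a t → HasDerivAt (fun s => η (f s)) b t →
    b = η' (f t) * a

/-- T-ID: the identity for the entropy of the difference quotients. -/
def TaskId : Prop :=
  ∀ (ub : ℝ → ℝ) (ε : ℝ) (u U : ℝ → ℝ → ℝ), NL ub ε u U →
    ∀ (η η' : ℝ → ℝ) (Lη : ℝ), EntPair η η' Lη →
    ∀ (s T M L : ℝ) (φ : ℝ → ℝ → ℝ), 0 ≤ s → s ≤ T → TestFn M L φ → ∀ δ : ℝ, 0 < δ →
      (∫ x : ℝ, η (dq δ U T x) * φ T x) - (∫ x : ℝ, η (dq δ U s x) * φ s x) =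
        ∫ t in s..T, ∫ x : ℝ,
          (η (dq δ U t x) * deriv (fun r => φ r x) t
            + η (dq δ U t x) * ((1 - dq ε U t x) * deriv (fun y => φ t y) x
                - (u t (x + ε) - u t x) / ε * φ t x)
            + η' (dq δ U t x) * ((dq δ U t (x + ε) - dq δ U t x) / ε) * u t (x + δ) * φ t x)

/-- the two Kruzhkov half-entropies (l-k)_+ (b = true) and (k-l)_+ (b = false) -/
noncomputable def pm (b : Bool) (k l : ℝ) : ℝ := max (if b then l - k else k - l) 0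

/-- T-SK: the (one-sided) entropy inequality of the nonlocal equation. -/
def TaskSk : Prop :=
  ∀ (ub : ℝ → ℝ) (ε : ℝ) (u U : ℝ → ℝ → ℝ), NL ub ε u U →
    ∀ (b : Bool) (k : ℝ), 0 ≤ k → k ≤ 1 →
    ∀ (s T M L : ℝ) (φ : ℝ → ℝ → ℝ), 0 ≤ s → s ≤ T → TestFn M L φ →
      (∀ t x, 0 ≤ φ t x) →
      (∫ x : ℝ, pm b k (deriv (fun y => U T y) x) * φ T x) ≤
        (∫ x : ℝ, pm b k (deriv (fun y => U s y) x) * φ s x)
        + ∫ t in s..T, ∫ x : ℝ,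
          pm b k (u t x) * (deriv (fun r => φ r x) t
            + (1 - dq ε U t x) * deriv (fun y => φ t y) x - k * ((φ t x - φ t (x - ε)) / ε))

/-- T-D: the dissipation bound. -/
def TaskD : Prop :=
  ∀ T B : ℝ, 0 < T → 0 < B → ∃ C : ℝ, ∀ (ub : ℝ → ℝ) (ε : ℝ) (u U : ℝ → ℝ → ℝ),
    NL ub ε u U → ε ≤ 1 →
      ∫ t in (0:ℝ)..T, ∫ x in (-B)..B, |u t (x + ε) - u t x| ^ 3 ≤ C * ε

/-- T-WK: weak convergence on intervals implies weak convergence against bounded measurable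
functions. -/
def TaskWk : Prop :=
  ∀ (B : ℝ) (f : ℝ → ℝ → ℝ) (g h : ℝ → ℝ), 0 < B →
    (∀ ε, 0 < ε → Measurable (f ε)) → Measurable g → Measurable h →
    (∀ ε x, 0 < ε → 0 ≤ f ε x ∧ f ε x ≤ 1) → (∀ x, 0 ≤ g x ∧ g x ≤ 1) → (∀ x, |h x| ≤ 1) →
    (∀ p q, -B ≤ p → p ≤ q → q ≤ B →
      Tendsto (fun ε => ∫ x in p..q, f ε x) (𝓝[>] 0) (𝓝 (∫ x in p..q, g x))) →
    Tendsto (fun ε => ∫ x in (-B)..B, f ε x * h x) (𝓝[>] 0) (𝓝 (∫ x in (-B)..B, g x * h x))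

/-- T-C: the nonlocal averages converge strongly to the derivative of the Hopf-Lax function. -/
def TaskC : Prop :=
  ∀ (ub : ℝ → ℝ) (u U : ℝ → ℝ → ℝ → ℝ), (∀ ε, 0 < ε → NL ub ε (u ε) (U ε)) →
    ∀ T B : ℝ, 0 < T → 0 < B →
      Tendsto (fun ε => ∫ t in (0:ℝ)..T, ∫ x in (-B)..B,
        |dq ε (U ε) t x - deriv (fun y => HL (prim ub) t y) x|) (𝓝[>] 0) (𝓝 0)

/-- right-looking envelope (compact version), `g z = U0 z - k z` -/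
noncomputable def RR (g : ℝ → ℝ) (k p q t x : ℝ) : ℝ :=
  sSup ((fun z : ℝ => g z - (max (z - (x - (1 - 2 * k) * t)) 0) ^ 2 / (4 * t)) '' Icc p q)

/-- left-looking envelope (compact version) -/
noncomputable def RL (g : ℝ → ℝ) (k p q t x : ℝ) : ℝ :=
  sSup ((fun z : ℝ => g z - (max ((x - (1 - 2 * k) * t) - z) 0) ^ 2 / (4 * t)) '' Icc p q)

/-- T-V1: the pointwise transport inequalities for the envelopes. -/
def TaskV1 : Prop :=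
  ∀ (U0 : ℝ → ℝ), ML U0 → ∀ (k B x₁ t x rt rx lt lx v : ℝ), 0 ≤ k → k ≤ 1 →
    -B ≤ x₁ → x₁ ≤ B → 0 < t → |x| ≤ B - 3 * t →
    HasDerivAt (fun r => RR (fun z => U0 z - k * z) k x₁ B r x) rt t →
    HasDerivAt (fun y => RR (fun z => U0 z - k * z) k x₁ B t y) rx x →
    HasDerivAt (fun r => RL (fun z => U0 z - k * z) k (-B) x₁ r x) lt t →
    HasDerivAt (fun y => RL (fun z => U0 z - k * z) k (-B) x₁ t y) lx x →
    HasDerivAt (fun y => HL U0 t y) v x →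
    (RL (fun z => U0 z - k * z) k (-B) x₁ t x < RR (fun z => U0 z - k * z) k x₁ B t x →
      (rt - lt) + (1 - k - v) * (rx - lx) ≤ 0) ∧
    (RR (fun z => U0 z - k * z) k x₁ B t x < RL (fun z => U0 z - k * z) k (-B) x₁ t x →
      (lt - rt) + (1 - k - v) * (lx - rx) ≤ 0)

/-- T-V: sub-transported test functions. -/
def TaskV : Prop :=
  ∀ (U0 : ℝ → ℝ), ML U0 → ∀ (k T B₀ : ℝ), 0 < k → k < 1 → 0 < T → 0 < B₀ →
    ∃ X : ℝ → ℝ, MonotoneOn X (Icc (-B₀) B₀) ∧ (∀ x ∈ Icc (-B₀) B₀, |X x - x| ≤ 3 * T) ∧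
      ∀ x₁ ∈ Icc (-B₀) B₀, ∀ x₂ ∈ Icc (-B₀) B₀, x₁ < x₂ → ∀ τ ∈ Ioo (0:ℝ) T, ∀ θ : ℝ, 0 < θ →
        ∃ (φ : ℝ → ℝ → ℝ) (M L : ℝ), TestFn M L φ ∧
          (∀ t x, 0 ≤ φ t x ∧ φ t x ≤ 1) ∧
          (∀ᵐ p : ℝ × ℝ, p.1 ∈ Ioo τ T →
            deriv (fun r => φ r p.2) p.1
              + (1 - k - deriv (fun y => HL U0 p.1 y) p.2) * deriv (fun y => φ p.1 y) p.2 ≤ 0) ∧
          (∀ x, φ τ x ≠ 0 → x₁ - 3 * τ ≤ x ∧ x ≤ x₂ + 3 * τ) ∧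
          ∫ x in (X x₁)..(X x₂), (1 - φ T x) ≤ θ

/-- T-INT: transport of the half-entropies on intervals. -/
def TaskInt : Prop :=
  ∀ (ub : ℝ → ℝ) (u U : ℝ → ℝ → ℝ → ℝ), (∀ ε, 0 < ε → NL ub ε (u ε) (U ε)) →
    ∀ (k T B₀ : ℝ), 0 < k → k < 1 → 0 < T → 0 < B₀ →
    ∃ X : ℝ → ℝ, MonotoneOn X (Icc (-B₀) B₀) ∧ (∀ x ∈ Icc (-B₀) B₀, |X x - x| ≤ 3 * T) ∧
      ∀ x₁ ∈ Icc (-B₀) B₀, ∀ x₂ ∈ Icc (-B₀) B₀, x₁ < x₂ → ∀ (b : Bool) (θ : ℝ), 0 < θ →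
        ∀ᶠ ε in 𝓝[>] (0:ℝ),
          ∫ x in (X x₁)..(X x₂), pm b k (deriv (fun y => U ε T y) x) ≤
            (∫ x in x₁..x₂, pm b k (ub x)) + θ

/-- T-FIN: strong convergence at every time. -/
def TaskFin : Prop :=
  ∀ (ub : ℝ → ℝ) (u U : ℝ → ℝ → ℝ → ℝ), (∀ ε, 0 < ε → NL ub ε (u ε) (U ε)) →
    ∀ T B : ℝ, 0 < T → 0 < B →
      Tendsto (fun ε => ∫ x in (-B)..B,
        |deriv (fun y => U ε T y) x - deriv (fun y => HL (prim ub) T y) x|) (𝓝[>] 0) (𝓝 0)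

end Pool.Agent.W807.TF
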