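import Pool.Agent.W807.TF.Line
import Pool.Agent.W807.TF.Dbl

set_option autoImplicit false

open MeasureTheory Set Filter Topology

namespace Pool.Agent.W807.TF

/-- upper bound for the increment of a potential along a line of slope `c` -/
lemma line_upper {ub : ℝ → ℝ} {v F V : ℝ → ℝ → ℝ} (hub : Dat ub) (hv : Fun01 v) (hF : Fun01 F)
    (hV : IsPot ub v F V) {t h c x M C : ℝ} (ht : 0 ≤ t) (hh : 0 ≤ h)
    (H : ∀ r, 0 < r → ∀ s ∈ Icc 0 h, ∀ y ∈ Icc (x - c * (h - s)) (x + r - c * (h - s)),
      c * v (t + s) y - F (t + s) y ≤ M + C * r) :
    V (t + h) x - V t (x - c * h) ≤ h * M := by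
  have key : ∀ r, 0 < r → V (t + h) x - V t (x - c * h) ≤ h * M + r * (h * C + 2) := by
    intro r hr
    have h1 := taskLine ub v F V hub hv hF hV t h c x (x + r) ht hh (by linarith)
    have hVc : ∀ s, Continuous (V s) := hV.cont_x
    have hl : r * (V (t + h) x - V t (x - c * h) - 2 * r) ≤
        ∫ z in x..(x + r), (V (t + h) z - V t (z - c * h)) := by
      have h2 := intervalIntegral.integral_mono_on (μ := volume) (a := x) (b := x + r)
        (f := fun _ => V (t + h) x - V t (x - c * h) - 2 * r)
        (g := fun z => V (t + h) z - V t (z - c * h)) (by linarith)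
        intervalIntegrable_const
        (by
          apply Continuous.intervalIntegrable
          have a1 := hVc (t + h)
          have a2 := hVc t
          fun_prop)
        (by
          intro z hz
          have a1 := (abs_le.1 (hV.lip_x (t + h) z x)).1
          have a2 := (abs_le.1 (hV.lip_x t (z - c * h) (x - c * h))).2
          have a3 : |z - x| ≤ r := by
            rw [abs_le]; constructor <;> linarith [hz.1, hz.2]
          have a4 : |z - c * h - (x - c * h)| ≤ r := by
            rw [sub_sub_sub_cancel_right]; exact a3
          linarith)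
      rw [intervalIntegral.integral_const] at h2
      simp only [add_sub_cancel_left, smul_eq_mul] at h2
      exact h2
    have hr2 : (∫ s in (0:ℝ)..h, ∫ y in (x - c * (h - s))..(x + r - c * (h - s)),
          (c * v (t + s) y - F (t + s) y)) ≤ h * (r * (M + C * r)) := by
      have hin : ∀ s ∈ Icc (0:ℝ) h, (∫ y in (x - c * (h - s))..(x + r - c * (h - s)),
          (c * v (t + s) y - F (t + s) y)) ≤ r * (M + C * r) := by
        intro s hs
        have h2 := intervalIntegral.integral_mono_on (μ := volume) (a := x - c * (h - s))
          (b := x + r - c * (h - s))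
          (f := fun y => c * v (t + s) y - F (t + s) y)
          (g := fun _ => M + C * r) (by linarith)
          (((hv.ii_x _ _ _).const_mul c).sub (hF.ii_x _ _ _))
          intervalIntegrable_const (fun y hy => H r hr s hs y hy)
        rw [intervalIntegral.integral_const] at h2
        have e : x + r - c * (h - s) - (x - c * (h - s)) = r := by ring
        rw [e, smul_eq_mul] at h2
        exact h2
      have hm : Measurable (fun s => ∫ y in (x - c * (h - s))..(x + r - c * (h - s)),
          (c * v (t + s) y - F (t + s) y)) := by
        have e : (fun s => ∫ y in (x - c * (h - s))..(x + r - c * (h - s)),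
            (c * v (t + s) y - F (t + s) y)) = fun s => ∫ y in x..(x + r),
            (c * v (t + s) (y - c * (h - s)) - F (t + s) (y - c * (h - s))) := by
          funext s
          rw [← intervalIntegral.integral_comp_sub_right
            (fun y => c * v (t + s) y - F (t + s) y) (c * (h - s))]
        rw [e]
        apply meas_inner
        have hm : Measurable (fun a : ℝ × ℝ => ((t + a.1, a.2 - c * (h - a.1)) : ℝ × ℝ)) := by
          fun_prop
        exact (measurable_const.mul (hv.1.comp hm)).sub (hF.1.comp hm)
      have hbd : ∀ s, |∫ y in (x - c * (h - s))..(x + r - c * (h - s)),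
          (c * v (t + s) y - F (t + s) y)| ≤ (|c| + 1) * r := by
        intro s
        have h3 := abs_inner_le (f := fun y => c * v (t + s) y - F (t + s) y) (M := |c| + 1)
          (fun y => by
            calc _ ≤ |c * v (t + s) y| + |F (t + s) y| := abs_sub _ _
              _ ≤ |c| + 1 := by
                rw [abs_mul]
                have b1 := hv.abs_le (t + s) y
                have b2 := hF.abs_le (t + s) y
                nlinarith [abs_nonneg c]) (x - c * (h - s)) (x + r - c * (h - s))
        have e : x + r - c * (h - s) - (x - c * (h - s)) = r := by ring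
        rw [e, abs_of_pos hr] at h3
        exact h3
      have h4 := intervalIntegral.integral_mono_on (μ := volume) (a := 0) (b := h)
        (g := fun _ => r * (M + C * r)) hh (ii_of_bdd hm hbd 0 h)
        intervalIntegrable_const hin
      rw [intervalIntegral.integral_const, sub_zero, smul_eq_mul] at h4
      exact h4
    have h5 : r * (V (t + h) x - V t (x - c * h) - 2 * r) ≤ h * (r * (M + C * r)) := by
      rw [h1] at hl; linarith
    have h6 : V (t + h) x - V t (x - c * h) - 2 * r ≤ h * (M + C * r) := by
      have : r * (V (t + h) x - V t (x - c * h) - 2 * r) ≤ r * (h * (M + C * r)) := by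
        linarith
      exact le_of_mul_le_mul_left this hr
    linarith
  have hlim : Tendsto (fun r : ℝ => h * M + r * (h * C + 2)) (𝓝[>] 0)
      (𝓝 (h * M + 0 * (h * C + 2))) := by
    apply Tendsto.mono_left _ nhdsWithin_le_nhds
    exact (continuous_const.add (continuous_id.mul continuous_const)).tendsto 0
  rw [zero_mul, add_zero] at hlim
  apply ge_of_tendsto hlim
  filter_upwards [self_mem_nhdsWithin] with r hr
  exact key r hr

/-- lower bound for the increment of a potential along a line of slope `c` -/
lemma line_lower {ub : ℝ → ℝ} {v F V : ℝ → ℝ → ℝ} (hub : Dat ub) (hv : Fun01 v) (hF : Fun01 F)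
    (hV : IsPot ub v F V) {t h c x M C : ℝ} (ht : 0 ≤ t) (hh : 0 ≤ h)
    (H : ∀ r, 0 < r → ∀ s ∈ Icc 0 h, ∀ y ∈ Icc (x - c * (h - s)) (x + r - c * (h - s)),
      M - C * r ≤ c * v (t + s) y - F (t + s) y) :
    h * M ≤ V (t + h) x - V t (x - c * h) := by
  have key : ∀ r, 0 < r → h * M - r * (h * C + 2) ≤ V (t + h) x - V t (x - c * h) := by
    intro r hr
    have h1 := taskLine ub v F V hub hv hF hV t h c x (x + r) ht hh (by linarith)
    have hVc : ∀ s, Continuous (V s) := hV.cont_x
    have hl : (∫ z in x..(x + r), (V (t + h) z - V t (z - c * h))) ≤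
        r * (V (t + h) x - V t (x - c * h) + 2 * r) := by
      have h2 := intervalIntegral.integral_mono_on (μ := volume) (a := x) (b := x + r)
        (g := fun _ => V (t + h) x - V t (x - c * h) + 2 * r)
        (f := fun z => V (t + h) z - V t (z - c * h)) (by linarith)
        (by
          apply Continuous.intervalIntegrable
          have a1 := hVc (t + h)
          have a2 := hVc t
          fun_prop)
        intervalIntegrable_const
        (by
          intro z hz
          have a1 := (abs_le.1 (hV.lip_x (t + h) z x)).2
          have a2 := (abs_le.1 (hV.lip_x t (z - c * h) (x - c * h))).1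
          have a3 : |z - x| ≤ r := by
            rw [abs_le]; constructor <;> linarith [hz.1, hz.2]
          have a4 : |z - c * h - (x - c * h)| ≤ r := by
            rw [sub_sub_sub_cancel_right]; exact a3
          linarith)
      rw [intervalIntegral.integral_const] at h2
      simp only [add_sub_cancel_left, smul_eq_mul] at h2
      exact h2
    have hr2 : h * (r * (M - C * r)) ≤
        (∫ s in (0:ℝ)..h, ∫ y in (x - c * (h - s))..(x + r - c * (h - s)),
          (c * v (t + s) y - F (t + s) y)) := by
      have hin : ∀ s ∈ Icc (0:ℝ) h, r * (M - C * r) ≤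
          (∫ y in (x - c * (h - s))..(x + r - c * (h - s)),
          (c * v (t + s) y - F (t + s) y)) := by
        intro s hs
        have h2 := intervalIntegral.integral_mono_on (μ := volume) (a := x - c * (h - s))
          (b := x + r - c * (h - s))
          (g := fun y => c * v (t + s) y - F (t + s) y)
          (f := fun _ => M - C * r) (by linarith)
          intervalIntegrable_const
          (((hv.ii_x _ _ _).const_mul c).sub (hF.ii_x _ _ _))
          (fun y hy => H r hr s hs y hy)
        rw [intervalIntegral.integral_const] at h2
        have e : x + r - c * (h - s) - (x - c * (h - s)) = r := by ring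
        rw [e, smul_eq_mul] at h2
        exact h2
      have hm : Measurable (fun s => ∫ y in (x - c * (h - s))..(x + r - c * (h - s)),
          (c * v (t + s) y - F (t + s) y)) := by
        have e : (fun s => ∫ y in (x - c * (h - s))..(x + r - c * (h - s)),
            (c * v (t + s) y - F (t + s) y)) = fun s => ∫ y in x..(x + r),
            (c * v (t + s) (y - c * (h - s)) - F (t + s) (y - c * (h - s))) := by
          funext s
          rw [← intervalIntegral.integral_comp_sub_right
            (fun y => c * v (t + s) y - F (t + s) y) (c * (h - s))]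
        rw [e]
        apply meas_inner
        have hm : Measurable (fun a : ℝ × ℝ => ((t + a.1, a.2 - c * (h - a.1)) : ℝ × ℝ)) := by
          fun_prop
        exact (measurable_const.mul (hv.1.comp hm)).sub (hF.1.comp hm)
      have hbd : ∀ s, |∫ y in (x - c * (h - s))..(x + r - c * (h - s)),
          (c * v (t + s) y - F (t + s) y)| ≤ (|c| + 1) * r := by
        intro s
        have h3 := abs_inner_le (f := fun y => c * v (t + s) y - F (t + s) y) (M := |c| + 1)
          (fun y => by
            calc _ ≤ |c * v (t + s) y| + |F (t + s) y| := abs_sub _ _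
              _ ≤ |c| + 1 := by
                rw [abs_mul]
                have b1 := hv.abs_le (t + s) y
                have b2 := hF.abs_le (t + s) y
                nlinarith [abs_nonneg c]) (x - c * (h - s)) (x + r - c * (h - s))
        have e : x + r - c * (h - s) - (x - c * (h - s)) = r := by ring
        rw [e, abs_of_pos hr] at h3
        exact h3
      have h4 := intervalIntegral.integral_mono_on (μ := volume) (a := 0) (b := h)
        (f := fun _ => r * (M - C * r)) hh
        intervalIntegrable_const (ii_of_bdd hm hbd 0 h) hin
      rw [intervalIntegral.integral_const, sub_zero, smul_eq_mul] at h4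
      exact h4
    have h5 : h * (r * (M - C * r)) ≤ r * (V (t + h) x - V t (x - c * h) + 2 * r) := by
      rw [h1] at hl; linarith
    have h6 : h * (M - C * r) ≤ V (t + h) x - V t (x - c * h) + 2 * r := by
      have : r * (h * (M - C * r)) ≤ r * (V (t + h) x - V t (x - c * h) + 2 * r) := by
        linarith
      exact le_of_mul_le_mul_left this hr
    linarith
  have hlim : Tendsto (fun r : ℝ => h * M - r * (h * C + 2)) (𝓝[>] 0)
      (𝓝 (h * M - 0 * (h * C + 2))) := by
    apply Tendsto.mono_left _ nhdsWithin_le_nhds
    exact (continuous_const.sub (continuous_id.mul continuous_const)).tendsto 0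
  rw [zero_mul, sub_zero] at hlim
  apply le_of_tendsto hlim
  filter_upwards [self_mem_nhdsWithin] with r hr
  exact key r hr

/-- one-step estimate along the (frozen) characteristic -/
lemma onestep {ub : ℝ → ℝ} {ε : ℝ} {u U : ℝ → ℝ → ℝ} (hN : NL ub ε u U) {t h x : ℝ}
    (ht : 0 ≤ t) (hh : 0 ≤ h) :
    |U (t + h) x - U t (x - (1 - dq ε U t x) * h)| ≤ 4 * h ^ 2 / ε := by
  have hε := hN.eps
  have ha := hN.pot.dq_mem hε t x
  have hest : ∀ r, 0 < r → ∀ s ∈ Icc 0 h, ∀ y ∈ Icc (x - (1 - dq ε U t x) * (h - s))
      (x + r - (1 - dq ε U t x) * (h - s)),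
      |(1 - dq ε U t x) * u (t + s) y - u (t + s) y * (1 - dq ε U (t + s) y)| ≤
        4 * h / ε + 2 / ε * r := by
    intro r hr s hs y hy
    have h1 := hN.pot.dq_lip hε (t + s) t y x
    have h2 := hN.u01.2 (t + s) y
    have e1 : t + s - t = s := by ring
    rw [e1, abs_of_nonneg hs.1] at h1
    have h3 : |y - x| ≤ h + r := by
      have : (1 - dq ε U t x) * (h - s) ≤ h := by nlinarith [hs.1, hs.2, ha.1, ha.2]
      have : 0 ≤ (1 - dq ε U t x) * (h - s) :=
        mul_nonneg (by linarith [ha.2]) (by linarith [hs.2])
      rw [abs_le]
      constructor <;> linarith [hy.1, hy.2]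
    have e2 : (1 - dq ε U t x) * u (t + s) y - u (t + s) y * (1 - dq ε U (t + s) y) =
        u (t + s) y * (dq ε U (t + s) y - dq ε U t x) := by ring
    rw [e2, abs_mul, abs_of_nonneg h2.1]
    have h4 : 2 / ε * (s + |y - x|) ≤ 2 / ε * (2 * h + r) := by
      apply mul_le_mul_of_nonneg_left _ (by positivity)
      linarith [hs.2]
    have h5 : u (t + s) y * |dq ε U (t + s) y - dq ε U t x| ≤
        1 * |dq ε U (t + s) y - dq ε U t x| :=
      mul_le_mul_of_nonneg_right h2.2 (abs_nonneg _)
    have e3 : 2 / ε * (2 * h + r) = 4 * h / ε + 2 / ε * r := by ring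
    linarith
  have hup := line_upper hN.dat hN.u01 hN.flux01 hN.pot (c := 1 - dq ε U t x) (x := x)
    (M := 4 * h / ε) (C := 2 / ε) ht hh (fun r hr s hs y hy =>
      (le_abs_self _).trans (hest r hr s hs y hy))
  have hlo := line_lower hN.dat hN.u01 hN.flux01 hN.pot (c := 1 - dq ε U t x) (x := x)
    (M := -(4 * h / ε)) (C := 2 / ε) ht hh (fun r hr s hs y hy => by
      have := (abs_le.1 (hest r hr s hs y hy)).1
      linarith)
  rw [abs_le]
  have e4 : 4 * h ^ 2 / ε = h * (4 * h / ε) := by ring
  rw [e4]
  constructor <;> linarith

end Pool.Agent.W807.TF
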