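import Pool.Agent.W807.TF.TA

set_option autoImplicit false

open MeasureTheory Set Filter Topology

namespace Pool.Agent.W807.TF

lemma HLFacts.mem_abs {U0 : ℝ → ℝ} (h : HLFacts U0) {t : ℝ} (ht : 0 ≤ t) (x : ℝ) :
    |HL U0 t x - U0 x| ≤ t := by
  have h1 := h.lipt 0 t x le_rfl ht
  rw [h.zero x] at h1
  rw [abs_le]
  constructor <;> linarith [h1.1, h1.2]

theorem taskA_upper {ub : ℝ → ℝ} {ε : ℝ} {u U : ℝ → ℝ → ℝ} (hN : NL ub ε u U) (α : ℝ)
    (hα : 0 < α) : ∀ t x, 0 ≤ t → U t x - HL (prim ub) t x ≤ α / 2 + t * (ε / (2 * α)) := by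
  have hU0 : ML (prim ub) := hN.dat.ml
  have hF := taskHL (prim ub) hU0
  have hε := hN.eps
  apply taskDbl U (HL (prim ub)) (prim ub) α (ε / (2 * α)) (2 / α + 7 / ε) 1 hα
    (by positivity) (by positivity) one_pos hU0 hN.pot.init hF.zero
    (fun t x ht => hN.pot.mem_abs ht x) (fun t x ht => hF.mem_abs ht x)
  intro t h m x' y' ht hh hh1 Hm Hn
  set a := dq ε U t x' with ha
  have ha01 := hN.pot.dq_mem hε t x'
  rw [← ha] at ha01
  set p := (x' - y') / α with hp
  have hpα : x' - y' = α * p := by rw [hp]; field_simp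
  have h1 := (abs_le.1 (onestep hN (x := x') ht hh.le)).2
  rw [← ha] at h1
  -- general inequality for a control c
  have hgen : ∀ c : ℝ, -1 ≤ c → c ≤ 1 →
      U (t + h) x' - HL (prim ub) (t + h) y' - (x' - y') ^ 2 / (2 * α) ≤
      m + 4 * h ^ 2 / ε + 2 * h ^ 2 / α + (h * (1 - c) ^ 2 / 4 - p * h * (1 - a - c)) := by
    intro c hc1 hc2
    have h2 := hF.sg t h y' c ht hh.le
    have h3 := Hm (x' - (1 - a) * h) (y' - c * h)
    have e1 : (x' - (1 - a) * h - (y' - c * h)) ^ 2 / (2 * α) =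
        (x' - y') ^ 2 / (2 * α) - p * h * (1 - a - c) + h ^ 2 * (1 - a - c) ^ 2 / (2 * α) := by
      have : x' - (1 - a) * h - (y' - c * h) = α * p - h * (1 - a - c) := by
        rw [← hpα]; ring
      rw [this, hpα]
      field_simp
      ring
    have e2 : (1 - a - c) ^ 2 ≤ 4 := by
      nlinarith [ha01.1, ha01.2]
    have e3 : h ^ 2 * (1 - a - c) ^ 2 / (2 * α) ≤ 2 * h ^ 2 / α := by
      rw [div_le_div_iff₀ (by positivity) hα]
      nlinarith [mul_le_mul_of_nonneg_left e2 (sq_nonneg h), mul_pos hα hα,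
        mul_le_mul_of_nonneg_left (mul_le_mul_of_nonneg_left e2 (sq_nonneg h)) hα.le]
    rw [e1] at h3
    linarith
  -- estimate for a
  have h4 : a ≤ p + ε / (2 * α) + h ^ 2 / ε + 2 * h / ε := by
    have h5 := Hn (x' + ε) y'
    have h6 : ε * dq ε U (t + h) x' = U (t + h) (x' + ε) - U (t + h) x' := by
      unfold dq; field_simp
    have e1 : (x' + ε - y') ^ 2 / (2 * α) = (x' - y') ^ 2 / (2 * α) + ε * p +
        ε ^ 2 / (2 * α) := by
      have : x' + ε - y' = α * p + ε := by rw [← hpα]; ring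
      rw [this, hpα]
      field_simp
      ring
    rw [e1] at h5
    have h7 : ε * dq ε U (t + h) x' ≤ ε * (p + ε / (2 * α) + h ^ 2 / ε) := by
      have e2 : ε * (p + ε / (2 * α) + h ^ 2 / ε) = ε * p + ε ^ 2 / (2 * α) + h ^ 2 := by
        field_simp
      rw [e2, h6]
      linarith
    have h8 := le_of_mul_le_mul_left h7 hε
    have h9 := hN.pot.dq_lip hε t (t + h) x' x'
    simp only [sub_self, abs_zero, add_zero, sub_add_cancel_left, abs_neg, abs_of_pos hh] at h9
    have h10 := (abs_le.1 h9).2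
    have e3 : 2 / ε * h = 2 * h / ε := by ring
    rw [e3] at h10
    linarith
  have hh3 : 0 ≤ h ^ 2 / ε := by positivity
  have hhα : 0 ≤ h ^ 2 / α := by positivity
  have htot : h * (ε / (2 * α)) + (2 / α + 7 / ε) * h ^ 2 =
      h * (ε / (2 * α)) + 2 * h ^ 2 / α + 7 * (h ^ 2 / ε) := by ring
  have e5 : 4 * h ^ 2 / ε = 4 * (h ^ 2 / ε) := by ring
  have hεα : 0 ≤ h * (ε / (2 * α)) := by positivity
  rcases lt_or_ge p 0 with hp0 | hp0
  · have h5 := hgen 1 (by norm_num) le_rfl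
    have h6 : p * h * (1 - a - 1) = (-p) * h * a := by ring
    have h7 : 0 ≤ (-p) * h * a := mul_nonneg (mul_nonneg (by linarith) hh.le) ha01.1
    have h8 : h * (1 - (1:ℝ)) ^ 2 / 4 = 0 := by ring
    rw [h8, h6] at h5
    linarith
  · rcases le_or_gt p 1 with hp1 | hp1
    · have h5 := hgen (1 - 2 * p) (by linarith) (by linarith)
      have h6 : h * (1 - (1 - 2 * p)) ^ 2 / 4 - p * h * (1 - a - (1 - 2 * p)) =
          h * p * (a - p) := by ring
      rw [h6] at h5
      have h7 : h * p * (a - p) ≤ h * p * (ε / (2 * α) + h ^ 2 / ε + 2 * h / ε) :=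
        mul_le_mul_of_nonneg_left (by linarith) (mul_nonneg hh.le hp0)
      have h8 : 0 ≤ ε / (2 * α) + h ^ 2 / ε + 2 * h / ε := by positivity
      have h9 : h * p * (ε / (2 * α) + h ^ 2 / ε + 2 * h / ε) ≤
          h * 1 * (ε / (2 * α) + h ^ 2 / ε + 2 * h / ε) := by
        apply mul_le_mul_of_nonneg_right _ h8
        exact mul_le_mul_of_nonneg_left hp1 hh.le
      have h10 : h * 1 * (ε / (2 * α) + h ^ 2 / ε + 2 * h / ε) =
          h * (ε / (2 * α)) + h * (h ^ 2 / ε) + 2 * (h ^ 2 / ε) := by ring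
      have h11 : h * (h ^ 2 / ε) ≤ 1 * (h ^ 2 / ε) := mul_le_mul_of_nonneg_right hh1 hh3
      linarith
    · have h5 := hgen (-1) le_rfl (by norm_num)
      have h6 : h * (1 - (-1:ℝ)) ^ 2 / 4 - p * h * (1 - a - (-1)) = h * (1 - 2 * p + p * a) := by
        ring
      rw [h6] at h5
      have h7 : h * (1 - 2 * p + p * a) ≤ 0 := by
        apply mul_nonpos_of_nonneg_of_nonpos hh.le
        nlinarith [ha01.2]
      linarith

theorem taskA_lower {ub : ℝ → ℝ} {ε : ℝ} {u U : ℝ → ℝ → ℝ} (hN : NL ub ε u U) (α : ℝ)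
    (hα : 0 < α) : ∀ t x, 0 ≤ t → HL (prim ub) t x - U t x ≤ α / 2 + t * (ε / (2 * α)) := by
  have hU0 : ML (prim ub) := hN.dat.ml
  have hF := taskHL (prim ub) hU0
  have hε := hN.eps
  set κ : ℝ := 1 / (2 * α) + 1 with hκ
  have hκ0 : 0 < κ := by positivity
  apply taskDbl (HL (prim ub)) U (prim ub) α (ε / (2 * α))
    (2 / α + 4 / ε + 3 / ε + κ * (ε / (2 * α)) + 3 * κ / ε + κ * (κ + 1)) 1 hα
    (by positivity) (by positivity) one_pos hU0 hF.zero hN.pot.init
    (fun t x ht => hF.mem_abs ht x) (fun t x ht => hN.pot.mem_abs ht x)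
  intro t h m x' y' ht hh hh1 Hm Hn
  set a := dq ε U t y' with ha
  have ha01 := hN.pot.dq_mem hε t y'
  rw [← ha] at ha01
  set q := (x' - y') / α with hq
  have hqα : x' - y' = α * q := by rw [hq]; field_simp
  have h1 := (abs_le.1 (onestep hN (x := y') ht hh.le)).1
  rw [← ha] at h1
  obtain ⟨c, hc, h2⟩ := hF.sg' t h x' ht hh.le
  have h3 := Hm (x' - c * h) (y' - (1 - a) * h)
  have e1 : (x' - c * h - (y' - (1 - a) * h)) ^ 2 / (2 * α) =
      (x' - y') ^ 2 / (2 * α) + q * h * (1 - a - c) + h ^ 2 * (1 - a - c) ^ 2 / (2 * α) := by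
    have : x' - c * h - (y' - (1 - a) * h) = α * q + h * (1 - a - c) := by
      rw [← hqα]; ring
    rw [this, hqα]
    field_simp
    ring
  have e2 : (1 - a - c) ^ 2 ≤ 4 := by
    nlinarith [ha01.1, ha01.2, hc.1, hc.2]
  have e3 : h ^ 2 * (1 - a - c) ^ 2 / (2 * α) ≤ 2 * h ^ 2 / α := by
    rw [div_le_div_iff₀ (by positivity) hα]
    nlinarith [mul_le_mul_of_nonneg_left e2 (sq_nonneg h), mul_pos hα hα,
      mul_le_mul_of_nonneg_left (mul_le_mul_of_nonneg_left e2 (sq_nonneg h)) hα.le]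
  rw [e1] at h3
  have h4 : HL (prim ub) (t + h) x' - U (t + h) y' - (x' - y') ^ 2 / (2 * α) ≤
      m + 4 * h ^ 2 / ε + 2 * h ^ 2 / α + h * (q * (q - a)) := by
    have h5 : q * h * (1 - a - c) - h * (1 - c) ^ 2 / 4 ≤ h * (q * (q - a)) := by
      have : 0 ≤ h * ((1 - c) / 2 - q) ^ 2 := mul_nonneg hh.le (sq_nonneg _)
      nlinarith
    linarith
  -- bounds for q
  have hHLlow : -(κ * h) ≤ q := by
    have h5 := Hn (x' + h) y'
    have h6 := hF.mono (t + h) x' (x' + h) (by linarith) (by linarith)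
    have e4 : (x' + h - y') ^ 2 / (2 * α) = (x' - y') ^ 2 / (2 * α) + h * q +
        h ^ 2 / (2 * α) := by
      have : x' + h - y' = α * q + h := by rw [← hqα]; ring
      rw [this, hqα]
      field_simp
      ring
    rw [e4] at h5
    have h7 : 0 ≤ h * (q + κ * h) := by
      have : h * (q + κ * h) = h * q + h ^ 2 / (2 * α) + h ^ 2 := by rw [hκ]; ring
      rw [this]; linarith
    have := nonneg_of_mul_nonneg_right h7 hh
    linarith
  have hHLup : q ≤ 1 + κ * h := by
    have h5 := Hn (x' - h) y'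
    have h6 := hF.lipx (t + h) (x' - h) x' (by linarith) (by linarith)
    have e4 : (x' - h - y') ^ 2 / (2 * α) = (x' - y') ^ 2 / (2 * α) - h * q +
        h ^ 2 / (2 * α) := by
      have : x' - h - y' = α * q - h := by rw [← hqα]; ring
      rw [this, hqα]
      field_simp
      ring
    rw [e4] at h5
    have h7 : 0 ≤ h * (1 + κ * h - q) := by
      have : h * (1 + κ * h - q) = h - h * q + h ^ 2 / (2 * α) + h ^ 2 := by
        rw [hκ]; ring
      rw [this]; linarith
    have := nonneg_of_mul_nonneg_right h7 hh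
    linarith
  have h5 : q - ε / (2 * α) - h ^ 2 / ε - 2 * h / ε ≤ a := by
    have h5 := Hn x' (y' + ε)
    have h6 : ε * dq ε U (t + h) y' = U (t + h) (y' + ε) - U (t + h) y' := by
      unfold dq; field_simp
    have e4 : (x' - (y' + ε)) ^ 2 / (2 * α) = (x' - y') ^ 2 / (2 * α) - ε * q +
        ε ^ 2 / (2 * α) := by
      have : x' - (y' + ε) = α * q - ε := by rw [← hqα]; ring
      rw [this, hqα]
      field_simp
      ring
    rw [e4] at h5
    have h7 : ε * (q - ε / (2 * α) - h ^ 2 / ε) ≤ ε * dq ε U (t + h) y' := by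
      have e2 : ε * (q - ε / (2 * α) - h ^ 2 / ε) = ε * q - ε ^ 2 / (2 * α) - h ^ 2 := by
        field_simp
      rw [e2, h6]
      linarith
    have h8 := le_of_mul_le_mul_left h7 hε
    have h9 := hN.pot.dq_lip hε t (t + h) y' y'
    simp only [sub_self, abs_zero, add_zero, sub_add_cancel_left, abs_neg, abs_of_pos hh] at h9
    have h10 := (abs_le.1 h9).1
    have e3 : 2 / ε * h = 2 * h / ε := by ring
    rw [e3] at h10
    linarith
  have hh3 : 0 ≤ h ^ 2 / ε := by positivity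
  have hstep : h * (q * (q - a)) ≤ h * (ε / (2 * α)) +
      (3 / ε + κ * (ε / (2 * α)) + 3 * κ / ε + κ * (κ + 1)) * h ^ 2 := by
    have hE : h * (q * (q - a)) ≤ h * (ε / (2 * α) +
        h * (3 / ε + κ * (ε / (2 * α)) + 3 * κ / ε + κ * (κ + 1))) := by
      apply mul_le_mul_of_nonneg_left _ hh.le
      rcases le_or_gt 0 q with hq0 | hq0
      · have h6 : q - a ≤ ε / (2 * α) + 3 * h / ε := by
          have : h ^ 2 / ε ≤ h / ε := by
            apply div_le_div_of_nonneg_right _ hε.le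
            nlinarith
          have e7 : 3 * h / ε = h / ε + 2 * h / ε := by ring
          linarith
        have h7 : q * (q - a) ≤ q * (ε / (2 * α) + 3 * h / ε) :=
          mul_le_mul_of_nonneg_left h6 hq0
        have h8 : 0 ≤ ε / (2 * α) + 3 * h / ε := by positivity
        have h9 : q * (ε / (2 * α) + 3 * h / ε) ≤ (1 + κ * h) * (ε / (2 * α) + 3 * h / ε) :=
          mul_le_mul_of_nonneg_right hHLup h8
        have h10 : (1 + κ * h) * (ε / (2 * α) + 3 * h / ε) =
            ε / (2 * α) + h * (3 / ε + κ * (ε / (2 * α))) + h * h * (3 * κ / ε) := by ring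
        have h11 : h * h * (3 * κ / ε) ≤ h * (3 * κ / ε) := by
          apply mul_le_mul_of_nonneg_right _ (by positivity)
          nlinarith
        have h12 : 0 ≤ h * (κ * (κ + 1)) := by positivity
        have e8 : h * (3 / ε + κ * (ε / (2 * α)) + 3 * κ / ε + κ * (κ + 1)) =
          h * (3 / ε + κ * (ε / (2 * α))) + h * (3 * κ / ε) + h * (κ * (κ + 1)) := by ring
        rw [e8]
        linarith
      · have h6 : (-q) ≤ κ * h := by linarith
        have h7 : q * (q - a) = (-q) * ((-q) + a) := by ring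
        have h8 : (-q) * ((-q) + a) ≤ (κ * h) * (κ + 1) := by
          apply mul_le_mul h6 _ (by linarith [ha01.1]) (by positivity)
          have : κ * h ≤ κ := by nlinarith
          linarith [ha01.2]
        have h9 : 0 ≤ ε / (2 * α) := by positivity
        have h10 : 0 ≤ h * (3 / ε + κ * (ε / (2 * α)) + 3 * κ / ε) := by positivity
        have e8 : h * (3 / ε + κ * (ε / (2 * α)) + 3 * κ / ε + κ * (κ + 1)) =
          h * (3 / ε + κ * (ε / (2 * α)) + 3 * κ / ε) + (κ * h) * (κ + 1) := by ring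
        rw [e8, h7]
        linarith
    have e6 : h * (ε / (2 * α) +
        h * (3 / ε + κ * (ε / (2 * α)) + 3 * κ / ε + κ * (κ + 1))) = h * (ε / (2 * α)) +
      (3 / ε + κ * (ε / (2 * α)) + 3 * κ / ε + κ * (κ + 1)) * h ^ 2 := by ring
    rw [← e6]; exact hE
  have e7 : (2 / α + 4 / ε + 3 / ε + κ * (ε / (2 * α)) + 3 * κ / ε + κ * (κ + 1)) * h ^ 2 =
      2 * h ^ 2 / α + 4 * h ^ 2 / ε +
        (3 / ε + κ * (ε / (2 * α)) + 3 * κ / ε + κ * (κ + 1)) * h ^ 2 := by ring
  rw [e7]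
  linarith

theorem taskA : TaskA := by
  intro ub ε u U hN _ t x ht
  have hε := hN.eps
  have hs : 0 < Real.sqrt ε := Real.sqrt_pos.2 hε
  have h1 := taskA_upper hN (Real.sqrt ε) hs t x ht
  have h2 := taskA_lower hN (Real.sqrt ε) hs t x ht
  have e : ε / (2 * Real.sqrt ε) = Real.sqrt ε / 2 := by
    have : Real.sqrt ε * Real.sqrt ε = ε := Real.mul_self_sqrt hε.le
    field_simp
    nlinarith
  rw [e] at h1 h2
  rw [abs_le]
  constructor <;> nlinarith

end Pool.Agent.W807.TF
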