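import Pool.Agent.W807.TF.Tools

set_option autoImplicit false

open MeasureTheory Set Filter Topology

namespace Pool.Agent.W807.TF

lemma meas_dx {φ : ℝ → ℝ → ℝ} (hφ : Continuous (Function.uncurry φ)) :
    Measurable (Function.uncurry fun t x => deriv (fun y => φ t y) x) :=
  measurable_deriv_with_param hφ

lemma meas_dt {φ : ℝ → ℝ → ℝ} (hφ : Continuous (Function.uncurry φ)) :
    Measurable (Function.uncurry fun t x => deriv (fun s => φ s x) t) := by
  have h1 : Continuous (Function.uncurry fun x s => φ s x) := hφ.comp continuous_swap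
  have h2 := measurable_deriv_with_param h1
  exact h2.comp measurable_swap

lemma dt_zero_off {φ : ℝ → ℝ → ℝ} {t x : ℝ} (h : (t, x) ∉ tsupport (Function.uncurry φ)) :
    deriv (fun s => φ s x) t = 0 := by
  have h1 : ∀ᶠ z in 𝓝 ((t, x) : ℝ × ℝ), Function.uncurry φ z = 0 := by
    have := (isClosed_tsupport (Function.uncurry φ)).isOpen_compl.mem_nhds h
    filter_upwards [this] with z hz
    exact image_eq_zero_of_notMem_tsupport hz
  have h2 : Tendsto (fun s : ℝ => ((s, x) : ℝ × ℝ)) (𝓝 t) (𝓝 (t, x)) :=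
    (Continuous.prodMk_left x).tendsto t
  have h3 : (fun s => φ s x) =ᶠ[𝓝 t] fun _ => 0 := h2.eventually h1
  rw [h3.deriv_eq]
  simp

lemma dx_zero_off {φ : ℝ → ℝ → ℝ} {t x : ℝ} (h : (t, x) ∉ tsupport (Function.uncurry φ)) :
    deriv (fun y => φ t y) x = 0 := by
  have h1 : ∀ᶠ z in 𝓝 ((t, x) : ℝ × ℝ), Function.uncurry φ z = 0 := by
    have := (isClosed_tsupport (Function.uncurry φ)).isOpen_compl.mem_nhds h
    filter_upwards [this] with z hz
    exact image_eq_zero_of_notMem_tsupport hz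
  have h2 : Tendsto (fun y : ℝ => ((t, y) : ℝ × ℝ)) (𝓝 x) (𝓝 (t, x)) :=
    (Continuous.prodMk_right t).tendsto x
  have h3 : (fun y => φ t y) =ᶠ[𝓝 x] fun _ => 0 := h2.eventually h1
  rw [h3.deriv_eq]
  simp

/-- the measure `dt dx` on `t > 0` -/
noncomputable def mp : Measure (ℝ × ℝ) := (volume.restrict (Ioi (0:ℝ))).prod volume

lemma mp_eq : mp = volume.restrict (Ioi (0:ℝ) ×ˢ univ) := by
  unfold mp
  have := Measure.prod_restrict (μ := (volume : Measure ℝ)) (ν := (volume : Measure ℝ))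
    (Ioi (0:ℝ)) (univ : Set ℝ)
  rw [Measure.restrict_univ] at this
  rw [this]
  rfl

lemma mp_le : mp ≤ volume := by
  rw [mp_eq]; exact Measure.restrict_le_self

lemma int_of_supp' {g : ℝ → ℝ → ℝ} {K : Set (ℝ × ℝ)} (hK : IsCompact K)
    (hm : Measurable (Function.uncurry g)) {M : ℝ} (hb : ∀ t x, |g t x| ≤ M)
    (hs : ∀ t x, (t, x) ∉ K → g t x = 0) : Integrable (Function.uncurry g) volume := by
  have h1 : IntegrableOn (Function.uncurry g) K volume := by
    apply Measure.integrableOn_of_bounded (M := M) hK.measure_lt_top.ne hm.aestronglyMeasurable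
    exact ae_of_all _ fun p => by rw [Real.norm_eq_abs]; exact hb p.1 p.2
  rwa [integrableOn_iff_integrable_of_support_subset] at h1
  intro p hp
  by_contra hcon
  exact hp (hs p.1 p.2 hcon)

lemma int_of_supp {g : ℝ → ℝ → ℝ} {K : Set (ℝ × ℝ)} (hK : IsCompact K)
    (hm : Measurable (Function.uncurry g)) {M : ℝ} (hb : ∀ t x, |g t x| ≤ M)
    (hs : ∀ t x, (t, x) ∉ K → g t x = 0) : Integrable (Function.uncurry g) mp :=
  (int_of_supp' hK hm hb hs).mono_measure mp_le

lemma iter_eq {g : ℝ → ℝ → ℝ} (hg : Integrable (Function.uncurry g) mp) :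
    ∫ t in Ioi (0:ℝ), ∫ x : ℝ, g t x = ∫ z, Function.uncurry g z ∂mp := by
  unfold mp
  rw [integral_prod]
  · rfl
  · exact hg

/-- swapped order -/
lemma iter_eq_swap {g : ℝ → ℝ → ℝ} (hg : Integrable (Function.uncurry g) mp) :
    ∫ x : ℝ, ∫ t in Ioi (0:ℝ), g t x = ∫ z, Function.uncurry g z ∂mp := by
  unfold mp
  rw [integral_prod_symm]
  · rfl
  · exact hg

end Pool.Agent.W807.TF
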