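import Pool.Agent.W807.TF.Basic

set_option autoImplicit false

open MeasureTheory Set Filter Topology

namespace Pool.Agent.W807.TF

lemma meas_inner {f : ℝ → ℝ → ℝ} (hf : Measurable (Function.uncurry f)) (c d : ℝ) :
    Measurable (fun t => ∫ y in c..d, f t y) := by
  have h1 : (fun t => ∫ y in c..d, f t y) =
      fun t => (∫ y in Ioc c d, f t y) - ∫ y in Ioc d c, f t y := by
    funext t; rw [intervalIntegral]
  rw [h1]
  have hs := hf.stronglyMeasurable
  exact ((hs.integral_prod_right (ν := volume.restrict (Ioc c d))).measurable).sub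
    ((hs.integral_prod_right (ν := volume.restrict (Ioc d c))).measurable)

lemma meas_inner' {f : ℝ → ℝ → ℝ} (hf : Measurable (Function.uncurry f)) (c d : ℝ) :
    Measurable (fun y => ∫ t in c..d, f t y) := by
  have h1 : (fun y => ∫ t in c..d, f t y) =
      fun y => (∫ t in Ioc c d, f t y) - ∫ t in Ioc d c, f t y := by
    funext t; rw [intervalIntegral]
  rw [h1]
  have hs := hf.stronglyMeasurable
  exact ((hs.integral_prod_left (μ := volume.restrict (Ioc c d))).measurable).sub
    ((hs.integral_prod_left (μ := volume.restrict (Ioc d c))).measurable)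

lemma abs_inner_le {f : ℝ → ℝ} {M : ℝ} (hb : ∀ y, |f y| ≤ M) (c d : ℝ) :
    |∫ y in c..d, f y| ≤ M * |d - c| := by
  have := intervalIntegral.norm_integral_le_of_norm_le_const (a := c) (b := d) (C := M)
    (f := f) (fun x _ => by rw [Real.norm_eq_abs]; exact hb x)
  rwa [Real.norm_eq_abs] at this

lemma integrable_box {f : ℝ → ℝ → ℝ} (hf : Measurable (Function.uncurry f)) {M : ℝ}
    (hb : ∀ t x, |f t x| ≤ M) (a b c d : ℝ) :
    Integrable (Function.uncurry f)
      ((volume.restrict (Ioc a b)).prod (volume.restrict (Ioc c d))) := by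
  rw [Measure.prod_restrict]
  apply Measure.integrableOn_of_bounded (M := M)
  · rw [Measure.prod_prod]
    exact (ENNReal.mul_lt_top measure_Ioc_lt_top measure_Ioc_lt_top).ne
  · exact hf.aestronglyMeasurable
  · exact ae_of_all _ fun p => by rw [Real.norm_eq_abs]; exact hb p.1 p.2

lemma swap_ii {f : ℝ → ℝ → ℝ} (hf : Measurable (Function.uncurry f)) {M : ℝ}
    (hb : ∀ t x, |f t x| ≤ M) {a b c d : ℝ} (hab : a ≤ b) (hcd : c ≤ d) :
    ∫ t in a..b, ∫ x in c..d, f t x = ∫ x in c..d, ∫ t in a..b, f t x := by
  simp only [intervalIntegral.integral_of_le hab, intervalIntegral.integral_of_le hcd]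
  exact integral_integral_swap (integrable_box hf hb a b c d)

lemma quad_const {G : ℝ → ℝ} {h C : ℝ} (hh : 0 ≤ h)
    (hG : ∀ a b, 0 ≤ a → a ≤ b → b ≤ h → |G b - G a| ≤ C * (b - a) ^ 2) : G h = G 0 := by
  have key : ∀ n : ℕ, 0 < n → |G h - G 0| ≤ C * h ^ 2 / n := by
    intro n hn
    have hn' : (0:ℝ) < n := by exact_mod_cast hn
    have h1 : ∀ j : ℕ, j ≤ n → |G (j * (h / n)) - G 0| ≤ j * (C * (h / n) ^ 2) := by
      intro j
      induction j with
      | zero => intro _; simp
      | succ j ih =>
        intro hj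
        have h2 := ih (by omega)
        have hj' : ((j + 1 : ℕ) : ℝ) ≤ n := by exact_mod_cast hj
        have hd : 0 ≤ h / n := by positivity
        have e1 : ((j + 1 : ℕ) : ℝ) * (h / n) = j * (h / n) + h / n := by push_cast; ring
        have h3 := hG (j * (h / n)) (j * (h / n) + h / n) (by positivity) (by linarith) (by
          rw [← e1]
          calc ((j + 1 : ℕ) : ℝ) * (h / n) ≤ n * (h / n) :=
                mul_le_mul_of_nonneg_right hj' hd
            _ = h := by field_simp)
        rw [e1]
        have e2 : j * (h / n) + h / n - j * (h / n) = h / n := by ring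
        rw [e2] at h3
        calc |G (j * (h / n) + h / n) - G 0|
            = |(G (j * (h / n) + h / n) - G (j * (h / n))) + (G (j * (h / n)) - G 0)| := by
              congr 1; ring
          _ ≤ _ := abs_add_le _ _
          _ ≤ ((j + 1 : ℕ) : ℝ) * (C * (h / n) ^ 2) := by push_cast; linarith
    have h4 := h1 n le_rfl
    have e3 : (n : ℝ) * (h / n) = h := by field_simp
    rw [e3] at h4
    calc |G h - G 0| ≤ n * (C * (h / n) ^ 2) := h4
      _ = C * h ^ 2 / n := by field_simp
  have hlim : Tendsto (fun n : ℕ => C * h ^ 2 / n) atTop (𝓝 0) :=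
    tendsto_const_div_atTop_nhds_zero_nat _
  have h0 : |G h - G 0| ≤ 0 := by
    apply ge_of_tendsto hlim
    filter_upwards [eventually_gt_atTop 0] with n hn
    exact key n hn
  have := abs_nonpos_iff.1 h0
  linarith

end Pool.Agent.W807.TF
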