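import Pool.Agent.W807.TF.Env

set_option autoImplicit false

open MeasureTheory Set Filter Topology

namespace Pool.Agent.W807.TF

/-- truncation to `[0,1]` -/
noncomputable def zt (s : ℝ) : ℝ := min 1 (max s 0)

lemma zt_nonneg (s : ℝ) : 0 ≤ zt s := le_min zero_le_one (le_max_right _ _)
lemma zt_le_one (s : ℝ) : zt s ≤ 1 := min_le_left _ _
lemma zt_neg {s : ℝ} (h : s ≤ 0) : zt s = 0 := by
  unfold zt; rw [max_eq_right h]; simp
lemma zt_big {s : ℝ} (h : 1 ≤ s) : zt s = 1 := by
  unfold zt; rw [max_eq_left (by linarith)]; exact min_eq_left h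
lemma zt_mid {s : ℝ} (h0 : 0 ≤ s) (h1 : s ≤ 1) : zt s = s := by
  unfold zt; rw [max_eq_left h0]; exact min_eq_right h1
lemma zt_pos_iff {s : ℝ} : 0 < zt s ↔ 0 < s := by
  constructor
  · intro h
    by_contra h2
    rw [zt_neg (not_lt.1 h2)] at h
    exact lt_irrefl _ h
  · intro h
    unfold zt
    exact lt_min one_pos (lt_of_lt_of_le h (le_max_left _ _))
lemma zt_lip (a b : ℝ) : |zt a - zt b| ≤ |a - b| := by
  unfold zt
  have h1 := abs_min_sub_min_le_max 1 (max a 0) 1 (max b 0)
  simp only [sub_self, abs_zero] at h1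
  rw [max_eq_right (abs_nonneg (max a 0 - max b 0))] at h1
  exact h1.trans (max0_lip a b)

lemma zt_cont : Continuous zt := by unfold zt; fun_prop

/-- clamp -/
noncomputable def cl (a b x : ℝ) : ℝ := max a (min x b)

lemma cl_mem {a b : ℝ} (h : a ≤ b) (x : ℝ) : cl a b x ∈ Icc a b :=
  ⟨le_max_left _ _, max_le h (min_le_right _ _)⟩
lemma cl_of_mem {a b x : ℝ} (h : x ∈ Icc a b) : cl a b x = x := by
  unfold cl; rw [min_eq_left h.2, max_eq_right h.1]
lemma cl_of_le {a b x : ℝ} (hab : a ≤ b) (h : x ≤ a) : cl a b x = a := by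
  unfold cl; rw [min_eq_left (h.trans hab), max_eq_left h]
lemma cl_of_ge {a b x : ℝ} (hab : a ≤ b) (h : b ≤ x) : cl a b x = b := by
  unfold cl; rw [min_eq_right h, max_eq_right hab]
lemma cl_lip (a b x y : ℝ) : |cl a b x - cl a b y| ≤ |x - y| := by
  unfold cl
  have h1 := abs_max_sub_max_le_max a (min x b) a (min y b)
  simp only [sub_self, abs_zero] at h1
  rw [max_eq_right (abs_nonneg (min x b - min y b))] at h1
  have h2 := abs_min_sub_min_le_max x b y b
  simp only [sub_self, abs_zero] at h2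
  rw [max_eq_left (abs_nonneg (x - y))] at h2
  exact h1.trans h2

/-- the one-factor inequality -/
lemma factor {D : ℝ → ℝ → ℝ} {n t x dt dx c : ℝ} (hn : 0 < n) (hD : 0 < D t x)
    (h1 : HasDerivAt (fun r => D r x) dt t) (h2 : HasDerivAt (fun y => D t y) dx x)
    (hle : dt + c * dx ≤ 0) :
    deriv (fun r => zt (n * D r x)) t + c * deriv (fun y => zt (n * D t y)) x ≤ 0 := by
  rcases lt_or_ge (n * D t x) 1 with h | h
  · have hpos : 0 < n * D t x := mul_pos hn hD
    have e1 : (fun r => zt (n * D r x)) =ᶠ[𝓝 t] fun r => n * D r x := by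
      have hc : ContinuousAt (fun r => n * D r x) t := h1.continuousAt.const_mul n
      filter_upwards [hc.eventually (Ioo_mem_nhds hpos h)] with r hr
      exact zt_mid hr.1.le hr.2.le
    have e2 : (fun y => zt (n * D t y)) =ᶠ[𝓝 x] fun y => n * D t y := by
      have hc : ContinuousAt (fun y => n * D t y) x := h2.continuousAt.const_mul n
      filter_upwards [hc.eventually (Ioo_mem_nhds hpos h)] with r hr
      exact zt_mid hr.1.le hr.2.le
    rw [e1.deriv_eq, e2.deriv_eq, (h1.const_mul n).deriv, (h2.const_mul n).deriv]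
    have : n * dt + c * (n * dx) = n * (dt + c * dx) := by ring
    rw [this]
    exact mul_nonpos_of_nonneg_of_nonpos hn.le hle
  · have m1 : IsLocalMax (fun r => zt (n * D r x)) t := by
      refine Eventually.of_forall fun r => ?_
      show zt (n * D r x) ≤ zt (n * D t x)
      rw [zt_big h]; exact zt_le_one _
    have m2 : IsLocalMax (fun y => zt (n * D t y)) x := by
      refine Eventually.of_forall fun y => ?_
      show zt (n * D t y) ≤ zt (n * D t x)
      rw [zt_big h]; exact zt_le_one _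
    rw [m1.deriv_eq_zero, m2.deriv_eq_zero]
    simp

/-- the product rule inequality -/
lemma prod_ineq {a b : ℝ → ℝ → ℝ} {t x c : ℝ} (ha0 : 0 ≤ a t x) (hb0 : 0 ≤ b t x)
    (a1 : DifferentiableAt ℝ (fun r => a r x) t) (a2 : DifferentiableAt ℝ (fun y => a t y) x)
    (b1 : DifferentiableAt ℝ (fun r => b r x) t) (b2 : DifferentiableAt ℝ (fun y => b t y) x)
    (ha : deriv (fun r => a r x) t + c * deriv (fun y => a t y) x ≤ 0)
    (hb : deriv (fun r => b r x) t + c * deriv (fun y => b t y) x ≤ 0) :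
    deriv (fun r => a r x * b r x) t + c * deriv (fun y => a t y * b t y) x ≤ 0 := by
  have e1 := (a1.hasDerivAt.mul b1.hasDerivAt).deriv
  have e2 := (a2.hasDerivAt.mul b2.hasDerivAt).deriv
  have e1' : deriv (fun r => a r x * b r x) t =
      deriv (fun r => a r x) t * b t x + a t x * deriv (fun r => b r x) t := e1
  have e2' : deriv (fun y => a t y * b t y) x =
      deriv (fun y => a t y) x * b t x + a t x * deriv (fun y => b t y) x := e2
  rw [e1', e2']
  nlinarith [mul_nonneg hb0 (sub_nonneg.2 ha), mul_nonneg ha0 (sub_nonneg.2 hb)]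

lemma mul_lip01 {a b a' b' : ℝ} (h1 : |a| ≤ 1) (h4 : |b'| ≤ 1) :
    |a * b - a' * b'| ≤ |a - a'| + |b - b'| := by
  have e : a * b - a' * b' = a * (b - b') + (a - a') * b' := by ring
  rw [e]
  refine (abs_add_le _ _).trans ?_
  rw [abs_mul, abs_mul]
  nlinarith [abs_nonneg (b - b'), abs_nonneg (a - a')]

lemma g_lip {U0 : ℝ → ℝ} (hU : ML U0) {k : ℝ} (hk0 : 0 ≤ k) (hk1 : k ≤ 1) (z z' : ℝ) :
    |(U0 z - k * z) - (U0 z' - k * z')| ≤ |z - z'| := by
  rcases le_total z z' with h | h
  · have h1 := hU z z' h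
    rw [abs_of_nonpos (by linarith : z - z' ≤ 0), abs_le]
    constructor
    · nlinarith
    · nlinarith
  · have h1 := hU z' z h
    rw [abs_of_nonneg (by linarith : 0 ≤ z - z'), abs_le]
    constructor
    · nlinarith
    · nlinarith

/-- the clamped difference of envelopes is Lipschitz -/
lemma DD_lip {g : ℝ → ℝ} (hg : Continuous g) {k B x₁ τ T M : ℝ} (h1 : -B ≤ x₁) (h2 : x₁ ≤ B)
    (hτ : 0 < τ) (hτT : τ ≤ T) (hk0 : 0 ≤ k) (hk1 : k ≤ 1) (hM : 0 ≤ M) :
    (∀ s t x y, |RR g k x₁ B (cl τ T s) (cl (-M) M x) - RR g k x₁ B (cl τ T t) (cl (-M) M y)| ≤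
      (((B + M + T) / (2 * τ)) + ((B + M + T) ^ 2 / (4 * τ ^ 2))) * (|s - t| + |x - y|)) ∧
    (∀ s t x y, |RL g k (-B) x₁ (cl τ T s) (cl (-M) M x) -
        RL g k (-B) x₁ (cl τ T t) (cl (-M) M y)| ≤
      (((B + M + T) / (2 * τ)) + ((B + M + T) ^ 2 / (4 * τ ^ 2))) * (|s - t| + |x - y|)) := by
  have hB : 0 ≤ B := by linarith
  have hT : 0 < T := lt_of_lt_of_le hτ hτT
  have hK : 0 ≤ B + M + T := by linarith
  have hC : 0 ≤ (((B + M + T) / (2 * τ)) + ((B + M + T) ^ 2 / (4 * τ ^ 2))) := by positivity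
  have hcm : ∀ x, |cl (-M) M x| ≤ M := fun x => abs_le.2 (cl_mem (by linarith) x)
  have hst : ∀ s t x y, |cl τ T s - cl τ T t| + |cl (-M) M x - cl (-M) M y| ≤
      |s - t| + |x - y| := fun s t x y => add_le_add (cl_lip _ _ _ _) (cl_lip _ _ _ _)
  constructor
  · intro s t x y
    have a1 := RR_lip_aux hg h2 (k := k) hτ hk0 hk1 (cl_mem hτT s) (cl_mem hτT t) (hcm x) (hcm y)
      (le_refl (B + M + T)) hK
    have a2 := RR_lip_aux hg h2 (k := k) hτ hk0 hk1 (cl_mem hτT t) (cl_mem hτT s) (hcm y) (hcm x)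
      (le_refl (B + M + T)) hK
    have a3 := mul_le_mul_of_nonneg_left (hst s t x y) hC
    have a4 := mul_le_mul_of_nonneg_left (hst t s y x) hC
    rw [abs_sub_comm t s, abs_sub_comm y x] at a4
    rw [abs_le]
    constructor <;> linarith
  · intro s t x y
    have a1 := RL_lip_aux hg h1 (k := k) hτ hk0 hk1 (cl_mem hτT s) (cl_mem hτT t) (hcm x) (hcm y)
      (by linarith : -(-B) + M + T ≤ B + M + T) hK
    have a2 := RL_lip_aux hg h1 (k := k) hτ hk0 hk1 (cl_mem hτT t) (cl_mem hτT s) (hcm y) (hcm x)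
      (by linarith : -(-B) + M + T ≤ B + M + T) hK
    have a3 := mul_le_mul_of_nonneg_left (hst s t x y) hC
    have a4 := mul_le_mul_of_nonneg_left (hst t s y x) hC
    rw [abs_sub_comm t s, abs_sub_comm y x] at a4
    rw [abs_le]
    constructor <;> linarith

lemma HL_clip {U0 : ℝ → ℝ} (hU : ML U0) (s t x y : ℝ) :
    |HL U0 (max s 0) x - HL U0 (max t 0) y| ≤ 1 * (|s - t| + |x - y|) := by
  have hF := taskHL U0 hU
  have h1 : |HL U0 (max s 0) x - HL U0 (max t 0) x| ≤ |s - t| := by
    refine le_trans ?_ (max0_lip s t)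
    rcases le_total (max s 0) (max t 0) with h | h
    · have := hF.lipt _ _ x (le_max_right s 0) h
      rw [abs_of_nonneg (by linarith), abs_of_nonpos (by linarith)]
      linarith
    · have := hF.lipt _ _ x (le_max_right t 0) h
      rw [abs_of_nonpos (by linarith), abs_of_nonneg (by linarith)]
      linarith
  have h2 : |HL U0 (max t 0) x - HL U0 (max t 0) y| ≤ |x - y| := by
    have h0 := le_max_right t 0
    rcases le_total x y with h | h
    · have a := hF.lipx _ _ _ h0 h
      have b := hF.mono _ _ _ h0 h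
      rw [abs_of_nonpos (by linarith), abs_of_nonpos (by linarith)]
      linarith
    · have a := hF.lipx _ _ _ h0 h
      have b := hF.mono _ _ _ h0 h
      rw [abs_of_nonneg (by linarith), abs_of_nonneg (by linarith)]
      linarith
  have := abs_sub_le (HL U0 (max s 0) x) (HL U0 (max t 0) x) (HL U0 (max t 0) y)
  linarith

end Pool.Agent.W807.TF
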