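import Pool.Agent.W807.TF.V

set_option autoImplicit false

open MeasureTheory Set Filter Topology

namespace Pool.Agent.W807.TF

/-- data fixed in the construction -/
structure VS (g : ℝ → ℝ) (k B₀ T B M : ℝ) : Prop where
  hg : Continuous g
  hgl : ∀ z z', |g z - g z'| ≤ |z - z'|
  hk0 : 0 < k
  hk1 : k < 1
  hT : 0 < T
  hB₀ : 0 < B₀
  hB : B = B₀ + 6 * T + 1
  hM : M = B₀ + 4 * T + 1

/-- clamped difference of envelopes -/
noncomputable def DC (g : ℝ → ℝ) (k B M T x₁ τ t x : ℝ) : ℝ :=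
  DD g k B x₁ (cl τ T t) (cl (-M) M x)

section
variable {g : ℝ → ℝ} {k B₀ T B M : ℝ} (h : VS g k B₀ T B M)
include h

lemma VS.mem1 {x₁ : ℝ} (hx : x₁ ∈ Icc (-B₀) B₀) : -B ≤ x₁ := by
  rw [h.hB]; linarith [hx.1, h.hT]
lemma VS.mem2 {x₁ : ℝ} (hx : x₁ ∈ Icc (-B₀) B₀) : x₁ ≤ B := by
  rw [h.hB]; linarith [hx.2, h.hT]
lemma VS.M0 : 0 < M := by rw [h.hM]; linarith [h.hT, h.hB₀]

lemma VS.lip {τ : ℝ} (hτ : 0 < τ) (hτT : τ ≤ T) : ∃ L : ℝ, 0 ≤ L ∧ ∀ x₁ ∈ Icc (-B₀) B₀,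
    (∀ s t x y, |RR g k x₁ B (cl τ T s) (cl (-M) M x) - RR g k x₁ B (cl τ T t) (cl (-M) M y)| ≤
      L * (|s - t| + |x - y|)) ∧
    (∀ s t x y, |RL g k (-B) x₁ (cl τ T s) (cl (-M) M x) -
        RL g k (-B) x₁ (cl τ T t) (cl (-M) M y)| ≤ L * (|s - t| + |x - y|)) ∧
    (∀ s t x y, |DC g k B M T x₁ τ s x - DC g k B M T x₁ τ t y| ≤
      (2 * L) * (|s - t| + |x - y|)) := by
  have hB := h.hB
  have hM := h.hM
  have hT := h.hT
  have hB₀ := h.hB₀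
  have hBp : 0 < B := by linarith
  have hMp : 0 < M := by linarith
  refine ⟨((B + M + T) / (2 * τ)) + ((B + M + T) ^ 2 / (4 * τ ^ 2)), by positivity, ?_⟩
  intro x₁ hx₁
  obtain ⟨a1, a2⟩ := DD_lip h.hg (h.mem1 hx₁) (h.mem2 hx₁) hτ hτT h.hk0.le h.hk1.le h.M0.le
  refine ⟨a1, a2, ?_⟩
  intro s t x y
  have b1 := a1 s t x y
  have b2 := a2 s t x y
  unfold DC DD
  rw [abs_le] at b1 b2 ⊢
  constructor <;> linarith [b1.1, b1.2, b2.1, b2.2]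

lemma VS.neg' {x₁ t x : ℝ} (hx₁ : x₁ ∈ Icc (-B₀) B₀) (ht : 0 < t) (hx : x ≤ x₁ - 3 * t) :
    DD g k B x₁ t x < 0 := by
  apply DD_neg h.hg (h.mem1 hx₁) (h.mem2 hx₁) h.hgl ht
  have := h.hk0
  have := h.hk1
  nlinarith

lemma VS.pos' {x₁ t x : ℝ} (hx₁ : x₁ ∈ Icc (-B₀) B₀) (ht : 0 < t) (hx : x₁ + 3 * t ≤ x) :
    0 < DD g k B x₁ t x := by
  apply DD_pos h.hg (h.mem1 hx₁) (h.mem2 hx₁) h.hgl ht
  have := h.hk0
  have := h.hk1
  nlinarith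

lemma VS.zero {x₁ : ℝ} (hx₁ : x₁ ∈ Icc (-B₀) B₀) :
    ∃ y, |y - x₁| ≤ 3 * T ∧ DD g k B x₁ T y = 0 := by
  have hT := h.hT
  have hM := h.hM
  obtain ⟨L, hL0, hL⟩ := h.lip hT le_rfl
  obtain ⟨-, -, hL3⟩ := hL x₁ hx₁
  have hc : Continuous fun x => DC g k B M T x₁ T T x := by
    have : LipschitzWith (Real.toNNReal (2 * L)) (fun y => DC g k B M T x₁ T T y) :=
      lip_lip_x hL3 T
    exact this.continuous
  have hcl : ∀ x ∈ Icc (x₁ - 3 * T) (x₁ + 3 * T), DC g k B M T x₁ T T x = DD g k B x₁ T x := by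
    intro x hx
    unfold DC
    rw [cl_of_mem (⟨le_rfl, le_rfl⟩ : T ∈ Icc T T), cl_of_mem]
    constructor <;> linarith [hx.1, hx.2, hx₁.1, hx₁.2]
  have hle : x₁ - 3 * T ≤ x₁ + 3 * T := by linarith
  have h1 := intermediate_value_Icc hle hc.continuousOn
  have h0 : (0:ℝ) ∈ Icc (DC g k B M T x₁ T T (x₁ - 3 * T)) (DC g k B M T x₁ T T (x₁ + 3 * T)) := by
    rw [hcl _ (left_mem_Icc.2 hle), hcl _ (right_mem_Icc.2 hle)]
    exact ⟨(h.neg' hx₁ hT le_rfl).le, (h.pos' hx₁ hT le_rfl).le⟩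
  obtain ⟨y, hy, hy0⟩ := h1 h0
  refine ⟨y, ?_, ?_⟩
  · rw [abs_le]; constructor <;> linarith [hy.1, hy.2]
  · rw [← hcl y hy]; exact hy0

/-- the test function -/
noncomputable def phi (g : ℝ → ℝ) (k B M T x₁ x₂ τ n t x : ℝ) : ℝ :=
  zt (n * DC g k B M T x₁ τ t x) * zt (n * (-DC g k B M T x₂ τ t x))

omit h in
lemma phi_nonneg (x₁ x₂ τ n t x : ℝ) : 0 ≤ phi g k B M T x₁ x₂ τ n t x :=
  mul_nonneg (zt_nonneg _) (zt_nonneg _)
omit h in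
lemma phi_le_one (x₁ x₂ τ n t x : ℝ) : phi g k B M T x₁ x₂ τ n t x ≤ 1 :=
  mul_le_one₀ (zt_le_one _) (zt_nonneg _) (zt_le_one _)

lemma VS.supp {x₁ x₂ τ n t x : ℝ} (hx₁ : x₁ ∈ Icc (-B₀) B₀) (hx₂ : x₂ ∈ Icc (-B₀) B₀)
    (hτ : 0 < τ) (hτT : τ ≤ T) (hn : 0 < n) (hne : phi g k B M T x₁ x₂ τ n t x ≠ 0) :
    |x| < M ∧ x₁ - 3 * cl τ T t < x ∧ x < x₂ + 3 * cl τ T t ∧
      0 < DC g k B M T x₁ τ t x ∧ 0 < -DC g k B M T x₂ τ t x := by
  have hM := h.hM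
  have hct := cl_mem hτT t
  have hctp : 0 < cl τ T t := lt_of_lt_of_le hτ hct.1
  unfold phi at hne
  have h1 : 0 < zt (n * DC g k B M T x₁ τ t x) :=
    lt_of_le_of_ne (zt_nonneg _) fun h0 => hne (by rw [← h0, zero_mul])
  have h2 : 0 < zt (n * (-DC g k B M T x₂ τ t x)) :=
    lt_of_le_of_ne (zt_nonneg _) fun h0 => hne (by rw [← h0, mul_zero])
  rw [zt_pos_iff] at h1 h2
  have h1' := (mul_pos_iff_of_pos_left hn).1 h1
  have h2' := (mul_pos_iff_of_pos_left hn).1 h2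
  have h3 : x₁ - 3 * cl τ T t < cl (-M) M x := by
    by_contra hcon
    have := h.neg' hx₁ hctp (not_lt.1 hcon)
    unfold DC at h1'
    linarith
  have h4 : cl (-M) M x < x₂ + 3 * cl τ T t := by
    by_contra hcon
    have := h.pos' hx₂ hctp (not_lt.1 hcon)
    unfold DC at h2'
    linarith
  have hT := h.hT
  have hMM : -M ≤ M := by linarith [h.M0]
  have h5 : -M < x := by
    by_contra hcon
    rw [cl_of_le hMM (not_lt.1 hcon)] at h3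
    linarith [hx₁.1, hct.2]
  have h6 : x < M := by
    by_contra hcon
    rw [cl_of_ge hMM (not_lt.1 hcon)] at h4
    linarith [hx₂.2, hct.2]
  rw [cl_of_mem ⟨h5.le, h6.le⟩] at h3 h4
  exact ⟨abs_lt.2 ⟨h5, h6⟩, h3, h4, h1', h2'⟩

lemma VS.test {x₁ x₂ τ n : ℝ} (hx₁ : x₁ ∈ Icc (-B₀) B₀) (hx₂ : x₂ ∈ Icc (-B₀) B₀)
    (hτ : 0 < τ) (hτT : τ ≤ T) (hn : 0 < n) :
    ∃ L, TestFn M L (phi g k B M T x₁ x₂ τ n) ∧
      (∀ s t x y, |zt (n * DC g k B M T x₁ τ s x) - zt (n * DC g k B M T x₁ τ t y)| ≤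
        L * (|s - t| + |x - y|)) ∧
      (∀ s t x y, |zt (n * (-DC g k B M T x₂ τ s x)) - zt (n * (-DC g k B M T x₂ τ t y))| ≤
        L * (|s - t| + |x - y|)) := by
  obtain ⟨L, hL0, hL⟩ := h.lip hτ hτT
  obtain ⟨-, -, a1⟩ := hL x₁ hx₁
  obtain ⟨-, -, a2⟩ := hL x₂ hx₂
  have b1 : ∀ s t x y, |zt (n * DC g k B M T x₁ τ s x) - zt (n * DC g k B M T x₁ τ t y)| ≤
      (n * (2 * L)) * (|s - t| + |x - y|) := by
    intro s t x y
    refine (zt_lip _ _).trans ?_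
    rw [← mul_sub, abs_mul, abs_of_pos hn, mul_assoc]
    exact mul_le_mul_of_nonneg_left (a1 s t x y) hn.le
  have b2 : ∀ s t x y, |zt (n * (-DC g k B M T x₂ τ s x)) - zt (n * (-DC g k B M T x₂ τ t y))| ≤
      (n * (2 * L)) * (|s - t| + |x - y|) := by
    intro s t x y
    refine (zt_lip _ _).trans ?_
    rw [← mul_sub, abs_mul, abs_of_pos hn, mul_assoc, neg_sub_neg, abs_sub_comm]
    exact mul_le_mul_of_nonneg_left (a2 s t x y) hn.le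
  have hle : ∀ s t x y : ℝ, (n * (2 * L)) * (|s - t| + |x - y|) ≤
      (2 * (n * (2 * L))) * (|s - t| + |x - y|) := by
    intro s t x y
    apply mul_le_mul_of_nonneg_right _ (by positivity)
    have : 0 ≤ n * (2 * L) := by positivity
    linarith
  refine ⟨2 * (n * (2 * L)), ⟨?_, ?_⟩, fun s t x y => (b1 s t x y).trans (hle s t x y),
    fun s t x y => (b2 s t x y).trans (hle s t x y)⟩
  · intro s t x y
    unfold phi
    refine (mul_lip01 ?_ ?_).trans ?_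
    · rw [abs_of_nonneg (zt_nonneg _)]; exact zt_le_one _
    · rw [abs_of_nonneg (zt_nonneg _)]; exact zt_le_one _
    · have := b1 s t x y
      have := b2 s t x y
      linarith
  · intro t x hx
    by_contra hne
    exact absurd (h.supp hx₁ hx₂ hτ hτT hn hne).1 (not_lt.2 hx)

end

lemma clamp_diff {R : ℝ → ℝ → ℝ} {M T τ t x : ℝ} (ht : t ∈ Ioo τ T) (hx : |x| < M)
    (h1 : DifferentiableAt ℝ (fun r => R (cl τ T r) (cl (-M) M x)) t)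
    (h2 : DifferentiableAt ℝ (fun y => R (cl τ T t) (cl (-M) M y)) x) :
    ∃ a b : ℝ, HasDerivAt (fun r => R r x) a t ∧ HasDerivAt (fun y => R t y) b x ∧
      HasDerivAt (fun r => R (cl τ T r) (cl (-M) M x)) a t ∧
      HasDerivAt (fun y => R (cl τ T t) (cl (-M) M y)) b x := by
  have hx' := abs_lt.1 hx
  refine ⟨_, _, ?_, ?_, h1.hasDerivAt, h2.hasDerivAt⟩
  · refine h1.hasDerivAt.congr_of_eventuallyEq ?_
    filter_upwards [Ioo_mem_nhds ht.1 ht.2] with r hr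
    rw [cl_of_mem ⟨hr.1.le, hr.2.le⟩, cl_of_mem ⟨hx'.1.le, hx'.2.le⟩]
  · refine h2.hasDerivAt.congr_of_eventuallyEq ?_
    filter_upwards [Ioo_mem_nhds hx'.1 hx'.2] with y hy
    rw [cl_of_mem ⟨ht.1.le, ht.2.le⟩, cl_of_mem ⟨hy.1.le, hy.2.le⟩]

end Pool.Agent.W807.TF
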