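import Pool.Agent.W807.TF.V2

set_option autoImplicit false

open MeasureTheory Set Filter Topology

namespace Pool.Agent.W807.TF

lemma VS.ineq {U0 : ℝ → ℝ} (hU : ML U0) {k B₀ T B M : ℝ} (h : VS (fun z => U0 z - k * z) k B₀ T B M)
    {x₁ x₂ τ n : ℝ} (hx₁ : x₁ ∈ Icc (-B₀) B₀) (hx₂ : x₂ ∈ Icc (-B₀) B₀)
    (hτ : 0 < τ) (hτT : τ ≤ T) (hn : 0 < n) :
    ∀ᵐ p : ℝ × ℝ, p.1 ∈ Ioo τ T →
      deriv (fun r => phi (fun z => U0 z - k * z) k B M T x₁ x₂ τ n r p.2) p.1
        + (1 - k - deriv (fun y => HL U0 p.1 y) p.2) *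
          deriv (fun y => phi (fun z => U0 z - k * z) k B M T x₁ x₂ τ n p.1 y) p.2 ≤ 0 := by
  set g : ℝ → ℝ := fun z => U0 z - k * z with hg
  obtain ⟨L, hL0, hL⟩ := h.lip hτ hτT
  obtain ⟨r1, l1, -⟩ := hL x₁ hx₁
  obtain ⟨r2, l2, -⟩ := hL x₂ hx₂
  obtain ⟨L', -, z1, z2⟩ := h.test hx₁ hx₂ hτ hτT hn
  filter_upwards [lip_ae_diff_t r1, lip_ae_diff_x r1, lip_ae_diff_t l1, lip_ae_diff_x l1,
    lip_ae_diff_t r2, lip_ae_diff_x r2, lip_ae_diff_t l2, lip_ae_diff_x l2,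
    lip_ae_diff_t z1, lip_ae_diff_x z1, lip_ae_diff_t z2, lip_ae_diff_x z2,
    lip_ae_diff_x (HL_clip hU)] with p r1t r1x l1t l1x r2t r2x l2t l2x z1t z1x z2t z2x hHL ht
  obtain ⟨t, x⟩ := p
  simp only at r1t r1x l1t l1x r2t r2x l2t l2x z1t z1x z2t z2x hHL ht ⊢
  have htp : 0 < t := hτ.trans ht.1
  by_cases hne : phi g k B M T x₁ x₂ τ n t x = 0
  · have m1 : IsLocalMin (fun r => phi g k B M T x₁ x₂ τ n r x) t := by
      refine Eventually.of_forall fun r => ?_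
      show phi g k B M T x₁ x₂ τ n t x ≤ phi g k B M T x₁ x₂ τ n r x
      rw [hne]; exact phi_nonneg _ _ _ _ _ _
    have m2 : IsLocalMin (fun y => phi g k B M T x₁ x₂ τ n t y) x := by
      refine Eventually.of_forall fun y => ?_
      show phi g k B M T x₁ x₂ τ n t x ≤ phi g k B M T x₁ x₂ τ n t y
      rw [hne]; exact phi_nonneg _ _ _ _ _ _
    rw [m1.deriv_eq_zero, m2.deriv_eq_zero]
    simp
  · obtain ⟨hxM, hxl, hxr, hD1, hD2⟩ := h.supp hx₁ hx₂ hτ hτT hn hne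
    have hx' := abs_lt.1 hxM
    have hct : cl τ T t = t := cl_of_mem ⟨ht.1.le, ht.2.le⟩
    have hcx : cl (-M) M x = x := cl_of_mem ⟨hx'.1.le, hx'.2.le⟩
    rw [hct] at hxl hxr
    have hxB : |x| ≤ B - 3 * t := by
      have := h.hB
      rw [abs_le]
      constructor <;> linarith [hx₁.1, hx₂.2, ht.2]
    obtain ⟨v, hv⟩ : ∃ v, HasDerivAt (fun y => HL U0 t y) v x := by
      have e : (fun y => HL U0 (max t 0) y) = fun y => HL U0 t y := by
        rw [max_eq_left htp.le]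
      rw [e] at hHL
      exact ⟨_, hHL.hasDerivAt⟩
    rw [hv.deriv]
    obtain ⟨rt1, rx1, ar1, br1, cr1, dr1⟩ :=
      clamp_diff (R := fun t x => RR g k x₁ B t x) ht hxM r1t r1x
    obtain ⟨lt1, lx1, al1, bl1, cl1, dl1⟩ :=
      clamp_diff (R := fun t x => RL g k (-B) x₁ t x) ht hxM l1t l1x
    obtain ⟨rt2, rx2, ar2, br2, cr2, dr2⟩ :=
      clamp_diff (R := fun t x => RR g k x₂ B t x) ht hxM r2t r2x
    obtain ⟨lt2, lx2, al2, bl2, cl2, dl2⟩ :=
      clamp_diff (R := fun t x => RL g k (-B) x₂ t x) ht hxM l2t l2x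
    have V1 := (taskV1 U0 hU k B x₁ t x rt1 rx1 lt1 lx1 v h.hk0.le h.hk1.le (h.mem1 hx₁)
      (h.mem2 hx₁) htp hxB ar1 br1 al1 bl1 hv).1
    have V2 := (taskV1 U0 hU k B x₂ t x rt2 rx2 lt2 lx2 v h.hk0.le h.hk1.le (h.mem1 hx₂)
      (h.mem2 hx₂) htp hxB ar2 br2 al2 bl2 hv).2
    have hD1' : RL g k (-B) x₁ t x < RR g k x₁ B t x := by
      have := hD1
      unfold DC DD at this
      rw [hct, hcx] at this
      linarith
    have hD2' : RR g k x₂ B t x < RL g k (-B) x₂ t x := by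
      have := hD2
      unfold DC DD at this
      rw [hct, hcx] at this
      linarith
    have W1 := V1 hD1'
    have W2 := V2 hD2'
    have F1 := factor (D := fun t x => DC g k B M T x₁ τ t x) (c := 1 - k - v) hn hD1
      (cr1.sub cl1) (dr1.sub dl1) W1
    have F2 := factor (D := fun t x => -DC g k B M T x₂ τ t x) (c := 1 - k - v) hn hD2
      (dt := lt2 - rt2) (dx := lx2 - rx2)
      (by
        have := (cl2.sub cr2)
        refine this.congr_of_eventuallyEq (Eventually.of_forall fun r => ?_)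
        simp only [DC, DD, Pi.sub_apply]
        ring)
      (by
        have := (dl2.sub dr2)
        refine this.congr_of_eventuallyEq (Eventually.of_forall fun r => ?_)
        simp only [DC, DD, Pi.sub_apply]
        ring) W2
    exact prod_ineq (a := fun t x => zt (n * DC g k B M T x₁ τ t x))
      (b := fun t x => zt (n * (-DC g k B M T x₂ τ t x))) (c := 1 - k - v)
      (zt_nonneg _) (zt_nonneg _) z1t z1x z2t z2x F1 F2

theorem taskV : TaskV := by
  intro U0 hU k T B₀ hk0 hk1 hT hB₀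
  have h : VS (fun z => U0 z - k * z) k B₀ T (B₀ + 6 * T + 1) (B₀ + 4 * T + 1) :=
    ⟨by have := hU.cont; fun_prop, fun z z' => g_lip hU hk0.le hk1.le z z', hk0, hk1, hT, hB₀,
      rfl, rfl⟩
  set g : ℝ → ℝ := fun z => U0 z - k * z with hg
  set B := B₀ + 6 * T + 1 with hB
  set M := B₀ + 4 * T + 1 with hM
  choose! X hX1 hX2 using fun x₁ (hx₁ : x₁ ∈ Icc (-B₀) B₀) => h.zero hx₁
  have hmono : MonotoneOn X (Icc (-B₀) B₀) := by
    intro a ha b hb hab
    by_contra hcon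
    have h1 := DD_strict h.hg (k := k) (h.mem1 ha) (h.mem2 ha) hT (not_le.1 hcon)
    have h2 := DD_anti h.hg (k := k) (t := T) (x := X b) (h.mem1 ha) hab (h.mem2 hb)
    rw [hX2 a ha] at h1
    rw [hX2 b hb] at h2
    linarith
  refine ⟨X, hmono, hX1, ?_⟩
  intro x₁ hx₁ x₂ hx₂ hx12 τ hτ θ hθ
  have hX12 : X x₁ ≤ X x₂ := hmono hx₁ hx₂ hx12.le
  have htend : Tendsto (fun n : ℕ => ∫ x in (X x₁)..(X x₂),
      (1 - phi g k B M T x₁ x₂ τ ((n : ℝ) + 1) T x)) atTop (𝓝 (∫ x in (X x₁)..(X x₂), (0:ℝ))) := by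
    apply intervalIntegral.tendsto_integral_filter_of_dominated_convergence (fun _ => (1:ℝ))
    · refine Eventually.of_forall fun n => ?_
      obtain ⟨L, hL, -⟩ := h.test (n := (n : ℝ) + 1) hx₁ hx₂ hτ.1 hτ.2.le (by positivity)
      have : Continuous fun y => phi g k B M T x₁ x₂ τ ((n : ℝ) + 1) T y :=
        (lip_lip_x hL.lip T).continuous
      exact (continuous_const.sub this).aestronglyMeasurable
    · refine Eventually.of_forall fun n => ae_of_all _ fun x _ => ?_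
      have a1 := phi_nonneg (g := g) (k := k) (B := B) (M := M) (T := T) x₁ x₂ τ ((n : ℝ) + 1) T x
      have a2 := phi_le_one (g := g) (k := k) (B := B) (M := M) (T := T) x₁ x₂ τ ((n : ℝ) + 1) T x
      rw [Real.norm_eq_abs, abs_le]
      constructor <;> linarith
    · exact intervalIntegrable_const
    · have hne : ∀ᵐ x : ℝ, x ≠ X x₂ := by
        rw [ae_iff]; simp
      filter_upwards [hne] with x hxne hx
      rw [uIoc_of_le hX12] at hx
      have hxr : x < X x₂ := lt_of_le_of_ne hx.2 hxne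
      have b1 := abs_le.1 (hX1 x₁ hx₁)
      have b2 := abs_le.1 (hX1 x₂ hx₂)
      have hcx : cl (-M) M x = x := cl_of_mem
        ⟨by linarith [hx.1, hx₁.1, b1.1], by linarith [hx.2, hx₂.2, b2.2]⟩
      have hct : cl τ T T = T := cl_of_mem ⟨hτ.2.le, le_rfl⟩
      have d1 : 0 < DC g k B M T x₁ τ T x := by
        unfold DC
        rw [hcx, hct]
        have := DD_strict h.hg (k := k) (h.mem1 hx₁) (h.mem2 hx₁) hT hx.1
        rwa [hX2 x₁ hx₁] at this
      have d2 : 0 < -DC g k B M T x₂ τ T x := by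
        unfold DC
        rw [hcx, hct]
        have := DD_strict h.hg (k := k) (h.mem1 hx₂) (h.mem2 hx₂) hT hxr
        rw [hX2 x₂ hx₂] at this
        linarith
      have key : ∀ d : ℝ, 0 < d → ∀ᶠ n : ℕ in atTop, 1 ≤ ((n : ℝ) + 1) * d := by
        intro d hd
        obtain ⟨N, hN⟩ := exists_nat_gt (1 / d)
        filter_upwards [eventually_ge_atTop N] with n hn
        have : (N : ℝ) ≤ n := by exact_mod_cast hn
        rw [div_lt_iff₀ hd] at hN
        nlinarith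
      refine tendsto_const_nhds.congr' ?_
      filter_upwards [key _ d1, key _ d2] with n n1 n2
      unfold phi
      rw [zt_big n1, zt_big n2]
      ring
  simp only [intervalIntegral.integral_zero] at htend
  obtain ⟨n, hn⟩ := ((tendsto_order.1 htend).2 θ hθ).exists
  have hnp : (0:ℝ) < (n : ℝ) + 1 := by positivity
  obtain ⟨L, hL, -⟩ := h.test hx₁ hx₂ hτ.1 hτ.2.le hnp
  refine ⟨phi g k B M T x₁ x₂ τ ((n : ℝ) + 1), M, L, hL,
    fun t x => ⟨phi_nonneg _ _ _ _ _ _, phi_le_one _ _ _ _ _ _⟩,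
    VS.ineq hU h hx₁ hx₂ hτ.1 hτ.2.le hnp, ?_, hn.le⟩
  intro x hx
  obtain ⟨-, a1, a2, -⟩ := h.supp hx₁ hx₂ hτ.1 hτ.2.le hnp hx
  have hct : cl τ T τ = τ := cl_of_mem ⟨le_rfl, hτ.2.le⟩
  rw [hct] at a1 a2
  exact ⟨a1.le, a2.le⟩

end Pool.Agent.W807.TF
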